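import Pool.Agent.Lib.MP_bc704c_co.Q.Base
/-! # MP_bc704c_co, row A1: pairs in the square of a group -/

namespace ChiralQ

section

variable {Q : Type*} [Group Q]

/-- a subgroup `H` of `Q × Q` with the elements `(l, l)`, `(a, b)`, `(z, z)`, which is invariant under
`(x, y) ↦ (y, l x l⁻¹)`; `z` is central, `z² = 1`, `a² = b² = z` -/
structure Pr (H : Subgroup (Q × Q)) (l a b z : Q) : Prop where
  zz : z * z = 1
  zc : ∀ x, z * x = x * z
  hz : (z, z) ∈ H
  ll : (l, l) ∈ H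
  ab : (a, b) ∈ H
  aa : a * a = z
  bb : b * b = z
  sw : ∀ x y, (x, y) ∈ H → (y, l * x * l⁻¹) ∈ H

variable {H : Subgroup (Q × Q)} {l a b z : Q}

/-- Row A1. `sw` applied to `(a, b)` and to `(b, l a l⁻¹)`; `(l a l⁻¹)² = l z l⁻¹ = z`. -/
theorem Pr.swap (P : Pr H l a b z) : Pr H l b (l * a * l⁻¹) z where
  zz := P.zz
  zc := P.zc
  hz := P.hz
  ll := P.ll
  ab := P.sw a b P.ab
  aa := P.bb
  bb := by
    have h1 : l * a * l⁻¹ * (l * a * l⁻¹) = l * (a * a) * l⁻¹ := by group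
    rw [h1, P.aa, ← P.zc l, mul_assoc, mul_inv_cancel, mul_one]
  sw := P.sw

/-- Row A1. `(x, 1) ∈ H` gives `(1, l x l⁻¹) ∈ H` by `sw`; conjugate with `(l, l)⁻¹`. -/
theorem Pr.right (P : Pr H l a b z) {x : Q} (h : (x, 1) ∈ H) : (1, x) ∈ H := by
  have h1 := P.sw _ _ h
  have h2 := H.mul_mem (H.mul_mem (H.inv_mem P.ll) h1) P.ll
  have h3 : ((l, l) : Q × Q)⁻¹ * (1, l * x * l⁻¹) * (l, l) = (1, x) := by
    ext
    · simp
    · simp [mul_assoc]
  rwa [h3] at h2

/-- Row A1. `sw`. -/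
theorem Pr.left (P : Pr H l a b z) {x : Q} (h : (1, x) ∈ H) : (x, 1) ∈ H := by
  have h1 := P.sw _ _ h
  rwa [mul_one, mul_inv_cancel] at h1

/-- Row A1. Lemma Y. Let `N` be the set of the `x` with `(x, 1) ∈ H`; it is a group, normalised by `l`
(conjugation by `(l, l)`), by `a` (conjugation by `(a, b)`) and by `b` (by `(b, l a l⁻¹)`). The product of
`(k a l, k')` and its conjugate `(k l a, k')` by `(l, l)` is `(a l l a, 1)` (`k² = k'² = 1`, `k, k'` central);
`a l l a = a l² a⁻¹ z`, conjugate with `(a, b)`: `z l² ∈ N`. Its power `2 n + 1` is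
`z (l ^ (2 n + 1))² = z`, so `z ∈ N`, so `l² ∈ N`, and `l ^ (2 n + 1) ∈ N` gives `l ∈ N`. `(z, 1), (z, z) ∈ H`
give `(1, z) ∈ H`, so `(k', 1)`, `(1, k')`, `(k, 1)` are in `H` and `a l ∈ N`, `a ∈ N`; `(1, b) = (a, 1)⁻¹ (a, b) ∈ H`,
and `b ∈ N` by `Pr.left`. -/
theorem Pr.lemY (P : Pr H l a b z) {n : ℕ} (hl : l ^ (2 * n + 1) = 1 ∨ l ^ (2 * n + 1) = z) {k k' : Q}
    (hk : k = 1 ∨ k = z) (hk' : k' = 1 ∨ k' = z) (h : (k * (a * l), k') ∈ H) :
    (z, 1) ∈ H ∧ (l, 1) ∈ H ∧ (a, 1) ∈ H ∧ (b, 1) ∈ H := by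
  have hkk : k * k = 1 := by
    rcases hk with rfl | rfl
    · exact mul_one 1
    · exact P.zz
  have hkk' : k' * k' = 1 := by
    rcases hk' with rfl | rfl
    · exact mul_one 1
    · exact P.zz
  have hkc : ∀ x, k * x = x * k := by
    intro x
    rcases hk with rfl | rfl
    · rw [one_mul, mul_one]
    · exact P.zc x
  have hkc' : ∀ x, k' * x = x * k' := by
    intro x
    rcases hk' with rfl | rfl
    · rw [one_mul, mul_one]
    · exact P.zc x
  -- products and inverses of elements `(x, 1)`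
  have hmul : ∀ x y : Q, (x, 1) ∈ H → (y, 1) ∈ H → (x * y, 1) ∈ H := by
    intro x y hx hy
    have := H.mul_mem hx hy
    rwa [Prod.mk_mul_mk, mul_one] at this
  have hinv : ∀ x : Q, (x, 1) ∈ H → (x⁻¹, 1) ∈ H := by
    intro x hx
    have := H.inv_mem hx
    rwa [Prod.inv_mk, inv_one] at this
  have hpow : ∀ (x : Q) (m : ℕ), (x, 1) ∈ H → (x ^ m, 1) ∈ H := by
    intro x m hx
    have := H.pow_mem hx m
    rwa [Prod.pow_mk, one_pow] at this
  -- the conjugate by `(l, l)`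
  have h1 : (k * (l * a), k') ∈ H := by
    have h2 := H.mul_mem (H.mul_mem P.ll h) (H.inv_mem P.ll)
    have h3 : ((l, l) : Q × Q) * (k * (a * l), k') * (l, l)⁻¹ = (k * (l * a), k') := by
      ext
      · show l * (k * (a * l)) * l⁻¹ = k * (l * a)
        have : l * (k * (a * l)) * l⁻¹ = (l * k) * a := by group
        rw [this, ← hkc l, mul_assoc]
      · show l * k' * l⁻¹ = k'
        rw [← hkc' l, mul_assoc, mul_inv_cancel, mul_one]
    rwa [h3] at h2
  have h2 : (a * l * (l * a), 1) ∈ H := by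
    have h3 := H.mul_mem h h1
    have h4 : ((k * (a * l), k') : Q × Q) * (k * (l * a), k') = (a * l * (l * a), 1) := by
      ext
      · show k * (a * l) * (k * (l * a)) = a * l * (l * a)
        have : k * (a * l) * (k * (l * a)) = k * ((a * l) * k) * (l * a) := by group
        rw [this, ← hkc (a * l), ← mul_assoc k k, hkk, one_mul]
      · exact hkk'
    rwa [h4] at h3
  have hy : (l * l * z, 1) ∈ H := by
    have h3 := H.mul_mem (H.mul_mem (H.inv_mem P.ab) h2) P.ab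
    have h4 : ((a, b) : Q × Q)⁻¹ * (a * l * (l * a), 1) * (a, b) = (l * l * z, 1) := by
      ext
      · show a⁻¹ * (a * l * (l * a)) * a = l * l * z
        rw [← P.aa]
        group
      · show b⁻¹ * 1 * b = 1
        group
    rwa [h4] at h3
  have hz2 : z ^ 2 = 1 := by rw [pow_two]; exact P.zz
  have hzo : z ^ (2 * n + 1) = z := by rw [pow_succ, pow_mul, hz2, one_pow, one_mul]
  have hcomm : Commute (l * l) z := (P.zc (l * l)).symm
  have hl2 : (l * l) ^ (2 * n + 1) = 1 := by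
    rw [← pow_two, ← pow_mul, mul_comm 2, pow_mul]
    rcases hl with h3 | h3
    · rw [h3, one_pow]
    · rw [h3, hz2]
  have hzN : (z, 1) ∈ H := by
    have h3 := hpow _ (2 * n + 1) hy
    rwa [hcomm.mul_pow, hl2, hzo, one_mul] at h3
  have hll : (l * l, 1) ∈ H := by
    have h3 := hmul _ _ hy hzN
    rwa [mul_assoc, P.zz, mul_one] at h3
  have hlo : (l ^ (2 * n + 1), 1) ∈ H := by
    rcases hl with h3 | h3
    · rw [h3]; exact H.one_mem
    · rw [h3]; exact hzN
  have hlN : (l, 1) ∈ H := by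
    have h3 := hmul _ _ (hinv _ (hpow _ n hll)) hlo
    have h4 : ((l * l) ^ n)⁻¹ * l ^ (2 * n + 1) = l := by
      rw [← pow_two, ← pow_mul, pow_succ, ← mul_assoc, inv_mul_cancel, one_mul]
    rwa [h4] at h3
  have hkN : (k, 1) ∈ H := by
    rcases hk with rfl | rfl
    · exact H.one_mem
    · exact hzN
  have hkN' : (k', 1) ∈ H := by
    rcases hk' with rfl | rfl
    · exact H.one_mem
    · exact hzN
  have hkR := P.right hkN'
  have h5 : (k * (a * l), 1) ∈ H := by
    have h3 := H.mul_mem h hkR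
    rwa [Prod.mk_mul_mk, mul_one, hkk'] at h3
  have h6 : (a, 1) ∈ H := by
    have h3 := hmul _ _ (hmul _ _ hkN h5) (hinv _ hlN)
    have h4 : k * (k * (a * l)) * l⁻¹ = a := by
      rw [← mul_assoc k k, hkk, one_mul, mul_assoc, mul_inv_cancel, mul_one]
    rwa [h4] at h3
  have h7 : (1, b) ∈ H := by
    have h3 := H.mul_mem (H.inv_mem h6) P.ab
    have h4 : ((a, 1) : Q × Q)⁻¹ * (a, b) = (1, b) := by
      ext
      · simp
      · simp
    rwa [h4] at h3
  exact ⟨hzN, hlN, h6, P.left h7⟩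

end

end ChiralQ
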