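import Pool.Agent.Lib.MP_bc704c_co.R.A1

/-! # MP_bc704c_co, row A2 -/

namespace ChiralQ

section

variable {Q : Type*} [Group Q] {H : Subgroup (Q × Q)} {l a b z : Q}

theorem A2_ainv (P : Pr H l a b z) : a⁻¹ = z * a := by
  rw [inv_eq_iff_mul_eq_one, ← mul_assoc, ← P.zc, mul_assoc, P.aa, P.zz]

theorem A2_zpow (P : Pr H l a b z) (n : ℕ) : z ^ n = 1 ∨ z ^ n = z := by
  induction n with
  | zero => exact Or.inl (pow_zero z)
  | succ n ih =>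
    rcases ih with h | h
    · right; rw [pow_succ, h, one_mul]
    · left; rw [pow_succ, h, P.zz]

theorem A2_zinv (P : Pr H l a b z) : z⁻¹ = z := inv_eq_of_mul_eq_one_left P.zz

theorem A2_kinv (P : Pr H l a b z) {k : Q} (hk : k = 1 ∨ k = z) : k⁻¹ = k := by
  rcases hk with rfl | rfl
  · exact inv_one
  · exact A2_zinv P

theorem A2_kc (P : Pr H l a b z) {k : Q} (hk : k = 1 ∨ k = z) (x : Q) : k * x = x * k := by
  rcases hk with rfl | rfl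
  · rw [one_mul, mul_one]
  · exact P.zc x

theorem A2_kmul (P : Pr H l a b z) {k k' : Q} (hk : k = 1 ∨ k = z) (hk' : k' = 1 ∨ k' = z) :
    k * k' = 1 ∨ k * k' = z := by
  rcases hk with rfl | rfl
  · rw [one_mul]; exact hk'
  · rcases hk' with rfl | rfl
    · right; exact mul_one _
    · left; exact P.zz

theorem A2_abl (P : Pr H l a b z) : (a * l, b * l) ∈ H := H.mul_mem P.ab P.ll

/-- Row A2. `(a, b)(l, l)(a, b)⁻¹(l, l) = (a l a⁻¹ l, b l b⁻¹ l) = (a l a⁻¹ l, 1)`, and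
`a l a⁻¹ l = z (a l)²` (`a⁻¹ = z a`). -/
theorem Pr.base (P : Pr H l a b z) (hb : b * l * b⁻¹ = l⁻¹) :
    (a * l * a⁻¹ * l, 1) ∈ H ∧ a * l * a⁻¹ * l = z * (a * l) ^ 2 := by
  constructor
  · have h1 := H.mul_mem (H.mul_mem (H.mul_mem P.ab P.ll) (H.inv_mem P.ab)) P.ll
    have h2 : ((a, b) * (l, l) * (a, b)⁻¹ * (l, l) : Q × Q) = (a * l * a⁻¹ * l, 1) := by
      refine Prod.ext rfl ?_
      change b * l * b⁻¹ * l = 1
      rw [hb, inv_mul_cancel]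
    rwa [h2] at h1
  · rw [A2_ainv P, pow_two, ← mul_assoc (a * l) z a, ← P.zc (a * l)]
    simp only [mul_assoc]

/-- Row A2. With `p = a l`: `z p² ∈ N` (`Pr.base`), so `(z p²) ^ n = z ^ n p ^ (2 n) ∈ N`, and
`p ^ (2 n) = p ^ (2 n + 1) p⁻¹ = p⁻¹` or `z p⁻¹`. Take the inverse. -/
theorem Pr.perp (P : Pr H l a b z) {n : ℕ} (hb : b * l * b⁻¹ = l⁻¹)
    (ha : (a * l) ^ (2 * n + 1) = 1 ∨ (a * l) ^ (2 * n + 1) = z) :
    ∃ k, (k = 1 ∨ k = z) ∧ (k * (a * l), 1) ∈ H := by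
  obtain ⟨h1, h2⟩ := P.base hb
  rw [h2] at h1
  set p := a * l with hp
  have hc : Commute z (p ^ 2) := P.zc _
  have h3 : ((z * p ^ 2) ^ n, (1 : Q)) ∈ H := by
    have h4 := H.pow_mem h1 n
    have h5 : ((z * p ^ 2, (1 : Q)) : Q × Q) ^ n = ((z * p ^ 2) ^ n, 1) := by
      refine Prod.ext rfl ?_
      change (1 : Q) ^ n = 1
      exact one_pow n
    rwa [h5] at h4
  rw [hc.mul_pow, ← pow_mul] at h3
  have h6 : ∃ k, (k = 1 ∨ k = z) ∧ p ^ (2 * n) = k * p⁻¹ := by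
    rcases ha with h | h
    · exact ⟨1, Or.inl rfl, by rw [one_mul, eq_inv_iff_mul_eq_one, ← pow_succ, h]⟩
    · exact ⟨z, Or.inr rfl, by rw [eq_mul_inv_iff_mul_eq, ← pow_succ, h]⟩
  obtain ⟨k, hk, hk'⟩ := h6
  have hz := A2_zpow P n
  refine ⟨z ^ n * k, A2_kmul P hz hk, ?_⟩
  have h7 := H.inv_mem h3
  have h8 : ((z ^ n * p ^ (2 * n), (1 : Q)) : Q × Q)⁻¹ = (z ^ n * k * p, 1) := by
    refine Prod.ext ?_ ?_
    · change (z ^ n * p ^ (2 * n))⁻¹ = z ^ n * k * p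
      rw [hk', ← mul_assoc, mul_inv_rev, inv_inv, A2_kinv P (A2_kmul P hz hk), A2_kc P (A2_kmul P hz hk)]
    · change (1 : Q)⁻¹ = 1
      exact inv_one
  rwa [h8] at h7

/-- Row A2. `(a l, b l) = (a, b)(l, l) ∈ H`; take the power `N` (and the inverse if `(a l) ^ N` is
`k (a l)⁻¹`). -/
theorem Pr.coprime (P : Pr H l a b z) {N : ℕ} (hb : (b * l) ^ N = 1 ∨ (b * l) ^ N = z)
    (ha : ∃ k, (k = 1 ∨ k = z) ∧ ((a * l) ^ N = k * (a * l) ∨ (a * l) ^ N = k * (a * l)⁻¹)) :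
    ∃ k k', (k = 1 ∨ k = z) ∧ (k' = 1 ∨ k' = z) ∧ (k * (a * l), k') ∈ H := by
  obtain ⟨k, hk, ha⟩ := ha
  have h1 : (((a * l) ^ N, (b * l) ^ N) : Q × Q) ∈ H := H.pow_mem (A2_abl P) N
  rcases ha with ha | ha
  · rw [ha] at h1
    exact ⟨k, (b * l) ^ N, hk, hb, h1⟩
  · refine ⟨k, (b * l) ^ N, hk, hb, ?_⟩
    have h2 := H.inv_mem h1
    have h3 : (((a * l) ^ N, (b * l) ^ N) : Q × Q)⁻¹ = (k * (a * l), (b * l) ^ N) := by
      refine Prod.ext ?_ ?_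
      · change ((a * l) ^ N)⁻¹ = k * (a * l)
        rw [ha, mul_inv_rev, inv_inv, A2_kinv P hk, A2_kc P hk]
      · change ((b * l) ^ N)⁻¹ = (b * l) ^ N
        exact A2_kinv P hb
    rwa [h3] at h2

end

end ChiralQ
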