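import Pool.Agent.Lib.MP_bc704c_co.R.A2

/-! # MP_bc704c_co, row A2 -/

namespace ChiralQ

section

variable {Q : Type*} [Group Q] {H : Subgroup (Q × Q)} {l a b z : Q}

/-- Row A2. The case `q = 4`. `N` = the `x` with `(x, 1) ∈ H`. `z (a l)² ∈ N` by `Pr.base`, its cube is
`z (a l) ^ 6 = z`, so `z ∈ N`, `(a l)² ∈ N`, and with `(a l)³ ∈ {1, z}` `a l ∈ N`, `l a = l (a l) l⁻¹ ∈ N`. Then
`(a l)(l a) = a l² a ∈ N`, `a l² a⁻¹ ∈ N`, so `b ∈ N` in both cases (`N` is normalised by `l`). So `(1, b) ∈ H`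
(`Pr.right`), `(a, 1) = (a, b)(1, b)⁻¹ ∈ H`, `l = a⁻¹ (a l) ∈ N`, `(1, l) ∈ H`, and `(b, l b) = (b, 1)(1, l)(1, b)`. -/
theorem Pr.four (P : Pr H l a b z) (hb : b * l * b⁻¹ = l⁻¹)
    (ha : (a * l) ^ 3 = 1 ∨ (a * l) ^ 3 = z)
    (hN : ∃ k, (k = 1 ∨ k = z) ∧ (b = k * (a * l ^ 2 * a⁻¹) ∨
      b = k * (l * (a * l ^ 2 * a⁻¹) * l⁻¹))) :
    (b, l * b) ∈ H ∧ (1, z) ∈ H := by
  have hmul : ∀ x y : Q, (x, (1 : Q)) ∈ H → (y, (1 : Q)) ∈ H → (x * y, (1 : Q)) ∈ H := by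
    intro x y hx hy
    have h := H.mul_mem hx hy
    rwa [Prod.mk_mul_mk, one_mul] at h
  have hinv : ∀ x : Q, (x, (1 : Q)) ∈ H → (x⁻¹, (1 : Q)) ∈ H := by
    intro x hx
    have h := H.inv_mem hx
    rwa [Prod.inv_mk, inv_one] at h
  have hpow : ∀ (x : Q) (n : ℕ), (x, (1 : Q)) ∈ H → (x ^ n, (1 : Q)) ∈ H := by
    intro x n hx
    have h := H.pow_mem hx n
    rwa [Prod.pow_mk, one_pow] at h
  have hconj : ∀ x : Q, (x, (1 : Q)) ∈ H → (l * x * l⁻¹, (1 : Q)) ∈ H := by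
    intro x hx
    have h := H.mul_mem (H.mul_mem P.ll hx) (H.inv_mem P.ll)
    rwa [Prod.inv_mk, Prod.mk_mul_mk, Prod.mk_mul_mk, mul_one, mul_inv_cancel] at h
  obtain ⟨h1, h2⟩ := P.base hb
  rw [h2] at h1
  have hcomm : Commute z ((a * l) ^ 2) := P.zc _
  have hz2 : z ^ 2 = 1 := by rw [pow_two, P.zz]
  have hz3 : z ^ 3 = z := by rw [pow_succ, hz2, one_mul]
  have hal6 : ((a * l) ^ 2) ^ 3 = 1 := by
    rw [← pow_mul, mul_comm 2 3, pow_mul]
    rcases ha with h | h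
    · rw [h, one_pow]
    · rw [h, hz2]
  have hzN : (z, (1 : Q)) ∈ H := by
    have h := hpow _ 3 h1
    rwa [hcomm.mul_pow, hal6, mul_one, hz3] at h
  have hal2 : ((a * l) ^ 2, (1 : Q)) ∈ H := by
    have h := hmul _ _ hzN h1
    rwa [← mul_assoc, P.zz, one_mul] at h
  have hal3 : ((a * l) ^ 3, (1 : Q)) ∈ H := by
    rcases ha with h | h
    · rw [h]; exact H.one_mem
    · rw [h]; exact hzN
  have hal : (a * l, (1 : Q)) ∈ H := by
    have h := hmul _ _ hal3 (hinv _ hal2)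
    have e : (a * l) ^ 3 * ((a * l) ^ 2)⁻¹ = a * l := by
      rw [pow_succ' (a * l) 2, mul_assoc, mul_inv_cancel, mul_one]
    rwa [e] at h
  have hla : (l * a, (1 : Q)) ∈ H := by
    have h := hconj _ hal
    have e : l * (a * l) * l⁻¹ = l * a := by group
    rwa [e] at h
  have hainv : a⁻¹ = z * a := by
    apply inv_eq_of_mul_eq_one_right
    rw [← mul_assoc, ← P.zc a, mul_assoc, P.aa, P.zz]
  have hc : (a * l ^ 2 * a⁻¹, (1 : Q)) ∈ H := by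
    have h := hmul _ _ hzN (hmul _ _ hal hla)
    have e : z * (a * l * (l * a)) = a * l ^ 2 * a⁻¹ := by
      rw [hainv, ← mul_assoc (a * l ^ 2) z a, ← P.zc (a * l ^ 2)]
      simp only [pow_two, mul_assoc]
    rwa [e] at h
  have hbN : (b, (1 : Q)) ∈ H := by
    obtain ⟨k, hk, hk2⟩ := hN
    have hkN : (k, (1 : Q)) ∈ H := by
      rcases hk with h | h
      · rw [h]; exact H.one_mem
      · rw [h]; exact hzN
    rcases hk2 with h | h
    · rw [h]; exact hmul _ _ hkN hc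
    · rw [h]; exact hmul _ _ hkN (hconj _ hc)
  have h1b : ((1 : Q), b) ∈ H := P.right hbN
  have haN : (a, (1 : Q)) ∈ H := by
    have h := H.mul_mem P.ab (H.inv_mem h1b)
    rwa [Prod.inv_mk, Prod.mk_mul_mk, inv_one, mul_one, mul_inv_cancel] at h
  have hlN : (l, (1 : Q)) ∈ H := by
    have h := hmul _ _ (hinv _ haN) hal
    rwa [← mul_assoc, inv_mul_cancel, one_mul] at h
  have h1l : ((1 : Q), l) ∈ H := P.right hlN
  refine ⟨?_, P.right hzN⟩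
  have h := H.mul_mem (H.mul_mem hbN h1l) h1b
  rwa [Prod.mk_mul_mk, Prod.mk_mul_mk, mul_one, mul_one, one_mul] at h

end

end ChiralQ
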