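import Pool.Agent.Lib.MP_bc704c_co.R.A2

/-! # MP_bc704c_co, row A3: order 3, octahedral case -/

namespace ChiralQ

section

variable {Q : Type*} [Group Q] {H : Subgroup (Q × Q)} {l a b z : Q}

theorem A3_mul {x y x' y' : Q} (h : (x, y) ∈ H) (h' : (x', y') ∈ H) : (x * x', y * y') ∈ H :=
  H.mul_mem h h'

theorem A3_inv {x y : Q} (h : (x, y) ∈ H) : (x⁻¹, y⁻¹) ∈ H := H.inv_mem h

/-- conjugation of `(x, 1)` -/
theorem A3_conj1 {x y x' : Q} (h : (x, y) ∈ H) (h' : (x', 1) ∈ H) : (x * x' * x⁻¹, 1) ∈ H := by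
  have h1 := A3_mul (A3_mul h h') (A3_inv h)
  rwa [mul_one, mul_inv_cancel] at h1

/-- inverse conjugation of `(x, 1)` -/
theorem A3_conj1' {x y x' : Q} (h : (x, y) ∈ H) (h' : (x', 1) ∈ H) : (x⁻¹ * x' * x, 1) ∈ H := by
  have h1 := A3_mul (A3_mul (A3_inv h) h') h
  rwa [mul_one, inv_mul_cancel] at h1

/-- conjugation of `(1, x)` -/
theorem A3_conj2 {x y y' : Q} (h : (x, y) ∈ H) (h' : (1, y') ∈ H) : (1, y * y' * y⁻¹) ∈ H := by
  have h1 := A3_mul (A3_mul h h') (A3_inv h)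
  rwa [mul_one, mul_inv_cancel] at h1

/-- inverse conjugation of `(1, x)` -/
theorem A3_conj2' {x y y' : Q} (h : (x, y) ∈ H) (h' : (1, y') ∈ H) : (1, y⁻¹ * y' * y) ∈ H := by
  have h1 := A3_mul (A3_mul (A3_inv h) h') h
  rwa [mul_one, inv_mul_cancel] at h1

/-- Row A3. `N` = the `x` with `(x, 1) ∈ H`, equivalently `(1, x) ∈ H` (`Pr.left`, `Pr.right`); a group
normalised by `l, a, b`. `z (a l)² ∈ N` (`Pr.base`), its square is `(a l) ^ 4 = z`: `z ∈ N`, signs do not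
matter any more. -/
theorem Pr.z_mem (P : Pr H l a b z) (hb : b * l * b⁻¹ = l⁻¹) (h4 : (a * l) ^ 4 = z) :
    (z, 1) ∈ H ∧ (1, z) ∈ H := by
  obtain ⟨h1, h2⟩ := P.base hb
  have h3 : a * l * a⁻¹ * l * (a * l * a⁻¹ * l) = z := by
    rw [h2]
    calc z * (a * l) ^ 2 * (z * (a * l) ^ 2) = z * ((a * l) ^ 2 * z) * (a * l) ^ 2 := by
          simp only [mul_assoc]
      _ = z * (z * (a * l) ^ 2) * (a * l) ^ 2 := by rw [P.zc ((a * l) ^ 2)]
      _ = (z * z) * ((a * l) ^ 2 * (a * l) ^ 2) := by simp only [mul_assoc]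
      _ = z := by rw [P.zz, one_mul, ← pow_add, h4]
  have h5 := A3_mul h1 h1
  rw [h3, mul_one] at h5
  exact ⟨h5, P.right h5⟩

/-- Row A3. Put `a' = l a l⁻¹`. `(a b, b a') ∈ H` (product of `(a, b)` and `(b, a')`), its square is
`(z, (b a')²)`, so `(b a')² ∈ N`, and `(b a')³ ∈ {1, z}` gives `b a' ∈ N`, `a' b = b⁻¹ (b a') b ∈ N`.
`(1, a' b)(a, b)⁻¹ = (a⁻¹, a')`, so `(a, a') ∈ H`, by `sw` `(a', a') ∈ H`, conjugate by `(l, l)⁻¹`: `(a, a) ∈ H`. So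
`(1, a⁻¹ a') ∈ H`: `a⁻¹ l a l⁻¹ ∈ N`. Also `w = a l a⁻¹ l ∈ N` (`Pr.base`), conjugate with `a⁻¹`: `l a⁻¹ l a ∈ N`.
`(l a⁻¹ l a)(a⁻¹ l a l⁻¹) = l a⁻¹ l² a l⁻¹ ∈ N`, so `l² ∈ N`, and `l³ ∈ {1, z}` gives `l ∈ N`. `(b, a') ∈ H`,
`a' b ∈ N`, `z ∈ N`, `l ∈ N`: `(b, l b) = (b, a')(1, a'⁻¹ l b)` and `a'⁻¹ l b = z a' l b = z (a' l a'⁻¹)(a' b)`,
where `a' l a'⁻¹ ∈ N` since `N` is normalised by `a' = l a l⁻¹`. -/
theorem Pr.oct0 (P : Pr H l a b z) (hb : b * l * b⁻¹ = l⁻¹) (hl : l ^ 3 = 1 ∨ l ^ 3 = z)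
    (h4 : (a * l) ^ 4 = z) (h0 : (a * b) ^ 2 = z)
    (h1 : (b * (l * a * l⁻¹)) ^ 3 = 1 ∨ (b * (l * a * l⁻¹)) ^ 3 = z) :
    (b, l * b) ∈ H ∧ (1, z) ∈ H := by
  obtain ⟨hz1, hz2⟩ := P.z_mem hb h4
  have hS := P.swap
  obtain ⟨a', ha'⟩ : ∃ a', a' = l * a * l⁻¹ := ⟨_, rfl⟩
  rw [← ha'] at hS h1
  have hab := P.ab
  have hba : (b, a') ∈ H := hS.ab
  have haa' : a' * a' = z := hS.bb
  have hz' : z⁻¹ = z := inv_eq_of_mul_eq_one_left P.zz
  have hai : a⁻¹ = z * a := by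
    rw [inv_eq_iff_mul_eq_one, ← mul_assoc, ← P.zc, mul_assoc, P.aa, P.zz]
  have hai' : a'⁻¹ = z * a' := by
    rw [inv_eq_iff_mul_eq_one, ← mul_assoc, ← P.zc, mul_assoc, haa', P.zz]
  -- `b a'`
  have e1 : (1, b * a') ∈ H := by
    have f1 := A3_mul hab hba
    have f2 := A3_mul f1 f1
    have f3 : a * b * (a * b) = z := by rw [← pow_two, h0]
    rw [f3] at f2
    have f4 := A3_mul hz1 f2
    rw [P.zz, one_mul] at f4
    have f5 : ((1 : Q), (b * a') ^ 3) ∈ H := by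
      rcases h1 with h | h
      · rw [h]
        exact H.one_mem
      · rw [h]
        exact hz2
    have f6 := A3_mul f5 (A3_inv f4)
    rw [inv_one, one_mul] at f6
    have f7 : (b * a') ^ 3 * (b * a' * (b * a'))⁻¹ = b * a' := by
      rw [← pow_two, pow_succ', mul_assoc, mul_inv_cancel, mul_one]
    rwa [f7] at f6
  have e2 : (1, a' * b) ∈ H := by
    have f1 := A3_conj2' hab e1
    have f2 : b⁻¹ * (b * a') * b = a' * b := by rw [← mul_assoc, inv_mul_cancel, one_mul]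
    rwa [f2] at f1
  have e3 : (a, a') ∈ H := by
    have f1 := A3_mul hz1 (A3_mul e2 (A3_inv hab))
    have f2 : z * (1 * a⁻¹) = a := by rw [one_mul, hai, ← mul_assoc, P.zz, one_mul]
    have f3 : 1 * (a' * b * b⁻¹) = a' := by rw [one_mul, mul_assoc, mul_inv_cancel, mul_one]
    rwa [f2, f3] at f1
  have e4 : (a, a) ∈ H := by
    have f1 := P.sw _ _ e3
    rw [← ha'] at f1
    have f2 := A3_mul (A3_mul (A3_inv P.ll) f1) P.ll
    have f3 : l⁻¹ * a' * l = a := by rw [ha']; group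
    rwa [f3] at f2
  have e5 : (a⁻¹ * a', 1) ∈ H := by
    apply P.left
    have f1 := A3_mul (A3_inv e4) e3
    rwa [inv_mul_cancel] at f1
  have e6 : (a * l * a⁻¹ * l, 1) ∈ H := (P.base hb).1
  have e7 : (a⁻¹ * (a * l * a⁻¹ * l) * a, 1) ∈ H := A3_conj1' hab e6
  have e8 : (l ^ 2, 1) ∈ H := by
    have f1 := A3_mul e7 e5
    rw [mul_one] at f1
    have f2 := A3_conj1' P.ll f1
    have f3 := A3_conj1 hab f2
    have f4 : a * (l⁻¹ * (a⁻¹ * (a * l * a⁻¹ * l) * a * (a⁻¹ * a')) * l) * a⁻¹ = l ^ 2 := by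
      rw [ha', pow_two]
      group
    rwa [f4] at f3
  have e9 : (l, 1) ∈ H := by
    have f1 : ((l ^ 3 : Q), (1 : Q)) ∈ H := by
      rcases hl with h | h
      · rw [h]
        exact H.one_mem
      · rw [h]
        exact hz1
    have f2 := A3_mul f1 (A3_inv e8)
    have f3 : l ^ 3 * (l ^ 2)⁻¹ = l := by group
    rw [f3, inv_one, mul_one] at f2
    exact f2
  have e10 : (1, a' * l * a'⁻¹) ∈ H := A3_conj2 hba (P.right e9)
  have e11 := A3_mul hba (A3_mul hz2 (A3_mul e10 e2))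
  have f1 : b * (1 * (1 * 1)) = b := by rw [one_mul, one_mul, mul_one]
  have f2 : a' * (z * (a' * l * a'⁻¹ * (a' * b))) = l * b := by
    rw [← mul_assoc a' z, ← P.zc, mul_assoc a' l, mul_assoc a', mul_assoc z, ← mul_assoc a' a', haa',
      ← mul_assoc z z, P.zz]
    group
  rw [f1, f2] at e11
  exact ⟨e11, hz2⟩

end

end ChiralQ
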