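import Pool.Agent.Lib.MP_bc704c_co.R.A3

/-! # MP_bc704c_co, row A3: order 3, octahedral case -/

namespace ChiralQ

section

variable {Q : Type*} [Group Q] {H : Subgroup (Q × Q)} {l a b z : Q}

theorem A3b_mul {x y x' y' : Q} (h : (x, y) ∈ H) (h' : (x', y') ∈ H) : (x * x', y * y') ∈ H :=
  H.mul_mem h h'

theorem A3b_inv {x y : Q} (h : (x, y) ∈ H) : (x⁻¹, y⁻¹) ∈ H := H.inv_mem h

/-- conjugation of `(x, 1)` -/
theorem A3b_conj1 {x y x' : Q} (h : (x, y) ∈ H) (h' : (x', 1) ∈ H) : (x * x' * x⁻¹, 1) ∈ H := by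
  have h1 := A3b_mul (A3b_mul h h') (A3b_inv h)
  rwa [mul_one, mul_inv_cancel] at h1

/-- product of `(x, 1)` and `(y, 1)` -/
theorem A3b_mul1 {x x' : Q} (h : (x, (1 : Q)) ∈ H) (h' : (x', (1 : Q)) ∈ H) : (x * x', 1) ∈ H := by
  have h1 := A3b_mul h h'
  rwa [mul_one] at h1

/-- inverse of `(x, 1)` -/
theorem A3b_inv1 {x : Q} (h : (x, (1 : Q)) ∈ H) : (x⁻¹, 1) ∈ H := by
  have h1 := A3b_inv h
  rwa [inv_one] at h1

/-- Row A3. `a' = l a l⁻¹`. `(a b, b a')² = ((a b)², z)`, so `(a b)² ∈ N`, `a b ∈ N`, `b a = b (a b) b⁻¹ ∈ N`.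
`(b a, 1)(a, b)⁻¹ = (b, b⁻¹)`, so `(b, b) ∈ H`, by `sw` `(b, l b l⁻¹) ∈ H`, so `(1, b⁻¹ l b l⁻¹) ∈ H`, and
`b⁻¹ l b = l⁻¹` (from `hb` and `b² = z` central), so `l² ∈ N`, `l ∈ N`. `(b, b)(1, b⁻¹ l b) = (b, l b)` and
`b⁻¹ l b = l⁻¹ ∈ N`. -/
theorem Pr.oct1 (P : Pr H l a b z) (hb : b * l * b⁻¹ = l⁻¹) (hl : l ^ 3 = 1 ∨ l ^ 3 = z)
    (h4 : (a * l) ^ 4 = z) (h0 : (a * b) ^ 3 = 1 ∨ (a * b) ^ 3 = z)
    (h1 : (b * (l * a * l⁻¹)) ^ 2 = z) :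
    (b, l * b) ∈ H ∧ (1, z) ∈ H := by
  obtain ⟨hz1, hz2⟩ := P.z_mem hb h4
  have hab : (a, b) ∈ H := P.ab
  have hba : (b, l * a * l⁻¹) ∈ H := P.swap.ab
  have hbi : b⁻¹ = z * b := by
    rw [inv_eq_iff_mul_eq_one, ← mul_assoc, ← P.zc, mul_assoc, P.bb, P.zz]
  have hbl : b⁻¹ * l * b = l⁻¹ := by
    rw [← hb, hbi, P.zc b, mul_assoc b z l, P.zc l, mul_assoc b, mul_assoc l z b, ← mul_assoc b l, P.zc b]
  -- `a b ∈ N`
  have e1 : (a * b, 1) ∈ H := by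
    have f1 := A3b_mul hab hba
    have f2 := A3b_mul f1 f1
    rw [← pow_two (b * (l * a * l⁻¹)), h1] at f2
    have f4 := A3b_mul f2 hz2
    rw [P.zz, mul_one] at f4
    have f5 : ((a * b) ^ 3, (1 : Q)) ∈ H := by
      rcases h0 with h | h
      · rw [h]
        exact H.one_mem
      · rw [h]
        exact hz1
    have f6 := A3b_mul1 f5 (A3b_inv1 f4)
    have f7 : (a * b) ^ 3 * (a * b * (a * b))⁻¹ = a * b := by
      rw [← pow_two, pow_succ', mul_assoc, mul_inv_cancel, mul_one]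
    rwa [f7] at f6
  have e2 : (b * a, 1) ∈ H := by
    have f1 := A3b_conj1 hba e1
    have f2 : b * (a * b) * b⁻¹ = b * a := by group
    rwa [f2] at f1
  have e3 : (b, b) ∈ H := by
    have f1 := A3b_mul (A3b_mul e2 (A3b_inv hab)) hz2
    have f2 : b * a * a⁻¹ * 1 = b := by group
    have f3 : 1 * b⁻¹ * z = b := by
      rw [one_mul, hbi, P.zc b, mul_assoc, P.zz, mul_one]
    rwa [f2, f3] at f1
  have e4 : (b, l * b * l⁻¹) ∈ H := P.sw _ _ e3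
  have e5 : (1, b⁻¹ * l * b * l⁻¹) ∈ H := by
    have f1 := A3b_mul (A3b_inv e3) e4
    have f2 : b⁻¹ * (l * b * l⁻¹) = b⁻¹ * l * b * l⁻¹ := by group
    rwa [inv_mul_cancel, f2] at f1
  rw [hbl] at e5
  have e6 : (l, 1) ∈ H := by
    have f0 := P.left e5
    have f1 : ((l ^ 3 : Q), (1 : Q)) ∈ H := by
      rcases hl with h | h
      · rw [h]
        exact H.one_mem
      · rw [h]
        exact hz1
    have f2 := A3b_mul1 f1 f0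
    have f3 : l ^ 3 * (l⁻¹ * l⁻¹) = l := by group
    rwa [f3] at f2
  have e7 : (1, l) ∈ H := P.right e6
  have e8 := A3b_mul e7 e3
  rw [one_mul] at e8
  exact ⟨e8, hz2⟩

/-- Row A3. `w = a l a⁻¹ l ∈ N` (`Pr.base`). So `e = l² a l⁻² b ∈ N`. Modulo `N` (normal in the group
generated by `l, a, b`): `a l = w l⁻¹ a ≡ l⁻¹ a`, so `a l² ≡ l⁻² a`, `a l⁻² ≡ l² a`, `l² a l⁻² ≡ l⁴ a ≡ l a` (up to `z`).
So `l a b ∈ N`, `l a⁻¹ b ∈ N`. `(b, l a l⁻¹) ∈ H` and `(l a l⁻¹)⁻¹ (l b) = l a⁻¹ b ∈ N`, so `(b, l b) ∈ H`. -/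
theorem Pr.oct2 (P : Pr H l a b z) (hb : b * l * b⁻¹ = l⁻¹) (hl : l ^ 3 = 1 ∨ l ^ 3 = z)
    (h4 : (a * l) ^ 4 = z)
    (he : ∃ k, (k = 1 ∨ k = z) ∧
      l ^ 2 * a * l⁻¹ ^ 2 * b = k * (l * (a * l * a⁻¹ * l) * l⁻¹)) :
    (b, l * b) ∈ H ∧ (1, z) ∈ H := by
  obtain ⟨hz1, hz2⟩ := P.z_mem hb h4
  obtain ⟨k, hk, he⟩ := he
  have hba : (b, l * a * l⁻¹) ∈ H := P.swap.ab
  have hw : (a * l * a⁻¹ * l, 1) ∈ H := (P.base hb).1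
  have hk1 : (k, (1 : Q)) ∈ H := by
    rcases hk with h | h
    · rw [h]
      exact H.one_mem
    · rw [h]
      exact hz1
  have e1 : (l ^ 2 * a * l⁻¹ ^ 2 * b, 1) ∈ H := by
    rw [he]
    exact A3b_mul1 hk1 (A3b_conj1 P.ll hw)
  have hu : ((a * l * a⁻¹ * l)⁻¹, (1 : Q)) ∈ H := A3b_inv1 hw
  have hl3 : ((l ^ 3 : Q), (1 : Q)) ∈ H := by
    rcases hl with h | h
    · rw [h]
      exact H.one_mem
    · rw [h]
      exact hz1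
  -- `l a l⁻² a ∈ N`
  have e2 : (l * a * l⁻¹ * l⁻¹ * a, 1) ∈ H := by
    have f1 := A3b_conj1 P.ll (A3b_conj1 P.ll hu)
    have f2 := A3b_mul1 (A3b_mul1 f1 (A3b_mul1 hl3 hu)) hz1
    have f3 : l * (l * (a * l * a⁻¹ * l)⁻¹ * l⁻¹) * l⁻¹ * (l ^ 3 * (a * l * a⁻¹ * l)⁻¹) * z =
        l * a * l⁻¹ * l⁻¹ * a := by
      rw [← P.aa]
      group
    rwa [f3] at f2
  have e3 : (l * a⁻¹ * b, 1) ∈ H := by
    have f1 := A3b_mul1 (A3b_inv1 (A3b_conj1 P.ll e2)) e1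
    have f2 : (l * (l * a * l⁻¹ * l⁻¹ * a) * l⁻¹)⁻¹ * (l ^ 2 * a * l⁻¹ ^ 2 * b) =
        l * a⁻¹ * b := by
      group
    rwa [f2] at f1
  have e4 := A3b_mul hba (P.right e3)
  have f1 : l * a * l⁻¹ * (l * a⁻¹ * b) = l * b := by group
  rw [f1, mul_one] at e4
  exact ⟨e4, hz2⟩

end

end ChiralQ
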