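import Pool.Agent.Lib.MP_bc704c_co.R.A2

/-! # MP_bc704c_co, row A4: order 3, icosahedral case -/

namespace ChiralQ

section

variable {Q : Type*} [Group Q] {H : Subgroup (Q × Q)} {l a b z : Q}

/-- Row A4. If `N` is a subgroup which contains the commutator of `x` and `y` and is normalised by `x`
and `y`, then `(x y) ^ n ∈ N` gives `x ^ n y ^ n ∈ N` (e.g. in the quotient of the normaliser, where the
images commute: `Commute.mul_pow`). -/
theorem comm_pow {N : Subgroup Q} {x y : Q} (hx : ∀ g ∈ N, x * g * x⁻¹ ∈ N)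
    (hx' : ∀ g ∈ N, x⁻¹ * g * x ∈ N) (hy : ∀ g ∈ N, y * g * y⁻¹ ∈ N)
    (hy' : ∀ g ∈ N, y⁻¹ * g * y ∈ N) (hc : x * y * x⁻¹ * y⁻¹ ∈ N) {n : ℕ}
    (h : (x * y) ^ n ∈ N) : x ^ n * y ^ n ∈ N := by
  have hxn : x ∈ Subgroup.normalizer (N : Set Q) := by
    rw [Subgroup.mem_normalizer_iff]
    intro g
    refine ⟨fun hg => hx g hg, fun hg => ?_⟩
    have := hx' _ hg
    have e : x⁻¹ * (x * g * x⁻¹) * x = g := by group
    rwa [e] at this
  have hyn : y ∈ Subgroup.normalizer (N : Set Q) := by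
    rw [Subgroup.mem_normalizer_iff]
    intro g
    refine ⟨fun hg => hy g hg, fun hg => ?_⟩
    have := hy' _ hg
    have e : y⁻¹ * (y * g * y⁻¹) * y = g := by group
    rwa [e] at this
  let M : Subgroup Q := Subgroup.normalizer (N : Set Q)
  let X : M := ⟨x, hxn⟩
  let Y : M := ⟨y, hyn⟩
  let N' : Subgroup M := N.subgroupOf M
  have : N'.Normal := by
    refine ⟨fun n hn g => ?_⟩
    rw [Subgroup.mem_subgroupOf] at hn ⊢
    have hg := g.2
    have := (Subgroup.mem_normalizer_iff.1 hg (n : Q)).1 hn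
    simpa using this
  have hcomm : ((X : M ⧸ N') * (Y : M ⧸ N')) = (Y : M ⧸ N') * (X : M ⧸ N') := by
    have h1 : X * Y * X⁻¹ * Y⁻¹ ∈ N' := by
      rw [Subgroup.mem_subgroupOf]
      simpa using hc
    have h2 : ((X * Y * X⁻¹ * Y⁻¹ : M) : M ⧸ N') = 1 := (QuotientGroup.eq_one_iff _).2 h1
    rw [QuotientGroup.mk_mul, QuotientGroup.mk_mul, QuotientGroup.mk_mul, QuotientGroup.mk_inv,
      QuotientGroup.mk_inv] at h2
    have h3 := mul_inv_eq_one.1 h2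
    have h4 := mul_inv_eq_iff_eq_mul.1 h3
    exact h4
  have hpow : ((X * Y) ^ n : M) ∈ N' := by
    rw [Subgroup.mem_subgroupOf]
    simpa using h
  have h5 : (((X * Y) ^ n : M) : M ⧸ N') = 1 := (QuotientGroup.eq_one_iff _).2 hpow
  rw [QuotientGroup.mk_pow, QuotientGroup.mk_mul, Commute.mul_pow hcomm] at h5
  have h6 : ((X ^ n * Y ^ n : M) : M ⧸ N') = 1 := by
    rw [QuotientGroup.mk_mul, QuotientGroup.mk_pow, QuotientGroup.mk_pow]
    exact h5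
  have h7 := (QuotientGroup.eq_one_iff _).1 h6
  rw [Subgroup.mem_subgroupOf] at h7
  simpa using h7

/-- Row A4. `N` = the `x` with `(x, 1) ∈ H`, equivalently `(1, x) ∈ H`; it is normalised by `l, a, b`. Let
`x ∈ {a, b}` with `z ∈ N`, `x⁻¹ l x l⁻¹ ∈ N`, `(x l) ^ 5 ∈ {1, z}`, `l³ ∈ {1, z}`, `x² = z`. Then by `comm_pow`
`x ^ 5 l ^ 5 ∈ N`, `x ^ 5 = x`, `l ^ 5 = l⁻¹` (up to `z`), so `x l⁻¹ ∈ N`; modulo `N` `x ≡ l`, `l² ≡ x² = z ≡ 1`,
`l ≡ l³ ≡ 1`. So `l ∈ N`, `x ∈ N`. -/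
theorem Pr.five_aux (P : Pr H l a b z) (hz : (z, 1) ∈ H) (hl : l ^ 3 = 1 ∨ l ^ 3 = z) {x : Q}
    (hx : x = a ∨ x = b) (hc : (x⁻¹ * l * x * l⁻¹, 1) ∈ H)
    (h5 : (x * l) ^ 5 = 1 ∨ (x * l) ^ 5 = z) : (l, 1) ∈ H ∧ (x, 1) ∈ H := by
  let N : Subgroup Q := H.comap (MonoidHom.inl Q Q)
  have memN : ∀ g : Q, g ∈ N ↔ (g, (1 : Q)) ∈ H := fun g => Iff.rfl
  -- normalisation by the first component of an element of `H`
  have conj1 : ∀ u w : Q, (u, w) ∈ H → ∀ g ∈ N, u * g * u⁻¹ ∈ N := by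
    intro u w huw g hg
    rw [memN] at hg ⊢
    have h1 := H.mul_mem (H.mul_mem huw hg) (H.inv_mem huw)
    have e : (u, w) * (g, (1 : Q)) * (u, w)⁻¹ = (u * g * u⁻¹, (1 : Q)) := by
      ext <;> simp
    rwa [e] at h1
  have conj2 : ∀ u w : Q, (u, w) ∈ H → ∀ g ∈ N, u⁻¹ * g * u ∈ N := by
    intro u w huw g hg
    have h1 := conj1 u⁻¹ w⁻¹ (by simpa using H.inv_mem huw) g hg
    simpa using h1
  have hxw : ∃ w, (x, w) ∈ H := by
    rcases hx with rfl | rfl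
    · exact ⟨b, P.ab⟩
    · exact ⟨_, P.sw _ _ P.ab⟩
  obtain ⟨w, hxw⟩ := hxw
  have hxx : x * x = z := by
    rcases hx with rfl | rfl
    · exact P.aa
    · exact P.bb
  have hcN : x⁻¹ * l * x * l⁻¹ ∈ N := hc
  have hc1 : x * l * x⁻¹ * l⁻¹ ∈ N := by
    have h1 := conj1 x w hxw _ hcN
    have h2 := N.inv_mem h1
    have e : (x * (x⁻¹ * l * x * l⁻¹) * x⁻¹)⁻¹ = x * l * x⁻¹ * l⁻¹ := by group
    rwa [e] at h2
  have hzN : z ∈ N := hz
  have h5N : (x * l) ^ 5 ∈ N := by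
    rcases h5 with h | h
    · rw [h]; exact N.one_mem
    · rw [h]; exact hzN
  have hp := comm_pow (N := N) (x := x) (y := l) (conj1 x w hxw) (conj2 x w hxw)
    (conj1 l l P.ll) (conj2 l l P.ll) hc1 h5N
  have ex : x ^ 5 = x := by
    have : x ^ 5 = (x * x) * (x * x) * x := by
      simp only [pow_succ, pow_zero, one_mul, mul_assoc]
    rw [this, hxx, P.zz, one_mul]
  have el : l ^ 5 = l⁻¹ := by
    have e1 : l ^ 5 = l ^ 3 * (l ^ 3 * l⁻¹) := by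
      simp only [pow_succ, pow_zero, one_mul, mul_assoc, mul_inv_cancel, mul_one]
    rcases hl with h | h
    · rw [e1, h, one_mul, one_mul]
    · rw [e1, h, ← mul_assoc, P.zz, one_mul]
  rw [ex, el] at hp
  have hl3 : l ^ 3 ∈ N := by
    rcases hl with h | h
    · rw [h]; exact N.one_mem
    · rw [h]; exact hzN
  have hl2 : l * l ∈ N := by
    have h1 := conj1 l l P.ll _ hp
    have h2 := N.mul_mem (N.inv_mem (N.mul_mem hp h1)) hzN
    have e : (x * l⁻¹ * (l * (x * l⁻¹) * l⁻¹))⁻¹ * z = l * l := by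
      rw [← hxx]; simp [mul_assoc]
    rwa [e] at h2
  have hlN : l ∈ N := by
    have h1 := N.mul_mem hl3 (N.inv_mem hl2)
    have e : l ^ 3 * (l * l)⁻¹ = l := by simp [pow_succ, mul_assoc]
    rwa [e] at h1
  have hxN : x ∈ N := by
    have h1 := N.mul_mem hp hlN
    have e : x * l⁻¹ * l = x := by group
    rwa [e] at h1
  exact ⟨hlN, hxN⟩

end

end ChiralQ
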