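import Pool.Agent.Lib.MP_bc704c_co.R.A4

/-! # MP_bc704c_co, row A4: order 3, icosahedral case -/

namespace ChiralQ

section

variable {Q : Type*} [Group Q] {H : Subgroup (Q × Q)} {l a b z : Q}

theorem A4b_mul {x y x' y' : Q} (h : (x, y) ∈ H) (h' : (x', y') ∈ H) : (x * x', y * y') ∈ H :=
  H.mul_mem h h'

theorem A4b_inv {x y : Q} (h : (x, y) ∈ H) : (x⁻¹, y⁻¹) ∈ H := H.inv_mem h

theorem A4b_pow {x y : Q} (h : (x, y) ∈ H) (n : ℕ) : (x ^ n, y ^ n) ∈ H := H.pow_mem h n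

theorem A4b_six {x z : Q} (hz : z * z = 1) (h : x ^ 3 = 1 ∨ x ^ 3 = z) : (x ^ 2) ^ 3 = 1 := by
  have h1 : (x ^ 2) ^ 3 = x ^ 3 * x ^ 3 := by
    rw [← pow_mul, ← pow_add]
  rw [h1]
  rcases h with h | h
  · rw [h, one_mul]
  · rw [h, hz]

theorem A4b_cube {z : Q} (hz : z * z = 1) : z ^ 3 = z := by
  rw [pow_succ, pow_two, hz, one_mul]

theorem A4b_div {x : Q} : x ^ 3 * (x ^ 2)⁻¹ = x := by
  rw [pow_succ' x 2, mul_inv_cancel_right]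

theorem A4b_zi {x z : Q} (h : x * x = z) : z * x⁻¹ = x := by
  rw [← h, mul_inv_cancel_right]

/-- Row A4. `a' = l a l⁻¹`. `(a b, b a') ∈ H`, its square is `(z, (b a')²)`, the cube of this `(z, 1)`: `z ∈ N`.
So `(b a')² ∈ N`, `b a' ∈ N`, `a' b ∈ N`, `(1, a' b)(a, b)⁻¹ = (a⁻¹, a')`, `(a, a') ∈ H`, `(a', a') ∈ H` by `sw`,
`(a, a) ∈ H`, `a⁻¹ a' ∈ N`. `five_aux` with `x = a`: `l, a ∈ N`, so `a' ∈ N`, `b ∈ N`. -/
theorem Pr.ico0 (P : Pr H l a b z) (hl : l ^ 3 = 1 ∨ l ^ 3 = z)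
    (h5 : (a * l) ^ 5 = 1 ∨ (a * l) ^ 5 = z) (h0 : (a * b) ^ 2 = z)
    (h1 : (b * (l * a * l⁻¹)) ^ 3 = 1 ∨ (b * (l * a * l⁻¹)) ^ 3 = z) :
    (z, 1) ∈ H ∧ (l, 1) ∈ H ∧ (a, 1) ∈ H ∧ (b, 1) ∈ H := by
  have hba : (b, l * a * l⁻¹) ∈ H := P.sw a b P.ab
  have hp : (a * b, b * (l * a * l⁻¹)) ∈ H := A4b_mul P.ab hba
  have hp2 : (z, (b * (l * a * l⁻¹)) ^ 2) ∈ H := by
    have h := A4b_pow hp 2
    rw [h0] at h
    exact h
  have hz1 : (z, (1 : Q)) ∈ H := by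
    have h := A4b_pow hp2 3
    rw [A4b_six P.zz h1, A4b_cube P.zz] at h
    exact h
  have h1z : ((1 : Q), z) ∈ H := P.right hz1
  have hq2 : ((1 : Q), (b * (l * a * l⁻¹)) ^ 2) ∈ H := by
    have h := A4b_mul (A4b_inv hz1) hp2
    rw [inv_mul_cancel, inv_one, one_mul] at h
    exact h
  have hq3 : ((1 : Q), (b * (l * a * l⁻¹)) ^ 3) ∈ H := by
    rcases h1 with h | h
    · rw [h]
      exact H.one_mem
    · rw [h]
      exact h1z
  have hq : ((1 : Q), b * (l * a * l⁻¹)) ∈ H := by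
    have h := A4b_mul hq3 (A4b_inv hq2)
    rw [A4b_div, inv_one, mul_one] at h
    exact h
  have hr : ((1 : Q), (l * a * l⁻¹) * b) ∈ H := by
    have h := A4b_mul (A4b_mul (A4b_inv P.ab) hq) P.ab
    rw [mul_one, inv_mul_cancel, inv_mul_cancel_left] at h
    exact h
  have hs : (a, l * a * l⁻¹) ∈ H := by
    have h := A4b_mul hz1 (A4b_mul hr (A4b_inv P.ab))
    rw [one_mul, mul_inv_cancel_right, one_mul, A4b_zi P.aa] at h
    exact h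
  have ht : (a, a) ∈ H := by
    have h2 := P.sw _ _ hs
    have h := A4b_mul (A4b_mul (A4b_inv P.ll) h2) P.ll
    have e : l⁻¹ * (l * a * l⁻¹) * l = a := by group
    rw [e] at h
    exact h
  have hu : (a⁻¹ * l * a * l⁻¹, (1 : Q)) ∈ H := by
    have h := A4b_mul (A4b_inv ht) hs
    rw [inv_mul_cancel] at h
    have h2 := P.left h
    have e : a⁻¹ * (l * a * l⁻¹) = a⁻¹ * l * a * l⁻¹ := by group
    rw [e] at h2
    exact h2
  obtain ⟨hl1, ha1⟩ := P.five_aux hz1 hl (Or.inl rfl) hu h5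
  refine ⟨hz1, hl1, ha1, ?_⟩
  have ha' : (l * a * l⁻¹, (1 : Q)) ∈ H := by
    have h := A4b_mul (A4b_mul hl1 ha1) (A4b_inv hl1)
    rw [mul_one, one_mul, inv_one] at h
    exact h
  have h := A4b_mul (P.left hq) (A4b_inv ha')
  rw [mul_inv_cancel_right, one_mul, inv_one] at h
  exact h

/-- Row A4. `(a b, b a')² = ((a b)², z)`, its cube is `(1, z)`: `z ∈ N`. So `(a b)² ∈ N`, `a b ∈ N`, `b a ∈ N`,
`(b a, 1)(a, b)⁻¹ = (b, b⁻¹)`, `(b, b) ∈ H`, by `sw` `(b, l b l⁻¹) ∈ H`, `b⁻¹ l b l⁻¹ ∈ N`. `five_aux` with `x = b`: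
`l, b ∈ N`, and `a ∈ N` since `b a ∈ N`. -/
theorem Pr.ico1 (P : Pr H l a b z) (hl : l ^ 3 = 1 ∨ l ^ 3 = z)
    (h5 : (b * l) ^ 5 = 1 ∨ (b * l) ^ 5 = z) (h0 : (a * b) ^ 3 = 1 ∨ (a * b) ^ 3 = z)
    (h1 : (b * (l * a * l⁻¹)) ^ 2 = z) :
    (z, 1) ∈ H ∧ (l, 1) ∈ H ∧ (a, 1) ∈ H ∧ (b, 1) ∈ H := by
  have hba : (b, l * a * l⁻¹) ∈ H := P.sw a b P.ab
  have hp : (a * b, b * (l * a * l⁻¹)) ∈ H := A4b_mul P.ab hba
  have hp2 : ((a * b) ^ 2, z) ∈ H := by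
    have h := A4b_pow hp 2
    rw [h1] at h
    exact h
  have h1z : ((1 : Q), z) ∈ H := by
    have h := A4b_pow hp2 3
    rw [A4b_six P.zz h0, A4b_cube P.zz] at h
    exact h
  have hz1 : (z, (1 : Q)) ∈ H := P.left h1z
  have hq2 : ((a * b) ^ 2, (1 : Q)) ∈ H := by
    have h := A4b_mul hp2 (A4b_inv h1z)
    rw [mul_inv_cancel, inv_one, mul_one] at h
    exact h
  have hq3 : ((a * b) ^ 3, (1 : Q)) ∈ H := by
    rcases h0 with h | h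
    · rw [h]
      exact H.one_mem
    · rw [h]
      exact hz1
  have hq : (a * b, (1 : Q)) ∈ H := by
    have h := A4b_mul hq3 (A4b_inv hq2)
    rw [A4b_div, inv_one, mul_one] at h
    exact h
  have hr : (b * a, (1 : Q)) ∈ H := by
    have h := A4b_mul (A4b_mul hba hq) (A4b_inv hba)
    rw [mul_one, mul_inv_cancel] at h
    have e : b * (a * b) * b⁻¹ = b * a := by group
    rw [e] at h
    exact h
  have ht : (b, b) ∈ H := by
    have h := A4b_mul h1z (A4b_mul hr (A4b_inv P.ab))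
    rw [one_mul, mul_inv_cancel_right, one_mul, A4b_zi P.bb] at h
    exact h
  have hu : (b⁻¹ * l * b * l⁻¹, (1 : Q)) ∈ H := by
    have h := A4b_mul (A4b_inv ht) (P.sw _ _ ht)
    rw [inv_mul_cancel] at h
    have h2 := P.left h
    have e : b⁻¹ * (l * b * l⁻¹) = b⁻¹ * l * b * l⁻¹ := by group
    rw [e] at h2
    exact h2
  obtain ⟨hl1, hb1⟩ := P.five_aux hz1 hl (Or.inr rfl) hu h5
  refine ⟨hz1, hl1, ?_, hb1⟩
  have h := A4b_mul (A4b_inv hb1) hr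
  rw [inv_mul_cancel_left, inv_one, mul_one] at h
  exact h

end

end ChiralQ
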