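import Pool.Agent.Lib.MP_bc704c_co.R.A2b
import Pool.Agent.Lib.MP_bc704c_co.R.A3b
import Pool.Agent.Lib.MP_bc704c_co.R.A4b

/-! # MP_bc704c_co, row B1: the situation of rotatory type -/

namespace ChiralQ

open Quaternion

/-- The pairs `(x, y)` such that `v ↦ x v (k̄ y k)‾` belongs to the group (`k` fixed), abstractly: a
subgroup `H` of the pairs of units with `(l, l), (A, B) ∈ H` as in `Pr` (`z = -1`), `l = c + d i`, `A`, `B` unit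
imaginary, all components satisfy `Cs`, no pair `(h, -l h)` with `h` in the plane of `j, k`
(`ns`, the stabiliser of `1` is generated by `s`), and `Chi` (`ne`). -/
structure Rd (H : Subgroup (ℍ[ℝ]ˣ × ℍ[ℝ]ˣ)) (l A B : ℍ[ℝ]ˣ) (c d : ℝ) : Prop where
  pr : Pr H l A B (-1)
  hl : (l : ℍ[ℝ]) = ⟨c, d, 0, 0⟩
  hcd : c ^ 2 + d ^ 2 = 1
  hd : d ≠ 0
  uA : UI (A : ℍ[ℝ])
  uB : UI (B : ℍ[ℝ])
  cs : ∀ x y, (x, y) ∈ H → Cs (x : ℍ[ℝ]).re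
  ns : ∀ h : ℍ[ℝ]ˣ, (h : ℍ[ℝ]).re = 0 → (h : ℍ[ℝ]).imI = 0 → (h, -(l * h)) ∉ H
  ne : ((A * B : ℍ[ℝ]ˣ) : ℍ[ℝ]).re ≠ ((B * (l * A * l⁻¹) : ℍ[ℝ]ˣ) : ℍ[ℝ]).re

variable {H : Subgroup (ℍ[ℝ]ˣ × ℍ[ℝ]ˣ)} {l A B : ℍ[ℝ]ˣ} {c d : ℝ}

theorem B1_inv {l : ℍ[ℝ]ˣ} {c d : ℝ} (hl : (l : ℍ[ℝ]) = ⟨c, d, 0, 0⟩) (hcd : c ^ 2 + d ^ 2 = 1) :
    ((l⁻¹ : ℍ[ℝ]ˣ) : ℍ[ℝ]) = ⟨c, -d, 0, 0⟩ := by
  apply Units.inv_eq_of_mul_eq_one_right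
  rw [hl]
  ext
  · simp
    linear_combination hcd
  · simp
    ring
  · simp
  · simp

theorem B1_conj {l : ℍ[ℝ]ˣ} {c d : ℝ} (hl : (l : ℍ[ℝ]) = ⟨c, d, 0, 0⟩) (hcd : c ^ 2 + d ^ 2 = 1)
    (x : ℍ[ℝ]ˣ) : ((l * x * l⁻¹ : ℍ[ℝ]ˣ) : ℍ[ℝ]) =
      ⟨(x : ℍ[ℝ]).re, (x : ℍ[ℝ]).imI,
        (c ^ 2 - d ^ 2) * (x : ℍ[ℝ]).imJ - 2 * c * d * (x : ℍ[ℝ]).imK,
        2 * c * d * (x : ℍ[ℝ]).imJ + (c ^ 2 - d ^ 2) * (x : ℍ[ℝ]).imK⟩ := by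
  rw [Units.val_mul, Units.val_mul, B1_inv hl hcd, hl]
  ext
  · simp
    linear_combination (x : ℍ[ℝ]).re * hcd
  · simp
    linear_combination (x : ℍ[ℝ]).imI * hcd
  · simp
    ring
  · simp
    ring

/-- Row B1. `(A, B)` is replaced by `(B, l A l⁻¹)`: `Pr.swap`; `Re (B l A l⁻¹)` and
`Re (l A l⁻¹ l B l⁻¹) = Re (A B)` are exchanged; `l A l⁻¹` is unit imaginary (in coordinates, or
`normSq` is multiplicative and `Re (x y) = Re (y x)`). -/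
theorem Rd.swap (R : Rd H l A B c d) : Rd H l B (l * A * l⁻¹) c d := by
  have hc := B1_conj R.hl R.hcd
  refine ⟨R.pr.swap, R.hl, R.hcd, R.hd, R.uB, ?_, R.cs, R.ns, ?_⟩
  · obtain ⟨h1, h2⟩ := R.uA
    rw [hc A]
    refine ⟨h1, ?_⟩
    simp only
    linear_combination h2 + ((A : ℍ[ℝ]).imJ ^ 2 + (A : ℍ[ℝ]).imK ^ 2) * (c ^ 2 + d ^ 2 + 1) * R.hcd
  · have h1 : l * A * l⁻¹ * (l * B * l⁻¹) = l * (A * B) * l⁻¹ := by group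
    rw [h1, hc (A * B)]
    exact R.ne.symm

/-- Row B1. The conjugation with `l` rotates the plane of `j, k` and fixes `1, i`; `l⁻¹ = c - d i`. In
coordinates. -/
theorem Rd.conj (R : Rd H l A B c d) :
    ((l⁻¹ : ℍ[ℝ]ˣ) : ℍ[ℝ]) = ⟨c, -d, 0, 0⟩ ∧ ∀ x : ℍ[ℝ]ˣ, ((l * x * l⁻¹ : ℍ[ℝ]ˣ) : ℍ[ℝ]) =
      ⟨(x : ℍ[ℝ]).re, (x : ℍ[ℝ]).imI,
        (c ^ 2 - d ^ 2) * (x : ℍ[ℝ]).imJ - 2 * c * d * (x : ℍ[ℝ]).imK,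
        2 * c * d * (x : ℍ[ℝ]).imJ + (c ^ 2 - d ^ 2) * (x : ℍ[ℝ]).imK⟩ :=
  ⟨B1_inv R.hl R.hcd, fun x => B1_conj R.hl R.hcd x⟩

/-- Row B1. `Re (A l) = - d α`, `α = A.imI`. -/
theorem Rd.reAl (R : Rd H l A B c d) : ((A * l : ℍ[ℝ]ˣ) : ℍ[ℝ]).re = -(d * (A : ℍ[ℝ]).imI) ∧
    normSq ((A * l : ℍ[ℝ]ˣ) : ℍ[ℝ]) = 1 := by
  obtain ⟨h1, h2⟩ := R.uA
  rw [Units.val_mul, map_mul, R.hl]
  constructor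
  · simp [h1]
    ring
  · rw [Quaternion.normSq_def', Quaternion.normSq_def', h1]
    simp only
    linear_combination (c ^ 2 + d ^ 2) * h2 + R.hcd

end ChiralQ
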