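import Pool.Agent.Lib.MP_bc704c_co.R.B1
import Pool.Agent.Lib.MP_bc704c_co.Q.Fg4b
import Pool.Agent.Lib.MP_bc704c_co.Q.Al8
import Pool.Agent.Lib.MP_bc704c_co.Q.Al6

/-! # MP_bc704c_co, row B10: from standard generators to pairs -/

namespace ChiralQ

open Quaternion ChiralNF

variable {s t : ℍ[ℝ] ≃ₗᵢ[ℝ] ℍ[ℝ]} {c d : ℝ} {a b : ℍ[ℝ]}

/-- the group generated by the pairs -/
noncomputable def HH (l A B : ℍ[ℝ]ˣ) : Subgroup (ℍ[ℝ]ˣ × ℍ[ℝ]ˣ) :=
  Subgroup.closure {(l, l), (A, B), (B, l * A * l⁻¹), (-1, -1)}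

/-- Row B10. There is a unit `k = x + y i` with `k² = -l`, `l = c + d i` (`exists_l` for `-c, -d`), and then
`s v = k v̄ k̄`. -/
theorem exists_k (H : Std s t (-1) c d a b) : ∃ k l : ℍ[ℝ]ˣ, (l : ℍ[ℝ]) = ⟨c, d, 0, 0⟩ ∧
    normSq (k : ℍ[ℝ]) = 1 ∧ (k : ℍ[ℝ]).imJ = 0 ∧ (k : ℍ[ℝ]).imK = 0 ∧ k * k = -l ∧
    ∀ v, s v = (k : ℍ[ℝ]) * star v * star (k : ℍ[ℝ]) := by
  obtain ⟨k0, hk1, hkJ, hkK, hkc, hkd, -⟩ := exists_l (c := -c) (d := -d)
    (by rw [neg_sq, neg_sq]; exact H.hcd)
  have hk0 : k0 ≠ 0 := by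
    intro h
    rw [h, map_zero] at hk1
    exact zero_ne_one hk1
  have hn : k0.re ^ 2 + k0.imI ^ 2 = 1 := by
    have h := Quaternion.normSq_def' k0
    rw [hk1, hkJ, hkK] at h
    linarith
  have hl0 : (⟨c, d, 0, 0⟩ : ℍ[ℝ]) ≠ 0 := by
    intro h
    have h1 : d = 0 := congrArg (fun q : ℍ[ℝ] => q.imI) h
    exact H.hd h1
  refine ⟨Units.mk0 k0 hk0, Units.mk0 _ hl0, rfl, hk1, hkJ, hkK, ?_, ?_⟩
  · apply Units.ext
    rw [Units.val_mul, Units.val_neg, Units.val_mk0, Units.val_mk0]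
    apply Quaternion.ext
    · rw [Quaternion.re_mul, hkJ, hkK]
      change _ = -c
      linear_combination hkc
    · rw [Quaternion.imI_mul, hkJ, hkK]
      change _ = -d
      linear_combination hkd
    · rw [Quaternion.imJ_mul, hkJ, hkK]
      change _ = -(0 : ℝ)
      ring
    · rw [Quaternion.imK_mul, hkJ, hkK]
      change _ = -(0 : ℝ)
      ring
  · intro v
    rw [H.hs, Units.val_mk0]
    unfold sF
    apply Quaternion.ext
    · simp only [Quaternion.re_mul, Quaternion.imI_mul, Quaternion.imJ_mul, Quaternion.imK_mul, Quaternion.re_star,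
        Quaternion.imI_star, Quaternion.imJ_star, Quaternion.imK_star, hkJ, hkK]
      linear_combination -(v.re * hn)
    · simp only [Quaternion.re_mul, Quaternion.imI_mul, Quaternion.imJ_mul, Quaternion.imK_mul, Quaternion.re_star,
        Quaternion.imI_star, Quaternion.imJ_star, Quaternion.imK_star, hkJ, hkK]
      linear_combination v.imI * hn
    · simp only [Quaternion.re_mul, Quaternion.imI_mul, Quaternion.imJ_mul, Quaternion.imK_mul, Quaternion.re_star,
        Quaternion.imI_star, Quaternion.imJ_star, Quaternion.imK_star, hkJ, hkK]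
      linear_combination v.imJ * hkc - v.imK * hkd
    · simp only [Quaternion.re_mul, Quaternion.imI_mul, Quaternion.imJ_mul, Quaternion.imK_mul, Quaternion.re_star,
        Quaternion.imI_star, Quaternion.imJ_star, Quaternion.imK_star, hkJ, hkK]
      linear_combination v.imK * hkc + v.imJ * hkd

/-- Row B10. `(x, y) ↦ (y, l x l⁻¹)` maps the generators to elements of `HH l A B`; closure induction. -/
theorem HH_pr {l A B : ℍ[ℝ]ˣ} (hA : A * A = -1) (hB : B * B = -1) :
    Pr (HH l A B) l A B (-1) := by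
  have hll : (l, l) ∈ HH l A B := Subgroup.subset_closure (by simp)
  have hab : (A, B) ∈ HH l A B := Subgroup.subset_closure (by simp)
  have hba : (B, l * A * l⁻¹) ∈ HH l A B := Subgroup.subset_closure (by simp)
  have hz : ((-1, -1) : ℍ[ℝ]ˣ × ℍ[ℝ]ˣ) ∈ HH l A B := Subgroup.subset_closure (by simp)
  let φ : ℍ[ℝ]ˣ × ℍ[ℝ]ˣ →* ℍ[ℝ]ˣ × ℍ[ℝ]ˣ :=
    MonoidHom.prod (MonoidHom.snd _ _) ((MulAut.conj l).toMonoidHom.comp (MonoidHom.fst _ _))
  have hφ : ∀ x y, φ (x, y) = (y, l * x * l⁻¹) := fun x y => rfl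
  have hle : HH l A B ≤ (HH l A B).comap φ := by
    refine (Subgroup.closure_le _).2 ?_
    intro p hp
    simp only [Set.mem_insert_iff, Set.mem_singleton_iff] at hp
    rcases hp with rfl | rfl | rfl | rfl
    · change φ (l, l) ∈ HH l A B
      rw [hφ, mul_inv_cancel_right]
      exact hll
    · change φ (A, B) ∈ HH l A B
      rw [hφ]
      exact hba
    · change φ (B, l * A * l⁻¹) ∈ HH l A B
      rw [hφ]
      have h := (HH l A B).mul_mem ((HH l A B).mul_mem hll hab) ((HH l A B).inv_mem hll)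
      exact h
    · change φ (-1, -1) ∈ HH l A B
      rw [hφ]
      have h : l * (-1) * l⁻¹ = -1 := by
        rw [mul_neg, mul_one, neg_mul, mul_inv_cancel]
      rw [h]
      exact hz
  exact
    { zz := by rw [neg_mul_neg, one_mul]
      zc := fun x => by rw [neg_mul, one_mul, mul_neg, mul_one]
      hz := hz
      ll := hll
      ab := hab
      aa := hA
      bb := hB
      sw := fun x y h => hle h }

end ChiralQ
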