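import Pool.Agent.Lib.MP_bc704c_co.R.B10

/-! # MP_bc704c_co, row B10: from standard generators to pairs -/

namespace ChiralQ

open Quaternion ChiralNF

variable {s t : ℍ[ℝ] ≃ₗᵢ[ℝ] ℍ[ℝ]} {c d : ℝ} {a b : ℍ[ℝ]}

theorem B10b_ns_inv (x : ℍ[ℝ]ˣ) (h : normSq (x : ℍ[ℝ]) = 1) :
    normSq ((x⁻¹ : ℍ[ℝ]ˣ) : ℍ[ℝ]) = 1 := by
  have h1 : normSq ((x * x⁻¹ : ℍ[ℝ]ˣ) : ℍ[ℝ]) = 1 := by
    rw [mul_inv_cancel, Units.val_one, map_one]
  rw [Units.val_mul, map_mul, h, one_mul] at h1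
  exact h1

theorem B10b_inv (x : ℍ[ℝ]ˣ) (h : normSq (x : ℍ[ℝ]) = 1) :
    ((x⁻¹ : ℍ[ℝ]ˣ) : ℍ[ℝ]) = star (x : ℍ[ℝ]) := by
  have h1 : (x : ℍ[ℝ]) * star (x : ℍ[ℝ]) = 1 := by
    rw [Quaternion.self_mul_star, h]
    simp
  calc ((x⁻¹ : ℍ[ℝ]ˣ) : ℍ[ℝ]) = ((x⁻¹ : ℍ[ℝ]ˣ) : ℍ[ℝ]) * ((x : ℍ[ℝ]) * star (x : ℍ[ℝ])) := by
        rw [h1, mul_one]
    _ = star (x : ℍ[ℝ]) := by
        rw [← mul_assoc, Units.inv_mul, one_mul]

/-- Row B10. Closure induction over `HH l A B`, where `A = a`, `B = k b k̄` (`B` as in `rot_conj`): every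
`(x, y)` is a pair of unit quaternions and `v ↦ x v (k⁻¹ y k)‾` is in `GG s t`: `(l, l)` gives `s²`, `(A, B)` gives
`t`, `(B, l A l⁻¹)` gives `s t s⁻¹` (`rot_conj`), `(-1, -1)` gives the identity. -/
theorem HH_real (H : Std s t (-1) c d a b) {k l A B : ℍ[ℝ]ˣ} (hl : (l : ℍ[ℝ]) = ⟨c, d, 0, 0⟩)
    (hk : normSq (k : ℍ[ℝ]) = 1) (hkJ : (k : ℍ[ℝ]).imJ = 0) (hkK : (k : ℍ[ℝ]).imK = 0)
    (hkk : k * k = -l) (hs : ∀ v, s v = (k : ℍ[ℝ]) * star v * star (k : ℍ[ℝ]))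
    (hA : (A : ℍ[ℝ]) = a) (hB : (B : ℍ[ℝ]) = k * b * star (k : ℍ[ℝ])) {x y : ℍ[ℝ]ˣ}
    (h : (x, y) ∈ HH l A B) : normSq (x : ℍ[ℝ]) = 1 ∧ normSq (y : ℍ[ℝ]) = 1 ∧
      ∃ g ∈ GG s t, ∀ v, g v = tF x ((k⁻¹ * y * k : ℍ[ℝ]ˣ) : ℍ[ℝ]) v := by
  have hlk : l = -(k * k) := by rw [hkk, neg_neg]
  have hk' : ((k⁻¹ : ℍ[ℝ]ˣ) : ℍ[ℝ]) = star (k : ℍ[ℝ]) := B10b_inv k hk
  have hks : (k : ℍ[ℝ]) * star (k : ℍ[ℝ]) = 1 := by rw [← hk', Units.mul_inv]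
  have hsk : star (k : ℍ[ℝ]) * (k : ℍ[ℝ]) = 1 := by rw [← hk', Units.inv_mul]
  have hnl : normSq (l : ℍ[ℝ]) = 1 := by
    rw [hlk]
    simp [hk]
  have hnA : normSq (A : ℍ[ℝ]) = 1 := by rw [hA]; exact H.ha.normSq
  have hnB : normSq (B : ℍ[ℝ]) = 1 := by
    rw [hB, map_mul, map_mul, H.hb.normSq, hk, Quaternion.normSq_star, hk]
    norm_num
  have hsm : s ∈ GG s t := Subgroup.subset_closure (by simp)
  have htm : t ∈ GG s t := Subgroup.subset_closure (by simp)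
  have main : ∀ p ∈ HH l A B, normSq (p.1 : ℍ[ℝ]) = 1 ∧ normSq (p.2 : ℍ[ℝ]) = 1 ∧
      ∃ g ∈ GG s t, ∀ v, g v = tF p.1 ((k⁻¹ * p.2 * k : ℍ[ℝ]ˣ) : ℍ[ℝ]) v := by
    intro p hp
    induction hp using Subgroup.closure_induction with
    | mem p hp =>
      rcases hp with rfl | rfl | rfl | rfl
      · refine ⟨hnl, hnl, s * s, Subgroup.mul_mem _ hsm hsm, fun v => ?_⟩
        have e1 : k⁻¹ * l * k = l := by
          rw [hlk]
          simp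
        change s (s v) = tF l ((k⁻¹ * l * k : ℍ[ℝ]ˣ) : ℍ[ℝ]) v
        rw [e1, hs, hs, tF, hlk]
        simp [mul_assoc]
      · refine ⟨hnA, hnB, t, htm, fun v => ?_⟩
        change t v = tF A ((k⁻¹ * B * k : ℍ[ℝ]ˣ) : ℍ[ℝ]) v
        have e1 : ((k⁻¹ * B * k : ℍ[ℝ]ˣ) : ℍ[ℝ]) = b := by
          rw [Units.val_mul, Units.val_mul, hB, hk']
          calc star (k : ℍ[ℝ]) * (k * b * star (k : ℍ[ℝ])) * k
              = (star (k : ℍ[ℝ]) * k) * b * (star (k : ℍ[ℝ]) * k) := by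
                simp only [mul_assoc]
            _ = b := by rw [hsk, one_mul, mul_one]
        rw [e1, H.ht, hA]
      · refine ⟨hnB, ?_, s * t * s⁻¹,
          Subgroup.mul_mem _ (Subgroup.mul_mem _ hsm htm) (Subgroup.inv_mem _ hsm), fun v => ?_⟩
        · change normSq ((l * A * l⁻¹ : ℍ[ℝ]ˣ) : ℍ[ℝ]) = 1
          rw [Units.val_mul, Units.val_mul, map_mul, map_mul, hnl, hnA, B10b_ns_inv l hnl]
          norm_num
        · change s (t (s⁻¹ v)) = tF B ((k⁻¹ * (l * A * l⁻¹) * k : ℍ[ℝ]ˣ) : ℍ[ℝ]) v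
          have e1 : k⁻¹ * (l * A * l⁻¹) * k = k * A * k⁻¹ := by
            rw [hlk]
            simp [mul_assoc]
          have e2 : s⁻¹ v = star (k : ℍ[ℝ]) * star v * (k : ℍ[ℝ]) := by
            apply s.injective
            have e3 : s (s⁻¹ v) = v := s.apply_symm_apply v
            rw [e3, hs]
            simp only [star_mul, star_star]
            calc v = (k * star (k : ℍ[ℝ])) * v * (k * star (k : ℍ[ℝ])) := by
                  rw [hks, one_mul, mul_one]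
              _ = _ := by simp only [mul_assoc]
          rw [e1, e2, H.ht, hs, tF, tF, hB, Units.val_mul, Units.val_mul, hA, hk']
          simp only [star_mul, star_star, mul_assoc]
      · refine ⟨by simp, by simp, 1, Subgroup.one_mem _, fun v => ?_⟩
        change v = tF ((-1 : ℍ[ℝ]ˣ) : ℍ[ℝ]) ((k⁻¹ * (-1) * k : ℍ[ℝ]ˣ) : ℍ[ℝ]) v
        have e1 : k⁻¹ * (-1) * k = -1 := by simp
        rw [e1, tF]
        simp
    | one =>
      refine ⟨by simp, by simp, 1, Subgroup.one_mem _, fun v => ?_⟩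
      change v = tF ((1 : ℍ[ℝ]ˣ) : ℍ[ℝ]) ((k⁻¹ * 1 * k : ℍ[ℝ]ˣ) : ℍ[ℝ]) v
      have e1 : k⁻¹ * 1 * k = 1 := by simp
      rw [e1, tF]
      simp
    | mul p q hp hq ihp ihq =>
      obtain ⟨n1, n2, g, hg, hgv⟩ := ihp
      obtain ⟨m1, m2, g', hg', hgv'⟩ := ihq
      refine ⟨?_, ?_, g * g', Subgroup.mul_mem _ hg hg', fun v => ?_⟩
      · rw [Prod.fst_mul, Units.val_mul, map_mul, n1, m1, one_mul]
      · rw [Prod.snd_mul, Units.val_mul, map_mul, n2, m2, one_mul]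
      · change g (g' v) = _
        have e1 : k⁻¹ * (p * q).2 * k = (k⁻¹ * p.2 * k) * (k⁻¹ * q.2 * k) := by
          simp [mul_assoc]
        rw [e1, hgv, hgv']
        generalize k⁻¹ * p.2 * k = Y
        generalize k⁻¹ * q.2 * k = Z
        simp only [tF, Prod.fst_mul, Units.val_mul, star_mul, mul_assoc]
    | inv p hp ih =>
      obtain ⟨n1, n2, g, hg, hgv⟩ := ih
      refine ⟨?_, ?_, g⁻¹, Subgroup.inv_mem _ hg, fun v => ?_⟩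
      · rw [Prod.fst_inv]
        exact B10b_ns_inv _ n1
      · rw [Prod.snd_inv]
        exact B10b_ns_inv _ n2
      · apply g.injective
        have e3 : g (g⁻¹ v) = v := g.apply_symm_apply v
        have e1 : k⁻¹ * (p⁻¹).2 * k = (k⁻¹ * p.2 * k)⁻¹ := by
          simp [mul_assoc]
        have n3 : normSq ((k⁻¹ * p.2 * k : ℍ[ℝ]ˣ) : ℍ[ℝ]) = 1 := by
          rw [Units.val_mul, Units.val_mul, map_mul, map_mul, n2, hk, B10b_ns_inv k hk]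
          norm_num
        rw [e3, hgv, e1, Prod.fst_inv, tF, tF, B10b_inv _ n1, B10b_inv _ n3, star_star]
        have e4 : ((p.1 : ℍ[ℝ]ˣ) : ℍ[ℝ]) * star ((p.1 : ℍ[ℝ]ˣ) : ℍ[ℝ]) = 1 := by
          rw [← B10b_inv _ n1, Units.mul_inv]
        have e5 : ((k⁻¹ * p.2 * k : ℍ[ℝ]ˣ) : ℍ[ℝ]) * star ((k⁻¹ * p.2 * k : ℍ[ℝ]ˣ) : ℍ[ℝ]) = 1 := by
          rw [← B10b_inv _ n3, Units.mul_inv]
        set Y := ((k⁻¹ * p.2 * k : ℍ[ℝ]ˣ) : ℍ[ℝ]) with hY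
        set X := ((p.1 : ℍ[ℝ]ˣ) : ℍ[ℝ]) with hX
        calc v = (X * star X) * v * (Y * star Y) := by rw [e4, e5, one_mul, mul_one]
          _ = X * (star X * v * Y) * star Y := by simp only [mul_assoc]
  exact main (x, y) h

end ChiralQ
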