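import Pool.Agent.Lib.MP_bc704c_co.R.B10b
/-! # MP_bc704c_co, row B11: from standard generators to pairs, the stabiliser -/

namespace ChiralQ

open Quaternion ChiralNF

variable {s t : ℍ[ℝ] ≃ₗᵢ[ℝ] ℍ[ℝ]} {c d : ℝ} {a b : ℍ[ℝ]}

/-- Row B11. Let `h` be a unit in the plane of `j, k`. The map `v ↦ h v h̄` is not a power of `s`: the powers
are `sF ε' c' d'` (`Std.zpow`); at `v = h`: `c' = 1, d' = 0`; at `v = i h`: `-i h`, contradiction. -/
theorem not_pow (H : Std s t (-1) c d a b) {h : ℍ[ℝ]} (h1 : normSq h = 1) (h0 : h.re = 0)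
    (hi : h.imI = 0) (j : ℤ) : ¬ ∀ v, (s ^ j) v = tF h h v := by
  intro hall
  obtain ⟨e', c', d', -, -, hcd, hv⟩ := H.zpow j
  have h2 : h.imJ ^ 2 + h.imK ^ 2 = 1 := by
    have := Quaternion.normSq_def' h
    rw [h1, h0, hi] at this
    linarith
  have hJ := hall ⟨0, 0, 1, 0⟩
  have hK := hall ⟨0, 0, 0, 1⟩
  rw [hv] at hJ hK
  have e1 := congrArg QuaternionAlgebra.imJ hJ
  have e2 := congrArg QuaternionAlgebra.imK hJ
  have e3 := congrArg QuaternionAlgebra.imJ hK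
  have e4 := congrArg QuaternionAlgebra.imK hK
  simp only [sF, tF, Quaternion.imJ_mul, Quaternion.imK_mul, Quaternion.imI_mul, Quaternion.re_mul,
    Quaternion.re_star, Quaternion.imI_star, Quaternion.imJ_star, Quaternion.imK_star, h0, hi]
    at e1 e2 e3 e4
  have hc : c' = 0 := by linarith
  have hd : d' = 0 := by linarith
  rw [hc, hd] at hcd
  norm_num at hcd

/-- Row B11. `(h, -(l h)) ∈ HH` (`k² = -l`, `h k = k̄ h`, so `k⁻¹ (-(l h)) k = k h k = h`) gives `v ↦ h v h̄` in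
`GG s t`, it fixes `1`, so it is a power of `s` by `hst`: `not_pow`. -/
theorem HH_ns (H : Std s t (-1) c d a b)
    (hst : ∀ g ∈ GG s t, g 1 = 1 → g ∈ Subgroup.zpowers s) {k l A B : ℍ[ℝ]ˣ}
    (hl : (l : ℍ[ℝ]) = ⟨c, d, 0, 0⟩)
    (hk : normSq (k : ℍ[ℝ]) = 1) (hkJ : (k : ℍ[ℝ]).imJ = 0) (hkK : (k : ℍ[ℝ]).imK = 0)
    (hkk : k * k = -l) (hs : ∀ v, s v = (k : ℍ[ℝ]) * star v * star (k : ℍ[ℝ]))
    (hA : (A : ℍ[ℝ]) = a) (hB : (B : ℍ[ℝ]) = k * b * star (k : ℍ[ℝ])) {h : ℍ[ℝ]ˣ}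
    (h0 : (h : ℍ[ℝ]).re = 0) (h1 : (h : ℍ[ℝ]).imI = 0) : (h, -(l * h)) ∉ HH l A B := by
  intro hmem
  obtain ⟨hn, -, g, hg, hgv⟩ := HH_real H hl hk hkJ hkK hkk hs hA hB hmem
  have e1 : k⁻¹ * -(l * h) * k = k * h * k := by
    have e2 : -(l * h) = k * k * h := by rw [hkk, neg_mul]
    rw [e2]
    group
  have hk2 : (k : ℍ[ℝ]).re ^ 2 + (k : ℍ[ℝ]).imI ^ 2 = 1 := by
    have := Quaternion.normSq_def' (k : ℍ[ℝ])
    rw [hk, hkJ, hkK] at this
    linarith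
  have e3 : ((k⁻¹ * -(l * h) * k : ℍ[ℝ]ˣ) : ℍ[ℝ]) = h := by
    rw [e1, Units.val_mul, Units.val_mul]
    apply Quaternion.ext
    · simp only [Quaternion.re_mul, Quaternion.imI_mul, Quaternion.imJ_mul, Quaternion.imK_mul, h0, h1, hkJ, hkK]
      ring
    · simp only [Quaternion.re_mul, Quaternion.imI_mul, Quaternion.imJ_mul, Quaternion.imK_mul, h0, h1, hkJ, hkK]
      ring
    · simp only [Quaternion.re_mul, Quaternion.imI_mul, Quaternion.imJ_mul, Quaternion.imK_mul, h0, h1, hkJ, hkK]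
      linear_combination (h : ℍ[ℝ]).imJ * hk2
    · simp only [Quaternion.re_mul, Quaternion.imI_mul, Quaternion.imJ_mul, Quaternion.imK_mul, h0, h1, hkJ, hkK]
      linear_combination (h : ℍ[ℝ]).imK * hk2
  rw [e3] at hgv
  have hg1 : g 1 = 1 := by
    rw [hgv, tF, mul_one, Quaternion.self_mul_star, hn]
    rfl
  obtain ⟨j, hj⟩ := Subgroup.mem_zpowers_iff.1 (hst g hg hg1)
  refine not_pow H hn h0 h1 j fun v => ?_
  rw [hj]
  exact hgv v

theorem B11_sq {x : ℍ[ℝ]} (hx : UI x) : x * x = -1 := by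
  obtain ⟨h0, h1⟩ := hx
  apply Quaternion.ext
  · simp only [Quaternion.re_mul, h0, Quaternion.re_neg, Quaternion.re_one]
    linarith
  · simp only [Quaternion.imI_mul, h0, Quaternion.imI_neg, Quaternion.imI_one]
    ring
  · simp only [Quaternion.imJ_mul, h0, Quaternion.imJ_neg, Quaternion.imJ_one]
    ring
  · simp only [Quaternion.imK_mul, h0, Quaternion.imK_neg, Quaternion.imK_one]
    ring

theorem B11_unit {x : ℍ[ℝ]} (hx : UI x) : ∃ X : ℍ[ℝ]ˣ, (X : ℍ[ℝ]) = x ∧ X * X = -1 := by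
  have h1 := B11_sq hx
  refine ⟨⟨x, -x, by rw [mul_neg, h1, neg_neg], by rw [neg_mul, h1, neg_neg]⟩, rfl, ?_⟩
  apply Units.ext
  rw [Units.val_mul, Units.val_neg, Units.val_one]
  exact h1

/-- Row B11. Assembly. `A = a`, `B = k b k̄`, which is the quaternion `β i - (c + d i) w` (`k² = -l`). The
elements `x` are in `LL (GG s t)` by `HH_real`. `ne`: `Re (A B) - Re (B l A l⁻¹) = ± 2 d (u_J w_K - u_K w_J) ≠ 0`
by `Chi`. -/
theorem exists_Rd (H : Std s t (-1) c d a b) (hcs : ∀ x ∈ LL (GG s t), Cs x.re)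
    (hst : ∀ g ∈ GG s t, g 1 = 1 → g ∈ Subgroup.zpowers s) :
    ∃ (K : Subgroup (ℍ[ℝ]ˣ × ℍ[ℝ]ˣ)) (l A B : ℍ[ℝ]ˣ), Rd K l A B c d ∧ (A : ℍ[ℝ]) = a ∧
      (B : ℍ[ℝ]) = ⟨0, b.imI, -(c * b.imJ - d * b.imK), -(d * b.imJ + c * b.imK)⟩ := by
  obtain ⟨k, l, hl, hk, hkJ, hkK, hkk, hs⟩ := exists_k H
  obtain ⟨A, hA, hAA⟩ := B11_unit H.ha
  have hb0 := H.hb.1
  have hb1 := H.hb.2
  have ha0 := H.ha.1
  have hcd := H.hcd
  have huB : UI (⟨0, b.imI, -(c * b.imJ - d * b.imK), -(d * b.imJ + c * b.imK)⟩ : ℍ[ℝ]) := by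
    refine ⟨rfl, ?_⟩
    show b.imI ^ 2 + (-(c * b.imJ - d * b.imK)) ^ 2 + (-(d * b.imJ + c * b.imK)) ^ 2 = 1
    linear_combination hb1 + (b.imJ ^ 2 + b.imK ^ 2) * hcd
  obtain ⟨B, hB, hBB⟩ := B11_unit huB
  have hkl : (k : ℍ[ℝ]) * k = -(l : ℍ[ℝ]) := by
    rw [← Units.val_mul, hkk, Units.val_neg]
  have hlr : (l : ℍ[ℝ]).re = c := by rw [hl]
  have hlI : (l : ℍ[ℝ]).imI = d := by rw [hl]
  have hk2 : (k : ℍ[ℝ]).re ^ 2 + (k : ℍ[ℝ]).imI ^ 2 = 1 := by
    have := Quaternion.normSq_def' (k : ℍ[ℝ])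
    rw [hk, hkJ, hkK] at this
    linarith
  have hk3 : (k : ℍ[ℝ]).re ^ 2 - (k : ℍ[ℝ]).imI ^ 2 = -c := by
    have := congrArg QuaternionAlgebra.re hkl
    simp only [Quaternion.re_mul, hkJ, hkK, Quaternion.re_neg, hlr] at this
    linarith
  have hk4 : 2 * (k : ℍ[ℝ]).re * (k : ℍ[ℝ]).imI = -d := by
    have := congrArg QuaternionAlgebra.imI hkl
    simp only [Quaternion.imI_mul, hkJ, hkK, Quaternion.imI_neg, hlI] at this
    linarith
  have hB' : (B : ℍ[ℝ]) = k * b * star (k : ℍ[ℝ]) := by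
    rw [hB]
    apply Quaternion.ext
    · simp only [Quaternion.re_mul, Quaternion.imI_mul, Quaternion.imJ_mul, Quaternion.imK_mul,
        Quaternion.re_star, Quaternion.imI_star, Quaternion.imJ_star, Quaternion.imK_star, hb0, hkJ, hkK]
      ring
    · simp only [Quaternion.re_mul, Quaternion.imI_mul, Quaternion.imJ_mul, Quaternion.imK_mul,
        Quaternion.re_star, Quaternion.imI_star, Quaternion.imJ_star, Quaternion.imK_star, hb0, hkJ, hkK]
      linear_combination -b.imI * hk2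
    · simp only [Quaternion.re_mul, Quaternion.imI_mul, Quaternion.imJ_mul, Quaternion.imK_mul,
        Quaternion.re_star, Quaternion.imI_star, Quaternion.imJ_star, Quaternion.imK_star, hb0, hkJ, hkK]
      linear_combination -b.imJ * hk3 + b.imK * hk4
    · simp only [Quaternion.re_mul, Quaternion.imI_mul, Quaternion.imJ_mul, Quaternion.imK_mul,
        Quaternion.re_star, Quaternion.imI_star, Quaternion.imJ_star, Quaternion.imK_star, hb0, hkJ, hkK]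
      linear_combination -b.imK * hk3 - b.imJ * hk4
  refine ⟨HH l A B, l, A, B, ⟨HH_pr hAA hBB, hl, hcd, H.hd, ?_, ?_, ?_, ?_, ?_⟩, hA, hB⟩
  · rw [hA]
    exact H.ha
  · rw [hB]
    exact huB
  · intro x y hxy
    obtain ⟨hx, hy, g, hg, hgv⟩ := HH_real H hl hk hkJ hkK hkk hs hA hB' hxy
    refine hcs _ ⟨hx, _, ?_, g, hg, hgv⟩
    have h1 : normSq ((k⁻¹ : ℍ[ℝ]ˣ) : ℍ[ℝ]) = 1 := by
      have h2 : normSq (((k⁻¹ : ℍ[ℝ]ˣ) : ℍ[ℝ]) * (k : ℍ[ℝ])) = 1 := by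
        rw [Units.inv_mul, map_one]
      rw [map_mul, hk, mul_one] at h2
      exact h2
    rw [Units.val_mul, Units.val_mul, map_mul, map_mul, h1, hy, hk, mul_one, mul_one]
  · intro h h0 h1
    exact HH_ns H hst hl hk hkJ hkK hkk hs hA hB' h0 h1
  · have hli : ((l⁻¹ : ℍ[ℝ]ˣ) : ℍ[ℝ]) = ⟨c, -d, 0, 0⟩ := by
      apply Units.inv_eq_of_mul_eq_one_right
      rw [hl]
      apply Quaternion.ext
      · simp only [Quaternion.re_mul, Quaternion.re_one]
        linear_combination hcd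
      · simp only [Quaternion.imI_mul, Quaternion.imI_one]
        ring
      · simp only [Quaternion.imJ_mul, Quaternion.imJ_one]
        ring
      · simp only [Quaternion.imK_mul, Quaternion.imK_one]
        ring
    intro hne
    rw [Units.val_mul, Units.val_mul, Units.val_mul, Units.val_mul, hA, hB, hli, hl] at hne
    simp only [Quaternion.re_mul, Quaternion.imI_mul, Quaternion.imJ_mul, Quaternion.imK_mul, ha0] at hne
    have h5 : d * (a.imJ * b.imK - a.imK * b.imJ) = 0 := by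
      linear_combination (-1 / 2) * hne - (1 / 2) * (-(a.imI * b.imI) +
        b.imJ * (c * a.imJ - d * a.imK) + b.imK * (d * a.imJ + c * a.imK)) * hcd
    rcases mul_eq_zero.1 h5 with h6 | h6
    · exact H.hd h6
    · exact H.chi.2 h6

end ChiralQ
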