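import Pool.Agent.Lib.MP_bc704c_co.R.B9
import Pool.Agent.Lib.MP_bc704c_co.R.B11
/-! # MP_bc704c_co, row B12: rotatory type, `c ≠ 0` -/

namespace ChiralQ

open Quaternion ChiralNF

variable {s t : ℍ[ℝ] ≃ₗᵢ[ℝ] ℍ[ℝ]} {c d : ℝ} {a b : ℍ[ℝ]}

/-- Row B12. The elements of `LL (GG s t)` satisfy `Cs` (`axes` with `l = c + d i` and `a` or
`b' = β i - (c + d i) w`, whichever has a nonzero `i`-component; see the proof of `listed_refl`). -/
theorem cs_of_ne (H : Std s t (-1) c d a b) (hG : Finite (GG s t)) (hc : c ≠ 0) :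
    ∀ x ∈ LL (GG s t), Cs x.re := by
  obtain ⟨_, hcd, hd, ha, hb, ⟨hchi1, hchi2⟩, hs, ht⟩ := H
  have hX : FinGp (LL (GG s t)) := finGp_LL hG
  have hsG : s ∈ GG s t := Subgroup.subset_closure (by simp)
  have htG : t ∈ GG s t := Subgroup.subset_closure (by simp)
  have na : normSq a = 1 := by
    rw [Quaternion.normSq_def', ha.1]
    linear_combination ha.2
  have nb : normSq b = 1 := by
    rw [Quaternion.normSq_def', hb.1]
    linear_combination hb.2
  obtain ⟨z, hz⟩ : ∃ z : ℍ[ℝ], z = ⟨c, d, 0, 0⟩ := ⟨_, rfl⟩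
  obtain ⟨b', hb'⟩ : ∃ b' : ℍ[ℝ],
      b' = ⟨0, b.imI, -(c * b.imJ - d * b.imK), -(d * b.imJ + c * b.imK)⟩ := ⟨_, rfl⟩
  obtain ⟨a', ha'⟩ : ∃ a' : ℍ[ℝ],
      a' = ⟨0, a.imI, -(c * a.imJ - d * a.imK), -(d * a.imJ + c * a.imK)⟩ := ⟨_, rfl⟩
  have zre : z.re = c := by rw [hz]
  have zI : z.imI = d := by rw [hz]
  have zJ : z.imJ = 0 := by rw [hz]
  have zK : z.imK = 0 := by rw [hz]
  have b're : b'.re = 0 := by rw [hb']
  have b'I : b'.imI = b.imI := by rw [hb']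
  have b'J : b'.imJ = -(c * b.imJ - d * b.imK) := by rw [hb']
  have b'K : b'.imK = -(d * b.imJ + c * b.imK) := by rw [hb']
  have nz : normSq z = 1 := by
    rw [Quaternion.normSq_def', zre, zI, zJ, zK]
    linear_combination hcd
  have hUb' : UI b' := by
    refine ⟨b're, ?_⟩
    rw [b'I, b'J, b'K]
    linear_combination hb.2 + (b.imJ ^ 2 + b.imK ^ 2) * hcd
  have nb' : normSq b' = 1 := by
    rw [Quaternion.normSq_def', hUb'.1]
    linear_combination hUb'.2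
  have a're : a'.re = 0 := by rw [ha']
  have a'I : a'.imI = a.imI := by rw [ha']
  have a'J : a'.imJ = -(c * a.imJ - d * a.imK) := by rw [ha']
  have a'K : a'.imK = -(d * a.imJ + c * a.imK) := by rw [ha']
  have na' : normSq a' = 1 := by
    rw [Quaternion.normSq_def', a're, a'I, a'J, a'K]
    linear_combination ha.2 + (a.imJ ^ 2 + a.imK ^ 2) * hcd
  have hzX : z ∈ LL (GG s t) := by
    refine ⟨nz, z, nz, s * s, mul_mem hsG hsG, fun v => ?_⟩
    have h1 := (rot_conj hcd ha hb v).1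
    show s (s v) = tF z z v
    rw [hs v, hs, h1, hz]
  have haX : a ∈ LL (GG s t) := ⟨na, b, nb, t, htG, ht⟩
  have hsinv : ∀ v, s⁻¹ v = sF (-1) c (-d) v := by
    intro v
    have h1 : s (sF (-1) c (-d) v) = v := by
      rw [hs]
      unfold sF
      ext
      · simp
      · simp
      · simp only
        linear_combination v.imJ * hcd
      · simp only
        linear_combination v.imK * hcd
    have h2 : s⁻¹ (s (sF (-1) c (-d) v)) = sF (-1) c (-d) v := s.symm_apply_apply _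
    rw [h1] at h2
    exact h2
  have hb'X : b' ∈ LL (GG s t) := by
    refine ⟨nb', a', na', s * t * s⁻¹, mul_mem (mul_mem hsG htG) (inv_mem hsG), fun v => ?_⟩
    have h1 := (rot_conj hcd ha hb v).2
    show s (t (s⁻¹ v)) = tF b' a' v
    rw [hsinv v, ht, hs, h1, hb', ha']
  have ha1 : a.imI ^ 2 ≠ 1 := by
    intro h
    have h2 := ha.2
    have h3 : a.imJ ^ 2 + a.imK ^ 2 = 0 := by linear_combination h2 - h
    have h4 : a.imJ = 0 := by nlinarith [sq_nonneg a.imJ, sq_nonneg a.imK]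
    have h5 : a.imK = 0 := by nlinarith [sq_nonneg a.imJ, sq_nonneg a.imK]
    exact hchi2 (by rw [h4, h5]; ring)
  have hb1 : b.imI ^ 2 ≠ 1 := by
    intro h
    have h2 := hb.2
    have h3 : b.imJ ^ 2 + b.imK ^ 2 = 0 := by linear_combination h2 - h
    have h4 : b.imJ = 0 := by nlinarith [sq_nonneg b.imJ, sq_nonneg b.imK]
    have h5 : b.imK = 0 := by nlinarith [sq_nonneg b.imJ, sq_nonneg b.imK]
    exact hchi2 (by rw [h4, h5]; ring)
  have hz0 : z.re ≠ 0 := by rw [zre]; exact hc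
  have hz1 : z.imI ≠ 0 := by rw [zI]; exact hd
  by_cases h : a.imI = 0
  · have h2 : b.imI ≠ 0 := fun h3 => hchi1 (by rw [h, h3])
    exact (axes hX hzX hb'X zJ zK hz0 hz1 hUb' (by rw [b'I]; exact h2)
      (by rw [b'I]; exact hb1)).1
  · exact (axes hX hzX haX zJ zK hz0 hz1 ha h ha1).1

/-- Row B12. `listed_refl` (the alternative `c ≠ 0`) gives `Ax`; `exists_Rd`, `Rd.excl`. The last statement is
`g_0 + g_1 = 2 α β - 2 c ⟪u, w⟫ = 0` with `α β = 0`, so `⟪u, w⟫ = 0`. -/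
theorem refl_ne (H : Std s t (-1) c d a b) (hG : Finite (GG s t)) (hc : c ≠ 0)
    (hst : ∀ g ∈ GG s t, g 1 = 1 → g ∈ Subgroup.zpowers s) :
    c ^ 2 = 1 / 2 ∧ a.imJ * b.imJ + a.imK * b.imK = 0 ∧
    ((a.imI ^ 2 = 0 ∧ b.imI ^ 2 = 1 / 2) ∨ (a.imI ^ 2 = 1 / 2 ∧ b.imI ^ 2 = 0)) := by
  have hax : Ax (2 * c ^ 2 - 1) (a.imI ^ 2) ∧ Ax (2 * c ^ 2 - 1) (b.imI ^ 2) := by
    rcases listed_refl H hG with h | h | h | h
    · exact absurd h.1 (by norm_num)
    · exact ⟨h.2.2.1, h.2.2.2.1⟩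
    · exact absurd h.2.1 hc
    · exact absurd h.2.1 hc
  obtain ⟨K, l, A, B, R, hA, hB⟩ := exists_Rd H (cs_of_ne H hG hc) hst
  have AI : (A : ℍ[ℝ]).imI = a.imI := by rw [hA]
  have BI : (B : ℍ[ℝ]).imI = b.imI := by rw [hB]
  obtain ⟨e1, e2, e3⟩ := R.excl (by rw [AI]; exact hax.1) (by rw [BI]; exact hax.2)
    (by rw [AI, BI]; exact H.chi.1)
  rw [AI, BI] at e2
  have h0 : a.imI * b.imI = 0 := by
    have h1 : (a.imI * b.imI) ^ 2 = 0 := by
      rcases e2 with h | h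
      · rw [mul_pow, h.1, zero_mul]
      · rw [mul_pow, h.2, mul_zero]
    exact pow_eq_zero_iff (two_ne_zero) |>.1 h1
  refine ⟨e1, ?_, e2⟩
  have hl := R.conj.2 A
  rw [Units.val_mul, Units.val_mul, hl, hA, hB] at e3
  simp only [Quaternion.re_mul] at e3
  have hcd := H.hcd
  have ha0 := H.ha.1
  rw [ha0] at e3
  have h2 : c * (a.imJ * b.imJ + a.imK * b.imK) = 0 := by
    linear_combination e3 / 2 + h0 -
      (c * (a.imJ * b.imJ + a.imK * b.imK) + d * (a.imJ * b.imK - a.imK * b.imJ)) / 2 * hcd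
  exact (mul_eq_zero.1 h2).resolve_left hc

end ChiralQ
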