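import Pool.Agent.Lib.MP_bc704c_co.Q.Base

/-! # MP_bc704c_co, row B1: the situation of rotatory type -/

namespace ChiralQ

open Quaternion

variable {H : Subgroup (ℍ[ℝ]ˣ × ℍ[ℝ]ˣ)} {l A B : ℍ[ℝ]ˣ} {c d : ℝ}

theorem B1b_sq {x : ℍ[ℝ]} (h1 : normSq x = 1) : x ^ 2 = (2 * x.re) • x - 1 := by
  have h : x.re ^ 2 + x.imI ^ 2 + x.imJ ^ 2 + x.imK ^ 2 = 1 := by
    have := normSq_def' x
    linarith
  rw [pow_two]
  ext <;> simp <;> nlinarith [h]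

theorem B1b_cube {x : ℍ[ℝ]} (h1 : normSq x = 1) :
    x ^ 3 = (4 * x.re ^ 2 - 1) • x - (2 * x.re) • (1 : ℍ[ℝ]) := by
  rw [pow_succ, B1b_sq h1, sub_mul, smul_mul_assoc, ← pow_two, B1b_sq h1, one_mul]
  module

theorem B1b_four {x : ℍ[ℝ]} (h1 : normSq x = 1) :
    x ^ 4 = (8 * x.re ^ 3 - 4 * x.re) • x + (1 - 4 * x.re ^ 2) • (1 : ℍ[ℝ]) := by
  rw [pow_succ, B1b_cube h1, sub_mul, smul_mul_assoc, ← pow_two, B1b_sq h1, smul_mul_assoc, one_mul]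
  module

theorem B1b_five {x : ℍ[ℝ]} (h1 : normSq x = 1) :
    x ^ 5 = (16 * x.re ^ 4 - 12 * x.re ^ 2 + 1) • x - (8 * x.re ^ 3 - 4 * x.re) • (1 : ℍ[ℝ]) := by
  rw [pow_succ, B1b_four h1, add_mul, smul_mul_assoc, ← pow_two, B1b_sq h1, smul_mul_assoc, one_mul]
  module

/-- Row B1. `x² = 2 Re(x) x - 1` for a unit quaternion; so `x³ = (4 r² - 1) x - 2 r`. -/
theorem pow3_of {x : ℍ[ℝ]} (h1 : normSq x = 1) (h : x.re ^ 2 = 1 / 4) : x ^ 3 = 1 ∨ x ^ 3 = -1 := by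
  rw [B1b_cube h1, h]
  have h2 : (2 * x.re - 1) * (2 * x.re + 1) = 0 := by nlinarith [h]
  rcases mul_eq_zero.1 h2 with h3 | h3
  · right
    have h4 : 2 * x.re = 1 := by linarith
    rw [h4]; norm_num
  · left
    have h4 : 2 * x.re = -1 := by linarith
    rw [h4]; norm_num

theorem pow2_of {x : ℍ[ℝ]} (h1 : normSq x = 1) (h : x.re = 0) : x ^ 2 = -1 := by
  rw [B1b_sq h1, h]; simp

theorem pow4_of {x : ℍ[ℝ]} (h1 : normSq x = 1) (h : x.re ^ 2 = 1 / 2) : x ^ 4 = -1 := by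
  rw [B1b_four h1]
  have h2 : 8 * x.re ^ 3 - 4 * x.re = 0 := by
    have : x.re ^ 3 = x.re ^ 2 * x.re := by ring
    rw [this, h]; ring
  rw [h2, h]; norm_num

/-- Row B1. `16 r⁴ - 12 r² + 1 = 0`, so the coefficient of `x` in `x ^ 5` vanishes; `x ^ 5` is real and unit. -/
theorem pow5_of {x : ℍ[ℝ]} (h1 : normSq x = 1)
    (h : x.re ^ 2 = (3 + √5) / 8 ∨ x.re ^ 2 = (3 - √5) / 8) : x ^ 5 = 1 ∨ x ^ 5 = -1 := by
  have h5 : √5 ^ 2 = 5 := Real.sq_sqrt (by norm_num)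
  have h2 : 16 * x.re ^ 4 - 12 * x.re ^ 2 + 1 = 0 := by
    have : x.re ^ 4 = (x.re ^ 2) ^ 2 := by ring
    rw [this]
    rcases h with h | h <;> rw [h] <;> nlinarith [h5]
  rw [B1b_five h1, h2]
  have h3 : (8 * x.re ^ 3 - 4 * x.re - 1) * (8 * x.re ^ 3 - 4 * x.re + 1) = 0 := by
    linear_combination (4 * x.re ^ 2 - 1) * h2
  rcases mul_eq_zero.1 h3 with h4 | h4
  · right
    have h6 : 8 * x.re ^ 3 - 4 * x.re = 1 := by linarith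
    rw [h6]; norm_num
  · left
    have h6 : 8 * x.re ^ 3 - 4 * x.re = -1 := by linarith
    rw [h6]; norm_num

end ChiralQ
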