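import Pool.Agent.Lib.MP_bc704c_co.R.B1

/-! # MP_bc704c_co, row B2: exclusion, odd order -/

namespace ChiralQ

open Quaternion

variable {H : Subgroup (ℍ[ℝ]ˣ × ℍ[ℝ]ˣ)} {l A B : ℍ[ℝ]ˣ} {c d : ℝ}

theorem B2b_prod (a x : ℍ[ℝ]) (ha : UI a) (hx : UI x) (g : ℝ)
    (hg : g = a.imI * x.imI + a.imJ * x.imJ + a.imK * x.imK) :
    a * x * a = x - (2 * g) • a ∧ a * x * a * x * a = (4 * g ^ 2 - 1) • a - (2 * g) • x := by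
  obtain ⟨h1, h2⟩ := ha
  obtain ⟨h3, h4⟩ := hx
  have e1 : a * x * a = x - (2 * g) • a := by
    subst hg
    ext
    · simp [h1, h3]; ring
    · simp [h1, h3]; linear_combination x.imI * h2
    · simp [h1, h3]; linear_combination x.imJ * h2
    · simp [h1, h3]; linear_combination x.imK * h2
  have e2 : x * x = -1 := by
    ext
    · simp [h3]; linear_combination -h4
    · simp [h3]; ring
    · simp [h3]; ring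
    · simp [h3]; ring
  refine ⟨e1, ?_⟩
  rw [e1, sub_mul, sub_mul, e2, smul_mul_assoc, smul_mul_assoc, e1, smul_sub, smul_smul, neg_one_mul]
  ext <;> simp <;> ring

theorem B2b_rot (a : ℍ[ℝ]) (ha : UI a) (hcd : c ^ 2 + d ^ 2 = 1) (y z : ℍ[ℝ]) (hy : y = ⟨c, -d, 0, 0⟩)
    (hz : z = ⟨c, d, 0, 0⟩) : y * a * z =
      ⟨0, a.imI, (c ^ 2 - d ^ 2) * a.imJ + 2 * c * d * a.imK, -(2 * c * d * a.imJ) + (c ^ 2 - d ^ 2) * a.imK⟩ := by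
  obtain ⟨h1, h2⟩ := ha
  subst hy hz
  ext
  · simp [h1]; ring
  · simp [h1]; linear_combination a.imI * hcd
  · simp [h1]; ring
  · simp [h1]; ring

theorem B2b_inv (hl : (l : ℍ[ℝ]) = ⟨c, d, 0, 0⟩) (hcd : c ^ 2 + d ^ 2 = 1) :
    ((l⁻¹ : ℍ[ℝ]ˣ) : ℍ[ℝ]) = ⟨c, -d, 0, 0⟩ := by
  obtain ⟨y, hy⟩ : ∃ y : ℍ[ℝ], y = ⟨c, -d, 0, 0⟩ := ⟨_, rfl⟩
  have h : (l : ℍ[ℝ]) * y = 1 := by
    rw [hl, hy]
    ext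
    · simp; linear_combination hcd
    · simp; ring
    · simp
    · simp
  rw [← hy]
  calc ((l⁻¹ : ℍ[ℝ]ˣ) : ℍ[ℝ]) = ((l⁻¹ : ℍ[ℝ]ˣ) : ℍ[ℝ]) * ((l : ℍ[ℝ]) * y) := by rw [h, mul_one]
    _ = y := by rw [← mul_assoc, Units.inv_mul, one_mul]

/-- from a conjugate `X` of `A` in the group with `⟪A, X⟫ = g`, `g = 1/2` or `4 g² - 2 g - 1 = 0` -/
theorem B2b_fin {X : ℍ[ℝ]ˣ} (hA : UI (A : ℍ[ℝ])) (hX : UI (X : ℍ[ℝ])) (hm : X ∈ Subgroup.closure {l, A})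
    (hi : (X : ℍ[ℝ]).imI = (A : ℍ[ℝ]).imI) (g : ℝ)
    (hg : g = (A : ℍ[ℝ]).imI * (X : ℍ[ℝ]).imI + (A : ℍ[ℝ]).imJ * (X : ℍ[ℝ]).imJ + (A : ℍ[ℝ]).imK * (X : ℍ[ℝ]).imK)
    (h : g = 1 / 2 ∨ 4 * g ^ 2 - 2 * g - 1 = 0) :
    ∃ h ∈ Subgroup.closure {l, A}, (h : ℍ[ℝ]).re = 0 ∧ (h : ℍ[ℝ]).imI = 0 := by
  have hAm : A ∈ Subgroup.closure {l, A} := Subgroup.subset_closure (by simp)
  obtain ⟨e1, e2⟩ := B2b_prod (A : ℍ[ℝ]) (X : ℍ[ℝ]) hA hX g hg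
  rcases h with h | h
  · refine ⟨A * X * A, mul_mem (mul_mem hAm hm) hAm, ?_, ?_⟩
    · rw [Units.val_mul, Units.val_mul, e1]
      simp [hA.1, hX.1]
    · rw [Units.val_mul, Units.val_mul, e1]
      simp [hi, h]
  · refine ⟨A * X * A * X * A, mul_mem (mul_mem (mul_mem (mul_mem hAm hm) hAm) hm) hAm, ?_, ?_⟩
    · rw [Units.val_mul, Units.val_mul, Units.val_mul, Units.val_mul, e2]
      simp [hA.1, hX.1]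
    · rw [Units.val_mul, Units.val_mul, Units.val_mul, Units.val_mul, e2]
      simp [hi]
      linear_combination (A : ℍ[ℝ]).imI * h

/-- the first conjugate -/
theorem B2b_one (hl : (l : ℍ[ℝ]) = ⟨c, d, 0, 0⟩) (hcd : c ^ 2 + d ^ 2 = 1) (hA : UI (A : ℍ[ℝ])) :
    ∃ X ∈ Subgroup.closure {l, A}, UI (X : ℍ[ℝ]) ∧ (X : ℍ[ℝ]).imI = (A : ℍ[ℝ]).imI ∧
      (X : ℍ[ℝ]).imJ = (c ^ 2 - d ^ 2) * (A : ℍ[ℝ]).imJ + 2 * c * d * (A : ℍ[ℝ]).imK ∧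
      (X : ℍ[ℝ]).imK = -(2 * c * d * (A : ℍ[ℝ]).imJ) + (c ^ 2 - d ^ 2) * (A : ℍ[ℝ]).imK := by
  have hAm : A ∈ Subgroup.closure {l, A} := Subgroup.subset_closure (by simp)
  have hlm : l ∈ Subgroup.closure {l, A} := Subgroup.subset_closure (by simp)
  have e : ((l⁻¹ * A * l : ℍ[ℝ]ˣ) : ℍ[ℝ]) = ⟨0, (A : ℍ[ℝ]).imI,
      (c ^ 2 - d ^ 2) * (A : ℍ[ℝ]).imJ + 2 * c * d * (A : ℍ[ℝ]).imK,
      -(2 * c * d * (A : ℍ[ℝ]).imJ) + (c ^ 2 - d ^ 2) * (A : ℍ[ℝ]).imK⟩ := by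
    rw [Units.val_mul, Units.val_mul]
    exact B2b_rot _ hA hcd _ _ (B2b_inv hl hcd) hl
  refine ⟨l⁻¹ * A * l, mul_mem (mul_mem (inv_mem hlm) hAm) hlm, ?_⟩
  rw [e]
  refine ⟨⟨rfl, ?_⟩, rfl, rfl, rfl⟩
  have h2 := hA.2
  simp only
  have h3 : (c ^ 2 - d ^ 2) ^ 2 + (2 * c * d) ^ 2 = 1 := by
    have : (c ^ 2 - d ^ 2) ^ 2 + (2 * c * d) ^ 2 = (c ^ 2 + d ^ 2) ^ 2 := by ring
    rw [this, hcd]; norm_num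
  linear_combination h2 + ((A : ℍ[ℝ]).imJ ^ 2 + (A : ℍ[ℝ]).imK ^ 2) * h3

/-- the second conjugate -/
theorem B2b_two (hl : (l : ℍ[ℝ]) = ⟨c, d, 0, 0⟩) (hcd : c ^ 2 + d ^ 2 = 1) (hA : UI (A : ℍ[ℝ])) :
    ∃ X ∈ Subgroup.closure {l, A}, UI (X : ℍ[ℝ]) ∧ (X : ℍ[ℝ]).imI = (A : ℍ[ℝ]).imI ∧
      (A : ℍ[ℝ]).imI * (X : ℍ[ℝ]).imI + (A : ℍ[ℝ]).imJ * (X : ℍ[ℝ]).imJ + (A : ℍ[ℝ]).imK * (X : ℍ[ℝ]).imK =
        (A : ℍ[ℝ]).imI ^ 2 + (1 - (A : ℍ[ℝ]).imI ^ 2) * (2 * (2 * c ^ 2 - 1) ^ 2 - 1) := by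
  obtain ⟨X, hXm, hX, i1, j1, k1⟩ := B2b_one hl hcd hA
  obtain ⟨Y, hYm, hY, i2, j2, k2⟩ := B2b_one (A := X) hl hcd hX
  have hlm : l ∈ Subgroup.closure {l, A} := Subgroup.subset_closure (by simp)
  refine ⟨Y, ?_, hY, i2.trans i1, ?_⟩
  · have : Subgroup.closure {l, X} ≤ Subgroup.closure {l, A} := by
      rw [Subgroup.closure_le]
      rintro y (rfl | hy)
      · exact hlm
      · rw [Set.mem_singleton_iff] at hy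
        rw [hy]; exact hXm
    exact this hYm
  · rw [i2, j2, k2, i1, j1, k1]
    have h2 := hA.2
    have hd2 : d ^ 2 = 1 - c ^ 2 := by linarith
    have h5 : (A : ℍ[ℝ]).imJ ^ 2 + (A : ℍ[ℝ]).imK ^ 2 = 1 - (A : ℍ[ℝ]).imI ^ 2 := by linarith
    have : (A : ℍ[ℝ]).imI * (A : ℍ[ℝ]).imI +
        (A : ℍ[ℝ]).imJ *
            ((c ^ 2 - d ^ 2) * ((c ^ 2 - d ^ 2) * (A : ℍ[ℝ]).imJ + 2 * c * d * (A : ℍ[ℝ]).imK) +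
              2 * c * d * (-(2 * c * d * (A : ℍ[ℝ]).imJ) + (c ^ 2 - d ^ 2) * (A : ℍ[ℝ]).imK)) +
        (A : ℍ[ℝ]).imK *
            (-(2 * c * d * ((c ^ 2 - d ^ 2) * (A : ℍ[ℝ]).imJ + 2 * c * d * (A : ℍ[ℝ]).imK)) +
              (c ^ 2 - d ^ 2) * (-(2 * c * d * (A : ℍ[ℝ]).imJ) + (c ^ 2 - d ^ 2) * (A : ℍ[ℝ]).imK)) =
        (A : ℍ[ℝ]).imI ^ 2 + ((A : ℍ[ℝ]).imJ ^ 2 + (A : ℍ[ℝ]).imK ^ 2) *
          ((c ^ 2 - d ^ 2) ^ 2 - 4 * c ^ 2 * d ^ 2) := by ring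
    rw [this, h5, hd2]; ring

/-- Row B2. Half-turns orthogonal to `i`. `A = α i + u`, `x = l⁻¹ ^ k A l ^ k` unit imaginary with
`i`-component `α`, `g = ⟪x, A⟫ = α² + (1 - α²) cos (2 k θ)`, `cos 2 θ = 2 c² - 1`. `A x A = x - 2 g A` has the
`i`-component `α (1 - 2 g)`, and `A x A x A = (4 g² - 1) A - 2 g x` has `α (4 g² - 2 g - 1)`. Cases:
`c² = 1/4` (`cos 2 θ = -1/2`, `k = 1`): `α² = 2/3`: `g = 1/2`; `α² = (3 ± √5)/6`: `g = (1 ± √5)/4`, `4 g² - 2 g - 1 = 0`.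
`cos 2 θ = (√5 - 1)/4` (`cos 4 θ = -(√5 + 1)/4`) or `cos 2 θ = -(√5 + 1)/4` (`cos 4 θ = (√5 - 1)/4`):
`α² = (5 + √5)/10` needs `cos (2 k θ) = -(√5 + 1)/4`, `α² = (5 - √5)/10` needs `cos (2 k θ) = (√5 - 1)/4`; `g = 1/2`. -/
theorem exists_perp (hl : (l : ℍ[ℝ]) = ⟨c, d, 0, 0⟩) (hcd : c ^ 2 + d ^ 2 = 1) (hA : UI (A : ℍ[ℝ]))
    (h : (c ^ 2 = 1 / 4 ∧ ((A : ℍ[ℝ]).imI ^ 2 = 2 / 3 ∨ (A : ℍ[ℝ]).imI ^ 2 = (3 + √5) / 6 ∨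
        (A : ℍ[ℝ]).imI ^ 2 = (3 - √5) / 6)) ∨
      ((2 * c ^ 2 - 1 = (√5 - 1) / 4 ∨ 2 * c ^ 2 - 1 = -(√5 + 1) / 4) ∧
        ((A : ℍ[ℝ]).imI ^ 2 = (5 + √5) / 10 ∨ (A : ℍ[ℝ]).imI ^ 2 = (5 - √5) / 10))) :
    ∃ h ∈ Subgroup.closure {l, A}, (h : ℍ[ℝ]).re = 0 ∧ (h : ℍ[ℝ]).imI = 0 := by
  have h5 : √5 ^ 2 = 5 := Real.sq_sqrt (by norm_num)
  obtain ⟨X, hXm, hX, i1, j1, k1⟩ := B2b_one hl hcd hA
  obtain ⟨Y, hYm, hY, i2, g2⟩ := B2b_two hl hcd hA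
  have hd2 : d ^ 2 = 1 - c ^ 2 := by linarith
  have hn : (A : ℍ[ℝ]).imJ ^ 2 + (A : ℍ[ℝ]).imK ^ 2 = 1 - (A : ℍ[ℝ]).imI ^ 2 := by
    have := hA.2
    linarith
  have g1 : (A : ℍ[ℝ]).imI * (X : ℍ[ℝ]).imI + (A : ℍ[ℝ]).imJ * (X : ℍ[ℝ]).imJ + (A : ℍ[ℝ]).imK * (X : ℍ[ℝ]).imK =
      (A : ℍ[ℝ]).imI ^ 2 + (1 - (A : ℍ[ℝ]).imI ^ 2) * (2 * c ^ 2 - 1) := by
    rw [i1, j1, k1]
    have : (A : ℍ[ℝ]).imI * (A : ℍ[ℝ]).imI +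
        (A : ℍ[ℝ]).imJ * ((c ^ 2 - d ^ 2) * (A : ℍ[ℝ]).imJ + 2 * c * d * (A : ℍ[ℝ]).imK) +
        (A : ℍ[ℝ]).imK * (-(2 * c * d * (A : ℍ[ℝ]).imJ) + (c ^ 2 - d ^ 2) * (A : ℍ[ℝ]).imK) =
        (A : ℍ[ℝ]).imI ^ 2 + ((A : ℍ[ℝ]).imJ ^ 2 + (A : ℍ[ℝ]).imK ^ 2) * (c ^ 2 - d ^ 2) := by ring
    rw [this, hn, hd2]; ring
  rcases h with ⟨hc, h⟩ | ⟨hc, h⟩
  · refine B2b_fin hA hX hXm i1 _ g1.symm ?_
    rw [hc]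
    rcases h with h | h | h
    · left; rw [h]; norm_num
    · right; rw [h]; linear_combination (1 / 4) * h5
    · right; rw [h]; linear_combination (1 / 4) * h5
  · rcases hc with hc | hc <;> rcases h with h | h
    · refine B2b_fin hA hY hYm i2 _ g2.symm (Or.inl ?_)
      rw [hc, h]
      linear_combination (-√5 / 80 + 7 / 80) * h5
    · refine B2b_fin hA hX hXm i1 _ g1.symm (Or.inl ?_)
      rw [hc, h]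
      linear_combination (1 / 40) * h5
    · refine B2b_fin hA hX hXm i1 _ g1.symm (Or.inl ?_)
      rw [hc, h]
      linear_combination (1 / 40) * h5
    · refine B2b_fin hA hY hYm i2 _ g2.symm (Or.inl ?_)
      rw [hc, h]
      linear_combination (√5 / 80 + 7 / 80) * h5

end ChiralQ
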