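import Pool.Agent.Lib.MP_bc704c_co.R.B1
import Pool.Agent.Lib.MP_bc704c_co.R.B1b
import Pool.Agent.Lib.MP_bc704c_co.R.B2b

/-! # MP_bc704c_co, row B2: exclusion, odd order -/

namespace ChiralQ

open Quaternion

variable {H : Subgroup (ℍ[ℝ]ˣ × ℍ[ℝ]ˣ)} {l A B : ℍ[ℝ]ˣ} {c d : ℝ}

/-- Row B2. `(h, -(l h)) = (h, 1) (1, -1) (1, l) (1, h)` by `Pr.right`. Contradiction to `ns`. -/
theorem Rd.no (R : Rd H l A B c d) (hz : ((-1 : ℍ[ℝ]ˣ), (1 : ℍ[ℝ]ˣ)) ∈ H)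
    (hl : (l, (1 : ℍ[ℝ]ˣ)) ∈ H) {h : ℍ[ℝ]ˣ} (hh : (h, (1 : ℍ[ℝ]ˣ)) ∈ H)
    (h0 : (h : ℍ[ℝ]).re = 0) (h1 : (h : ℍ[ℝ]).imI = 0) : False := by
  apply R.ns h h0 h1
  have e : (h, -(l * h)) = (h, (1 : ℍ[ℝ]ˣ)) * ((1 : ℍ[ℝ]ˣ), (-1 : ℍ[ℝ]ˣ)) *
      ((1 : ℍ[ℝ]ˣ), l) * ((1 : ℍ[ℝ]ˣ), h) := by
    ext <;> simp
  rw [e]
  exact H.mul_mem (H.mul_mem (H.mul_mem hh (R.pr.right hz)) (R.pr.right hl)) (R.pr.right hh)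

/-- Row B2. `B` in the plane of `j, k` inverts `l`. -/
theorem B2_inv (R : Rd H l A B c d) (hB : (B : ℍ[ℝ]).imI = 0) : B * l * B⁻¹ = l⁻¹ := by
  have h0 := R.uB.1
  have hl := R.hl
  have hc := R.conj.1
  rw [mul_inv_eq_iff_eq_mul]
  apply Units.ext
  rw [Units.val_mul, Units.val_mul, hc, hl]
  ext <;> simp [h0, hB] <;> ring

/-- Row B2. If `B` is orthogonal to `i`, `(A l)` has odd order modulo `± 1` and so has `l`: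
`B l B⁻¹ = l⁻¹` (`B` in the plane of `j, k`), `Pr.perp`, `Pr.lemY`, and `Rd.no` with `h = B`. -/
theorem Rd.perp_odd (R : Rd H l A B c d) (hB : (B : ℍ[ℝ]).imI = 0) {n m : ℕ}
    (hA : (A * l) ^ (2 * n + 1) = 1 ∨ (A * l) ^ (2 * n + 1) = -1)
    (hl : l ^ (2 * m + 1) = 1 ∨ l ^ (2 * m + 1) = -1) : False := by
  obtain ⟨k, hk, hm⟩ := R.pr.perp (B2_inv R hB) hA
  obtain ⟨hz, hl', -, hb⟩ := R.pr.lemY hl hk (Or.inl rfl) hm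
  exact R.no hz hl' hb R.uB.1 hB

/-- Row B2. `B` in the plane of `j, k` inverts `l`. -/
theorem Rd.inv_of_perp (R : Rd H l A B c d) (hB : (B : ℍ[ℝ]).imI = 0) : B * l * B⁻¹ = l⁻¹ :=
  B2_inv R hB

/-- Row B2. If `(-1, 1), (l, 1), (A, 1)` are in `H` and `A` is as in `exists_perp`: contradiction (`Rd.no`;
the `x` with `(x, 1) ∈ H` form a group). -/
theorem Rd.no_perp (R : Rd H l A B c d) (hz : ((-1 : ℍ[ℝ]ˣ), (1 : ℍ[ℝ]ˣ)) ∈ H)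
    (hl : (l, (1 : ℍ[ℝ]ˣ)) ∈ H) {X : ℍ[ℝ]ˣ} (hX : (X, (1 : ℍ[ℝ]ˣ)) ∈ H) (uX : UI (X : ℍ[ℝ]))
    (h : (c ^ 2 = 1 / 4 ∧ ((X : ℍ[ℝ]).imI ^ 2 = 2 / 3 ∨ (X : ℍ[ℝ]).imI ^ 2 = (3 + √5) / 6 ∨
        (X : ℍ[ℝ]).imI ^ 2 = (3 - √5) / 6)) ∨
      ((2 * c ^ 2 - 1 = (√5 - 1) / 4 ∨ 2 * c ^ 2 - 1 = -(√5 + 1) / 4) ∧
        ((X : ℍ[ℝ]).imI ^ 2 = (5 + √5) / 10 ∨ (X : ℍ[ℝ]).imI ^ 2 = (5 - √5) / 10))) : False := by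
  obtain ⟨g, hg, g0, g1⟩ := exists_perp R.hl R.hcd uX h
  have hle : Subgroup.closure {l, X} ≤ H.comap (MonoidHom.inl ℍ[ℝ]ˣ ℍ[ℝ]ˣ) := by
    rw [Subgroup.closure_le]
    intro x hx
    rcases hx with rfl | hx
    · exact hl
    · rw [Set.mem_singleton_iff] at hx
      subst hx
      exact hX
  exact R.no hz hl (hle hg) g0 g1

end ChiralQ
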