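import Pool.Agent.Lib.MP_bc704c_co.R.B2
/-! # MP_bc704c_co, row B3: exclusion, order 5 -/

namespace ChiralQ

open Quaternion

variable {H : Subgroup (ℍ[ℝ]ˣ × ℍ[ℝ]ˣ)} {l A B : ℍ[ℝ]ˣ} {c d : ℝ}

theorem B3_pow_units {x : ℍ[ℝ]ˣ} {n : ℕ} (h : (x : ℍ[ℝ]) ^ n = 1 ∨ (x : ℍ[ℝ]) ^ n = -1) :
    x ^ n = 1 ∨ x ^ n = -1 := by
  rcases h with h | h
  · left
    apply Units.ext
    rw [Units.val_pow_eq_pow_val, Units.val_one]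
    exact h
  · right
    apply Units.ext
    rw [Units.val_pow_eq_pow_val, Units.val_neg, Units.val_one]
    exact h

theorem B3_sqrt : √(5 : ℝ) * √5 = 5 := Real.mul_self_sqrt (by norm_num)

/-- The fifth power of the conjugate. -/
theorem B3_conj_pow {x l : ℍ[ℝ]ˣ} {n : ℕ} (h : (x * l) ^ n = 1 ∨ (x * l) ^ n = -1) :
    (l * x * l⁻¹ * l) ^ n = 1 ∨ (l * x * l⁻¹ * l) ^ n = -1 := by
  have e : l * x * l⁻¹ * l = l * (x * l) * l⁻¹ := by group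
  rw [e, conj_pow]
  rcases h with h | h
  · left
    rw [h]
    group
  · right
    rw [h, mul_neg, mul_one, neg_mul, mul_inv_cancel]

/-- Row B3. Powers. `Re (A l)² = d² α²` (`Rd.reAl`), `d² = (1 - C)/2` where `C = 2 c² - 1`, `Re l² = (1 + C)/2`. For
`C = (√5 - 1)/4`: `l ^ 5 = ± 1`; `α² = (5 + √5)/10`: `d² α² = 1/4`, `(A l)³ = ± 1`; `α² = (5 - √5)/10`:
`d² α² = (3 - √5)/8`, `(A l) ^ 5 = ± 1`. For `C = -(√5 + 1)/4`: `l ^ 5 = ± 1`; `α² = (5 + √5)/10`: `d² α² = (3 + √5)/8`;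
`α² = (5 - √5)/10`: `d² α² = 1/4`. -/
theorem Rd.pow_five (R : Rd H l A B c d)
    (hc : 2 * c ^ 2 - 1 = (√5 - 1) / 4 ∨ 2 * c ^ 2 - 1 = -(√5 + 1) / 4)
    (hA : (A : ℍ[ℝ]).imI ^ 2 = (5 + √5) / 10 ∨ (A : ℍ[ℝ]).imI ^ 2 = (5 - √5) / 10) :
    (l ^ 5 = 1 ∨ l ^ 5 = -1) ∧
    ((2 * c ^ 2 - 1 = (√5 - 1) / 4 ∧ (A : ℍ[ℝ]).imI ^ 2 = (5 + √5) / 10) ∨
      (2 * c ^ 2 - 1 = -(√5 + 1) / 4 ∧ (A : ℍ[ℝ]).imI ^ 2 = (5 - √5) / 10) →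
      (A * l) ^ 3 = 1 ∨ (A * l) ^ 3 = -1) ∧
    ((2 * c ^ 2 - 1 = (√5 - 1) / 4 ∧ (A : ℍ[ℝ]).imI ^ 2 = (5 - √5) / 10) ∨
      (2 * c ^ 2 - 1 = -(√5 + 1) / 4 ∧ (A : ℍ[ℝ]).imI ^ 2 = (5 + √5) / 10) →
      (A * l) ^ 5 = 1 ∨ (A * l) ^ 5 = -1) := by
  have h5 := B3_sqrt
  have hcd := R.hcd
  obtain ⟨hre, hn⟩ := R.reAl
  have hre2 : ((A * l : ℍ[ℝ]ˣ) : ℍ[ℝ]).re ^ 2 = d ^ 2 * (A : ℍ[ℝ]).imI ^ 2 := by
    rw [hre, neg_sq, mul_pow]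
  have hln : normSq (l : ℍ[ℝ]) = 1 := by
    rw [R.hl, Quaternion.normSq_def']
    simp only
    linarith
  refine ⟨B3_pow_units (pow5_of hln ?_), ?_, ?_⟩
  · rw [R.hl]
    show c ^ 2 = (3 + √5) / 8 ∨ c ^ 2 = (3 - √5) / 8
    rcases hc with h | h
    · left; linarith
    · right; linarith
  · rintro (⟨h1, h2⟩ | ⟨h1, h2⟩)
    · refine B3_pow_units (pow3_of hn ?_)
      have hd : d ^ 2 = (5 - √5) / 8 := by linarith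
      rw [hre2, h2, hd]
      linear_combination (-1 / 80 : ℝ) * h5
    · refine B3_pow_units (pow3_of hn ?_)
      have hd : d ^ 2 = (5 + √5) / 8 := by linarith
      rw [hre2, h2, hd]
      linear_combination (-1 / 80 : ℝ) * h5
  · rintro (⟨h1, h2⟩ | ⟨h1, h2⟩)
    · refine B3_pow_units (pow5_of hn (Or.inr ?_))
      have hd : d ^ 2 = (5 - √5) / 8 := by linarith
      rw [hre2, h2, hd]
      linear_combination (1 / 80 : ℝ) * h5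
    · refine B3_pow_units (pow5_of hn (Or.inl ?_))
      have hd : d ^ 2 = (5 + √5) / 8 := by linarith
      rw [hre2, h2, hd]
      linear_combination (1 / 80 : ℝ) * h5

/-- Row B3. Both `α², β² ≠ 0`, `(A l)³ = ± 1`, `(B l) ^ 5 = ± 1`: `(A l) ^ 5 = (A l) ^ 6 (A l)⁻¹ = (A l)⁻¹`,
`Pr.coprime` (`N = 5`), `Pr.lemY`, `Rd.no_perp` with `X = A`. -/
theorem Rd.five_both (R : Rd H l A B c d)
    (hc : 2 * c ^ 2 - 1 = (√5 - 1) / 4 ∨ 2 * c ^ 2 - 1 = -(√5 + 1) / 4)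
    (hA : (A : ℍ[ℝ]).imI ^ 2 = (5 + √5) / 10 ∨ (A : ℍ[ℝ]).imI ^ 2 = (5 - √5) / 10)
    (hl : l ^ 5 = 1 ∨ l ^ 5 = -1) (h3 : (A * l) ^ 3 = 1 ∨ (A * l) ^ 3 = -1)
    (h5 : (B * l) ^ 5 = 1 ∨ (B * l) ^ 5 = -1) : False := by
  have h6 : (A * l) ^ 6 = 1 := by
    have : (A * l) ^ 6 = ((A * l) ^ 3) ^ 2 := by rw [← pow_mul]
    rw [this]
    rcases h3 with h | h
    · rw [h, one_pow]
    · rw [h, neg_one_sq]
  have h5' : (A * l) ^ 5 = (A * l)⁻¹ := by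
    rw [eq_inv_iff_mul_eq_one, ← pow_succ]
    exact h6
  obtain ⟨k, k', hk, hk', hm⟩ := R.pr.coprime (N := 5) h5 ⟨1, Or.inl rfl, Or.inr (by rw [h5', one_mul])⟩
  obtain ⟨q1, q2, q3, q4⟩ := R.pr.lemY (n := 2) hl hk hk' hm
  exact R.no_perp q1 q2 q3 R.uA (Or.inr ⟨hc, hA⟩)

/-- Row B3. Order 5: no such situation. If `β = 0`: `Rd.pow_five` and `Rd.perp_odd` (`n = 1` or `2`, `m = 2`).
If `α = 0`: the same for `R.swap` (the `i`-component of `l A l⁻¹` is `0`). Else `{α², β²} =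
{(5 + √5)/10, (5 - √5)/10}` and one of `A l`, `B l` has order 3 and the other one order 5: `Rd.five_both` for `R`
or for `R.swap` (then `(l A l⁻¹) l = l (A l) l⁻¹`). -/
theorem Rd.five (R : Rd H l A B c d)
    (hc : 2 * c ^ 2 - 1 = (√5 - 1) / 4 ∨ 2 * c ^ 2 - 1 = -(√5 + 1) / 4)
    (hA : (A : ℍ[ℝ]).imI ^ 2 = 0 ∨ (A : ℍ[ℝ]).imI ^ 2 = (5 + √5) / 10 ∨
      (A : ℍ[ℝ]).imI ^ 2 = (5 - √5) / 10)
    (hB : (B : ℍ[ℝ]).imI ^ 2 = 0 ∨ (B : ℍ[ℝ]).imI ^ 2 = (5 + √5) / 10 ∨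
      (B : ℍ[ℝ]).imI ^ 2 = (5 - √5) / 10)
    (hne : (A : ℍ[ℝ]).imI ^ 2 ≠ (B : ℍ[ℝ]).imI ^ 2) : False := by
  have hsw : ((l * A * l⁻¹ : ℍ[ℝ]ˣ) : ℍ[ℝ]).imI = (A : ℍ[ℝ]).imI := by
    rw [R.conj.2 A]
  by_cases hB0 : (B : ℍ[ℝ]).imI ^ 2 = 0
  · have hB1 : (B : ℍ[ℝ]).imI = 0 := pow_eq_zero_iff (two_ne_zero) |>.mp hB0
    have hA' : (A : ℍ[ℝ]).imI ^ 2 = (5 + √5) / 10 ∨ (A : ℍ[ℝ]).imI ^ 2 = (5 - √5) / 10 := by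
      rcases hA with h | h
      · exact absurd (h.trans hB0.symm) hne
      · exact h
    obtain ⟨p1, p2, p3⟩ := R.pow_five hc hA'
    rcases hc with hc | hc <;> rcases hA' with hA' | hA'
    · exact R.perp_odd hB1 (n := 1) (m := 2) (p2 (Or.inl ⟨hc, hA'⟩)) p1
    · exact R.perp_odd hB1 (n := 2) (m := 2) (p3 (Or.inl ⟨hc, hA'⟩)) p1
    · exact R.perp_odd hB1 (n := 2) (m := 2) (p3 (Or.inr ⟨hc, hA'⟩)) p1
    · exact R.perp_odd hB1 (n := 1) (m := 2) (p2 (Or.inr ⟨hc, hA'⟩)) p1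
  have hB' : (B : ℍ[ℝ]).imI ^ 2 = (5 + √5) / 10 ∨ (B : ℍ[ℝ]).imI ^ 2 = (5 - √5) / 10 := by
    rcases hB with h | h
    · exact absurd h hB0
    · exact h
  obtain ⟨q1, q2, q3⟩ := R.swap.pow_five hc hB'
  by_cases hA0 : (A : ℍ[ℝ]).imI ^ 2 = 0
  · have hA1 : ((l * A * l⁻¹ : ℍ[ℝ]ˣ) : ℍ[ℝ]).imI = 0 := by
      rw [hsw]
      exact pow_eq_zero_iff (two_ne_zero) |>.mp hA0
    rcases hc with hc | hc <;> rcases hB' with hB' | hB'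
    · exact R.swap.perp_odd hA1 (n := 1) (m := 2) (q2 (Or.inl ⟨hc, hB'⟩)) q1
    · exact R.swap.perp_odd hA1 (n := 2) (m := 2) (q3 (Or.inl ⟨hc, hB'⟩)) q1
    · exact R.swap.perp_odd hA1 (n := 2) (m := 2) (q3 (Or.inr ⟨hc, hB'⟩)) q1
    · exact R.swap.perp_odd hA1 (n := 1) (m := 2) (q2 (Or.inr ⟨hc, hB'⟩)) q1
  have hA' : (A : ℍ[ℝ]).imI ^ 2 = (5 + √5) / 10 ∨ (A : ℍ[ℝ]).imI ^ 2 = (5 - √5) / 10 := by
    rcases hA with h | h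
    · exact absurd h hA0
    · exact h
  obtain ⟨p1, p2, p3⟩ := R.pow_five hc hA'
  rcases hA' with hA1 | hA1 <;> rcases hB' with hB1 | hB1
  · exact hne (hA1.trans hB1.symm)
  · rcases hc with hc1 | hc1
    · exact R.five_both (Or.inl hc1) (Or.inl hA1) p1 (p2 (Or.inl ⟨hc1, hA1⟩)) (q3 (Or.inl ⟨hc1, hB1⟩))
    · exact R.swap.five_both (Or.inr hc1) (Or.inr hB1) p1 (q2 (Or.inr ⟨hc1, hB1⟩))
        (B3_conj_pow (p3 (Or.inr ⟨hc1, hA1⟩)))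
  · rcases hc with hc1 | hc1
    · exact R.swap.five_both (Or.inl hc1) (Or.inl hB1) p1 (q2 (Or.inl ⟨hc1, hB1⟩))
        (B3_conj_pow (p3 (Or.inl ⟨hc1, hA1⟩)))
    · exact R.five_both (Or.inr hc1) (Or.inr hA1) p1 (p2 (Or.inr ⟨hc1, hA1⟩)) (q3 (Or.inr ⟨hc1, hB1⟩))
  · exact hne (hA1.trans hB1.symm)

end ChiralQ
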