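import Pool.Agent.Lib.MP_bc704c_co.R.B2
/-! # MP_bc704c_co, row B4: exclusion, order 3, the easy pairs -/

namespace ChiralQ

open Quaternion

variable {H : Subgroup (ℍ[ℝ]ˣ × ℍ[ℝ]ˣ)} {l A B : ℍ[ℝ]ˣ} {c d : ℝ}

theorem B4_pow_units {x : ℍ[ℝ]ˣ} {n : ℕ} (h : (x : ℍ[ℝ]) ^ n = 1 ∨ (x : ℍ[ℝ]) ^ n = -1) :
    x ^ n = 1 ∨ x ^ n = -1 := by
  rcases h with h | h
  · left
    apply Units.ext
    rw [Units.val_pow_eq_pow_val, Units.val_one]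
    exact h
  · right
    apply Units.ext
    rw [Units.val_pow_eq_pow_val, Units.val_neg, Units.val_one]
    exact h

theorem B4_pow_neg {x : ℍ[ℝ]ˣ} {n : ℕ} (h : (x : ℍ[ℝ]) ^ n = -1) : x ^ n = -1 := by
  apply Units.ext
  rw [Units.val_pow_eq_pow_val, Units.val_neg, Units.val_one]
  exact h

/-- Row B4. `c² = 1/4`, `d² = 3/4`, `Re (A l)² = 3 α²/4` (`Rd.reAl`), `l³ = ± 1`. -/
theorem Rd.pow_three (R : Rd H l A B c d) (hc : c ^ 2 = 1 / 4) :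
    (l ^ 3 = 1 ∨ l ^ 3 = -1) ∧
    ((A : ℍ[ℝ]).imI ^ 2 = 1 / 3 → (A * l) ^ 3 = 1 ∨ (A * l) ^ 3 = -1) ∧
    ((A : ℍ[ℝ]).imI ^ 2 = 2 / 3 → (A * l) ^ 4 = -1) ∧
    ((A : ℍ[ℝ]).imI ^ 2 = (3 + √5) / 6 ∨ (A : ℍ[ℝ]).imI ^ 2 = (3 - √5) / 6 →
      (A * l) ^ 5 = 1 ∨ (A * l) ^ 5 = -1) := by
  have hd : d ^ 2 = 3 / 4 := by
    have := R.hcd
    linarith
  obtain ⟨hre, hn⟩ := R.reAl
  have hre2 : ((A * l : ℍ[ℝ]ˣ) : ℍ[ℝ]).re ^ 2 = 3 / 4 * (A : ℍ[ℝ]).imI ^ 2 := by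
    rw [hre, neg_sq, mul_pow, hd]
  have hln : normSq (l : ℍ[ℝ]) = 1 := by
    rw [R.hl, Quaternion.normSq_def']
    simp only
    have := R.hcd
    linarith
  have hlr : (l : ℍ[ℝ]).re ^ 2 = 1 / 4 := by
    rw [R.hl]
    exact hc
  refine ⟨B4_pow_units (pow3_of hln hlr), fun h => B4_pow_units (pow3_of hn ?_),
    fun h => B4_pow_neg (pow4_of hn ?_), fun h => B4_pow_units (pow5_of hn ?_)⟩
  · rw [hre2, h]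
    norm_num
  · rw [hre2, h]
    norm_num
  · rw [hre2]
    rcases h with h | h
    · left
      rw [h]
      ring
    · right
      rw [h]
      ring

theorem B4_end (R : Rd H l A B c d) (hc : c ^ 2 = 1 / 4)
    (hB : (B : ℍ[ℝ]).imI ^ 2 = 2 / 3 ∨ (B : ℍ[ℝ]).imI ^ 2 = (3 + √5) / 6 ∨
      (B : ℍ[ℝ]).imI ^ 2 = (3 - √5) / 6)
    (h : ∃ k k' : ℍ[ℝ]ˣ, (k = 1 ∨ k = -1) ∧ (k' = 1 ∨ k' = -1) ∧ (k * (A * l), k') ∈ H) : False := by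
  obtain ⟨k, k', hk, hk', hH⟩ := h
  have hl3 : l ^ (2 * 1 + 1) = 1 ∨ l ^ (2 * 1 + 1) = -1 := (R.pow_three hc).1
  obtain ⟨h1, h2, _, h4⟩ := R.pr.lemY hl3 hk hk' hH
  exact R.no_perp h1 h2 h4 R.uB (Or.inl ⟨hc, hB⟩)

/-- Row B4. `α² = 1/3`, `β² = 2/3` (`N = 4`: `(A l) ^ 4 = ± A l`, `(B l) ^ 4 = -1`) or `β² = (3 ± √5)/6` (`N = 5`:
`(A l) ^ 5 = (A l)⁻¹`, `(B l) ^ 5 = ± 1`): `Pr.coprime`, `Pr.lemY` (`l³ = ± 1`), `Rd.no_perp` with `X = B`. -/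
theorem Rd.three_A (R : Rd H l A B c d) (hc : c ^ 2 = 1 / 4) (hA : (A : ℍ[ℝ]).imI ^ 2 = 1 / 3)
    (hB : (B : ℍ[ℝ]).imI ^ 2 = 2 / 3 ∨ (B : ℍ[ℝ]).imI ^ 2 = (3 + √5) / 6 ∨
      (B : ℍ[ℝ]).imI ^ 2 = (3 - √5) / 6) : False := by
  have hA3 := (R.pow_three hc).2.1 hA
  have hS := (R.swap.pow_three hc).2.2
  refine B4_end R hc hB ?_
  rcases hB with hB | hB
  · refine R.pr.coprime (N := 4) (Or.inr (hS.1 hB)) ?_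
    rcases hA3 with h3 | h3
    · exact ⟨1, Or.inl rfl, Or.inl (by rw [pow_succ, h3])⟩
    · exact ⟨-1, Or.inr rfl, Or.inl (by rw [pow_succ, h3])⟩
  · refine R.pr.coprime (N := 5) (hS.2 hB) ⟨1, Or.inl rfl, Or.inr ?_⟩
    have h6 : (A * l) ^ 6 = 1 := by
      have e : (A * l) ^ 6 = (A * l) ^ 3 * (A * l) ^ 3 := by rw [← pow_add]
      rw [e]
      rcases hA3 with h3 | h3
      · rw [h3, mul_one]
      · rw [h3, neg_mul_neg, mul_one]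
    rw [one_mul]
    rw [eq_inv_iff_mul_eq_one, ← pow_succ]
    exact h6

/-- Row B4. `α² = 2/3`, `β² = (3 ± √5)/6`: `N = 5`, `(A l) ^ 5 = - A l`. -/
theorem Rd.three_B (R : Rd H l A B c d) (hc : c ^ 2 = 1 / 4) (hA : (A : ℍ[ℝ]).imI ^ 2 = 2 / 3)
    (hB : (B : ℍ[ℝ]).imI ^ 2 = (3 + √5) / 6 ∨ (B : ℍ[ℝ]).imI ^ 2 = (3 - √5) / 6) : False := by
  have hA4 := (R.pow_three hc).2.2.1 hA
  have hS := (R.swap.pow_three hc).2.2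
  refine B4_end R hc (Or.inr hB) ?_
  refine R.pr.coprime (N := 5) (hS.2 hB) ⟨-1, Or.inr rfl, Or.inl ?_⟩
  rw [pow_succ, hA4]

/-- Row B4. `β = 0`, `α² ∈ {1/3, (3 ± √5)/6}`: `Rd.perp_odd` (`m = 1`, `n = 1` or `2`). -/
theorem Rd.three_C (R : Rd H l A B c d) (hc : c ^ 2 = 1 / 4) (hB : (B : ℍ[ℝ]).imI = 0)
    (hA : (A : ℍ[ℝ]).imI ^ 2 = 1 / 3 ∨ (A : ℍ[ℝ]).imI ^ 2 = (3 + √5) / 6 ∨
      (A : ℍ[ℝ]).imI ^ 2 = (3 - √5) / 6) : False := by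
  have hP := R.pow_three hc
  have hl3 : l ^ (2 * 1 + 1) = 1 ∨ l ^ (2 * 1 + 1) = -1 := hP.1
  rcases hA with hA | hA
  · exact R.perp_odd hB (n := 1) (m := 1) (hP.2.1 hA) hl3
  · exact R.perp_odd hB (n := 2) (m := 1) (hP.2.2.2 hA) hl3

end ChiralQ
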