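import Pool.Agent.Lib.MP_bc704c_co.R.B1
import Pool.Agent.Lib.MP_bc704c_co.R.B1b

/-! # MP_bc704c_co, row B5: the inner products -/

namespace ChiralQ

open Quaternion

variable {H : Subgroup (ℍ[ℝ]ˣ × ℍ[ℝ]ˣ)} {l A B : ℍ[ℝ]ˣ} {c d : ℝ}

theorem B5_mem1 (R : Rd H l A B c d) : (A * B, B * (l * A * l⁻¹)) ∈ H := by
  have h1 := R.pr.ab
  have h2 := R.pr.sw _ _ h1
  exact H.mul_mem h1 h2

theorem B5_mem2 (R : Rd H l A B c d) : (B * (l * A * l⁻¹), l * (A * B) * l⁻¹) ∈ H :=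
  R.pr.sw _ _ (B5_mem1 R)

theorem B5_mem3 (R : Rd H l A B c d) :
    (l ^ 2 * A * l⁻¹ ^ 2 * B, l ^ 2 * B * l⁻¹ ^ 2 * (l * A * l⁻¹)) ∈ H := by
  have h1 := R.pr.ab
  have h2 := R.pr.sw _ _ h1
  have h3 := H.pow_mem R.pr.ll 2
  have h4 := H.pow_mem (H.inv_mem R.pr.ll) 2
  exact H.mul_mem (H.mul_mem (H.mul_mem h3 h1) h4) h2

theorem B5_re1 (R : Rd H l A B c d) : ((A * B : ℍ[ℝ]ˣ) : ℍ[ℝ]).re =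
    -((A : ℍ[ℝ]).imI * (B : ℍ[ℝ]).imI + (A : ℍ[ℝ]).imJ * (B : ℍ[ℝ]).imJ +
      (A : ℍ[ℝ]).imK * (B : ℍ[ℝ]).imK) := by
  have hA := R.uA.1
  have hB := R.uB.1
  rw [Units.val_mul, Quaternion.re_mul, hA, hB]
  ring

theorem B5_re2 (R : Rd H l A B c d) : ((B * (l * A * l⁻¹) : ℍ[ℝ]ˣ) : ℍ[ℝ]).re =
    -((A : ℍ[ℝ]).imI * (B : ℍ[ℝ]).imI +
      ((c ^ 2 - d ^ 2) * (A : ℍ[ℝ]).imJ - 2 * c * d * (A : ℍ[ℝ]).imK) * (B : ℍ[ℝ]).imJ +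
      (2 * c * d * (A : ℍ[ℝ]).imJ + (c ^ 2 - d ^ 2) * (A : ℍ[ℝ]).imK) * (B : ℍ[ℝ]).imK) := by
  have hA := R.uA.1
  have hB := R.uB.1
  rw [Units.val_mul, R.conj.2 A, Quaternion.re_mul, hA, hB]
  ring

theorem B5_re3 (R : Rd H l A B c d) : ((l ^ 2 * A * l⁻¹ ^ 2 * B : ℍ[ℝ]ˣ) : ℍ[ℝ]).re =
    -((A : ℍ[ℝ]).imI * (B : ℍ[ℝ]).imI +
      ((c ^ 2 - d ^ 2) * ((c ^ 2 - d ^ 2) * (A : ℍ[ℝ]).imJ - 2 * c * d * (A : ℍ[ℝ]).imK) -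
        2 * c * d * (2 * c * d * (A : ℍ[ℝ]).imJ + (c ^ 2 - d ^ 2) * (A : ℍ[ℝ]).imK)) *
        (B : ℍ[ℝ]).imJ +
      (2 * c * d * ((c ^ 2 - d ^ 2) * (A : ℍ[ℝ]).imJ - 2 * c * d * (A : ℍ[ℝ]).imK) +
        (c ^ 2 - d ^ 2) * (2 * c * d * (A : ℍ[ℝ]).imJ + (c ^ 2 - d ^ 2) * (A : ℍ[ℝ]).imK)) *
        (B : ℍ[ℝ]).imK) := by
  have hA := R.uA.1
  have hB := R.uB.1
  have e1 : l ^ 2 * A * l⁻¹ ^ 2 * B = l * (l * A * l⁻¹) * l⁻¹ * B := by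
    simp only [pow_two, mul_assoc]
  rw [e1, Units.val_mul, R.conj.2 (l * A * l⁻¹), R.conj.2 A, Quaternion.re_mul, hA, hB]
  ring

/-- Row B5. Minus the three real parts are the inner products `g_j` of `l ^ j A l ^ -j` and `B`,
`g_j = α β + r cos (χ + 2 j θ)`, `r² = (1 - α²)(1 - β²)`, `cos 2 θ = -1/2`. They satisfy `Cs` because the
elements are first components of elements of `H`. In coordinates (`Rd.conj`). -/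
theorem Rd.gram3 (R : Rd H l A B c d) (hc : c ^ 2 = 1 / 4) :
    Cs ((A * B : ℍ[ℝ]ˣ) : ℍ[ℝ]).re ∧ Cs ((B * (l * A * l⁻¹) : ℍ[ℝ]ˣ) : ℍ[ℝ]).re ∧
    Cs ((l ^ 2 * A * l⁻¹ ^ 2 * B : ℍ[ℝ]ˣ) : ℍ[ℝ]).re ∧
    ((A * B : ℍ[ℝ]ˣ) : ℍ[ℝ]).re + ((B * (l * A * l⁻¹) : ℍ[ℝ]ˣ) : ℍ[ℝ]).re +
      ((l ^ 2 * A * l⁻¹ ^ 2 * B : ℍ[ℝ]ˣ) : ℍ[ℝ]).re =
      -3 * (A : ℍ[ℝ]).imI * (B : ℍ[ℝ]).imI ∧
    ((A * B : ℍ[ℝ]ˣ) : ℍ[ℝ]).re ^ 2 + ((B * (l * A * l⁻¹) : ℍ[ℝ]ˣ) : ℍ[ℝ]).re ^ 2 +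
      ((l ^ 2 * A * l⁻¹ ^ 2 * B : ℍ[ℝ]ˣ) : ℍ[ℝ]).re ^ 2 =
      3 * (A : ℍ[ℝ]).imI ^ 2 * (B : ℍ[ℝ]).imI ^ 2 +
        3 / 2 * ((1 - (A : ℍ[ℝ]).imI ^ 2) * (1 - (B : ℍ[ℝ]).imI ^ 2)) := by
  have hd : d ^ 2 = 3 / 4 := by linarith [R.hcd]
  have hA := R.uA.2
  have hB := R.uB.2
  refine ⟨R.cs _ _ (B5_mem1 R), R.cs _ _ (B5_mem2 R), R.cs _ _ (B5_mem3 R), ?_, ?_⟩
  · rw [B5_re1 R, B5_re2 R, B5_re3 R]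
    set α := (A : ℍ[ℝ]).imI
    set a := (A : ℍ[ℝ]).imJ
    set b := (A : ℍ[ℝ]).imK
    set β := (B : ℍ[ℝ]).imI
    set u := (B : ℍ[ℝ]).imJ
    set v := (B : ℍ[ℝ]).imK
    have hC : c ^ 2 - d ^ 2 = -1 / 2 := by rw [hc, hd]; norm_num
    have hS : (2 * c * d) ^ 2 = 3 / 4 := by
      have : (2 * c * d) ^ 2 = 4 * (c ^ 2 * d ^ 2) := by ring
      rw [this, hc, hd]; norm_num
    rw [hC]
    generalize 2 * c * d = S at hS ⊢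
    linear_combination (a * u + b * v) * hS
  · rw [B5_re1 R, B5_re2 R, B5_re3 R]
    set α := (A : ℍ[ℝ]).imI
    set a := (A : ℍ[ℝ]).imJ
    set b := (A : ℍ[ℝ]).imK
    set β := (B : ℍ[ℝ]).imI
    set u := (B : ℍ[ℝ]).imJ
    set v := (B : ℍ[ℝ]).imK
    have hC : c ^ 2 - d ^ 2 = -1 / 2 := by rw [hc, hd]; norm_num
    have hS : (2 * c * d) ^ 2 = 3 / 4 := by
      have : (2 * c * d) ^ 2 = 4 * (c ^ 2 * d ^ 2) := by ring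
      rw [this, hc, hd]; norm_num
    rw [hC]
    generalize 2 * c * d = S at hS ⊢
    have h1 : 1 - α ^ 2 = a ^ 2 + b ^ 2 := by linarith
    have h2 : 1 - β ^ 2 = u ^ 2 + v ^ 2 := by linarith
    rw [h1, h2]
    have e1 : -1 / 2 * (-1 / 2 * a - S * b) - S * (S * a + -1 / 2 * b) = -1 / 2 * a + S * b := by
      linear_combination (-a) * hS
    have e2 : S * (-1 / 2 * a - S * b) + -1 / 2 * (S * a + -1 / 2 * b) = -(S * a) + -1 / 2 * b := by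
      linear_combination (-b) * hS
    rw [e1, e2]
    linear_combination (2 * (a * v - b * u) ^ 2) * hS

/-- Row B5. `c² = 1/2`: `g_0 = ⟪u, B⟫`, `g_1` the same after a rotation by a right angle. -/
theorem Rd.gram4 (R : Rd H l A B c d) (hc : c ^ 2 = 1 / 2) (hB : (B : ℍ[ℝ]).imI = 0) :
    Cs ((A * B : ℍ[ℝ]ˣ) : ℍ[ℝ]).re ∧ Cs ((B * (l * A * l⁻¹) : ℍ[ℝ]ˣ) : ℍ[ℝ]).re ∧
    ((A * B : ℍ[ℝ]ˣ) : ℍ[ℝ]).re ^ 2 + ((B * (l * A * l⁻¹) : ℍ[ℝ]ˣ) : ℍ[ℝ]).re ^ 2 =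
      1 - (A : ℍ[ℝ]).imI ^ 2 := by
  have hd : d ^ 2 = 1 / 2 := by linarith [R.hcd]
  have hA := R.uA.2
  have hB2 := R.uB.2
  refine ⟨R.cs _ _ (B5_mem1 R), R.cs _ _ (B5_mem2 R), ?_⟩
  rw [B5_re1 R, B5_re2 R, hB]
  rw [hB] at hB2
  set α := (A : ℍ[ℝ]).imI
  set a := (A : ℍ[ℝ]).imJ
  set b := (A : ℍ[ℝ]).imK
  set u := (B : ℍ[ℝ]).imJ
  set v := (B : ℍ[ℝ]).imK
  have hC : c ^ 2 - d ^ 2 = 0 := by rw [hc, hd]; norm_num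
  have hS : (2 * c * d) ^ 2 = 1 := by
    have : (2 * c * d) ^ 2 = 4 * (c ^ 2 * d ^ 2) := by ring
    rw [this, hc, hd]; norm_num
  rw [hC]
  generalize 2 * c * d = S at hS ⊢
  have h1 : 1 - α ^ 2 = a ^ 2 + b ^ 2 := by linarith
  have h2 : u ^ 2 + v ^ 2 = 1 := by linarith
  rw [h1]
  linear_combination (a * v - b * u) ^ 2 * hS + (a ^ 2 + b ^ 2) * h2

end ChiralQ
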