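import Pool.Agent.Lib.MP_bc704c_co.R.B1

/-! # MP_bc704c_co, row B5: the inner products -/

namespace ChiralQ

open Quaternion

variable {H : Subgroup (ℍ[ℝ]ˣ × ℍ[ℝ]ˣ)} {l A B : ℍ[ℝ]ˣ} {c d : ℝ}

theorem B5b_sqrt : (2.236 : ℝ) < √5 ∧ √5 < 2.237 := by
  constructor
  · rw [Real.lt_sqrt (by norm_num)]; norm_num
  · rw [Real.sqrt_lt' (by norm_num)]; norm_num

theorem B5b_one {x : ℝ} (hx : Cs x) (h : x ^ 2 ≤ 1 / 2) :
    x = 0 ∨ x ^ 2 = 1 / 4 ∨ x ^ 2 = 1 / 2 ∨ x ^ 2 = (3 - √5) / 8 := by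
  obtain ⟨h1, h2⟩ := B5b_sqrt
  rcases hx with h0 | h0 | h0 | h0 | h0 | h0
  · exact Or.inl h0
  · exfalso; rw [h0] at h; norm_num at h
  · exact Or.inr (Or.inl h0)
  · exact Or.inr (Or.inr (Or.inl h0))
  · exfalso; linarith
  · exact Or.inr (Or.inr (Or.inr h0))

/-- Row B5. The squares are in `{0, 1, 1/4, 1/2, (3 ± √5)/8}` and their sum is `1/2`: they are `0, 0, 1/2`
(then the sum of the numbers is not an integer) or `0, 1/4, 1/4`. (Use `2.236 < √5 < 2.237` to exclude the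
other combinations.) -/
theorem three_cs {x y w : ℝ} (hx : Cs x) (hy : Cs y) (hw : Cs w)
    (h2 : x ^ 2 + y ^ 2 + w ^ 2 = 1 / 2) (h1 : (x + y + w) ^ 2 = 0 ∨ (x + y + w) ^ 2 = 1) :
    (x = 0 ∧ y ^ 2 = 1 / 4) ∨ (y = 0 ∧ x ^ 2 = 1 / 4) ∨ (w = 0 ∧ x ^ 2 = 1 / 4 ∧ y ^ 2 = 1 / 4) := by
  obtain ⟨s1, s2⟩ := B5b_sqrt
  have px := sq_nonneg x
  have py := sq_nonneg y
  have pw := sq_nonneg w
  have hx' := B5b_one hx (by linarith)
  have hy' := B5b_one hy (by linarith)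
  have hw' := B5b_one hw (by linarith)
  rcases hx' with a | a | a | a <;> rcases hy' with b | b | b | b <;>
    rcases hw' with e | e | e | e
  all_goals first
    | exact Or.inl ⟨a, b⟩
    | exact Or.inr (Or.inl ⟨b, a⟩)
    | exact Or.inr (Or.inr ⟨e, a, b⟩)
    | (exfalso; simp only [a, b, e] at h2; norm_num at h2; done)
    | (exfalso; simp only [a, b, e] at h2; norm_num at h2; linarith)
    | (exfalso
       subst a
       subst b
       rcases h1 with h1 | h1 <;> simp only [zero_add, add_zero] at h1 <;> rw [h1] at e <;>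
         norm_num at e)
    | (exfalso
       subst a
       subst e
       rcases h1 with h1 | h1 <;> simp only [zero_add, add_zero] at h1 <;> rw [h1] at b <;>
         norm_num at b)
    | (exfalso
       subst b
       subst e
       rcases h1 with h1 | h1 <;> simp only [zero_add, add_zero] at h1 <;> rw [h1] at a <;>
         norm_num at a)

theorem two_cs {x y : ℝ} (hx : Cs x) (hy : Cs y) (h2 : x ^ 2 + y ^ 2 = 1 / 2) :
    (x = 0 ∧ y ^ 2 = 1 / 2) ∨ (y = 0 ∧ x ^ 2 = 1 / 2) ∨ (x ^ 2 = 1 / 4 ∧ y ^ 2 = 1 / 4) := by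
  obtain ⟨s1, s2⟩ := B5b_sqrt
  have px := sq_nonneg x
  have py := sq_nonneg y
  have hx' := B5b_one hx (by linarith)
  have hy' := B5b_one hy (by linarith)
  rcases hx' with a | a | a | a <;> rcases hy' with b | b | b | b
  all_goals first
    | exact Or.inl ⟨a, b⟩
    | exact Or.inr (Or.inl ⟨b, a⟩)
    | exact Or.inr (Or.inr ⟨a, b⟩)
    | (exfalso; simp only [a, b] at h2; norm_num at h2; done)
    | (exfalso; simp only [a, b] at h2; norm_num at h2; linarith)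

end ChiralQ
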