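import Pool.Agent.Lib.MP_bc704c_co.R.B4
import Pool.Agent.Lib.MP_bc704c_co.R.B5
import Pool.Agent.Lib.MP_bc704c_co.R.B5b
/-! # MP_bc704c_co, row B6: exclusion, order 3, octahedral case -/

namespace ChiralQ

open Quaternion

variable {H : Subgroup (ℍ[ℝ]ˣ × ℍ[ℝ]ˣ)} {l A B : ℍ[ℝ]ˣ} {c d : ℝ}

/-- inverse of a unit imaginary quaternion -/
theorem B6_inv {X : ℍ[ℝ]ˣ} (hX : X * X = -1) : X⁻¹ = -X := by
  rw [inv_eq_iff_mul_eq_one, mul_neg, hX, neg_neg]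

/-- the real identities -/
theorem B6_real {c d α p q v w p' q' : ℝ} (hc : c ^ 2 = 1 / 4) (hd : d ^ 2 = 3 / 4)
    (hα : α ^ 2 = 2 / 3) (hA : α ^ 2 + p ^ 2 + q ^ 2 = 1) (hB : v ^ 2 + w ^ 2 = 1)
    (hp : p' = -(1 / 2) * p + 2 * c * d * q) (hq : q' = -(2 * c * d) * p - 1 / 2 * q)
    (h0 : p' * v + q' * w = 0) :
    ∃ k : ℝ, (k = 1 ∨ k = -1) ∧ p' * w - q' * v = k * (2 * c * d * α ^ 2) ∧
      -(α * w) = k * (2 * d * α * (c * p - d * q)) ∧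
      α * v = k * (2 * d * α * (d * p + c * q)) := by
  have hn : p' ^ 2 + q' ^ 2 = 1 / 3 := by
    rw [hp, hq]
    linear_combination (4 * d ^ 2 * (p ^ 2 + q ^ 2)) * hc + (p ^ 2 + q ^ 2) * hd + hA - hα
  have hw : w = 3 * (p' * w - q' * v) * p' := by
    linear_combination (-3 * w) * hn + (3 * q') * h0
  have hv : v = -(3 * (p' * w - q' * v) * q') := by
    linear_combination (-3 * v) * hn + (3 * p') * h0
  have hk : (3 * (p' * w - q' * v)) ^ 2 = 3 := by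
    linear_combination (9 * (v ^ 2 + w ^ 2)) * hn + 3 * hB - 9 * (p' * v + q' * w) * h0
  obtain ⟨κ, hκ⟩ : ∃ κ : ℝ, κ = 3 * (p' * w - q' * v) := ⟨_, rfl⟩
  rw [← hκ] at hw hv hk
  have hS : (4 * c * d) ^ 2 = 3 := by
    linear_combination (16 * d ^ 2) * hc + 4 * hd
  have hprod : (κ - 4 * c * d) * (κ + 4 * c * d) = 0 := by
    linear_combination hk - hS
  have e1 : p' * w - q' * v = κ / 3 := by
    rw [hκ]; ring
  have e2 : -2 * c * p' = c * p - d * q := by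
    rw [hp]; linear_combination (-4 * d * q) * hc
  have e3 : -2 * c * q' = d * p + c * q := by
    rw [hq]; linear_combination (4 * d * p) * hc
  rcases mul_eq_zero.mp hprod with h | h
  · have hκ' : κ = 4 * c * d := by linarith
    refine ⟨1, Or.inl rfl, ?_, ?_, ?_⟩
    · rw [e1, hα, hκ']; ring
    · rw [hw, ← e2, hκ']; ring
    · rw [hv, ← e3, hκ']; ring
  · have hκ' : κ = -(4 * c * d) := by linarith
    refine ⟨-1, Or.inr rfl, ?_, ?_, ?_⟩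
    · rw [e1, hα, hκ']; ring
    · rw [hw, ← e2, hκ']; ring
    · rw [hv, ← e3, hκ']; ring

/-- Row B6. `a' = l² A l⁻² = α i + u'`, `α² = 2/3`, `|u'|² = 1/3`, `B` is a unit vector orthogonal to `i` and to
`a'` (`Re (a' B) = 0`), so `B = ± √3 i u'`, i.e. `B.imJ = -κ u'_K`, `B.imK = κ u'_J` with `κ² = 3`; the product
`a' B` and `l (A l A⁻¹ l) l⁻¹` in coordinates (`d² = 3/4`). Checked numerically: equal up to sign.
(The sign depends on the signs of `κ α d`.) -/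
theorem Rd.oct2_id (R : Rd H l A B c d) (hc : c ^ 2 = 1 / 4) (hA : (A : ℍ[ℝ]).imI ^ 2 = 2 / 3)
    (hB : (B : ℍ[ℝ]).imI = 0) (h0 : ((l ^ 2 * A * l⁻¹ ^ 2 * B : ℍ[ℝ]ˣ) : ℍ[ℝ]).re = 0) :
    ∃ k : ℍ[ℝ]ˣ, (k = 1 ∨ k = -1) ∧
      l ^ 2 * A * l⁻¹ ^ 2 * B = k * (l * (A * l * A⁻¹ * l) * l⁻¹) := by
  have hd : d ^ 2 = 3 / 4 := by linarith [R.hcd]
  have hconj := R.conj.2
  -- the conjugate by the square
  have g1 : l ^ 2 * A * l⁻¹ ^ 2 = l * (l * A * l⁻¹) * l⁻¹ := by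
    rw [pow_two, pow_two]; group
  have g2 : l * (A * l * A⁻¹ * l) * l⁻¹ = -(l * A * (l * A)) := by
    rw [B6_inv R.pr.aa]
    simp only [mul_neg, neg_mul, mul_assoc, mul_inv_cancel, mul_one]
  set p := (A : ℍ[ℝ]).imJ with hpdef
  set q := (A : ℍ[ℝ]).imK with hqdef
  set α := (A : ℍ[ℝ]).imI with hαdef
  set v := (B : ℍ[ℝ]).imJ with hvdef
  set w := (B : ℍ[ℝ]).imK with hwdef
  have hC : c ^ 2 - d ^ 2 = -(1 / 2) := by linarith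
  have a1 : ((l * A * l⁻¹ : ℍ[ℝ]ˣ) : ℍ[ℝ]) =
      ⟨0, α, -(1 / 2) * p - 2 * c * d * q, 2 * c * d * p + -(1 / 2) * q⟩ := by
    rw [hconj, hC, R.uA.1]
  obtain ⟨p', hp'⟩ : ∃ p' : ℝ, p' = -(1 / 2) * p + 2 * c * d * q := ⟨_, rfl⟩
  obtain ⟨q', hq'⟩ : ∃ q' : ℝ, q' = -(2 * c * d) * p - 1 / 2 * q := ⟨_, rfl⟩
  have hS : (2 * c * d) ^ 2 = 3 / 4 := by
    linear_combination (4 * d ^ 2) * hc + hd
  have a2 : ((l * (l * A * l⁻¹) * l⁻¹ : ℍ[ℝ]ˣ) : ℍ[ℝ]) = ⟨0, α, p', q'⟩ := by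
    rw [hconj, hC, a1, hp', hq']
    ext
    · rfl
    · rfl
    · show -(1 / 2) * (-(1 / 2) * p - 2 * c * d * q) - 2 * c * d * (2 * c * d * p + -(1 / 2) * q) =
        -(1 / 2) * p + 2 * c * d * q
      linear_combination (-p) * hS
    · show 2 * c * d * (-(1 / 2) * p - 2 * c * d * q) + -(1 / 2) * (2 * c * d * p + -(1 / 2) * q) =
        -(2 * c * d) * p - 1 / 2 * q
      linear_combination (-q) * hS
  have hAe : (A : ℍ[ℝ]) = ⟨0, α, p, q⟩ := by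
    ext
    · exact R.uA.1
    · rfl
    · rfl
    · rfl
  have hBe : (B : ℍ[ℝ]) = ⟨0, 0, v, w⟩ := by
    ext
    · exact R.uB.1
    · exact hB
    · rfl
    · rfl
  have hAn : α ^ 2 + p ^ 2 + q ^ 2 = 1 := R.uA.2
  have hBn : v ^ 2 + w ^ 2 = 1 := by
    have := R.uB.2
    rw [hB] at this
    linarith
  have h0' : p' * v + q' * w = 0 := by
    rw [g1, Units.val_mul, a2, hBe] at h0
    simp only [Quaternion.re_mul] at h0
    linarith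
  obtain ⟨k, hk, k1, k2, k3⟩ := B6_real hc hd hA hAn hBn hp' hq' h0'
  have hlA : ((l * A : ℍ[ℝ]ˣ) : ℍ[ℝ]) = ⟨-(d * α), c * α, c * p - d * q, d * p + c * q⟩ := by
    rw [Units.val_mul, R.hl, hAe]
    ext <;> simp <;> ring
  have key : (⟨0, α, p', q'⟩ : ℍ[ℝ]) * ⟨0, 0, v, w⟩ =
      k • -((⟨-(d * α), c * α, c * p - d * q, d * p + c * q⟩ : ℍ[ℝ]) *
        ⟨-(d * α), c * α, c * p - d * q, d * p + c * q⟩) := by
    have hJK : (c * p - d * q) ^ 2 + (d * p + c * q) ^ 2 = 1 / 3 := by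
      linear_combination (p ^ 2 + q ^ 2) * hc + (p ^ 2 + q ^ 2) * hd + hAn - hA
    have hda : d ^ 2 * α ^ 2 = 1 / 2 := by rw [hd, hA]; norm_num
    have hca : c ^ 2 * α ^ 2 = 1 / 6 := by rw [hc, hA]; norm_num
    ext
    · simp
      have : -(p' * v) - q' * w = 0 := by linarith
      rw [this]
      have e : d * α * (d * α) - c * α * (c * α) - (c * p - d * q) * (c * p - d * q)
          - (d * p + c * q) * (d * p + c * q) = 0 := by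
        linear_combination hda - hca - hJK
      symm
      rw [mul_eq_zero]
      right
      linarith
    · simp
      linear_combination k1
    · simp
      linear_combination k2
    · simp
      linear_combination k3
  have key' : ((l * (l * A * l⁻¹) * l⁻¹ : ℍ[ℝ]ˣ) : ℍ[ℝ]) * (B : ℍ[ℝ]) =
      k • -(((l * A : ℍ[ℝ]ˣ) : ℍ[ℝ]) * ((l * A : ℍ[ℝ]ˣ) : ℍ[ℝ])) := by
    rw [a2, hBe, hlA]
    exact key
  rcases hk with rfl | rfl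
  · refine ⟨1, Or.inl rfl, ?_⟩
    rw [g1, g2]
    apply Units.ext
    rw [Units.val_mul]
    refine key'.trans ?_
    rw [one_smul, one_mul, Units.val_neg, Units.val_mul (l * A) (l * A)]
  · refine ⟨-1, Or.inr rfl, ?_⟩
    rw [g1, g2]
    apply Units.ext
    rw [Units.val_mul]
    refine key'.trans ?_
    rw [neg_one_smul, neg_one_mul, Units.val_neg, Units.val_neg, Units.val_mul (l * A) (l * A)]

/-- Row B6. `(b, l b), (1, -1) ∈ H` contradict `ns` for `h = B`. -/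
theorem Rd.no_B (R : Rd H l A B c d) (hB : (B : ℍ[ℝ]).imI = 0) (h1 : (B, l * B) ∈ H)
    (h2 : ((1 : ℍ[ℝ]ˣ), (-1 : ℍ[ℝ]ˣ)) ∈ H) : False := by
  have h := H.mul_mem h1 h2
  have e : (B, l * B) * ((1 : ℍ[ℝ]ˣ), (-1 : ℍ[ℝ]ˣ)) = (B, -(l * B)) := by
    rw [Prod.mk_mul_mk, mul_one, mul_neg, mul_one]
  rw [e] at h
  exact R.ns B R.uB.1 hB h

/-- a product of two unit imaginary quaternions is a unit quaternion -/
theorem B6_normSq {x : ℍ[ℝ]} (hx : UI x) : normSq x = 1 := by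
  rw [Quaternion.normSq_def']
  have h1 := hx.1
  have h2 := hx.2
  rw [h1]
  linarith

theorem B6_nab {X Y : ℍ[ℝ]ˣ} (hX : UI (X : ℍ[ℝ])) (hY : UI (Y : ℍ[ℝ])) :
    normSq ((X * Y : ℍ[ℝ]ˣ) : ℍ[ℝ]) = 1 := by
  rw [Units.val_mul, map_mul, B6_normSq hX, B6_normSq hY, one_mul]

theorem B6_pow2 {X : ℍ[ℝ]ˣ} (h1 : normSq (X : ℍ[ℝ]) = 1) (h : (X : ℍ[ℝ]).re = 0) :
    X ^ 2 = -1 := by
  apply Units.ext
  rw [Units.val_pow_eq_pow_val, pow2_of h1 h, Units.val_neg, Units.val_one]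

theorem B6_pow3 {X : ℍ[ℝ]ˣ} (h1 : normSq (X : ℍ[ℝ]) = 1) (h : (X : ℍ[ℝ]).re ^ 2 = 1 / 4) :
    X ^ 3 = 1 ∨ X ^ 3 = -1 := by
  rcases pow3_of h1 h with h | h
  · left
    apply Units.ext
    rw [Units.val_pow_eq_pow_val, h, Units.val_one]
  · right
    apply Units.ext
    rw [Units.val_pow_eq_pow_val, h, Units.val_neg, Units.val_one]

/-- Row B6. `Rd.gram3`, `three_cs` (the sum is `0`, the sum of squares is `1/2`), `pow2_of`, `pow3_of`,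
`Rd.pow_three`, `Rd.inv_of_perp`; `Pr.oct0`, `Pr.oct1`, `Pr.oct2` with `oct2_id`; `Rd.no_B`. -/
theorem Rd.three_D (R : Rd H l A B c d) (hc : c ^ 2 = 1 / 4) (hA : (A : ℍ[ℝ]).imI ^ 2 = 2 / 3)
    (hB : (B : ℍ[ℝ]).imI = 0) : False := by
  obtain ⟨c1, c2, c3, s1, s2⟩ := R.gram3 hc
  have uA' : UI ((l * A * l⁻¹ : ℍ[ℝ]ˣ) : ℍ[ℝ]) := R.swap.uB
  have n1 : normSq ((A * B : ℍ[ℝ]ˣ) : ℍ[ℝ]) = 1 := B6_nab R.uA R.uB
  have n2 : normSq ((B * (l * A * l⁻¹) : ℍ[ℝ]ˣ) : ℍ[ℝ]) = 1 := B6_nab R.uB uA'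
  have hb := R.inv_of_perp hB
  obtain ⟨hl, -, h4, -⟩ := R.pow_three hc
  have h4' := h4 hA
  rw [hB] at s1 s2
  rw [hA] at s2
  have s2' : ((A * B : ℍ[ℝ]ˣ) : ℍ[ℝ]).re ^ 2 + ((B * (l * A * l⁻¹) : ℍ[ℝ]ˣ) : ℍ[ℝ]).re ^ 2 +
      ((l ^ 2 * A * l⁻¹ ^ 2 * B : ℍ[ℝ]ˣ) : ℍ[ℝ]).re ^ 2 = 1 / 2 := by
    rw [s2]; norm_num
  have s1' : (((A * B : ℍ[ℝ]ˣ) : ℍ[ℝ]).re + ((B * (l * A * l⁻¹) : ℍ[ℝ]ˣ) : ℍ[ℝ]).re +
      ((l ^ 2 * A * l⁻¹ ^ 2 * B : ℍ[ℝ]ˣ) : ℍ[ℝ]).re) ^ 2 = 0 := by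
    rw [s1]; ring
  rcases three_cs c1 c2 c3 s2' (Or.inl s1') with ⟨e0, e1⟩ | ⟨e1, e0⟩ | ⟨e2, e0, e1⟩
  · obtain ⟨m1, m2⟩ := R.pr.oct0 hb hl h4' (B6_pow2 n1 e0) (B6_pow3 n2 e1)
    exact R.no_B hB m1 m2
  · obtain ⟨m1, m2⟩ := R.pr.oct1 hb hl h4' (B6_pow3 n1 e0) (B6_pow2 n2 e1)
    exact R.no_B hB m1 m2
  · obtain ⟨m1, m2⟩ := R.pr.oct2 hb hl h4' (R.oct2_id hc hA hB e2)
    exact R.no_B hB m1 m2

end ChiralQ
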