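import Pool.Agent.Lib.MP_bc704c_co.R.B4
import Pool.Agent.Lib.MP_bc704c_co.R.B5
import Pool.Agent.Lib.MP_bc704c_co.R.B5b
/-! # MP_bc704c_co, row B7: exclusion, order 3, two icosahedral axes -/

namespace ChiralQ

open Quaternion

variable {H : Subgroup (ℍ[ℝ]ˣ × ℍ[ℝ]ˣ)} {l A B : ℍ[ℝ]ˣ} {c d : ℝ}

theorem B7_ns {x : ℍ[ℝ]} (h : UI x) : normSq x = 1 := by
  obtain ⟨h0, h1⟩ := h
  rw [Quaternion.normSq_def', h0]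
  nlinarith

theorem B7_pow {x : ℍ[ℝ]ˣ} {n : ℕ} (h : (x : ℍ[ℝ]) ^ n = 1 ∨ (x : ℍ[ℝ]) ^ n = -1) :
    x ^ n = 1 ∨ x ^ n = -1 := by
  rcases h with h | h
  · left
    apply Units.ext
    rw [Units.val_pow_eq_pow_val, h, Units.val_one]
  · right
    apply Units.ext
    rw [Units.val_pow_eq_pow_val, h, Units.val_neg, Units.val_one]

theorem B7_pow2 {x : ℍ[ℝ]ˣ} (h : (x : ℍ[ℝ]) ^ 2 = -1) : x ^ 2 = -1 := by
  apply Units.ext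
  rw [Units.val_pow_eq_pow_val, h, Units.val_neg, Units.val_one]

theorem B7_mul {x y : ℍ[ℝ]ˣ} (hx : UI (x : ℍ[ℝ])) (hy : UI (y : ℍ[ℝ])) :
    normSq ((x * y : ℍ[ℝ]ˣ) : ℍ[ℝ]) = 1 := by
  rw [Units.val_mul, map_mul, B7_ns hx, B7_ns hy, one_mul]

/-- Row B7. `9 α² β² = 1`, so the sum of the three numbers of `Rd.gram3` is `± 1`, the sum of squares is
`1/2`. `three_cs`: if the third one is `0` the first two have the squares `1/4` and the sum `± 1`, so they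
are equal: excluded by `ne`. In the other cases `Pr.ico0`, `Pr.ico1` (`pow2_of`, `pow3_of`, `Rd.pow_three` for
`R`, and for `(B l) ^ 5` the last part of `Rd.pow_three` with `R.swap` or `pow5_of` directly) and `Rd.no_perp`
with `X = A`. -/
theorem Rd.three_E (R : Rd H l A B c d) (hc : c ^ 2 = 1 / 4)
    (hA : (A : ℍ[ℝ]).imI ^ 2 = (3 + √5) / 6) (hB : (B : ℍ[ℝ]).imI ^ 2 = (3 - √5) / 6) : False := by
  have h5 : √5 ^ 2 = (5 : ℝ) := Real.sq_sqrt (by norm_num)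
  have hAB : (A : ℍ[ℝ]).imI ^ 2 * (B : ℍ[ℝ]).imI ^ 2 = 1 / 9 := by
    rw [hA, hB]
    nlinarith
  obtain ⟨g1, g2, g3, g4, g5⟩ := R.gram3 hc
  obtain ⟨x, hx⟩ : ∃ x, x = ((A * B : ℍ[ℝ]ˣ) : ℍ[ℝ]).re := ⟨_, rfl⟩
  obtain ⟨y, hy⟩ : ∃ y, y = ((B * (l * A * l⁻¹) : ℍ[ℝ]ˣ) : ℍ[ℝ]).re := ⟨_, rfl⟩
  obtain ⟨w, hw⟩ : ∃ w, w = ((l ^ 2 * A * l⁻¹ ^ 2 * B : ℍ[ℝ]ˣ) : ℍ[ℝ]).re := ⟨_, rfl⟩
  rw [← hx, ← hy, ← hw] at g4 g5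
  rw [← hx] at g1
  rw [← hy] at g2
  rw [← hw] at g3
  have hne : x ≠ y := by
    rw [hx, hy]
    exact R.ne
  have hs2 : x ^ 2 + y ^ 2 + w ^ 2 = 1 / 2 := by
    rw [g5, mul_assoc, hAB, hA, hB]
    nlinarith
  have hs1 : (x + y + w) ^ 2 = 1 := by
    rw [g4]
    have e : (-3 * (A : ℍ[ℝ]).imI * (B : ℍ[ℝ]).imI) ^ 2 =
        9 * ((A : ℍ[ℝ]).imI ^ 2 * (B : ℍ[ℝ]).imI ^ 2) := by ring
    rw [e, hAB]
    norm_num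
  obtain ⟨p1, -, -, p4⟩ := R.pow_three hc
  obtain ⟨-, -, -, q4⟩ := R.swap.pow_three hc
  have hX : (c ^ 2 = 1 / 4 ∧ ((A : ℍ[ℝ]).imI ^ 2 = 2 / 3 ∨ (A : ℍ[ℝ]).imI ^ 2 = (3 + √5) / 6 ∨
        (A : ℍ[ℝ]).imI ^ 2 = (3 - √5) / 6)) ∨
      ((2 * c ^ 2 - 1 = (√5 - 1) / 4 ∨ 2 * c ^ 2 - 1 = -(√5 + 1) / 4) ∧
        ((A : ℍ[ℝ]).imI ^ 2 = (5 + √5) / 10 ∨ (A : ℍ[ℝ]).imI ^ 2 = (5 - √5) / 10)) :=
    Or.inl ⟨hc, Or.inr (Or.inl hA)⟩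
  have n1 : normSq ((A * B : ℍ[ℝ]ˣ) : ℍ[ℝ]) = 1 := B7_mul R.uA R.uB
  have n2 : normSq ((B * (l * A * l⁻¹) : ℍ[ℝ]ˣ) : ℍ[ℝ]) = 1 := B7_mul R.uB R.swap.uB
  rcases three_cs g1 g2 g3 hs2 (Or.inr hs1) with ⟨e1, e2⟩ | ⟨e1, e2⟩ | ⟨e1, e2, e3⟩
  · have k0 : (A * B) ^ 2 = -1 := B7_pow2 (pow2_of n1 (by rw [← hx]; exact e1))
    have k1 : (B * (l * A * l⁻¹)) ^ 3 = 1 ∨ (B * (l * A * l⁻¹)) ^ 3 = -1 :=
      B7_pow (pow3_of n2 (by rw [← hy]; exact e2))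
    obtain ⟨r1, r2, r3, -⟩ := R.pr.ico0 p1 (p4 (Or.inl hA)) k0 k1
    exact R.no_perp r1 r2 r3 R.uA hX
  · have k0 : (A * B) ^ 3 = 1 ∨ (A * B) ^ 3 = -1 := B7_pow (pow3_of n1 (by rw [← hx]; exact e2))
    have k1 : (B * (l * A * l⁻¹)) ^ 2 = -1 := B7_pow2 (pow2_of n2 (by rw [← hy]; exact e1))
    obtain ⟨r1, r2, r3, -⟩ := R.pr.ico1 p1 (q4 (Or.inr hB)) k0 k1
    exact R.no_perp r1 r2 r3 R.uA hX
  · apply hne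
    have e4 : (x - y) ^ 2 = 0 := by
      rw [e1] at hs1
      nlinarith
    have e5 : x - y = 0 := pow_eq_zero_iff (two_ne_zero) |>.1 e4
    linarith

/-- Row B7. Order 3: no such situation. If `β = 0`: `three_C`, `three_D`; if `α = 0` the same for `R.swap`
(`Rd.conj`: `l A l⁻¹` has the `i`-component `α`). Otherwise `three_A`, `three_B`, `three_E` for `R` or `R.swap`. -/
theorem Rd.three (hD : ∀ {A' B' : ℍ[ℝ]ˣ}, Rd H l A' B' c d → (A' : ℍ[ℝ]).imI ^ 2 = 2 / 3 →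
      (B' : ℍ[ℝ]).imI = 0 → False)
    (R : Rd H l A B c d) (hc : c ^ 2 = 1 / 4)
    (hA : (A : ℍ[ℝ]).imI ^ 2 = 0 ∨ (A : ℍ[ℝ]).imI ^ 2 = 1 / 3 ∨ (A : ℍ[ℝ]).imI ^ 2 = 2 / 3 ∨
      (A : ℍ[ℝ]).imI ^ 2 = (3 + √5) / 6 ∨ (A : ℍ[ℝ]).imI ^ 2 = (3 - √5) / 6)
    (hB : (B : ℍ[ℝ]).imI ^ 2 = 0 ∨ (B : ℍ[ℝ]).imI ^ 2 = 1 / 3 ∨ (B : ℍ[ℝ]).imI ^ 2 = 2 / 3 ∨
      (B : ℍ[ℝ]).imI ^ 2 = (3 + √5) / 6 ∨ (B : ℍ[ℝ]).imI ^ 2 = (3 - √5) / 6)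
    (hne : (A : ℍ[ℝ]).imI ^ 2 ≠ (B : ℍ[ℝ]).imI ^ 2) : False := by
  have hI : ((l * A * l⁻¹ : ℍ[ℝ]ˣ) : ℍ[ℝ]).imI = (A : ℍ[ℝ]).imI := by
    rw [R.conj.2 A]
  have hI2 : ((l * A * l⁻¹ : ℍ[ℝ]ˣ) : ℍ[ℝ]).imI ^ 2 = (A : ℍ[ℝ]).imI ^ 2 := by rw [hI]
  rcases hB with hB | hB | hB | hB | hB
  · have hB0 : (B : ℍ[ℝ]).imI = 0 := pow_eq_zero_iff (two_ne_zero) |>.1 hB
    rcases hA with hA | hA | hA | hA | hA
    · exact hne (hA.trans hB.symm)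
    · exact R.three_C hc hB0 (Or.inl hA)
    · exact hD R hA hB0
    · exact R.three_C hc hB0 (Or.inr (Or.inl hA))
    · exact R.three_C hc hB0 (Or.inr (Or.inr hA))
  · rcases hA with hA | hA | hA | hA | hA
    · have hA0 : ((l * A * l⁻¹ : ℍ[ℝ]ˣ) : ℍ[ℝ]).imI = 0 := by
        rw [hI]; exact pow_eq_zero_iff (two_ne_zero) |>.1 hA
      exact R.swap.three_C hc hA0 (Or.inl hB)
    · exact hne (hA.trans hB.symm)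
    · exact R.swap.three_A hc hB (Or.inl (hI2.trans hA))
    · exact R.swap.three_A hc hB (Or.inr (Or.inl (hI2.trans hA)))
    · exact R.swap.three_A hc hB (Or.inr (Or.inr (hI2.trans hA)))
  · rcases hA with hA | hA | hA | hA | hA
    · have hA0 : ((l * A * l⁻¹ : ℍ[ℝ]ˣ) : ℍ[ℝ]).imI = 0 := by
        rw [hI]; exact pow_eq_zero_iff (two_ne_zero) |>.1 hA
      exact hD R.swap hB hA0
    · exact R.three_A hc hA (Or.inl hB)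
    · exact hne (hA.trans hB.symm)
    · exact R.swap.three_B hc hB (Or.inl (hI2.trans hA))
    · exact R.swap.three_B hc hB (Or.inr (hI2.trans hA))
  · rcases hA with hA | hA | hA | hA | hA
    · have hA0 : ((l * A * l⁻¹ : ℍ[ℝ]ˣ) : ℍ[ℝ]).imI = 0 := by
        rw [hI]; exact pow_eq_zero_iff (two_ne_zero) |>.1 hA
      exact R.swap.three_C hc hA0 (Or.inr (Or.inl hB))
    · exact R.three_A hc hA (Or.inr (Or.inl hB))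
    · exact R.three_B hc hA (Or.inl hB)
    · exact hne (hA.trans hB.symm)
    · exact R.swap.three_E hc hB (hI2.trans hA)
  · rcases hA with hA | hA | hA | hA | hA
    · have hA0 : ((l * A * l⁻¹ : ℍ[ℝ]ˣ) : ℍ[ℝ]).imI = 0 := by
        rw [hI]; exact pow_eq_zero_iff (two_ne_zero) |>.1 hA
      exact R.swap.three_C hc hA0 (Or.inr (Or.inr hB))
    · exact R.three_A hc hA (Or.inr (Or.inr hB))
    · exact R.three_B hc hA (Or.inr hB)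
    · exact R.three_E hc hA hB
    · exact hne (hA.trans hB.symm)

end ChiralQ
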