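import Pool.Agent.Lib.MP_bc704c_co.R.B2
import Pool.Agent.Lib.MP_bc704c_co.R.B5
import Pool.Agent.Lib.MP_bc704c_co.R.B5b
/-! # MP_bc704c_co, row B8: order 4 -/

namespace ChiralQ

open Quaternion

variable {H : Subgroup (ℍ[ℝ]ˣ × ℍ[ℝ]ˣ)} {l A B : ℍ[ℝ]ˣ} {c d : ℝ}

theorem B8_inv {A : ℍ[ℝ]ˣ} (h : UI (A : ℍ[ℝ])) : ((A⁻¹ : ℍ[ℝ]ˣ) : ℍ[ℝ]) = -(A : ℍ[ℝ]) := by
  obtain ⟨h0, h1⟩ := h
  have h2 : (A : ℍ[ℝ]) * (-(A : ℍ[ℝ])) = 1 := by
    ext <;> simp [h0] <;> nlinarith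
  calc ((A⁻¹ : ℍ[ℝ]ˣ) : ℍ[ℝ]) = ((A⁻¹ : ℍ[ℝ]ˣ) : ℍ[ℝ]) * ((A : ℍ[ℝ]) * (-(A : ℍ[ℝ]))) := by rw [h2, mul_one]
    _ = -(A : ℍ[ℝ]) := by rw [← mul_assoc, Units.inv_mul, one_mul]

/-- the value of `A l² A⁻¹` -/
theorem B8_val (R : Rd H l A B c d) (hc : c ^ 2 = 1 / 2) (hA : (A : ℍ[ℝ]).imI ^ 2 = 1 / 2) :
    ((A * l ^ 2 * A⁻¹ : ℍ[ℝ]ˣ) : ℍ[ℝ]) =
      ⟨0, 0, 2 * c * d * (2 * (A : ℍ[ℝ]).imI * (A : ℍ[ℝ]).imJ),
        2 * c * d * (2 * (A : ℍ[ℝ]).imI * (A : ℍ[ℝ]).imK)⟩ := by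
  obtain ⟨h0, h1⟩ := R.uA
  have hcd := R.hcd
  rw [Units.val_mul, Units.val_mul, B8_inv R.uA, Units.val_pow_eq_pow_val, R.hl, pow_two]
  have hd : d ^ 2 = 1 / 2 := by linarith
  have h2 : c * c - d * d = 0 := by nlinarith
  generalize hX : (A : ℍ[ℝ]) = X at *
  have h3 : X.imJ * X.imJ + X.imK * X.imK = 1 / 2 := by nlinarith
  have h4 : X.imI * X.imI = 1 / 2 := by nlinarith
  ext
  · simp [h0]
    linear_combination (-(X.imI * X.imI + X.imJ * X.imJ + X.imK * X.imK) * (-1 : ℝ)) * h2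
  · simp [h0]
    linear_combination (2 * c * d) * (h4 - h3)
  · simp [h0]
    ring
  · simp [h0]
    ring

/-- Row B8. `c² = d² = 1/2`: `l² = 2 c d i = ± i`, `A l² A⁻¹ = ± A i A⁻¹ = ± (2 α A - i)` up to sign, and
`2 α A - i = 2 α u` as `2 α² = 1`, a unit vector in the direction of `u`. If `⟪u, B⟫² = 1/2 = |u|²` then
`B = ± 2 α u`; if `⟪l u l⁻¹, B⟫² = 1/2` then `B = ± 2 α l u l⁻¹`. In coordinates. -/
theorem Rd.four_id (R : Rd H l A B c d) (hc : c ^ 2 = 1 / 2) (hA : (A : ℍ[ℝ]).imI ^ 2 = 1 / 2)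
    (hB : (B : ℍ[ℝ]).imI = 0)
    (h : ((A * B : ℍ[ℝ]ˣ) : ℍ[ℝ]).re ^ 2 = 1 / 2 ∨
      ((B * (l * A * l⁻¹) : ℍ[ℝ]ˣ) : ℍ[ℝ]).re ^ 2 = 1 / 2) :
    ∃ k : ℍ[ℝ]ˣ, (k = 1 ∨ k = -1) ∧ (B = k * (A * l ^ 2 * A⁻¹) ∨
      B = k * (l * (A * l ^ 2 * A⁻¹) * l⁻¹)) := by
  obtain ⟨hA0, hA1⟩ := R.uA
  obtain ⟨hB0, hB1⟩ := R.uB
  have hcd := R.hcd
  have hd : d ^ 2 = 1 / 2 := by linarith
  have hval := B8_val R hc hA
  have hconj := R.conj.2
  rw [hB] at hB1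
  set α := (A : ℍ[ℝ]).imI with hα
  set p := (A : ℍ[ℝ]).imJ with hp
  set q := (A : ℍ[ℝ]).imK with hq
  set x := (B : ℍ[ℝ]).imJ with hx
  set y := (B : ℍ[ℝ]).imK with hy
  have hpq : p ^ 2 + q ^ 2 = 1 / 2 := by linarith
  have hxy : x ^ 2 + y ^ 2 = 1 := by linarith
  have hcd2 : (2 * c * d) ^ 2 = 1 := by
    have : (2 * c * d) ^ 2 = 4 * c ^ 2 * d ^ 2 := by ring
    rw [this, hc, hd]; norm_num
  rcases h with h | h
  · have hre : ((A * B : ℍ[ℝ]ˣ) : ℍ[ℝ]).re = -(p * x + q * y) := by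
      rw [Units.val_mul, Quaternion.re_mul, hA0, hB]
      ring
    rw [hre] at h
    have ht : (p * x + q * y) ^ 2 = 1 / 2 := by linarith
    have hz : (p * y - q * x) ^ 2 = 0 := by
      have : (p * x + q * y) ^ 2 + (p * y - q * x) ^ 2 = (p ^ 2 + q ^ 2) * (x ^ 2 + y ^ 2) := by ring
      rw [ht, hpq, hxy] at this
      linarith
    have hz0 : p * y - q * x = 0 := by
      exact pow_eq_zero_iff (two_ne_zero) |>.1 hz
    have hx1 : x = 2 * (p * x + q * y) * p := by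
      linear_combination (-2 * x) * hpq + (-2 * q) * hz0
    have hy1 : y = 2 * (p * x + q * y) * q := by
      linear_combination (-2 * y) * hpq + (2 * p) * hz0
    have hk : (p * x + q * y - 2 * c * d * α) * (p * x + q * y + 2 * c * d * α) = 0 := by
      have : (p * x + q * y - 2 * c * d * α) * (p * x + q * y + 2 * c * d * α) =
        (p * x + q * y) ^ 2 - (2 * c * d) ^ 2 * α ^ 2 := by ring
      rw [this, ht, hcd2, hA]; norm_num
    rcases mul_eq_zero.1 hk with hk | hk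
    · refine ⟨1, Or.inl rfl, Or.inl ?_⟩
      rw [one_mul]
      apply Units.ext
      rw [hval]
      have hk' : p * x + q * y = 2 * c * d * α := by linarith
      rw [hk'] at hx1 hy1
      ext
      · exact hB0
      · exact hB
      · show x = _
        rw [hx1]; ring
      · show y = _
        rw [hy1]; ring
    · refine ⟨-1, Or.inr rfl, Or.inl ?_⟩
      rw [neg_one_mul]
      apply Units.ext
      rw [Units.val_neg, hval]
      have hk' : p * x + q * y = -(2 * c * d * α) := by linarith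
      rw [hk'] at hx1 hy1
      ext
      · simpa using hB0
      · simpa using hB
      · show x = _
        rw [hx1]; simp; ring
      · show y = _
        rw [hy1]; simp; ring
  · have hre : ((B * (l * A * l⁻¹) : ℍ[ℝ]ˣ) : ℍ[ℝ]).re = -(2 * c * d) * (y * p - x * q) := by
      rw [Units.val_mul, hconj A, Quaternion.re_mul, hB0, hB]
      show 0 * (A : ℍ[ℝ]).re - 0 * (A : ℍ[ℝ]).imI - x * ((c ^ 2 - d ^ 2) * p - 2 * c * d * q) -
        y * (2 * c * d * p + (c ^ 2 - d ^ 2) * q) = _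
      rw [hc, hd]
      ring
    rw [hre] at h
    have ht : (y * p - x * q) ^ 2 = 1 / 2 := by
      have : (-(2 * c * d) * (y * p - x * q)) ^ 2 = (2 * c * d) ^ 2 * (y * p - x * q) ^ 2 := by ring
      rw [this, hcd2, one_mul] at h
      exact h
    have hz : (p * x + q * y) ^ 2 = 0 := by
      have : (p * x + q * y) ^ 2 + (y * p - x * q) ^ 2 = (p ^ 2 + q ^ 2) * (x ^ 2 + y ^ 2) := by ring
      rw [ht, hpq, hxy] at this
      linarith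
    have hz0 : p * x + q * y = 0 := by
      exact pow_eq_zero_iff (two_ne_zero) |>.1 hz
    have hx1 : x = -(2 * (y * p - x * q) * q) := by
      linear_combination (-2 * x) * hpq + (2 * p) * hz0
    have hy1 : y = 2 * (y * p - x * q) * p := by
      linear_combination (-2 * y) * hpq + (2 * q) * hz0
    have hv2 : ((l * (A * l ^ 2 * A⁻¹) * l⁻¹ : ℍ[ℝ]ˣ) : ℍ[ℝ]) = ⟨0, 0, -(2 * α * q), 2 * α * p⟩ := by
      rw [hconj (A * l ^ 2 * A⁻¹), hval, hc, hd]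
      have e1 : 2 * c * d * (2 * c * d) = 1 := by rw [← pow_two]; exact hcd2
      ext
      · rfl
      · rfl
      · show (1 / 2 - 1 / 2) * (2 * c * d * (2 * α * p)) - 2 * c * d * (2 * c * d * (2 * α * q)) = -(2 * α * q)
        linear_combination (-(2 * α * q)) * e1
      · show 2 * c * d * (2 * c * d * (2 * α * p)) + (1 / 2 - 1 / 2) * (2 * c * d * (2 * α * q)) = 2 * α * p
        linear_combination (2 * α * p) * e1
    have hk : (y * p - x * q - α) * (y * p - x * q + α) = 0 := by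
      have : (y * p - x * q - α) * (y * p - x * q + α) = (y * p - x * q) ^ 2 - α ^ 2 := by ring
      rw [this, ht, hA]; norm_num
    rcases mul_eq_zero.1 hk with hk | hk
    · refine ⟨1, Or.inl rfl, Or.inr ?_⟩
      rw [one_mul]
      apply Units.ext
      rw [hv2]
      have hk' : y * p - x * q = α := by linarith
      rw [hk'] at hx1 hy1
      ext
      · exact hB0
      · exact hB
      · show x = _
        rw [hx1]
      · show y = _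
        rw [hy1]
    · refine ⟨-1, Or.inr rfl, Or.inr ?_⟩
      rw [neg_one_mul]
      apply Units.ext
      rw [Units.val_neg, hv2]
      have hk' : y * p - x * q = -α := by linarith
      rw [hk'] at hx1 hy1
      ext
      · simpa using hB0
      · simpa using hB
      · show x = _
        rw [hx1]; simp
      · show y = _
        rw [hy1]; simp

/-- Row B8. `(A l)³ = ± 1` since `Re² = d² α² = 1/4`. `Rd.gram4`, `two_cs`; the first two cases contradict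
`ns` for `h = B` by `four_id`, `Rd.inv_of_perp`, `Pr.four` (`(B, l B), (1, -1) ∈ H`). In the third case the two
numbers are equal (excluded by `ne`) or opposite. -/
theorem Rd.four (R : Rd H l A B c d) (hc : c ^ 2 = 1 / 2) (hA : (A : ℍ[ℝ]).imI ^ 2 = 1 / 2)
    (hB : (B : ℍ[ℝ]).imI = 0) :
    ((A * B : ℍ[ℝ]ˣ) : ℍ[ℝ]).re + ((B * (l * A * l⁻¹) : ℍ[ℝ]ˣ) : ℍ[ℝ]).re = 0 := by
  have hd : d ^ 2 = 1 / 2 := by
    have := R.hcd
    linarith
  have hAl : (A * l) ^ 3 = 1 ∨ (A * l) ^ 3 = -1 := by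
    obtain ⟨h1, h2⟩ := R.reAl
    have h3 : ((A * l : ℍ[ℝ]ˣ) : ℍ[ℝ]).re ^ 2 = 1 / 4 := by
      rw [h1, neg_sq, mul_pow, hd, hA]; norm_num
    rcases pow3_of h2 h3 with h | h
    · left
      apply Units.ext
      rw [Units.val_pow_eq_pow_val, h]; rfl
    · right
      apply Units.ext
      rw [Units.val_pow_eq_pow_val, h]; rfl
  have hno : ¬ (((A * B : ℍ[ℝ]ˣ) : ℍ[ℝ]).re ^ 2 = 1 / 2 ∨
      ((B * (l * A * l⁻¹) : ℍ[ℝ]ˣ) : ℍ[ℝ]).re ^ 2 = 1 / 2) := by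
    intro h
    obtain ⟨h1, h2⟩ := R.pr.four (R.inv_of_perp hB) hAl (R.four_id hc hA hB h)
    apply R.ns B R.uB.1 hB
    have h3 := H.mul_mem h1 h2
    have h4 : (B, l * B) * ((1 : ℍ[ℝ]ˣ), (-1 : ℍ[ℝ]ˣ)) = (B, -(l * B)) := by
      rw [Prod.mk_mul_mk, mul_one, mul_neg, mul_one]
    rwa [h4] at h3
  obtain ⟨g1, g2, g3⟩ := R.gram4 hc hB
  rw [hA] at g3
  rcases two_cs g1 g2 (by rw [g3]; norm_num) with ⟨-, h⟩ | ⟨-, h⟩ | ⟨h, h'⟩
  · exact absurd (Or.inr h) hno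
  · exact absurd (Or.inl h) hno
  · have h5 : (((A * B : ℍ[ℝ]ˣ) : ℍ[ℝ]).re - ((B * (l * A * l⁻¹) : ℍ[ℝ]ˣ) : ℍ[ℝ]).re) *
        (((A * B : ℍ[ℝ]ˣ) : ℍ[ℝ]).re + ((B * (l * A * l⁻¹) : ℍ[ℝ]ˣ) : ℍ[ℝ]).re) = 0 := by
      have : (((A * B : ℍ[ℝ]ˣ) : ℍ[ℝ]).re - ((B * (l * A * l⁻¹) : ℍ[ℝ]ˣ) : ℍ[ℝ]).re) *
        (((A * B : ℍ[ℝ]ˣ) : ℍ[ℝ]).re + ((B * (l * A * l⁻¹) : ℍ[ℝ]ˣ) : ℍ[ℝ]).re) =
        ((A * B : ℍ[ℝ]ˣ) : ℍ[ℝ]).re ^ 2 - ((B * (l * A * l⁻¹) : ℍ[ℝ]ˣ) : ℍ[ℝ]).re ^ 2 := by ring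
      rw [this, h, h', sub_self]
    rcases mul_eq_zero.1 h5 with h6 | h6
    · exact absurd (sub_eq_zero.1 h6) R.ne
    · exact h6

end ChiralQ
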