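import Pool.Agent.Lib.MP_bc704c_co.R.B3
import Pool.Agent.Lib.MP_bc704c_co.R.B6
import Pool.Agent.Lib.MP_bc704c_co.R.B7
import Pool.Agent.Lib.MP_bc704c_co.R.B8
/-! # MP_bc704c_co, row B9: exclusion, assembly -/

namespace ChiralQ

open Quaternion

variable {H : Subgroup (ℍ[ℝ]ˣ × ℍ[ℝ]ˣ)} {l A B : ℍ[ℝ]ˣ} {c d : ℝ}

/-- Row B9. One of `α², β²` is not `0`, so `Ax` gives `2 c² - 1`. `-1/2`: `Rd.three` with `Rd.three_D`;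
`(√5 - 1)/4`, `-(√5 + 1)/4`: `Rd.five`; `0`: `{α², β²} = {0, 1/2}`, `Rd.four` for `R` or for `R.swap` (`Rd.conj`: the
`i`-component of `l A l⁻¹` is `α`; the two real parts are exchanged). -/
theorem Rd.excl (R : Rd H l A B c d) (h1 : Ax (2 * c ^ 2 - 1) ((A : ℍ[ℝ]).imI ^ 2))
    (h2 : Ax (2 * c ^ 2 - 1) ((B : ℍ[ℝ]).imI ^ 2))
    (hne : (A : ℍ[ℝ]).imI ^ 2 ≠ (B : ℍ[ℝ]).imI ^ 2) :
    c ^ 2 = 1 / 2 ∧
    (((A : ℍ[ℝ]).imI ^ 2 = 0 ∧ (B : ℍ[ℝ]).imI ^ 2 = 1 / 2) ∨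
      ((A : ℍ[ℝ]).imI ^ 2 = 1 / 2 ∧ (B : ℍ[ℝ]).imI ^ 2 = 0)) ∧
    ((A * B : ℍ[ℝ]ˣ) : ℍ[ℝ]).re + ((B * (l * A * l⁻¹) : ℍ[ℝ]ˣ) : ℍ[ℝ]).re = 0 := by
  have h5 : (√5 : ℝ) ^ 2 = 5 := Real.sq_sqrt (by norm_num)
  have h5p : (0 : ℝ) < √5 := Real.sqrt_pos.2 (by norm_num)
  have h5g : (2 : ℝ) < √5 := by nlinarith
  -- the possible values for a fixed `C`
  have t3 : ∀ x : ℝ, 2 * c ^ 2 - 1 = -1 / 2 → Ax (2 * c ^ 2 - 1) x →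
      (x = 0 ∨ x = 1 / 3 ∨ x = 2 / 3 ∨ x = (3 + √5) / 6 ∨ x = (3 - √5) / 6) := by
    intro x hC hx
    rcases hx with h | ⟨_, h | h | h | h⟩ | ⟨h, _⟩ | ⟨h | h, _⟩
    · exact Or.inl h
    · exact Or.inr (Or.inl h)
    · exact Or.inr (Or.inr (Or.inl h))
    · exact Or.inr (Or.inr (Or.inr (Or.inl h)))
    · exact Or.inr (Or.inr (Or.inr (Or.inr h)))
    · exfalso; linarith
    · exfalso; linarith
    · exfalso; linarith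
  have t4 : ∀ x : ℝ, 2 * c ^ 2 - 1 = 0 → Ax (2 * c ^ 2 - 1) x → (x = 0 ∨ x = 1 / 2) := by
    intro x hC hx
    rcases hx with h | ⟨h, _⟩ | ⟨_, h⟩ | ⟨h | h, _⟩
    · exact Or.inl h
    · exfalso; linarith
    · exact Or.inr h
    · exfalso; linarith
    · exfalso; linarith
  have t5 : ∀ x : ℝ, (2 * c ^ 2 - 1 = (√5 - 1) / 4 ∨ 2 * c ^ 2 - 1 = -(√5 + 1) / 4) → Ax (2 * c ^ 2 - 1) x →
      (x = 0 ∨ x = (5 + √5) / 10 ∨ x = (5 - √5) / 10) := by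
    intro x hC hx
    rcases hx with h | ⟨h, _⟩ | ⟨h, _⟩ | ⟨_, h | h⟩
    · exact Or.inl h
    · exfalso; rcases hC with hC | hC <;> linarith
    · exfalso; rcases hC with hC | hC <;> linarith
    · exact Or.inr (Or.inl h)
    · exact Or.inr (Or.inr h)
  -- the three values of `C`
  have hC : 2 * c ^ 2 - 1 = -1 / 2 ∨ 2 * c ^ 2 - 1 = 0 ∨
      (2 * c ^ 2 - 1 = (√5 - 1) / 4 ∨ 2 * c ^ 2 - 1 = -(√5 + 1) / 4) := by
    rcases h1 with h | ⟨h, _⟩ | ⟨h, _⟩ | ⟨h, _⟩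
    · rcases h2 with h' | ⟨h', _⟩ | ⟨h', _⟩ | ⟨h', _⟩
      · exact absurd (h.trans h'.symm) hne
      · exact Or.inl h'
      · exact Or.inr (Or.inl h')
      · exact Or.inr (Or.inr h')
    · exact Or.inl h
    · exact Or.inr (Or.inl h)
    · exact Or.inr (Or.inr h)
  rcases hC with hC | hC | hC
  · exfalso
    have hc : c ^ 2 = 1 / 4 := by linarith
    exact Rd.three (fun R' h3 h4 => Rd.three_D R' hc h3 h4) R hc (t3 _ hC h1) (t3 _ hC h2) hne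
  · have hc : c ^ 2 = 1 / 2 := by linarith
    refine ⟨hc, ?_⟩
    have ha := t4 _ hC h1
    have hb := t4 _ hC h2
    obtain ⟨-, hconj⟩ := R.conj
    have himI : ((l * A * l⁻¹ : ℍ[ℝ]ˣ) : ℍ[ℝ]).imI = (A : ℍ[ℝ]).imI := by rw [hconj A]
    rcases ha with ha | ha <;> rcases hb with hb | hb
    · exact absurd (ha.trans hb.symm) hne
    · refine ⟨Or.inl ⟨ha, hb⟩, ?_⟩
      have ha0 : ((l * A * l⁻¹ : ℍ[ℝ]ˣ) : ℍ[ℝ]).imI = 0 := by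
        rw [himI]
        exact pow_eq_zero_iff (n := 2) (by norm_num) |>.1 ha
      have h6 := Rd.four R.swap hc hb ha0
      have h7 : (l * A * l⁻¹) * (l * B * l⁻¹) = l * (A * B) * l⁻¹ := by group
      have h8 : (((l * A * l⁻¹) * (l * B * l⁻¹) : ℍ[ℝ]ˣ) : ℍ[ℝ]).re = ((A * B : ℍ[ℝ]ˣ) : ℍ[ℝ]).re := by
        rw [h7, hconj (A * B)]
      rw [h8] at h6
      linarith
    · refine ⟨Or.inr ⟨ha, hb⟩, ?_⟩
      exact Rd.four R hc ha (pow_eq_zero_iff (n := 2) (by norm_num) |>.1 hb)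
    · exact absurd (ha.trans hb.symm) hne
  · exfalso
    exact Rd.five R hC (t5 _ hC h1) (t5 _ hC h2) hne


end ChiralQ
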