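import Pool.Agent.Lib.MP_bc704c_co.Q.Base
/-! # MP_bc704c_co, tables for the rotatory type with `c = 0`

Numbers `(p + q √D)/8` are pairs `(p, q)` of integers, `D = 2` or `5`. -/

namespace ChiralQ

/-- product in `ℤ[√D]` -/
def zm (D : ℤ) (x y : ℤ × ℤ) : ℤ × ℤ := (x.1 * y.1 + D * (x.2 * y.2), x.1 * y.2 + x.2 * y.1)

/-- sum -/
def za (x y : ℤ × ℤ) : ℤ × ℤ := (x.1 + y.1, x.2 + y.2)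

/-- negative -/
def zn (x : ℤ × ℤ) : ℤ × ℤ := (-x.1, -x.2)

/-- coordinates with respect to `1, i, U, i U` where `U` is in the plane of `j, k`, `U² = -R` -/
structure V4 where
  a : ℤ × ℤ
  b : ℤ × ℤ
  c : ℤ × ℤ
  d : ℤ × ℤ
deriving DecidableEq

/-- quaternion product in these coordinates -/
def qv (D : ℤ) (R : ℤ × ℤ) (x y : V4) : V4 where
  a := za (za (zm D x.a y.a) (zn (zm D x.b y.b))) (zn (zm D R (za (zm D x.c y.c) (zm D x.d y.d))))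
  b := za (za (zm D x.a y.b) (zm D x.b y.a)) (zm D R (za (zm D x.c y.d) (zn (zm D x.d y.c))))
  c := za (za (zm D x.a y.c) (zm D x.c y.a)) (za (zn (zm D x.b y.d)) (zm D x.d y.b))
  d := za (za (zm D x.a y.d) (zm D x.d y.a)) (za (zm D x.b y.c) (zn (zm D x.c y.b)))

/-- negative -/
def vn (x : V4) : V4 := ⟨zn x.a, zn x.b, zn x.c, zn x.d⟩

/-- the data `8 α, 8 β, 8 (u_J w_K - u_K w_J), 8 ⟪u, w⟫` -/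
structure Ent where
  A : ℤ × ℤ
  B : ℤ × ℤ
  E : ℤ × ℤ
  F : ℤ × ℤ
  w : ℕ
deriving DecidableEq

/-- `R = 64 (1 - α²)` -/
def rr (D : ℤ) (A : ℤ × ℤ) : ℤ × ℤ := za (64, 0) (zn (zm D A A))

/-- `64 R` times the half-turn `t`, with `U = 8 u` -/
def tv (D : ℤ) (e : Ent) (v : V4) : V4 :=
  vn (qv D (rr D e.A) (qv D (rr D e.A) ⟨(0, 0), e.A, (1, 0), (0, 0)⟩ v)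
    ⟨(0, 0), zm D (rr D e.A) e.B, zm D (8, 0) e.F, zm D (8, 0) e.E⟩)

/-- `s` -/
def sv (v : V4) : V4 := ⟨v.a, zn v.b, zn v.d, v.c⟩

/-- the inverse of `s` -/
def sw (v : V4) : V4 := ⟨v.a, zn v.b, v.d, zn v.c⟩

/-- the letters of the words: `0` is `t`, `1` is `s`, `2` is the inverse of `s`; the last letter acts
first -/
def runw (D : ℤ) (e : Ent) : List ℕ → V4 → V4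
  | [], v => v
  | 0 :: w, v => tv D e (runw D e w v)
  | 1 :: w, v => sv (runw D e w v)
  | _ :: w, v => sw (runw D e w v)

/-- the factor of a word, `(64 R) ^ n`, `n` the number of letters `t` -/
def facw (D : ℤ) (e : Ent) : List ℕ → ℤ × ℤ
  | [] => (1, 0)
  | 0 :: w => zm D (zm D (64, 0) (rr D e.A)) (facw D e w)
  | _ :: w => facw D e w

/-- the word fixes `1` and is not a power of `s` -/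
def chkw (D : ℤ) (e : Ent) (w : List ℕ) : Bool :=
  let f := facw D e w
  let x1 := runw D e w ⟨(0, 0), (1, 0), (0, 0), (0, 0)⟩
  let x2 := runw D e w ⟨(0, 0), (0, 0), (1, 0), (0, 0)⟩
  let x3 := runw D e w ⟨(0, 0), (0, 0), (0, 0), (1, 0)⟩
  decide (runw D e w ⟨(1, 0), (0, 0), (0, 0), (0, 0)⟩ = ⟨f, (0, 0), (0, 0), (0, 0)⟩) &&
  !(decide (x1 = ⟨(0, 0), f, (0, 0), (0, 0)⟩) && decide (x2 = ⟨(0, 0), (0, 0), f, (0, 0)⟩) &&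
    decide (x3 = ⟨(0, 0), (0, 0), (0, 0), f⟩)) &&
  !(decide (x1 = ⟨(0, 0), zn f, (0, 0), (0, 0)⟩) && decide (x2 = ⟨(0, 0), (0, 0), (0, 0), f⟩) &&
    decide (x3 = ⟨(0, 0), (0, 0), zn f, (0, 0)⟩)) &&
  !(decide (x1 = ⟨(0, 0), f, (0, 0), (0, 0)⟩) && decide (x2 = ⟨(0, 0), (0, 0), zn f, (0, 0)⟩) &&
    decide (x3 = ⟨(0, 0), (0, 0), (0, 0), zn f⟩)) &&
  !(decide (x1 = ⟨(0, 0), zn f, (0, 0), (0, 0)⟩) && decide (x2 = ⟨(0, 0), (0, 0), (0, 0), zn f⟩) &&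
    decide (x3 = ⟨(0, 0), (0, 0), f, (0, 0)⟩))

/-- the words -/
def wds : List (List ℕ) :=
  [[0, 2, 2, 0, 2, 0, 2, 0, 1, 0, 1, 0, 2, 0, 2, 0, 2, 2, 0],
   [0, 2, 2, 0, 2, 0, 1, 0, 2, 2, 0],
   [0, 2, 2, 0, 2, 0, 1, 0, 2, 2, 0, 2, 2, 0, 1, 0, 2, 0, 2, 0],
   [0, 2, 2, 0, 1, 0, 1, 0, 2, 0],
   [0, 2, 2, 0, 1, 0, 1, 0, 1, 0, 1, 0, 2, 0],
   [0, 2, 0, 2, 2, 0, 2, 2, 0, 2, 0, 1, 0, 2, 0, 2, 0],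
   [0, 2, 0, 2, 2, 0, 2, 2, 0, 2, 0, 1, 0, 2, 0, 1, 0, 2, 0],
   [0, 2, 0, 2, 2, 0, 2, 2, 0, 1, 0],
   [0, 2, 0, 2, 2, 0, 1, 0, 1, 0, 2, 0, 1, 0],
   [0, 2, 0, 2, 0, 2, 0, 1, 0, 2, 2, 0, 1, 0, 2, 0],
   [0, 2, 0, 2, 0, 1, 0, 2, 2, 0, 2, 0, 2, 0, 2, 2, 0, 2, 2, 0],
   [0, 2, 0, 2, 0, 1, 0, 2, 2, 0, 2, 0, 2, 0, 1, 0],
   [0, 2, 0, 2, 0, 1, 0, 2, 0, 2, 0, 1, 0, 2, 0, 2, 0],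
   [0, 2, 0, 1, 1, 0, 2, 0, 2, 0, 2, 0, 2, 0, 1, 0, 1, 0],
   [0, 2, 0, 1, 1, 0, 1, 0],
   [0, 2, 0, 1, 1, 0, 1, 0, 2, 0, 1, 1, 0, 1, 0],
   [0, 2, 0, 1, 0, 2, 2, 0, 2, 0],
   [0, 2, 0, 1, 0, 2, 2, 0, 1, 0, 2, 2, 0, 1, 0, 2, 0],
   [0, 2, 0, 1, 0, 2, 0, 2, 0, 1, 1, 0, 1, 0],
   [0, 2, 0, 1, 0, 2, 0, 1, 1, 0, 1, 0],
   [0, 2, 0, 1, 0, 2, 0, 1, 0, 2, 0, 2, 2, 0, 2, 2, 0, 2, 0],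
   [0, 2, 0, 1, 0, 2, 0, 1, 0, 1, 0, 2, 0, 1, 0, 1, 0],
   [0, 2, 0, 1, 0, 1, 0, 2, 0, 2, 0, 1, 0],
   [0, 2, 0, 1, 0, 1, 0, 1, 1, 0, 2, 0, 1, 0, 1, 0],
   [0, 1, 1, 0, 2, 0, 2, 0, 2, 0, 2, 0, 1, 0],
   [0, 1, 1, 0, 2, 0, 2, 0, 1, 0],
   [0, 1, 1, 0, 1, 0, 2, 0, 1, 1, 0],
   [0, 1, 1, 0, 1, 0, 2, 0, 1, 1, 0, 1, 1, 0, 2, 0, 1, 0, 1, 0],
   [0, 1, 1, 0, 1, 0, 1, 0, 2, 0, 2, 0, 1, 0, 1, 0, 1, 1, 0],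
   [0, 1, 0, 2, 2, 0, 2, 0],
   [0, 1, 0, 2, 2, 0, 2, 0, 1, 0, 2, 2, 0, 2, 0],
   [0, 1, 0, 2, 2, 0, 1, 0, 1, 0, 1, 0, 1, 0, 2, 0, 2, 0],
   [0, 1, 0, 2, 0, 2, 0, 2, 2, 0, 1, 0, 2, 0, 2, 0],
   [0, 1, 0, 2, 0, 2, 0, 1, 0, 1, 0, 2, 0],
   [0, 1, 0, 2, 0, 1, 1, 0, 2, 0, 1, 1, 0, 2, 0, 1, 0],
   [0, 1, 0, 2, 0, 1, 1, 0, 1, 0],
   [0, 1, 0, 2, 0, 1, 0, 2, 2, 0, 2, 0],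
   [0, 1, 0, 2, 0, 1, 0, 2, 0, 2, 0, 1, 0, 2, 0, 2, 0],
   [0, 1, 0, 2, 0, 1, 0, 2, 0, 1, 0, 1, 1, 0, 1, 1, 0, 1, 0],
   [0, 1, 0, 2, 0, 1, 0, 1, 0, 2, 2, 0, 2, 0],
   [0, 1, 0, 1, 1, 0, 2, 0, 2, 0, 1, 0, 2, 0],
   [0, 1, 0, 1, 1, 0, 1, 1, 0, 2, 0],
   [0, 1, 0, 1, 1, 0, 1, 1, 0, 1, 0, 2, 0, 1, 0, 2, 0, 1, 0],
   [0, 1, 0, 1, 1, 0, 1, 1, 0, 1, 0, 2, 0, 1, 0, 1, 0],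
   [0, 1, 0, 1, 0, 2, 0, 1, 1, 0, 1, 0, 1, 0, 2, 0],
   [0, 1, 0, 1, 0, 2, 0, 1, 1, 0, 1, 0, 1, 0, 1, 1, 0, 1, 1, 0],
   [0, 1, 0, 1, 0, 2, 0, 1, 0, 1, 0, 2, 0, 1, 0, 1, 0],
   [0, 1, 0, 1, 0, 1, 0, 2, 0, 1, 1, 0, 2, 0, 1, 0]]

/-- the word number `n` -/
def wd (n : ℕ) : List ℕ := wds.getD n []

/-- the data over `ℤ[√5]` -/
def tab5 : List Ent :=
  [⟨(0, 0), (4, 0), (2, 2), (-2, 2), 24⟩,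
   ⟨(0, 0), (4, 0), (2, 2), (2, -2), 23⟩,
   ⟨(0, 0), (4, 0), (-2, -2), (-2, 2), 4⟩,
   ⟨(0, 0), (4, 0), (-2, -2), (2, -2), 32⟩,
   ⟨(0, 0), (4, 0), (-2, 2), (2, 2), 44⟩,
   ⟨(0, 0), (4, 0), (-2, 2), (-2, -2), 11⟩,
   ⟨(0, 0), (4, 0), (2, -2), (2, 2), 11⟩,
   ⟨(0, 0), (4, 0), (2, -2), (-2, -2), 44⟩,
   ⟨(0, 0), (-4, 0), (2, 2), (-2, 2), 24⟩,
   ⟨(0, 0), (-4, 0), (2, 2), (2, -2), 23⟩,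
   ⟨(0, 0), (-4, 0), (-2, -2), (-2, 2), 4⟩,
   ⟨(0, 0), (-4, 0), (-2, -2), (2, -2), 32⟩,
   ⟨(0, 0), (-4, 0), (-2, 2), (2, 2), 44⟩,
   ⟨(0, 0), (-4, 0), (-2, 2), (-2, -2), 11⟩,
   ⟨(0, 0), (-4, 0), (2, -2), (2, 2), 11⟩,
   ⟨(0, 0), (-4, 0), (2, -2), (-2, -2), 44⟩,
   ⟨(0, 0), (2, 2), (4, 0), (-2, 2), 28⟩,
   ⟨(0, 0), (2, 2), (4, 0), (2, -2), 45⟩,
   ⟨(0, 0), (2, 2), (-4, 0), (-2, 2), 0⟩,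
   ⟨(0, 0), (2, 2), (-4, 0), (2, -2), 10⟩,
   ⟨(0, 0), (2, 2), (-2, 2), (4, 0), 42⟩,
   ⟨(0, 0), (2, 2), (-2, 2), (-4, 0), 18⟩,
   ⟨(0, 0), (2, 2), (2, -2), (4, 0), 6⟩,
   ⟨(0, 0), (2, 2), (2, -2), (-4, 0), 39⟩,
   ⟨(0, 0), (-2, -2), (4, 0), (-2, 2), 28⟩,
   ⟨(0, 0), (-2, -2), (4, 0), (2, -2), 45⟩,
   ⟨(0, 0), (-2, -2), (-4, 0), (-2, 2), 0⟩,
   ⟨(0, 0), (-2, -2), (-4, 0), (2, -2), 10⟩,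
   ⟨(0, 0), (-2, -2), (-2, 2), (4, 0), 42⟩,
   ⟨(0, 0), (-2, -2), (-2, 2), (-4, 0), 18⟩,
   ⟨(0, 0), (-2, -2), (2, -2), (4, 0), 6⟩,
   ⟨(0, 0), (-2, -2), (2, -2), (-4, 0), 39⟩,
   ⟨(0, 0), (-2, 2), (4, 0), (2, 2), 45⟩,
   ⟨(0, 0), (-2, 2), (4, 0), (-2, -2), 28⟩,
   ⟨(0, 0), (-2, 2), (-4, 0), (2, 2), 10⟩,
   ⟨(0, 0), (-2, 2), (-4, 0), (-2, -2), 0⟩,
   ⟨(0, 0), (-2, 2), (2, 2), (4, 0), 38⟩,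
   ⟨(0, 0), (-2, 2), (2, 2), (-4, 0), 40⟩,
   ⟨(0, 0), (-2, 2), (-2, -2), (4, 0), 20⟩,
   ⟨(0, 0), (-2, 2), (-2, -2), (-4, 0), 8⟩,
   ⟨(0, 0), (2, -2), (4, 0), (2, 2), 45⟩,
   ⟨(0, 0), (2, -2), (4, 0), (-2, -2), 28⟩,
   ⟨(0, 0), (2, -2), (-4, 0), (2, 2), 10⟩,
   ⟨(0, 0), (2, -2), (-4, 0), (-2, -2), 0⟩,
   ⟨(0, 0), (2, -2), (2, 2), (4, 0), 38⟩,
   ⟨(0, 0), (2, -2), (2, 2), (-4, 0), 40⟩,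
   ⟨(0, 0), (2, -2), (-2, -2), (4, 0), 20⟩,
   ⟨(0, 0), (2, -2), (-2, -2), (-4, 0), 8⟩,
   ⟨(4, 0), (0, 0), (2, 2), (-2, 2), 4⟩,
   ⟨(4, 0), (0, 0), (2, 2), (2, -2), 32⟩,
   ⟨(4, 0), (0, 0), (-2, -2), (-2, 2), 24⟩,
   ⟨(4, 0), (0, 0), (-2, -2), (2, -2), 23⟩,
   ⟨(4, 0), (0, 0), (-2, 2), (2, 2), 11⟩,
   ⟨(4, 0), (0, 0), (-2, 2), (-2, -2), 44⟩,
   ⟨(4, 0), (0, 0), (2, -2), (2, 2), 44⟩,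
   ⟨(4, 0), (0, 0), (2, -2), (-2, -2), 11⟩,
   ⟨(4, 0), (2, 2), (-1, -1), (-2, 2), 47⟩,
   ⟨(4, 0), (2, 2), (-1, -1), (2, -2), 26⟩,
   ⟨(4, 0), (2, 2), (3, -1), (4, 0), 19⟩,
   ⟨(4, 0), (2, 2), (3, -1), (-4, 0), 25⟩,
   ⟨(4, 0), (2, 2), (1, 1), (-2, 2), 9⟩,
   ⟨(4, 0), (2, 2), (1, 1), (2, -2), 1⟩,
   ⟨(4, 0), (2, 2), (-3, 1), (4, 0), 36⟩,
   ⟨(4, 0), (2, 2), (-3, 1), (-4, 0), 3⟩,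
   ⟨(4, 0), (-2, -2), (1, 1), (-2, 2), 13⟩,
   ⟨(4, 0), (-2, -2), (1, 1), (2, -2), 47⟩,
   ⟨(4, 0), (-2, -2), (-3, 1), (4, 0), 21⟩,
   ⟨(4, 0), (-2, -2), (-3, 1), (-4, 0), 19⟩,
   ⟨(4, 0), (-2, -2), (-1, -1), (-2, 2), 31⟩,
   ⟨(4, 0), (-2, -2), (-1, -1), (2, -2), 9⟩,
   ⟨(4, 0), (-2, -2), (3, -1), (4, 0), 37⟩,
   ⟨(4, 0), (-2, -2), (3, -1), (-4, 0), 36⟩,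
   ⟨(4, 0), (-2, 2), (1, -1), (2, 2), 35⟩,
   ⟨(4, 0), (-2, 2), (1, -1), (-2, -2), 13⟩,
   ⟨(4, 0), (-2, 2), (-3, -1), (4, 0), 21⟩,
   ⟨(4, 0), (-2, 2), (-3, -1), (-4, 0), 19⟩,
   ⟨(4, 0), (-2, 2), (3, 1), (4, 0), 37⟩,
   ⟨(4, 0), (-2, 2), (3, 1), (-4, 0), 36⟩,
   ⟨(4, 0), (-2, 2), (-1, 1), (2, 2), 16⟩,
   ⟨(4, 0), (-2, 2), (-1, 1), (-2, -2), 31⟩,
   ⟨(4, 0), (2, -2), (-1, 1), (2, 2), 26⟩,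
   ⟨(4, 0), (2, -2), (-1, 1), (-2, -2), 47⟩,
   ⟨(4, 0), (2, -2), (3, 1), (4, 0), 19⟩,
   ⟨(4, 0), (2, -2), (3, 1), (-4, 0), 25⟩,
   ⟨(4, 0), (2, -2), (-3, -1), (4, 0), 36⟩,
   ⟨(4, 0), (2, -2), (-3, -1), (-4, 0), 3⟩,
   ⟨(4, 0), (2, -2), (1, -1), (2, 2), 1⟩,
   ⟨(4, 0), (2, -2), (1, -1), (-2, -2), 9⟩,
   ⟨(-4, 0), (0, 0), (2, 2), (-2, 2), 4⟩,
   ⟨(-4, 0), (0, 0), (2, 2), (2, -2), 32⟩,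
   ⟨(-4, 0), (0, 0), (-2, -2), (-2, 2), 24⟩,
   ⟨(-4, 0), (0, 0), (-2, -2), (2, -2), 23⟩,
   ⟨(-4, 0), (0, 0), (-2, 2), (2, 2), 11⟩,
   ⟨(-4, 0), (0, 0), (-2, 2), (-2, -2), 44⟩,
   ⟨(-4, 0), (0, 0), (2, -2), (2, 2), 44⟩,
   ⟨(-4, 0), (0, 0), (2, -2), (-2, -2), 11⟩,
   ⟨(-4, 0), (2, 2), (1, 1), (-2, 2), 13⟩,
   ⟨(-4, 0), (2, 2), (1, 1), (2, -2), 47⟩,
   ⟨(-4, 0), (2, 2), (-3, 1), (4, 0), 21⟩,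
   ⟨(-4, 0), (2, 2), (-3, 1), (-4, 0), 19⟩,
   ⟨(-4, 0), (2, 2), (-1, -1), (-2, 2), 31⟩,
   ⟨(-4, 0), (2, 2), (-1, -1), (2, -2), 9⟩,
   ⟨(-4, 0), (2, 2), (3, -1), (4, 0), 37⟩,
   ⟨(-4, 0), (2, 2), (3, -1), (-4, 0), 36⟩,
   ⟨(-4, 0), (-2, -2), (-1, -1), (-2, 2), 47⟩,
   ⟨(-4, 0), (-2, -2), (-1, -1), (2, -2), 26⟩,
   ⟨(-4, 0), (-2, -2), (3, -1), (4, 0), 19⟩,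
   ⟨(-4, 0), (-2, -2), (3, -1), (-4, 0), 25⟩,
   ⟨(-4, 0), (-2, -2), (1, 1), (-2, 2), 9⟩,
   ⟨(-4, 0), (-2, -2), (1, 1), (2, -2), 1⟩,
   ⟨(-4, 0), (-2, -2), (-3, 1), (4, 0), 36⟩,
   ⟨(-4, 0), (-2, -2), (-3, 1), (-4, 0), 3⟩,
   ⟨(-4, 0), (-2, 2), (-1, 1), (2, 2), 26⟩,
   ⟨(-4, 0), (-2, 2), (-1, 1), (-2, -2), 47⟩,
   ⟨(-4, 0), (-2, 2), (3, 1), (4, 0), 19⟩,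
   ⟨(-4, 0), (-2, 2), (3, 1), (-4, 0), 25⟩,
   ⟨(-4, 0), (-2, 2), (-3, -1), (4, 0), 36⟩,
   ⟨(-4, 0), (-2, 2), (-3, -1), (-4, 0), 3⟩,
   ⟨(-4, 0), (-2, 2), (1, -1), (2, 2), 1⟩,
   ⟨(-4, 0), (-2, 2), (1, -1), (-2, -2), 9⟩,
   ⟨(-4, 0), (2, -2), (1, -1), (2, 2), 35⟩,
   ⟨(-4, 0), (2, -2), (1, -1), (-2, -2), 13⟩,
   ⟨(-4, 0), (2, -2), (-3, -1), (4, 0), 21⟩,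
   ⟨(-4, 0), (2, -2), (-3, -1), (-4, 0), 19⟩,
   ⟨(-4, 0), (2, -2), (3, 1), (4, 0), 37⟩,
   ⟨(-4, 0), (2, -2), (3, 1), (-4, 0), 36⟩,
   ⟨(-4, 0), (2, -2), (-1, 1), (2, 2), 16⟩,
   ⟨(-4, 0), (2, -2), (-1, 1), (-2, -2), 31⟩,
   ⟨(2, 2), (0, 0), (4, 0), (-2, 2), 0⟩,
   ⟨(2, 2), (0, 0), (4, 0), (2, -2), 10⟩,
   ⟨(2, 2), (0, 0), (-4, 0), (-2, 2), 28⟩,
   ⟨(2, 2), (0, 0), (-4, 0), (2, -2), 45⟩,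
   ⟨(2, 2), (0, 0), (-2, 2), (4, 0), 6⟩,
   ⟨(2, 2), (0, 0), (-2, 2), (-4, 0), 39⟩,
   ⟨(2, 2), (0, 0), (2, -2), (4, 0), 42⟩,
   ⟨(2, 2), (0, 0), (2, -2), (-4, 0), 18⟩,
   ⟨(2, 2), (4, 0), (-1, -1), (-2, 2), 9⟩,
   ⟨(2, 2), (4, 0), (-1, -1), (2, -2), 1⟩,
   ⟨(2, 2), (4, 0), (3, -1), (4, 0), 36⟩,
   ⟨(2, 2), (4, 0), (3, -1), (-4, 0), 3⟩,
   ⟨(2, 2), (4, 0), (1, 1), (-2, 2), 47⟩,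
   ⟨(2, 2), (4, 0), (1, 1), (2, -2), 26⟩,
   ⟨(2, 2), (4, 0), (-3, 1), (4, 0), 19⟩,
   ⟨(2, 2), (4, 0), (-3, 1), (-4, 0), 25⟩,
   ⟨(2, 2), (-4, 0), (1, 1), (-2, 2), 31⟩,
   ⟨(2, 2), (-4, 0), (1, 1), (2, -2), 9⟩,
   ⟨(2, 2), (-4, 0), (-3, 1), (4, 0), 37⟩,
   ⟨(2, 2), (-4, 0), (-3, 1), (-4, 0), 36⟩,
   ⟨(2, 2), (-4, 0), (-1, -1), (-2, 2), 13⟩,
   ⟨(2, 2), (-4, 0), (-1, -1), (2, -2), 47⟩,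
   ⟨(2, 2), (-4, 0), (3, -1), (4, 0), 21⟩,
   ⟨(2, 2), (-4, 0), (3, -1), (-4, 0), 19⟩,
   ⟨(2, 2), (-2, 2), (-2, 0), (4, 0), 43⟩,
   ⟨(2, 2), (-2, 2), (-2, 0), (-4, 0), 46⟩,
   ⟨(2, 2), (-2, 2), (2, 0), (4, 0), 5⟩,
   ⟨(2, 2), (-2, 2), (2, 0), (-4, 0), 12⟩,
   ⟨(2, 2), (2, -2), (2, 0), (4, 0), 34⟩,
   ⟨(2, 2), (2, -2), (2, 0), (-4, 0), 43⟩,
   ⟨(2, 2), (2, -2), (-2, 0), (4, 0), 17⟩,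
   ⟨(2, 2), (2, -2), (-2, 0), (-4, 0), 5⟩,
   ⟨(-2, -2), (0, 0), (4, 0), (-2, 2), 0⟩,
   ⟨(-2, -2), (0, 0), (4, 0), (2, -2), 10⟩,
   ⟨(-2, -2), (0, 0), (-4, 0), (-2, 2), 28⟩,
   ⟨(-2, -2), (0, 0), (-4, 0), (2, -2), 45⟩,
   ⟨(-2, -2), (0, 0), (-2, 2), (4, 0), 6⟩,
   ⟨(-2, -2), (0, 0), (-2, 2), (-4, 0), 39⟩,
   ⟨(-2, -2), (0, 0), (2, -2), (4, 0), 42⟩,
   ⟨(-2, -2), (0, 0), (2, -2), (-4, 0), 18⟩,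
   ⟨(-2, -2), (4, 0), (1, 1), (-2, 2), 31⟩,
   ⟨(-2, -2), (4, 0), (1, 1), (2, -2), 9⟩,
   ⟨(-2, -2), (4, 0), (-3, 1), (4, 0), 37⟩,
   ⟨(-2, -2), (4, 0), (-3, 1), (-4, 0), 36⟩,
   ⟨(-2, -2), (4, 0), (-1, -1), (-2, 2), 13⟩,
   ⟨(-2, -2), (4, 0), (-1, -1), (2, -2), 47⟩,
   ⟨(-2, -2), (4, 0), (3, -1), (4, 0), 21⟩,
   ⟨(-2, -2), (4, 0), (3, -1), (-4, 0), 19⟩,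
   ⟨(-2, -2), (-4, 0), (-1, -1), (-2, 2), 9⟩,
   ⟨(-2, -2), (-4, 0), (-1, -1), (2, -2), 1⟩,
   ⟨(-2, -2), (-4, 0), (3, -1), (4, 0), 36⟩,
   ⟨(-2, -2), (-4, 0), (3, -1), (-4, 0), 3⟩,
   ⟨(-2, -2), (-4, 0), (1, 1), (-2, 2), 47⟩,
   ⟨(-2, -2), (-4, 0), (1, 1), (2, -2), 26⟩,
   ⟨(-2, -2), (-4, 0), (-3, 1), (4, 0), 19⟩,
   ⟨(-2, -2), (-4, 0), (-3, 1), (-4, 0), 25⟩,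
   ⟨(-2, -2), (-2, 2), (2, 0), (4, 0), 34⟩,
   ⟨(-2, -2), (-2, 2), (2, 0), (-4, 0), 43⟩,
   ⟨(-2, -2), (-2, 2), (-2, 0), (4, 0), 17⟩,
   ⟨(-2, -2), (-2, 2), (-2, 0), (-4, 0), 5⟩,
   ⟨(-2, -2), (2, -2), (-2, 0), (4, 0), 43⟩,
   ⟨(-2, -2), (2, -2), (-2, 0), (-4, 0), 46⟩,
   ⟨(-2, -2), (2, -2), (2, 0), (4, 0), 5⟩,
   ⟨(-2, -2), (2, -2), (2, 0), (-4, 0), 12⟩,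
   ⟨(-2, 2), (0, 0), (4, 0), (2, 2), 10⟩,
   ⟨(-2, 2), (0, 0), (4, 0), (-2, -2), 0⟩,
   ⟨(-2, 2), (0, 0), (-4, 0), (2, 2), 45⟩,
   ⟨(-2, 2), (0, 0), (-4, 0), (-2, -2), 28⟩,
   ⟨(-2, 2), (0, 0), (2, 2), (4, 0), 20⟩,
   ⟨(-2, 2), (0, 0), (2, 2), (-4, 0), 8⟩,
   ⟨(-2, 2), (0, 0), (-2, -2), (4, 0), 38⟩,
   ⟨(-2, 2), (0, 0), (-2, -2), (-4, 0), 40⟩,
   ⟨(-2, 2), (4, 0), (1, -1), (2, 2), 16⟩,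
   ⟨(-2, 2), (4, 0), (1, -1), (-2, -2), 31⟩,
   ⟨(-2, 2), (4, 0), (-3, -1), (4, 0), 37⟩,
   ⟨(-2, 2), (4, 0), (-3, -1), (-4, 0), 36⟩,
   ⟨(-2, 2), (4, 0), (3, 1), (4, 0), 21⟩,
   ⟨(-2, 2), (4, 0), (3, 1), (-4, 0), 19⟩,
   ⟨(-2, 2), (4, 0), (-1, 1), (2, 2), 35⟩,
   ⟨(-2, 2), (4, 0), (-1, 1), (-2, -2), 13⟩,
   ⟨(-2, 2), (-4, 0), (-1, 1), (2, 2), 1⟩,
   ⟨(-2, 2), (-4, 0), (-1, 1), (-2, -2), 9⟩,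
   ⟨(-2, 2), (-4, 0), (3, 1), (4, 0), 36⟩,
   ⟨(-2, 2), (-4, 0), (3, 1), (-4, 0), 3⟩,
   ⟨(-2, 2), (-4, 0), (-3, -1), (4, 0), 19⟩,
   ⟨(-2, 2), (-4, 0), (-3, -1), (-4, 0), 25⟩,
   ⟨(-2, 2), (-4, 0), (1, -1), (2, 2), 26⟩,
   ⟨(-2, 2), (-4, 0), (1, -1), (-2, -2), 47⟩,
   ⟨(-2, 2), (2, 2), (-2, 0), (4, 0), 5⟩,
   ⟨(-2, 2), (2, 2), (-2, 0), (-4, 0), 12⟩,
   ⟨(-2, 2), (2, 2), (2, 0), (4, 0), 43⟩,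
   ⟨(-2, 2), (2, 2), (2, 0), (-4, 0), 46⟩,
   ⟨(-2, 2), (-2, -2), (2, 0), (4, 0), 17⟩,
   ⟨(-2, 2), (-2, -2), (2, 0), (-4, 0), 5⟩,
   ⟨(-2, 2), (-2, -2), (-2, 0), (4, 0), 34⟩,
   ⟨(-2, 2), (-2, -2), (-2, 0), (-4, 0), 43⟩,
   ⟨(2, -2), (0, 0), (4, 0), (2, 2), 10⟩,
   ⟨(2, -2), (0, 0), (4, 0), (-2, -2), 0⟩,
   ⟨(2, -2), (0, 0), (-4, 0), (2, 2), 45⟩,
   ⟨(2, -2), (0, 0), (-4, 0), (-2, -2), 28⟩,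
   ⟨(2, -2), (0, 0), (2, 2), (4, 0), 20⟩,
   ⟨(2, -2), (0, 0), (2, 2), (-4, 0), 8⟩,
   ⟨(2, -2), (0, 0), (-2, -2), (4, 0), 38⟩,
   ⟨(2, -2), (0, 0), (-2, -2), (-4, 0), 40⟩,
   ⟨(2, -2), (4, 0), (-1, 1), (2, 2), 1⟩,
   ⟨(2, -2), (4, 0), (-1, 1), (-2, -2), 9⟩,
   ⟨(2, -2), (4, 0), (3, 1), (4, 0), 36⟩,
   ⟨(2, -2), (4, 0), (3, 1), (-4, 0), 3⟩,
   ⟨(2, -2), (4, 0), (-3, -1), (4, 0), 19⟩,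
   ⟨(2, -2), (4, 0), (-3, -1), (-4, 0), 25⟩,
   ⟨(2, -2), (4, 0), (1, -1), (2, 2), 26⟩,
   ⟨(2, -2), (4, 0), (1, -1), (-2, -2), 47⟩,
   ⟨(2, -2), (-4, 0), (1, -1), (2, 2), 16⟩,
   ⟨(2, -2), (-4, 0), (1, -1), (-2, -2), 31⟩,
   ⟨(2, -2), (-4, 0), (-3, -1), (4, 0), 37⟩,
   ⟨(2, -2), (-4, 0), (-3, -1), (-4, 0), 36⟩,
   ⟨(2, -2), (-4, 0), (3, 1), (4, 0), 21⟩,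
   ⟨(2, -2), (-4, 0), (3, 1), (-4, 0), 19⟩,
   ⟨(2, -2), (-4, 0), (-1, 1), (2, 2), 35⟩,
   ⟨(2, -2), (-4, 0), (-1, 1), (-2, -2), 13⟩,
   ⟨(2, -2), (2, 2), (2, 0), (4, 0), 17⟩,
   ⟨(2, -2), (2, 2), (2, 0), (-4, 0), 5⟩,
   ⟨(2, -2), (2, 2), (-2, 0), (4, 0), 34⟩,
   ⟨(2, -2), (2, 2), (-2, 0), (-4, 0), 43⟩,
   ⟨(2, -2), (-2, -2), (-2, 0), (4, 0), 5⟩,
   ⟨(2, -2), (-2, -2), (-2, 0), (-4, 0), 12⟩,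
   ⟨(2, -2), (-2, -2), (2, 0), (4, 0), 43⟩,
   ⟨(2, -2), (-2, -2), (2, 0), (-4, 0), 46⟩]

/-- the data over `ℤ[√2]` -/
def tab2 : List Ent :=
  [⟨(0, 0), (4, 0), (0, 4), (4, 0), 22⟩,
   ⟨(0, 0), (4, 0), (0, 4), (-4, 0), 27⟩,
   ⟨(0, 0), (4, 0), (0, -4), (4, 0), 33⟩,
   ⟨(0, 0), (4, 0), (0, -4), (-4, 0), 2⟩,
   ⟨(0, 0), (-4, 0), (0, 4), (4, 0), 22⟩,
   ⟨(0, 0), (-4, 0), (0, 4), (-4, 0), 27⟩,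
   ⟨(0, 0), (-4, 0), (0, -4), (4, 0), 33⟩,
   ⟨(0, 0), (-4, 0), (0, -4), (-4, 0), 2⟩,
   ⟨(0, 0), (0, 4), (4, 0), (4, 0), 14⟩,
   ⟨(0, 0), (0, 4), (4, 0), (-4, 0), 29⟩,
   ⟨(0, 0), (0, 4), (-4, 0), (4, 0), 29⟩,
   ⟨(0, 0), (0, 4), (-4, 0), (-4, 0), 14⟩,
   ⟨(0, 0), (0, -4), (4, 0), (4, 0), 14⟩,
   ⟨(0, 0), (0, -4), (4, 0), (-4, 0), 29⟩,
   ⟨(0, 0), (0, -4), (-4, 0), (4, 0), 29⟩,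
   ⟨(0, 0), (0, -4), (-4, 0), (-4, 0), 14⟩,
   ⟨(4, 0), (0, 0), (0, 4), (4, 0), 33⟩,
   ⟨(4, 0), (0, 0), (0, 4), (-4, 0), 2⟩,
   ⟨(4, 0), (0, 0), (0, -4), (4, 0), 22⟩,
   ⟨(4, 0), (0, 0), (0, -4), (-4, 0), 27⟩,
   ⟨(4, 0), (0, 4), (0, -2), (4, 0), 41⟩,
   ⟨(4, 0), (0, 4), (0, -2), (-4, 0), 15⟩,
   ⟨(4, 0), (0, 4), (0, 2), (4, 0), 7⟩,
   ⟨(4, 0), (0, 4), (0, 2), (-4, 0), 30⟩,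
   ⟨(4, 0), (0, -4), (0, 2), (4, 0), 41⟩,
   ⟨(4, 0), (0, -4), (0, 2), (-4, 0), 15⟩,
   ⟨(4, 0), (0, -4), (0, -2), (4, 0), 7⟩,
   ⟨(4, 0), (0, -4), (0, -2), (-4, 0), 30⟩,
   ⟨(-4, 0), (0, 0), (0, 4), (4, 0), 33⟩,
   ⟨(-4, 0), (0, 0), (0, 4), (-4, 0), 2⟩,
   ⟨(-4, 0), (0, 0), (0, -4), (4, 0), 22⟩,
   ⟨(-4, 0), (0, 0), (0, -4), (-4, 0), 27⟩,
   ⟨(-4, 0), (0, 4), (0, 2), (4, 0), 41⟩,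
   ⟨(-4, 0), (0, 4), (0, 2), (-4, 0), 15⟩,
   ⟨(-4, 0), (0, 4), (0, -2), (4, 0), 7⟩,
   ⟨(-4, 0), (0, 4), (0, -2), (-4, 0), 30⟩,
   ⟨(-4, 0), (0, -4), (0, -2), (4, 0), 41⟩,
   ⟨(-4, 0), (0, -4), (0, -2), (-4, 0), 15⟩,
   ⟨(-4, 0), (0, -4), (0, 2), (4, 0), 7⟩,
   ⟨(-4, 0), (0, -4), (0, 2), (-4, 0), 30⟩,
   ⟨(0, 4), (0, 0), (4, 0), (4, 0), 29⟩,
   ⟨(0, 4), (0, 0), (4, 0), (-4, 0), 14⟩,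
   ⟨(0, 4), (0, 0), (-4, 0), (4, 0), 14⟩,
   ⟨(0, 4), (0, 0), (-4, 0), (-4, 0), 29⟩,
   ⟨(0, 4), (4, 0), (0, -2), (4, 0), 7⟩,
   ⟨(0, 4), (4, 0), (0, -2), (-4, 0), 30⟩,
   ⟨(0, 4), (4, 0), (0, 2), (4, 0), 41⟩,
   ⟨(0, 4), (4, 0), (0, 2), (-4, 0), 15⟩,
   ⟨(0, 4), (-4, 0), (0, 2), (4, 0), 7⟩,
   ⟨(0, 4), (-4, 0), (0, 2), (-4, 0), 30⟩,
   ⟨(0, 4), (-4, 0), (0, -2), (4, 0), 41⟩,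
   ⟨(0, 4), (-4, 0), (0, -2), (-4, 0), 15⟩,
   ⟨(0, -4), (0, 0), (4, 0), (4, 0), 29⟩,
   ⟨(0, -4), (0, 0), (4, 0), (-4, 0), 14⟩,
   ⟨(0, -4), (0, 0), (-4, 0), (4, 0), 14⟩,
   ⟨(0, -4), (0, 0), (-4, 0), (-4, 0), 29⟩,
   ⟨(0, -4), (4, 0), (0, 2), (4, 0), 7⟩,
   ⟨(0, -4), (4, 0), (0, 2), (-4, 0), 30⟩,
   ⟨(0, -4), (4, 0), (0, -2), (4, 0), 41⟩,
   ⟨(0, -4), (4, 0), (0, -2), (-4, 0), 15⟩,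
   ⟨(0, -4), (-4, 0), (0, -2), (4, 0), 7⟩,
   ⟨(0, -4), (-4, 0), (0, -2), (-4, 0), 30⟩,
   ⟨(0, -4), (-4, 0), (0, 2), (4, 0), 41⟩,
   ⟨(0, -4), (-4, 0), (0, 2), (-4, 0), 15⟩]

end ChiralQ
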