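import Pool.Agent.Lib.MP_bc704c_co.R.C0

/-! # MP_bc704c_co, row C2: the eleven numbers -/

namespace ChiralQ

open Quaternion

/-- the eleven numbers `cos (π k / n)`, `n ≤ 5` -/
noncomputable def vl (i : ℕ) : ℝ :=
  match i with
  | 0 => 0
  | 1 => 1
  | 2 => -1
  | 3 => 1 / 2
  | 4 => -1 / 2
  | 5 => √2 / 2
  | 6 => -√2 / 2
  | 7 => (1 + √5) / 4
  | 8 => -(1 + √5) / 4
  | 9 => (√5 - 1) / 4
  | _ => (1 - √5) / 4

/-- `10 ^ 4` times these numbers, rounded -/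
def ci (i : ℕ) : ℤ :=
  match i with
  | 0 => 0
  | 1 => 10000
  | 2 => -10000
  | 3 => 5000
  | 4 => -5000
  | 5 => 7071
  | 6 => -7071
  | 7 => 8090
  | 8 => -8090
  | 9 => 3090
  | _ => -3090

/-- codes over `ℤ[√5]` (not for `i = 5, 6`) -/
def c5 (i : ℕ) : ℤ × ℤ :=
  match i with
  | 0 => (0, 0)
  | 1 => (8, 0)
  | 2 => (-8, 0)
  | 3 => (4, 0)
  | 4 => (-4, 0)
  | 5 => (0, 0)
  | 6 => (0, 0)
  | 7 => (2, 2)
  | 8 => (-2, -2)
  | 9 => (-2, 2)
  | _ => (2, -2)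

/-- codes over `ℤ[√2]` (only for `i ≤ 6`) -/
def c2 (i : ℕ) : ℤ × ℤ :=
  match i with
  | 0 => (0, 0)
  | 1 => (8, 0)
  | 2 => (-8, 0)
  | 3 => (4, 0)
  | 4 => (-4, 0)
  | 5 => (0, 4)
  | 6 => (0, -4)
  | _ => (0, 0)

/-- the real number `(p + q √D)/8` -/
noncomputable def zr (D : ℤ) (x : ℤ × ℤ) : ℝ := ((x.1 : ℝ) + (x.2 : ℝ) * √(D : ℝ)) / 8

/-- Row C2. `x ^ 2 = (3 + √5)/8 = ((1 + √5)/4) ^ 2` etc. -/
theorem cs_idx {x : ℝ} (h : Cs x) : ∃ i, i < 11 ∧ x = vl i := by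
  have h2 : √2 * √2 = (2 : ℝ) := Real.mul_self_sqrt (by norm_num)
  have h5 : √5 * √5 = (5 : ℝ) := Real.mul_self_sqrt (by norm_num)
  unfold Cs at h
  rcases h with h | h | h | h | h | h
  · exact ⟨0, by norm_num, h⟩
  · have e : (x - 1) * (x + 1) = 0 := by nlinarith
    rcases mul_eq_zero.1 e with e | e
    · exact ⟨1, by norm_num, by show x = 1; linarith⟩
    · exact ⟨2, by norm_num, by show x = -1; linarith⟩
  · have e : (x - 1 / 2) * (x + 1 / 2) = 0 := by nlinarith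
    rcases mul_eq_zero.1 e with e | e
    · exact ⟨3, by norm_num, by show x = 1 / 2; linarith⟩
    · exact ⟨4, by norm_num, by show x = -1 / 2; linarith⟩
  · have e : (x - √2 / 2) * (x + √2 / 2) = 0 := by nlinarith
    rcases mul_eq_zero.1 e with e | e
    · exact ⟨5, by norm_num, by show x = √2 / 2; linarith⟩
    · exact ⟨6, by norm_num, by show x = -√2 / 2; linarith⟩
  · have e : (x - (1 + √5) / 4) * (x + (1 + √5) / 4) = 0 := by nlinarith
    rcases mul_eq_zero.1 e with e | e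
    · exact ⟨7, by norm_num, by show x = (1 + √5) / 4; linarith⟩
    · exact ⟨8, by norm_num, by show x = -(1 + √5) / 4; linarith⟩
  · have e : (x - (√5 - 1) / 4) * (x + (√5 - 1) / 4) = 0 := by nlinarith
    rcases mul_eq_zero.1 e with e | e
    · exact ⟨9, by norm_num, by show x = (√5 - 1) / 4; linarith⟩
    · exact ⟨10, by norm_num, by show x = (1 - √5) / 4; linarith⟩

/-- Row C2. `interval_cases i`; `1.41421 < √2 < 1.41422`, `2.23606 < √5 < 2.23607`. -/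
theorem vl_ci {i : ℕ} (h : i < 11) : |10000 * vl i - (ci i : ℝ)| ≤ 1 := by
  have h2 : √2 * √2 = (2 : ℝ) := Real.mul_self_sqrt (by norm_num)
  have h5 : √5 * √5 = (5 : ℝ) := Real.mul_self_sqrt (by norm_num)
  have p2 : 0 ≤ √(2 : ℝ) := Real.sqrt_nonneg 2
  have p5 : 0 ≤ √(5 : ℝ) := Real.sqrt_nonneg 5
  have a2 : (1.41421 : ℝ) < √2 := by nlinarith
  have b2 : √2 < (1.41422 : ℝ) := by nlinarith
  have a5 : (2.23606 : ℝ) < √5 := by nlinarith
  have b5 : √5 < (2.23607 : ℝ) := by nlinarith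
  interval_cases i <;> simp only [vl, ci] <;> rw [abs_le] <;> push_cast <;> constructor <;> linarith

/-- Row C2. -/
theorem vl_c5 {i : ℕ} (h : i < 11) (h5 : i ≠ 5) (h6 : i ≠ 6) : vl i = zr 5 (c5 i) := by
  interval_cases i
  all_goals first
    | exact absurd rfl h5
    | exact absurd rfl h6
    | (simp only [vl, zr, c5]; push_cast; ring)

theorem vl_c2 {i : ℕ} (h : i < 7) : vl i = zr 2 (c2 i) := by
  interval_cases i <;> simp only [vl, zr, c2] <;> push_cast <;> ring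

end ChiralQ
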