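import Pool.Agent.Lib.MP_bc704c_co.R.C2

/-! # MP_bc704c_co, row C2: the eleven numbers -/

namespace ChiralQ

open Quaternion

/-- the approximate equations -/
def cnd (i j k l m : ℕ) : Bool :=
  decide ((ci i).natAbs ≠ (ci j).natAbs) && decide ((ci i).natAbs ≠ 10000) &&
  decide ((ci j).natAbs ≠ 10000) && decide (k ≠ l) && decide (m ≠ 0) &&
  decide ((10000 * (ci k + ci l) - 2 * ci i * ci j).natAbs ≤ 70000) &&
  decide ((100000000 * (4 * ci m ^ 2 + (ci k - ci l) ^ 2) -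
    4 * (100000000 - ci i ^ 2) * (100000000 - ci j ^ 2)).natAbs ≤ 33000000000000)

/-- the square of `vl i` in terms of `|ci i|` -/
noncomputable def C2b_sqv (n : ℕ) : ℝ :=
  if n = 0 then 0 else if n = 10000 then 1 else if n = 5000 then 1 / 4 else if n = 7071 then 1 / 2
  else if n = 8090 then ((1 + √5) / 4) ^ 2 else ((√5 - 1) / 4) ^ 2

theorem C2b_sq {i : ℕ} (h : i < 11) : vl i ^ 2 = C2b_sqv (ci i).natAbs := by
  have h2 : √(2 : ℝ) ^ 2 = 2 := Real.sq_sqrt (by norm_num)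
  interval_cases i
  · simp [vl, ci, C2b_sqv]
  · simp [vl, ci, C2b_sqv]
  · simp [vl, ci, C2b_sqv]
  · simp only [vl, ci, C2b_sqv]; norm_num
  · simp only [vl, ci, C2b_sqv]; norm_num
  · simp only [vl, ci, C2b_sqv]; norm_num [div_pow, h2]
  · simp only [vl, ci, C2b_sqv]; norm_num [div_pow, h2]
  · simp only [vl, ci, C2b_sqv]; norm_num
  · simp only [vl, ci, C2b_sqv]; norm_num; ring
  · simp only [vl, ci, C2b_sqv]; norm_num
  · simp only [vl, ci, C2b_sqv]; norm_num; ring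

theorem C2b_ci {i : ℕ} (h : i < 11) : |((ci i : ℤ) : ℝ)| ≤ 10000 := by
  interval_cases i <;> simp only [ci] <;> norm_num [abs_le]

theorem C2b_nat {a : ℤ} {b : ℕ} (h : |(a : ℝ)| ≤ (b : ℝ)) : a.natAbs ≤ b := by
  have h1 : |a| ≤ (b : ℤ) := by exact_mod_cast h
  rw [Int.abs_eq_natAbs] at h1
  exact_mod_cast h1

theorem C2b_mul {a b A B : ℝ} (ha : |a| ≤ A) (hb : |b| ≤ B) : |a * b| ≤ A * B := by
  rw [abs_mul]
  exact mul_le_mul ha hb (abs_nonneg b) ((abs_nonneg a).trans ha)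

theorem C2b_e1 {xi xj xk xl a b k l : ℝ} (hi : |xi - a| ≤ 1) (hj : |xj - b| ≤ 1) (hk : |xk - k| ≤ 1)
    (hl : |xl - l| ≤ 1) (ha : |a| ≤ 10000) (hb : |b| ≤ 10000)
    (h : 10000 * (xk + xl) = 2 * xi * xj) : |10000 * (k + l) - 2 * a * b| ≤ 70000 := by
  have e : 10000 * (k + l) - 2 * a * b =
      2 * (xi * (xj - b) + (xi - a) * b) - 10000 * ((xk - k) + (xl - l)) := by
    linear_combination h
  have hx : |xi| ≤ 10001 := by
    rw [abs_le] at *; constructor <;> linarith [hi.1, hi.2, ha.1, ha.2]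
  have m1 := C2b_mul hx hj
  have m2 := C2b_mul hi hb
  rw [e]
  rw [abs_le] at *
  constructor <;> linarith [m1.1, m1.2, m2.1, m2.2, hk.1, hk.2, hl.1, hl.2]

theorem C2b_sub {x c : ℝ} (h : |x - c| ≤ 1) (hc : |c| ≤ 10000) : |c ^ 2 - x ^ 2| ≤ 20001 := by
  have h2 : |c + x| ≤ 20001 := by
    rw [abs_le] at *; constructor <;> linarith [h.1, h.2, hc.1, hc.2]
  have m := C2b_mul h h2
  have e : c ^ 2 - x ^ 2 = -((x - c) * (c + x)) := by ring
  rw [e, abs_neg]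
  linarith

theorem C2b_e2 {xi xj xk xl xm a b k l m : ℝ} (hi : |xi - a| ≤ 1) (hj : |xj - b| ≤ 1)
    (hk : |xk - k| ≤ 1) (hl : |xl - l| ≤ 1) (hm : |xm - m| ≤ 1) (ha : |a| ≤ 10000)
    (hb : |b| ≤ 10000) (hk' : |k| ≤ 10000) (hl' : |l| ≤ 10000) (hm' : |m| ≤ 10000)
    (h : 100000000 * (4 * xm ^ 2 + (xk - xl) ^ 2) =
      4 * (100000000 - xi ^ 2) * (100000000 - xj ^ 2)) :
    |100000000 * (4 * m ^ 2 + (k - l) ^ 2) -
      4 * (100000000 - a ^ 2) * (100000000 - b ^ 2)| ≤ 33000000000000 := by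
  have s1 := C2b_sub hm hm'
  have si := C2b_sub hi ha
  have sj := C2b_sub hj hb
  have d1 : |(xk - xl) - (k - l)| ≤ 2 := by
    rw [abs_le] at *; constructor <;> linarith [hk.1, hk.2, hl.1, hl.2]
  have d2 : |(k - l) + (xk - xl)| ≤ 40002 := by
    rw [abs_le] at *; constructor <;> linarith [hk.1, hk.2, hl.1, hl.2, hk'.1, hk'.2, hl'.1, hl'.2]
  have m1 := C2b_mul d1 d2
  have hb2 : |100000000 - b ^ 2| ≤ 100000000 := by
    have := abs_le.1 hb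
    rw [abs_le]; constructor <;> nlinarith [this.1, this.2, sq_nonneg b]
  have ha2 : |100000000 - xi ^ 2| ≤ 100020001 := by
    have := abs_le.1 ha
    have h3 := abs_le.1 si
    have h4 : a ^ 2 ≤ 100000000 := by nlinarith [this.1, this.2]
    rw [abs_le]; constructor <;> nlinarith [sq_nonneg a, sq_nonneg xi, h3.1, h3.2]
  have m2 := C2b_mul si hb2
  have m3 := C2b_mul ha2 sj
  have e : 100000000 * (4 * m ^ 2 + (k - l) ^ 2) -
      4 * (100000000 - a ^ 2) * (100000000 - b ^ 2) =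
      100000000 * (4 * (m ^ 2 - xm ^ 2) - ((xk - xl) - (k - l)) * ((k - l) + (xk - xl))) +
      4 * ((a ^ 2 - xi ^ 2) * (100000000 - b ^ 2) + (100000000 - xi ^ 2) * (b ^ 2 - xj ^ 2)) := by
    linear_combination h
  rw [e]
  have t1 := abs_le.1 s1
  have t2 := abs_le.1 m1
  have t3 := abs_le.1 m2
  have t4 := abs_le.1 m3
  rw [abs_le]
  constructor <;> nlinarith [t1.1, t1.2, t2.1, t2.2, t3.1, t3.2, t4.1, t4.2]

/-- Row C2. `g0 = vl k`, `g1 = vl l`, `g0 + g1 = 2 α β`, `S = vl m`, `4 S² + (g0 - g1)² = 4 (1 - α²)(1 - β²)`. Put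
`x' = 10 ^ 4 x = ci + δ`, `|δ| ≤ 1`, `|x'| ≤ 10 ^ 4 + 1`: the errors are at most `10^4 · 2 + 2 (2 · 10^4 + 3) ≤ 70000` and
`10 ^ 8 (4 (2 · 10^4 + 1) + 4 (2 · 10^4 + 1)) + 4 · 2 · (10^8 + ...)(2 · 10^4 + 1) ≤ 3.3 · 10 ^ 13`. (`α² ≠ β²` means
`|ci i| ≠ |ci j|`: `interval_cases i, j` or compare `vl`.) -/
theorem cnd_of {i j k l m : ℕ} (hi : i < 11) (hj : j < 11) (hk : k < 11) (hl : l < 11)
    (hm : m < 11) (h1 : vl i ^ 2 ≠ vl j ^ 2) (h2 : vl i ^ 2 ≠ 1) (h3 : vl j ^ 2 ≠ 1)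
    (h4 : vl k ≠ vl l) (h5 : vl m ≠ 0) (h6 : vl k + vl l = 2 * vl i * vl j)
    (h7 : 4 * vl m ^ 2 + (vl k - vl l) ^ 2 = 4 * (1 - vl i ^ 2) * (1 - vl j ^ 2)) :
    cnd i j k l m = true := by
  have q1 : (ci i).natAbs ≠ (ci j).natAbs := by
    intro e; apply h1; rw [C2b_sq hi, C2b_sq hj, e]
  have q2 : (ci i).natAbs ≠ 10000 := by
    intro e; apply h2; rw [C2b_sq hi, e]; norm_num [C2b_sqv]
  have q3 : (ci j).natAbs ≠ 10000 := by
    intro e; apply h3; rw [C2b_sq hj, e]; norm_num [C2b_sqv]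
  have q4 : k ≠ l := by rintro rfl; exact h4 rfl
  have q5 : m ≠ 0 := by rintro rfl; exact h5 rfl
  have vi := vl_ci hi
  have vj := vl_ci hj
  have vk := vl_ci hk
  have vl' := vl_ci hl
  have vm := vl_ci hm
  have q6 : (10000 * (ci k + ci l) - 2 * ci i * ci j).natAbs ≤ 70000 := by
    apply C2b_nat
    push_cast
    exact C2b_e1 vi vj vk vl' (C2b_ci hi) (C2b_ci hj) (by linear_combination 100000000 * h6)
  have q7 : (100000000 * (4 * ci m ^ 2 + (ci k - ci l) ^ 2) -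
    4 * (100000000 - ci i ^ 2) * (100000000 - ci j ^ 2)).natAbs ≤ 33000000000000 := by
    apply C2b_nat
    push_cast
    exact C2b_e2 vi vj vk vl' vm (C2b_ci hi) (C2b_ci hj) (C2b_ci hk) (C2b_ci hl) (C2b_ci hm)
      (by linear_combination 10000000000000000 * h7)
  unfold cnd
  simp only [Bool.and_eq_true, decide_eq_true_eq]
  exact ⟨⟨⟨⟨⟨⟨q1, q2⟩, q3⟩, q4⟩, q5⟩, q6⟩, q7⟩

end ChiralQ
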