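import Pool.Agent.Lib.MP_bc704c_co.R.C2b
/-! # MP_bc704c_co, row C3: the enumeration -/

namespace ChiralQ

open Quaternion

/-- entry of the table `tab5` -/
def in5 (i j k l m : ℕ) : Bool :=
  decide (i ≠ 5 ∧ i ≠ 6 ∧ j ≠ 5 ∧ j ≠ 6 ∧ k ≠ 5 ∧ k ≠ 6 ∧ l ≠ 5 ∧ l ≠ 6 ∧ m ≠ 5 ∧ m ≠ 6) &&
  tab5.any (fun e => decide (e.A = c5 i) && decide (e.B = c5 j) && decide (e.F = c5 m) &&
    decide (za e.E e.E = za (c5 k) (zn (c5 l))))

/-- entry of the table `tab2` -/
def in2 (i j k l m : ℕ) : Bool :=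
  decide (i < 7 ∧ j < 7 ∧ k < 7 ∧ l < 7 ∧ m < 7) &&
  tab2.any (fun e => decide (e.A = c2 i) && decide (e.B = c2 j) && decide (e.F = c2 m) &&
    decide (za e.E e.E = za (c2 k) (zn (c2 l))))

/-- the sporadic polyhedra of type `{8, 4}` -/
def inS (i j k l m : ℕ) : Bool :=
  decide ((m = 5 ∨ m = 6) ∧ (k = 3 ∨ k = 4) ∧ (l = 3 ∨ l = 4) ∧ k ≠ l ∧
    ((i = 0 ∧ (j = 3 ∨ j = 4)) ∨ (j = 0 ∧ (i = 3 ∨ i = 4))))

/-- the check -/
def enum : Bool :=
  (List.range 11).all fun i => (List.range 11).all fun j =>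
    (decide ((ci i).natAbs = (ci j).natAbs ∨ (ci i).natAbs = 10000 ∨ (ci j).natAbs = 10000)) ||
    ((List.range 11).all fun k => (List.range 11).all fun l =>
      (decide (70000 < (10000 * (ci k + ci l) - 2 * ci i * ci j).natAbs)) ||
      ((List.range 11).all fun m =>
        !(cnd i j k l m) || in5 i j k l m || in2 i j k l m || inS i j k l m))

theorem enum_ok : enum = true := by decide +kernel

/-- Row C3. From `enum_ok` (`List.all_eq_true`, `List.mem_range`); `cnd` contains the two conditions of the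
early exits. -/
theorem enum_cases {i j k l m : ℕ} (hi : i < 11) (hj : j < 11) (hk : k < 11) (hl : l < 11)
    (hm : m < 11) (h : cnd i j k l m = true) :
    in5 i j k l m = true ∨ in2 i j k l m = true ∨ inS i j k l m = true := by
  have h0 := enum_ok
  unfold enum at h0
  rw [List.all_eq_true] at h0
  have h1 := h0 i (List.mem_range.2 hi)
  rw [List.all_eq_true] at h1
  have h2 := h1 j (List.mem_range.2 hj)
  have hc := h
  unfold cnd at hc
  simp only [Bool.and_eq_true, decide_eq_true_eq] at hc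
  obtain ⟨⟨⟨⟨⟨⟨c1, c2'⟩, c3⟩, c4⟩, c5'⟩, c6⟩, c7⟩ := hc
  rw [Bool.or_eq_true] at h2
  rcases h2 with h2 | h2
  · rw [decide_eq_true_eq] at h2
    rcases h2 with h2 | h2 | h2
    · exact absurd h2 c1
    · exact absurd h2 c2'
    · exact absurd h2 c3
  rw [List.all_eq_true] at h2
  have h3 := h2 k (List.mem_range.2 hk)
  rw [List.all_eq_true] at h3
  have h4 := h3 l (List.mem_range.2 hl)
  rw [Bool.or_eq_true] at h4
  rcases h4 with h4 | h4
  · rw [decide_eq_true_eq] at h4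
    omega
  rw [List.all_eq_true] at h4
  have h5 := h4 m (List.mem_range.2 hm)
  rw [h] at h5
  simp only [Bool.not_true, Bool.false_or, Bool.or_eq_true] at h5
  rcases h5 with (h5 | h5) | h5
  · exact Or.inl h5
  · exact Or.inr (Or.inl h5)
  · exact Or.inr (Or.inr h5)

/-- Row C3: `zr` is additive. -/
theorem C3_zr_add (D : ℤ) (x y : ℤ × ℤ) : zr D (za x y) = zr D x + zr D y := by
  unfold zr za
  push_cast
  ring

/-- Row C3: differences. -/
theorem C3_zr_sub (D : ℤ) (x y : ℤ × ℤ) : zr D (za x (zn y)) = zr D x - zr D y := by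
  unfold zr za zn
  push_cast
  ring

/-- Row C3. `cs_idx` for the five numbers, `g0 = α β + D`, `g1 = α β - D`; `cnd_of`, `enum_cases`; in the first
two cases `2 D = g0 - g1` is `zr` of `2 E` (`zr` is additive), `vl_c5`, `vl_c2`; in the third case
`S = ± √2/2`, `g0, g1 = ± 1/2`, `D = ± 1/2` since `k ≠ l`. -/
theorem enum_real {α β D S : ℝ} (h1 : Cs α) (h2 : Cs β) (h3 : Cs (α * β + D)) (h4 : Cs (α * β - D))
    (h5 : Cs S) (hSD : S ^ 2 + D ^ 2 = (1 - α ^ 2) * (1 - β ^ 2)) (hne : α ^ 2 ≠ β ^ 2)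
    (hα : α ^ 2 ≠ 1) (hβ : β ^ 2 ≠ 1) (hD : D ≠ 0) (hS : S ≠ 0) :
    (∃ e ∈ tab5, α = zr 5 e.A ∧ β = zr 5 e.B ∧ D = zr 5 e.E ∧ S = zr 5 e.F) ∨
    (∃ e ∈ tab2, α = zr 2 e.A ∧ β = zr 2 e.B ∧ D = zr 2 e.E ∧ S = zr 2 e.F) ∨
    (S ^ 2 = 1 / 2 ∧ ((α ^ 2 = 0 ∧ β ^ 2 = 1 / 4) ∨ (α ^ 2 = 1 / 4 ∧ β ^ 2 = 0))) := by
  obtain ⟨i, hi, ei⟩ := cs_idx h1
  obtain ⟨j, hj, ej⟩ := cs_idx h2
  obtain ⟨k, hk, ek⟩ := cs_idx h3
  obtain ⟨l, hl, el⟩ := cs_idx h4
  obtain ⟨m, hm, em⟩ := cs_idx h5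
  have hc : cnd i j k l m = true := by
    refine cnd_of hi hj hk hl hm ?_ ?_ ?_ ?_ ?_ ?_ ?_
    · rw [← ei, ← ej]; exact hne
    · rw [← ei]; exact hα
    · rw [← ej]; exact hβ
    · rw [← ek, ← el]
      intro hh
      apply hD
      linarith
    · rw [← em]; exact hS
    · rw [← ek, ← el, ← ei, ← ej]; ring
    · rw [← ek, ← el, ← ei, ← ej, ← em]
      linear_combination 4 * hSD
  have h2D : 2 * D = vl k - vl l := by rw [← ek, ← el]; ring
  rcases enum_cases hi hj hk hl hm hc with h | h | h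
  · left
    unfold in5 at h
    simp only [Bool.and_eq_true, decide_eq_true_eq, List.any_eq_true] at h
    obtain ⟨⟨i5, i6, j5, j6, k5, k6, l5, l6, m5, m6⟩, e, he, ⟨⟨eA, eB⟩, eF⟩, eE⟩ := h
    refine ⟨e, he, ?_, ?_, ?_, ?_⟩
    · rw [ei, vl_c5 hi i5 i6, eA]
    · rw [ej, vl_c5 hj j5 j6, eB]
    · have h6 : 2 * zr 5 e.E = vl k - vl l := by
        rw [vl_c5 hk k5 k6, vl_c5 hl l5 l6, ← C3_zr_sub, ← eE, C3_zr_add]
        ring
      linarith
    · rw [em, vl_c5 hm m5 m6, eF]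
  · right; left
    unfold in2 at h
    simp only [Bool.and_eq_true, decide_eq_true_eq, List.any_eq_true] at h
    obtain ⟨⟨i7, j7, k7, l7, m7⟩, e, he, ⟨⟨eA, eB⟩, eF⟩, eE⟩ := h
    refine ⟨e, he, ?_, ?_, ?_, ?_⟩
    · rw [ei, vl_c2 i7, eA]
    · rw [ej, vl_c2 j7, eB]
    · have h6 : 2 * zr 2 e.E = vl k - vl l := by
        rw [vl_c2 k7, vl_c2 l7, ← C3_zr_sub, ← eE, C3_zr_add]
        ring
      linarith
    · rw [em, vl_c2 m7, eF]
  · right; right
    unfold inS at h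
    simp only [decide_eq_true_eq] at h
    obtain ⟨hm5, -, -, -, hij⟩ := h
    have hs2 : (√2 : ℝ) ^ 2 = 2 := Real.sq_sqrt (by norm_num)
    constructor
    · rw [em]
      rcases hm5 with rfl | rfl
      · simp only [vl]
        nlinarith [hs2]
      · simp only [vl]
        nlinarith [hs2]
    · rcases hij with ⟨rfl, hj'⟩ | ⟨rfl, hi'⟩
      · left
        rw [ei, ej]
        rcases hj' with rfl | rfl <;> constructor <;> simp only [vl] <;> norm_num
      · right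
        rw [ei, ej]
        rcases hi' with rfl | rfl <;> constructor <;> simp only [vl] <;> norm_num

end ChiralQ
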