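import Pool.Agent.Lib.MP_bc704c_co.R.C0
/-! # MP_bc704c_co: the words are correct -/

namespace ChiralQ

theorem tab5_ok : (tab5.all fun e => chkw 5 e (wd e.w)) = true := by decide +kernel

theorem tab2_ok : (tab2.all fun e => chkw 2 e (wd e.w)) = true := by decide +kernel

end ChiralQ
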