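import Pool.Agent.Lib.MP_bc704c_co.R.C2

/-! # MP_bc704c_co, row C5: the coordinates -/

namespace ChiralQ

open Quaternion

/-- the real number `p + q √D` -/
noncomputable def zf (D : ℤ) (x : ℤ × ℤ) : ℝ := (x.1 : ℝ) + (x.2 : ℝ) * √(D : ℝ)

/-- Row C5. -/
theorem zf_m {D : ℤ} (hD : 0 ≤ D) (x y : ℤ × ℤ) : zf D (zm D x y) = zf D x * zf D y := by
  have h : √(D : ℝ) * √(D : ℝ) = (D : ℝ) := Real.mul_self_sqrt (by exact_mod_cast hD)
  unfold zf zm
  push_cast
  linear_combination (-(x.2 : ℝ) * (y.2 : ℝ)) * h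

theorem zf_a (D : ℤ) (x y : ℤ × ℤ) : zf D (za x y) = zf D x + zf D y := by
  unfold zf za
  push_cast
  ring

theorem zf_n (D : ℤ) (x : ℤ × ℤ) : zf D (zn x) = -zf D x := by
  unfold zf zn
  push_cast
  ring

/-- Row C5. `√2` and `√5` are irrational. -/
theorem zf_inj {D : ℤ} (hD : D = 2 ∨ D = 5) {x y : ℤ × ℤ} (h : zf D x = zf D y) : x = y := by
  have hirr : Irrational √(D : ℝ) := by
    rcases hD with rfl | rfl
    · have := (Nat.prime_two).irrational_sqrt
      exact_mod_cast this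
    · have := (by norm_num : Nat.Prime 5).irrational_sqrt
      exact_mod_cast this
  have h1 : ((x.1 - y.1 : ℤ) : ℝ) + ((x.2 - y.2 : ℤ) : ℝ) * √(D : ℝ) = 0 := by
    unfold zf at h
    push_cast
    linear_combination h
  have h2 : x.2 - y.2 = 0 := by
    by_contra hne
    have hne' : ((x.2 - y.2 : ℤ) : ℝ) ≠ 0 := by exact_mod_cast hne
    have h3 : √(D : ℝ) = ((-(x.1 - y.1 : ℤ) / (x.2 - y.2 : ℤ) : ℚ) : ℝ) := by
      push_cast at h1 hne' ⊢
      field_simp
      linear_combination h1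
    exact hirr ⟨_, h3.symm⟩
  have h4 : x.1 - y.1 = 0 := by
    rw [h2] at h1
    have : ((x.1 - y.1 : ℤ) : ℝ) = 0 := by simpa using h1
    exact_mod_cast this
  exact Prod.ext (by omega) (by omega)

/-- the quaternion with the coordinates `x` with respect to `1, i, U = p j + q k, i U` -/
noncomputable def em (D : ℤ) (p q : ℝ) (x : V4) : ℍ[ℝ] :=
  ⟨zf D x.a, zf D x.b, zf D x.c * p - zf D x.d * q, zf D x.c * q + zf D x.d * p⟩

/-- Row C5. In coordinates; `qv` was written down for `i U = - U i`, `U² = -R`, `R = p² + q²`. -/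
theorem em_qv {D : ℤ} (hD : 0 ≤ D) {p q : ℝ} {R : ℤ × ℤ} (hR : zf D R = p ^ 2 + q ^ 2) (x y : V4) :
    em D p q (qv D R x y) = em D p q x * em D p q y := by
  have m := fun x y => zf_m (D := D) hD x y
  have a := zf_a D
  have n := zf_n D
  apply Quaternion.ext
  · simp only [em, qv, m, a, n, hR, Quaternion.re_mul]
    ring
  · simp only [em, qv, m, a, n, hR, Quaternion.imI_mul]
    ring
  · simp only [em, qv, m, a, n, hR, Quaternion.imJ_mul]
    ring
  · simp only [em, qv, m, a, n, hR, Quaternion.imK_mul]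
    ring

/-- Row C5. `em` is injective (`p² + q² ≠ 0`, `zf_inj`). -/
theorem em_inj {D : ℤ} (hD : D = 2 ∨ D = 5) {p q : ℝ} (h0 : p ^ 2 + q ^ 2 ≠ 0) {x y : V4}
    (h : em D p q x = em D p q y) : x = y := by
  have h1 : zf D x.a = zf D y.a := congrArg (fun z : ℍ[ℝ] => z.re) h
  have h2 : zf D x.b = zf D y.b := congrArg (fun z : ℍ[ℝ] => z.imI) h
  have h3 : zf D x.c * p - zf D x.d * q = zf D y.c * p - zf D y.d * q :=
    congrArg (fun z : ℍ[ℝ] => z.imJ) h
  have h4 : zf D x.c * q + zf D x.d * p = zf D y.c * q + zf D y.d * p :=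
    congrArg (fun z : ℍ[ℝ] => z.imK) h
  have h5 : zf D x.c = zf D y.c := by
    apply mul_right_cancel₀ h0
    linear_combination p * h3 + q * h4
  have h6 : zf D x.d = zf D y.d := by
    apply mul_right_cancel₀ h0
    linear_combination p * h4 - q * h3
  obtain ⟨xa, xb, xc, xd⟩ := x
  obtain ⟨ya, yb, yc, yd⟩ := y
  have e1 := zf_inj hD h1
  have e2 := zf_inj hD h2
  have e3 := zf_inj hD h5
  have e4 := zf_inj hD h6
  simp only at e1 e2 e3 e4
  subst e1 e2 e3 e4
  rfl

end ChiralQ
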