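import Pool.Agent.Lib.MP_bc704c_co.R.C5

/-! # MP_bc704c_co, row C5: the coordinates -/

namespace ChiralQ

open Quaternion

theorem C5b_zf_zr (D : ℤ) (x : ℤ × ℤ) : zf D x = 8 * zr D x := by
  unfold zf zr; ring

theorem C5b_em_vn (D : ℤ) (p q : ℝ) (x : V4) : em D p q (vn x) = -em D p q x := by
  unfold em vn
  ext
  · simp [zf_n]
  · simp [zf_n]
  · simp only [zf_n, Quaternion.imJ_neg]; ring
  · simp only [zf_n, Quaternion.imK_neg]; ring

theorem C5b_star {b : ℍ[ℝ]} (hb : b.re = 0) : star b = -b := by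
  ext
  · simp [hb]
  · simp
  · simp
  · simp

/-- Row C5. `8 a` has the coordinates `(0, A, 1, 0)` and `8 R b` the coordinates `(0, R B, 8 F, 8 E)`, since
`|u|² w = ⟪u, w⟫ u + (u_J w_K - u_K w_J) i u` (`u`, `w` the parts of `a`, `b` in the plane of `j, k`,
`p = 8 u_J`, `q = 8 u_K`); `t v = a v b̄ = - a v b`. -/
theorem em_tv {D : ℤ} (hD : 0 ≤ D) {a b : ℍ[ℝ]} (ha : UI a) (hb : UI b) {e : Ent}
    (hA : a.imI = zr D e.A) (hB : b.imI = zr D e.B)
    (hE : a.imJ * b.imK - a.imK * b.imJ = zr D e.E) (hF : a.imJ * b.imJ + a.imK * b.imK = zr D e.F)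
    (v : V4) : em D (8 * a.imJ) (8 * a.imK) (tv D e v) =
      (64 * zf D (rr D e.A)) • tF a b (em D (8 * a.imJ) (8 * a.imK) v) ∧
    zf D (rr D e.A) = 64 * (a.imJ ^ 2 + a.imK ^ 2) := by
  have hfA : zf D e.A = 8 * a.imI := by rw [hA, C5b_zf_zr]
  have hfB : zf D e.B = 8 * b.imI := by rw [hB, C5b_zf_zr]
  have hfE : zf D e.E = 8 * (a.imJ * b.imK - a.imK * b.imJ) := by rw [hE, C5b_zf_zr]
  have hfF : zf D e.F = 8 * (a.imJ * b.imJ + a.imK * b.imK) := by rw [hF, C5b_zf_zr]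
  have h00 : zf D (0, 0) = 0 := by simp [zf]
  have h10 : zf D (1, 0) = 1 := by simp [zf]
  have h80 : zf D (8, 0) = 8 := by simp [zf]
  have h640 : zf D (64, 0) = 64 := by simp [zf]
  have hR : zf D (rr D e.A) = 64 * (a.imJ ^ 2 + a.imK ^ 2) := by
    unfold rr
    rw [zf_a, zf_n, zf_m hD, hfA, h640]
    have := ha.2
    linear_combination (-64) * this
  refine ⟨?_, hR⟩
  have hR' : zf D (rr D e.A) = (8 * a.imJ) ^ 2 + (8 * a.imK) ^ 2 := by rw [hR]; ring
  have h1 : em D (8 * a.imJ) (8 * a.imK) ⟨(0, 0), e.A, (1, 0), (0, 0)⟩ = (8 : ℝ) • a := by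
    unfold em
    ext
    · simp [h00, ha.1]
    · simp [hfA]
    · simp [h10, h00]
    · simp [h10, h00]
  have h2 : em D (8 * a.imJ) (8 * a.imK)
      ⟨(0, 0), zm D (rr D e.A) e.B, zm D (8, 0) e.F, zm D (8, 0) e.E⟩ =
      (8 * zf D (rr D e.A)) • b := by
    unfold em
    ext
    · simp [h00, hb.1]
    · simp only [zf_m hD, hfB, Quaternion.imI_smul, smul_eq_mul]; ring
    · simp only [zf_m hD, hfE, hfF, h80, hR, Quaternion.imJ_smul, smul_eq_mul]; ring
    · simp only [zf_m hD, hfE, hfF, h80, hR, Quaternion.imK_smul, smul_eq_mul]; ring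
  unfold tv
  rw [C5b_em_vn, em_qv hD hR', em_qv hD hR', h1, h2]
  unfold tF
  rw [C5b_star hb.1]
  rw [smul_mul_assoc, smul_mul_assoc, mul_smul_comm, smul_smul, mul_neg, smul_neg]
  congr 2
  ring

/-- Row C5. -/
theorem em_sv (D : ℤ) (p q : ℝ) (v : V4) : em D p q (sv v) = sF (-1) 0 1 (em D p q v) ∧
    em D p q (sw v) = sF (-1) 0 (-1) (em D p q v) := by
  constructor
  · unfold em sv sF
    ext
    · simp
    · simp [zf_n]
    · simp only [zf_n]; ring
    · simp only [zf_n]; ring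
  · unfold em sw sF
    ext
    · simp
    · simp [zf_n]
    · simp only [zf_n]; ring
    · simp only [zf_n]; ring

end ChiralQ
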