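import Pool.Agent.Lib.MP_bc704c_co.R.C5b
import Pool.Agent.Lib.MP_bc704c_co.Q.Al8

/-! # MP_bc704c_co, row C6: the words -/

namespace ChiralQ

open Quaternion ChiralNF

variable {s t : ℍ[ℝ] ≃ₗᵢ[ℝ] ℍ[ℝ]} {a b : ℍ[ℝ]}

theorem C6_runw0 (D : ℤ) (e : Ent) (w : List ℕ) (v : V4) :
    runw D e (0 :: w) v = tv D e (runw D e w v) := rfl

theorem C6_runw1 (D : ℤ) (e : Ent) (w : List ℕ) (v : V4) :
    runw D e (1 :: w) v = sv (runw D e w v) := rfl

theorem C6_runw2 (D : ℤ) (e : Ent) (n : ℕ) (w : List ℕ) (v : V4) :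
    runw D e ((n + 2) :: w) v = sw (runw D e w v) := rfl

theorem C6_facw0 (D : ℤ) (e : Ent) (w : List ℕ) :
    facw D e (0 :: w) = zm D (zm D (64, 0) (rr D e.A)) (facw D e w) := rfl

theorem C6_facw1 (D : ℤ) (e : Ent) (w : List ℕ) : facw D e (1 :: w) = facw D e w := rfl

theorem C6_facw2 (D : ℤ) (e : Ent) (n : ℕ) (w : List ℕ) : facw D e ((n + 2) :: w) = facw D e w := rfl

theorem C6_zf (D p : ℤ) : zf D (p, 0) = (p : ℝ) := by
  unfold zf
  simp

theorem C6_fac0 {D : ℤ} (hD : 0 ≤ D) (e : Ent) (w : List ℕ) :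
    zf D (facw D e (0 :: w)) = 64 * zf D (rr D e.A) * zf D (facw D e w) := by
  rw [C6_facw0, zf_m hD, zf_m hD, C6_zf]
  norm_num

theorem C6_sF_smul (ε c d k : ℝ) (v : ℍ[ℝ]) : sF ε c d (k • v) = k • sF ε c d v := by
  unfold sF
  ext <;> simp <;> ring

theorem C6_tF_smul (a b : ℍ[ℝ]) (k : ℝ) (v : ℍ[ℝ]) : tF a b (k • v) = k • tF a b v := by
  unfold tF
  rw [mul_smul_comm, smul_mul_assoc]

/-- Row C6. Induction over the word: `em (runw w v) = zf (facw w) • g (em v)` for the element `g` of the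
group given by the word. `s` is `H.hs`, its inverse `symm_s`, `t` is `H.ht` and `em_tv`; `zf` is
multiplicative (`zf_m`). `zf D (facw D e w) ≠ 0` because `zf D (rr D e.A) = 64 |u|² ≠ 0` (by `Chi`). -/
theorem run_real (H : Std s t (-1) 0 1 a b) {D : ℤ} (hD : 0 ≤ D) {e : Ent}
    (hA : a.imI = zr D e.A) (hB : b.imI = zr D e.B)
    (hE : a.imJ * b.imK - a.imK * b.imJ = zr D e.E) (hF : a.imJ * b.imJ + a.imK * b.imK = zr D e.F)
    (w : List ℕ) : ∃ g ∈ GG s t, ∀ v, em D (8 * a.imJ) (8 * a.imK) (runw D e w v) =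
      zf D (facw D e w) • g (em D (8 * a.imJ) (8 * a.imK) v) := by
  have hsmem : s ∈ GG s t := Subgroup.subset_closure (by simp)
  have htmem : t ∈ GG s t := Subgroup.subset_closure (by simp)
  induction w with
  | nil =>
    refine ⟨1, one_mem _, fun v => ?_⟩
    have h1 : facw D e [] = (1, 0) := rfl
    have h2 : runw D e [] v = v := rfl
    rw [h1, h2, C6_zf]
    simp
  | cons n w ih =>
    obtain ⟨g, hg, hv⟩ := ih
    rcases n with _ | _ | n
    · refine ⟨t * g, mul_mem htmem hg, fun v => ?_⟩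
      rw [C6_runw0, (em_tv hD H.ha H.hb hA hB hE hF _).1, hv, C6_tF_smul, C6_fac0 hD, smul_smul,
        LinearIsometryEquiv.coe_mul, Function.comp_apply, H.ht]
    · refine ⟨s * g, mul_mem hsmem hg, fun v => ?_⟩
      rw [C6_runw1, (em_sv D _ _ _).1, hv, C6_sF_smul, C6_facw1, LinearIsometryEquiv.coe_mul, Function.comp_apply, H.hs]
    · refine ⟨s⁻¹ * g, mul_mem (inv_mem hsmem) hg, fun v => ?_⟩
      have h3 := symm_s H.hε H.hcd H.hs (g (em D (8 * a.imJ) (8 * a.imK) v))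
      rw [C6_runw2, (em_sv D _ _ _).2, hv, C6_sF_smul, C6_facw2, LinearIsometryEquiv.coe_mul, Function.comp_apply]
      congr 1
      exact h3.symm

theorem fac_ne (H : Std s t (-1) 0 1 a b) {D : ℤ} (hD : 0 ≤ D) {e : Ent}
    (hA : a.imI = zr D e.A) (hB : b.imI = zr D e.B)
    (hE : a.imJ * b.imK - a.imK * b.imJ = zr D e.E) (hF : a.imJ * b.imJ + a.imK * b.imK = zr D e.F)
    (w : List ℕ) : zf D (facw D e w) ≠ 0 := by
  have h0 : zf D (rr D e.A) ≠ 0 := by
    rw [(em_tv hD H.ha H.hb hA hB hE hF ⟨(0, 0), (0, 0), (0, 0), (0, 0)⟩).2]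
    have h1 := H.chi.2
    intro h2
    apply h1
    have h3 : a.imJ = 0 := by nlinarith [sq_nonneg a.imJ, sq_nonneg a.imK]
    have h4 : a.imK = 0 := by nlinarith [sq_nonneg a.imJ, sq_nonneg a.imK]
    rw [h3, h4]
    ring
  induction w with
  | nil =>
    have h1 : facw D e [] = (1, 0) := rfl
    rw [h1, C6_zf]
    norm_num
  | cons n w ih =>
    rcases n with _ | _ | n
    · rw [C6_fac0 hD]
      exact mul_ne_zero (mul_ne_zero (by norm_num) h0) ih
    · rw [C6_facw1]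
      exact ih
    · rw [C6_facw2]
      exact ih

end ChiralQ
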