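import Pool.Agent.Lib.MP_bc704c_co.R.C5b
import Pool.Agent.Lib.MP_bc704c_co.Q.Al8

/-! # MP_bc704c_co, row C6: the words -/

namespace ChiralQ

open Quaternion ChiralNF

variable {s t : ℍ[ℝ] ≃ₗᵢ[ℝ] ℍ[ℝ]} {a b : ℍ[ℝ]}

theorem C6b_four {F : ℍ[ℝ] ≃ₗᵢ[ℝ] ℍ[ℝ]} (h4 : F ^ 4 = 1) (j : ℤ) :
    F ^ j = 1 ∨ F ^ j = F ∨ F ^ j = F ^ 2 ∨ F ^ j = F ^ 3 := by
  have h5 : F ^ (4 : ℤ) = 1 := by
    exact_mod_cast h4
  have h1 : F ^ j = F ^ (j % 4) := by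
    conv_lhs => rw [← Int.emod_add_mul_ediv j 4]
    rw [zpow_add, zpow_mul, h5, one_zpow, mul_one]
  rw [h1]
  have h2 : 0 ≤ j % 4 := Int.emod_nonneg j (by norm_num)
  have h3 : j % 4 < 4 := Int.emod_lt_of_pos j (by norm_num)
  obtain ⟨r, hr⟩ : ∃ r, r = j % 4 := ⟨_, rfl⟩
  rw [← hr] at h2 h3 ⊢
  have h6 : r = 0 ∨ r = 1 ∨ r = 2 ∨ r = 3 := by omega
  rcases h6 with h | h | h | h
  · left
    rw [h, zpow_zero]
  · right; left
    rw [h, zpow_one]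
  · right; right; left
    rw [h]
    rfl
  · right; right; right
    rw [h]
    rfl

/-- Row C6. The powers of `s` (`c = 0`, `d = 1`): `s ^ j` is one of the four maps `1, s, s², s³`; on
`1, i, U, i U` it is `(i, U, iU)`, `(-i, iU, -U)`, `(i, -U, -iU)`, `(-i, -iU, U)`. -/
theorem pow_cases (H : Std s t (-1) 0 1 a b) (j : ℤ) :
    (∀ v, (s ^ j) v = v) ∨ (∀ v, (s ^ j) v = sF (-1) 0 1 v) ∨
    (∀ v, (s ^ j) v = ⟨v.re, v.imI, -v.imJ, -v.imK⟩) ∨ (∀ v, (s ^ j) v = sF (-1) 0 (-1) v) := by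
  have hs := H.hs
  have h2 : ∀ v, (s ^ 2) v = ⟨v.re, v.imI, -v.imJ, -v.imK⟩ := by
    intro v
    rw [pow_two]
    show s (s v) = _
    rw [hs, hs]
    ext <;> simp [sF]
  have h3 : ∀ v, (s ^ 3) v = sF (-1) 0 (-1) v := by
    intro v
    rw [pow_succ]
    show (s ^ 2) (s v) = _
    rw [h2, hs]
    ext <;> simp [sF]
  have h4 : s ^ 4 = 1 := by
    apply LinearIsometryEquiv.ext
    intro v
    rw [pow_succ]
    show (s ^ 3) (s v) = v
    rw [h3, hs]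
    ext <;> simp [sF]
  rcases C6b_four h4 j with h | h | h | h
  · left
    intro v
    rw [h]
    rfl
  · right; left
    intro v
    rw [h, hs]
  · right; right; left
    intro v
    rw [h, h2]
  · right; right; right
    intro v
    rw [h, h3]

end ChiralQ
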