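import Pool.Agent.Lib.MP_bc704c_co.R.C6
import Pool.Agent.Lib.MP_bc704c_co.R.C6b

/-! # MP_bc704c_co, row C6: the words -/

namespace ChiralQ

open Quaternion ChiralNF

variable {s t : ℍ[ℝ] ≃ₗᵢ[ℝ] ℍ[ℝ]} {a b : ℍ[ℝ]}

theorem C6c_zero (D : ℤ) : zf D (0, 0) = 0 := by simp [zf]

theorem C6c_one (D : ℤ) : zf D (1, 0) = 1 := by simp [zf]

theorem C6c_e0 (D : ℤ) (p q : ℝ) :
    em D p q ⟨(1, 0), (0, 0), (0, 0), (0, 0)⟩ = 1 := by
  ext <;> simp [em, C6c_zero, C6c_one]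

theorem C6c_f0 (D : ℤ) (p q : ℝ) (f : ℤ × ℤ) :
    em D p q ⟨f, (0, 0), (0, 0), (0, 0)⟩ = zf D f • (1 : ℍ[ℝ]) := by
  ext <;> simp [em, C6c_zero]

/-- Row C6. `chkw`: the word `g` fixes `1` (`em ⟨1, 0, 0, 0⟩ = 1`, divide by the factor), so it is a power of
`s` by `hst`, and `pow_cases` contradicts the four other tests (apply `g` to `i, U, i U`, `em` of the unit
vectors; `em_inj`, e.g. `em (runw ..) = zf f • em ⟨0, 1, 0, 0⟩ = em ⟨0, f, 0, 0⟩`). -/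
theorem chk_false (H : Std s t (-1) 0 1 a b)
    (hst : ∀ g ∈ GG s t, g 1 = 1 → g ∈ Subgroup.zpowers s) {D : ℤ} (hD : D = 2 ∨ D = 5) {e : Ent}
    (hA : a.imI = zr D e.A) (hB : b.imI = zr D e.B)
    (hE : a.imJ * b.imK - a.imK * b.imJ = zr D e.E) (hF : a.imJ * b.imJ + a.imK * b.imK = zr D e.F)
    {w : List ℕ} (h : chkw D e w = true) : False := by
  have hD0 : 0 ≤ D := by rcases hD with rfl | rfl <;> norm_num
  obtain ⟨g, hg, hrun⟩ := run_real H hD0 hA hB hE hF w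
  have hF0 := fac_ne H hD0 hA hB hE hF w
  have h0 : (8 * a.imJ) ^ 2 + (8 * a.imK) ^ 2 ≠ 0 := by
    intro h1
    have h2 : a.imJ = 0 := by nlinarith [sq_nonneg a.imJ, sq_nonneg a.imK]
    have h3 : a.imK = 0 := by nlinarith [sq_nonneg a.imJ, sq_nonneg a.imK]
    exact H.chi.2 (by rw [h2, h3]; ring)
  have key : ∀ x y : V4, em D (8 * a.imJ) (8 * a.imK) y =
      zf D (facw D e w) • g (em D (8 * a.imJ) (8 * a.imK) x) → runw D e w x = y := by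
    intro x y hxy
    exact em_inj hD h0 ((hrun x).trans hxy.symm)
  have hx0 : runw D e w ⟨(1, 0), (0, 0), (0, 0), (0, 0)⟩ =
      ⟨facw D e w, (0, 0), (0, 0), (0, 0)⟩ := by
    unfold chkw at h
    simp only [Bool.and_eq_true, decide_eq_true_eq] at h
    exact h.1.1.1.1
  have hg1 : g 1 = 1 := by
    have h1 := hrun ⟨(1, 0), (0, 0), (0, 0), (0, 0)⟩
    rw [hx0, C6c_e0, C6c_f0] at h1
    exact (smul_right_injective _ hF0 h1).symm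
  obtain ⟨j, hj⟩ := hst g hg hg1
  have hgj : ∀ v, g v = (s ^ j) v := fun v => by rw [← hj]
  rcases pow_cases H j with hc | hc | hc | hc
  · have hx1 := key ⟨(0, 0), (1, 0), (0, 0), (0, 0)⟩ ⟨(0, 0), facw D e w, (0, 0), (0, 0)⟩ (by
      rw [hgj, hc]
      ext <;> simp [em, sF, C6c_zero, C6c_one, zf_n])
    have hx2 := key ⟨(0, 0), (0, 0), (1, 0), (0, 0)⟩ ⟨(0, 0), (0, 0), facw D e w, (0, 0)⟩ (by
      rw [hgj, hc]
      ext <;> simp [em, sF, C6c_zero, C6c_one, zf_n])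
    have hx3 := key ⟨(0, 0), (0, 0), (0, 0), (1, 0)⟩ ⟨(0, 0), (0, 0), (0, 0), facw D e w⟩ (by
      rw [hgj, hc]
      ext <;> simp [em, sF, C6c_zero, C6c_one, zf_n])
    simp [chkw, hx0, hx1, hx2, hx3] at h
  · have hx1 := key ⟨(0, 0), (1, 0), (0, 0), (0, 0)⟩ ⟨(0, 0), zn (facw D e w), (0, 0), (0, 0)⟩ (by
      rw [hgj, hc]
      ext <;> simp [em, sF, C6c_zero, C6c_one, zf_n])
    have hx2 := key ⟨(0, 0), (0, 0), (1, 0), (0, 0)⟩ ⟨(0, 0), (0, 0), (0, 0), facw D e w⟩ (by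
      rw [hgj, hc]
      ext <;> simp [em, sF, C6c_zero, C6c_one, zf_n])
    have hx3 := key ⟨(0, 0), (0, 0), (0, 0), (1, 0)⟩ ⟨(0, 0), (0, 0), zn (facw D e w), (0, 0)⟩ (by
      rw [hgj, hc]
      ext <;> simp [em, sF, C6c_zero, C6c_one, zf_n])
    simp [chkw, hx0, hx1, hx2, hx3] at h
  · have hx1 := key ⟨(0, 0), (1, 0), (0, 0), (0, 0)⟩ ⟨(0, 0), facw D e w, (0, 0), (0, 0)⟩ (by
      rw [hgj, hc]
      ext <;> simp [em, sF, C6c_zero, C6c_one, zf_n])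
    have hx2 := key ⟨(0, 0), (0, 0), (1, 0), (0, 0)⟩ ⟨(0, 0), (0, 0), zn (facw D e w), (0, 0)⟩ (by
      rw [hgj, hc]
      ext <;> simp [em, sF, C6c_zero, C6c_one, zf_n])
    have hx3 := key ⟨(0, 0), (0, 0), (0, 0), (1, 0)⟩ ⟨(0, 0), (0, 0), (0, 0), zn (facw D e w)⟩ (by
      rw [hgj, hc]
      ext <;> simp [em, sF, C6c_zero, C6c_one, zf_n])
    simp [chkw, hx0, hx1, hx2, hx3] at h
  · have hx1 := key ⟨(0, 0), (1, 0), (0, 0), (0, 0)⟩ ⟨(0, 0), zn (facw D e w), (0, 0), (0, 0)⟩ (by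
      rw [hgj, hc]
      ext <;> simp [em, sF, C6c_zero, C6c_one, zf_n])
    have hx2 := key ⟨(0, 0), (0, 0), (1, 0), (0, 0)⟩ ⟨(0, 0), (0, 0), (0, 0), zn (facw D e w)⟩ (by
      rw [hgj, hc]
      ext <;> simp [em, sF, C6c_zero, C6c_one, zf_n])
    have hx3 := key ⟨(0, 0), (0, 0), (0, 0), (1, 0)⟩ ⟨(0, 0), (0, 0), facw D e w, (0, 0)⟩ (by
      rw [hgj, hc]
      ext <;> simp [em, sF, C6c_zero, C6c_one, zf_n])
    simp [chkw, hx0, hx1, hx2, hx3] at h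

end ChiralQ
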