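import Pool.Agent.Lib.MP_bc704c_co.R.C1
import Pool.Agent.Lib.MP_bc704c_co.R.C3
import Pool.Agent.Lib.MP_bc704c_co.R.C4
import Pool.Agent.Lib.MP_bc704c_co.R.C6c

/-! # MP_bc704c_co, row C7: rotatory type, `c = 0` -/

namespace ChiralQ

open Quaternion ChiralNF

variable {s t : ℍ[ℝ] ≃ₗᵢ[ℝ] ℍ[ℝ]} {d : ℝ} {a b : ℍ[ℝ]}

/-- Row C7. `d = -1`: replace `s` by its inverse, which is `sF (-1) 0 1` (`symm_s`); `GG` and the powers are
the same. -/
theorem flip_s (H : Std s t (-1) 0 (-1) a b) : Std s⁻¹ t (-1) 0 1 a b ∧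
    GG s⁻¹ t = GG s t ∧ Subgroup.zpowers s⁻¹ = Subgroup.zpowers s := by
  refine ⟨⟨Or.inr rfl, by norm_num, one_ne_zero, H.ha, H.hb, H.chi, ?_, H.ht⟩, ?_, ?_⟩
  · intro v
    have h := symm_s H.hε H.hcd H.hs v
    have h1 : (s⁻¹ : ℍ[ℝ] ≃ₗᵢ[ℝ] ℍ[ℝ]) v = s.symm v := rfl
    rw [h1, h]
    simp
  · unfold GG
    apply le_antisymm
    · rw [Subgroup.closure_le]
      rintro x (rfl | rfl)
      · exact Subgroup.inv_mem _ (Subgroup.subset_closure (Set.mem_insert _ _))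
      · exact Subgroup.subset_closure (Set.mem_insert_of_mem _ rfl)
    · rw [Subgroup.closure_le]
      rintro x (rfl | rfl)
      · have h2 := Subgroup.inv_mem _
          (Subgroup.subset_closure (Set.mem_insert (x⁻¹ : ℍ[ℝ] ≃ₗᵢ[ℝ] ℍ[ℝ]) {t}))
        rwa [inv_inv] at h2
      · exact Subgroup.subset_closure (Set.mem_insert_of_mem _ rfl)
  · exact Subgroup.zpowers_inv

/-- Row C7. If `⟪u, w⟫ ≠ 0`: `refl_zero_cs`, `enum_real` with `D = u_J w_K - u_K w_J` (`≠ 0` by `Chi`),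
`S = ⟪u, w⟫`; `S² + D² = |u|² |w|²`; `α², β² ≠ 1` because `u, w ≠ 0`. In the first two cases `tab5_ok`, `tab2_ok`
(`List.all_eq_true`) and `chk_false` for `s` or, if `d = -1`, for `s⁻¹` (`flip_s`). -/
theorem refl_zero (H : Std s t (-1) 0 d a b) (hG : Finite (GG s t))
    (hst : ∀ g ∈ GG s t, g 1 = 1 → g ∈ Subgroup.zpowers s) :
    a.imJ * b.imJ + a.imK * b.imK = 0 ∨
    ((a.imJ * b.imJ + a.imK * b.imK) ^ 2 = 1 / 2 ∧
      ((a.imI ^ 2 = 0 ∧ b.imI ^ 2 = 1 / 4) ∨ (a.imI ^ 2 = 1 / 4 ∧ b.imI ^ 2 = 0))) := by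
  by_cases hS : a.imJ * b.imJ + a.imK * b.imK = 0
  · exact Or.inl hS
  right
  obtain ⟨h1, h2, h3, h4, h5⟩ := refl_zero_cs H hG hS
  have ha := H.ha.2
  have hb := H.hb.2
  have hD := H.chi.2
  have key : ∀ {D : ℤ}, (D = 2 ∨ D = 5) → ∀ {e : Ent}, a.imI = zr D e.A → b.imI = zr D e.B →
      a.imJ * b.imK - a.imK * b.imJ = zr D e.E → a.imJ * b.imJ + a.imK * b.imK = zr D e.F →
      chkw D e (wd e.w) = true → False := by
    intro D hD2 e hA hB hE hF hch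
    have hd : d = 1 ∨ d = -1 := by
      have := H.hcd
      have h0 : (d - 1) * (d + 1) = 0 := by linear_combination this
      rcases mul_eq_zero.1 h0 with h | h
      · left; linarith
      · right; linarith
    rcases hd with rfl | rfl
    · exact chk_false H hst hD2 hA hB hE hF hch
    · obtain ⟨H', hGG, hz⟩ := flip_s H
      refine chk_false H' ?_ hD2 hA hB hE hF hch
      intro g hg hg1
      rw [hGG] at hg
      rw [hz]
      exact hst g hg hg1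
  have hSD : (a.imJ * b.imJ + a.imK * b.imK) ^ 2 + (a.imJ * b.imK - a.imK * b.imJ) ^ 2 =
      (1 - a.imI ^ 2) * (1 - b.imI ^ 2) := by
    have e1 : 1 - a.imI ^ 2 = a.imJ ^ 2 + a.imK ^ 2 := by linarith
    have e2 : 1 - b.imI ^ 2 = b.imJ ^ 2 + b.imK ^ 2 := by linarith
    rw [e1, e2]
    ring
  have hα : a.imI ^ 2 ≠ 1 := by
    intro h
    apply hD
    have h0 : a.imJ ^ 2 + a.imK ^ 2 = 0 := by linarith
    have hJ : a.imJ = 0 := by nlinarith [sq_nonneg a.imJ, sq_nonneg a.imK]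
    have hK : a.imK = 0 := by nlinarith [sq_nonneg a.imJ, sq_nonneg a.imK]
    rw [hJ, hK]
    ring
  have hβ : b.imI ^ 2 ≠ 1 := by
    intro h
    apply hD
    have h0 : b.imJ ^ 2 + b.imK ^ 2 = 0 := by linarith
    have hJ : b.imJ = 0 := by nlinarith [sq_nonneg b.imJ, sq_nonneg b.imK]
    have hK : b.imK = 0 := by nlinarith [sq_nonneg b.imJ, sq_nonneg b.imK]
    rw [hJ, hK]
    ring
  have hen := enum_real (α := a.imI) (β := b.imI) (D := a.imJ * b.imK - a.imK * b.imJ)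
    (S := a.imJ * b.imJ + a.imK * b.imK) h1 h2 h3 h4 h5 hSD H.chi.1 hα hβ hD hS
  rcases hen with ⟨e, he, hA, hB, hE, hF⟩ | ⟨e, he, hA, hB, hE, hF⟩ | h
  · exact (key (Or.inr rfl) hA hB hE hF (List.all_eq_true.1 tab5_ok e he)).elim
  · exact (key (Or.inl rfl) hA hB hE hF (List.all_eq_true.1 tab2_ok e he)).elim
  · exact h

end ChiralQ
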