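import Pool.Agent.Lib.MP_bc704c_co.R.C1

/-! # MP_bc704c_co, row C7: rotatory type, `c = 0` -/

namespace ChiralQ

open Quaternion ChiralNF

variable {s t : ℍ[ℝ] ≃ₗᵢ[ℝ] ℍ[ℝ]} {d : ℝ} {a b : ℍ[ℝ]}

/-- the real parts of the powers of a unit quaternion -/
theorem C7b_pow {g : ℍ[ℝ]} (hg : normSq g = 1) {φ : ℝ} (h : g.re = Real.cos φ) (n : ℕ) :
    (g ^ n).re = Real.cos (n * φ) ∧ (g ^ (n + 1)).re = Real.cos ((n + 1 : ℕ) * φ) := by
  have hgg : g * g = (2 * g.re) • g - 1 := by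
    rw [Quaternion.normSq_def'] at hg
    ext
    · simp only [Quaternion.re_mul, Quaternion.re_sub, Quaternion.re_smul, Quaternion.re_one,
        smul_eq_mul]
      linear_combination -hg
    · simp only [Quaternion.imI_mul, Quaternion.imI_sub, Quaternion.imI_smul, Quaternion.imI_one,
        smul_eq_mul]
      ring
    · simp only [Quaternion.imJ_mul, Quaternion.imJ_sub, Quaternion.imJ_smul, Quaternion.imJ_one,
        smul_eq_mul]
      ring
    · simp only [Quaternion.imK_mul, Quaternion.imK_sub, Quaternion.imK_smul, Quaternion.imK_one,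
        smul_eq_mul]
      ring
  induction n with
  | zero => simp [h]
  | succ n ih =>
    refine ⟨ih.2, ?_⟩
    have e : g ^ (n + 1 + 1) = (2 * g.re) • g ^ (n + 1) - g ^ n := by
      rw [pow_succ, pow_succ, mul_assoc, hgg, mul_sub, mul_one, mul_smul_comm]
    rw [e, Quaternion.re_sub, Quaternion.re_smul, smul_eq_mul, ih.1, ih.2, h]
    have e1 : ((n + 1 + 1 : ℕ) : ℝ) * φ = ((n + 1 : ℕ) : ℝ) * φ + φ := by push_cast; ring
    have e2 : ((n : ℕ) : ℝ) * φ = ((n + 1 : ℕ) : ℝ) * φ - φ := by push_cast; ring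
    rw [e1, e2, Real.cos_add, Real.cos_sub]
    ring

/-- the real parts of the elements of a finite group -/
theorem C7b_re {X : Set ℍ[ℝ]} (hX : FinGp X) {g : ℍ[ℝ]} (hg : g ∈ X) :
    ∃ x : ℚ, g.re = Real.cos (Real.pi * x) := by
  have hn := hX.unit g hg
  have hg0 : g ≠ 0 := by
    intro h
    rw [h] at hn
    simp at hn
  have hmem : ∀ j : ℕ, g ^ j ∈ X := by
    intro j
    induction j with
    | zero => simpa using hX.one
    | succ n ih => rw [pow_succ]; exact hX.mul _ ih _ hg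
  have hle : g.re ^ 2 ≤ 1 := by
    have h2 := hn
    rw [Quaternion.normSq_def'] at h2
    nlinarith [sq_nonneg g.imI, sq_nonneg g.imJ, sq_nonneg g.imK]
  have habs : |g.re| ≤ 1 := by
    rw [← sq_abs] at hle
    nlinarith [abs_nonneg g.re]
  have hcos : g.re = Real.cos (Real.arccos g.re) :=
    (Real.cos_arccos (abs_le.1 habs).1 (abs_le.1 habs).2).symm
  obtain ⟨φ, hφ⟩ : ∃ φ : ℝ, φ = Real.arccos g.re := ⟨_, rfl⟩
  rw [← hφ] at hcos
  -- a power is `1`
  obtain ⟨m, hm, hm1⟩ : ∃ m : ℕ, 0 < m ∧ g ^ m = 1 := by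
    have hninj : ¬ Function.Injective (fun j : ℕ => g ^ j) := by
      intro hinj
      have h1 : (Set.range (fun j : ℕ => g ^ j)).Finite :=
        hX.fin.subset (by rintro _ ⟨j, rfl⟩; exact hmem j)
      exact (Set.infinite_range_of_injective hinj) h1
    rw [Function.Injective] at hninj
    push Not at hninj
    obtain ⟨i, j, hij, hne⟩ := hninj
    have key : ∀ i j : ℕ, i < j → g ^ i = g ^ j → ∃ m : ℕ, 0 < m ∧ g ^ m = 1 := by
      intro i j hlt h
      refine ⟨j - i, by omega, ?_⟩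
      have h2 : g ^ i * g ^ (j - i) = g ^ i * 1 := by
        rw [← pow_add, mul_one, h]
        congr 1
        omega
      exact mul_left_cancel₀ (pow_ne_zero i hg0) h2
    rcases lt_or_gt_of_ne hne with hlt | hlt
    · exact key i j hlt hij
    · exact key j i hlt hij.symm
  have h1 := (C7b_pow hn hcos m).1
  rw [hm1, Quaternion.re_one] at h1
  obtain ⟨k, hk⟩ := (Real.cos_eq_one_iff _).1 h1.symm
  refine ⟨2 * k / m, ?_⟩
  rw [hcos]
  congr 1
  have hm0 : (m : ℝ) ≠ 0 := by exact_mod_cast hm.ne'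
  push_cast
  field_simp
  linarith

/-- from the real part to the coordinate -/
theorem C7b_co {X : Set ℍ[ℝ]} (hX : FinGp X) {d : ℝ} (hd : d ^ 2 = 1) {z x : ℍ[ℝ]} (hz : z ∈ X)
    (hx : x ∈ X) (z0 : z.re = 0) (z1 : z.imI = d) (z2 : z.imJ = 0) (z3 : z.imK = 0) :
    ∃ q : ℚ, x.imI = Real.cos (Real.pi * q) := by
  obtain ⟨q, hq⟩ := C7b_re hX (hX.mul z hz x hx)
  rw [Quaternion.re_mul, z0, z1, z2, z3] at hq
  have hd' : (d - 1) * (d + 1) = 0 := by linear_combination hd
  rcases (mul_eq_zero.1 hd').imp (fun h => (by linarith : d = 1)) (fun h => (by linarith : d = -1)) with h | h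
  · refine ⟨1 - q, ?_⟩
    have e : Real.pi * ((1 - q : ℚ) : ℝ) = Real.pi - Real.pi * q := by push_cast; ring
    rw [e, Real.cos_pi_sub, ← hq, h]
    ring
  · refine ⟨q, ?_⟩
    rw [← hq, h]
    ring

/-- Row C7. The torus case: `c = 0`, `⟪u, w⟫ = 0`. `z = d i`, `a` are in the finite group `LL (GG s t)`, so `z a` has
finite order, and `Re (z a) = ∓ α`: `α = cos (π x)` with `x` rational (`cos` of an angle `φ` with
`x^n = 1`: `n φ ∈ 2 π ℤ`); the same for `b' = β i - z w`. (See `exists_small` / `cs_of_cos` in row Fg2.) -/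
theorem torus_rat (H : Std s t (-1) 0 d a b) (hG : Finite (GG s t)) :
    (∃ x : ℚ, a.imI = Real.cos (Real.pi * x)) ∧ (∃ x : ℚ, b.imI = Real.cos (Real.pi * x)) := by
  obtain ⟨_, hcd, hd, ha, hb, ⟨hchi1, hchi2⟩, hs, ht⟩ := H
  have hX : FinGp (LL (GG s t)) := finGp_LL hG
  have hsG : s ∈ GG s t := Subgroup.subset_closure (by simp)
  have htG : t ∈ GG s t := Subgroup.subset_closure (by simp)
  have hd2 : d ^ 2 = 1 := by linear_combination hcd
  have na : normSq a = 1 := by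
    rw [Quaternion.normSq_def', ha.1]
    linear_combination ha.2
  have nb : normSq b = 1 := by
    rw [Quaternion.normSq_def', hb.1]
    linear_combination hb.2
  obtain ⟨z, hz⟩ : ∃ z : ℍ[ℝ], z = ⟨0, d, 0, 0⟩ := ⟨_, rfl⟩
  obtain ⟨b', hb'⟩ : ∃ b' : ℍ[ℝ],
      b' = ⟨0, b.imI, -(0 * b.imJ - d * b.imK), -(d * b.imJ + 0 * b.imK)⟩ := ⟨_, rfl⟩
  obtain ⟨a', ha'⟩ : ∃ a' : ℍ[ℝ],
      a' = ⟨0, a.imI, -(0 * a.imJ - d * a.imK), -(d * a.imJ + 0 * a.imK)⟩ := ⟨_, rfl⟩
  have zre : z.re = 0 := by rw [hz]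
  have zI : z.imI = d := by rw [hz]
  have zJ : z.imJ = 0 := by rw [hz]
  have zK : z.imK = 0 := by rw [hz]
  have b're : b'.re = 0 := by rw [hb']
  have b'I : b'.imI = b.imI := by rw [hb']
  have b'J : b'.imJ = -(0 * b.imJ - d * b.imK) := by rw [hb']
  have b'K : b'.imK = -(d * b.imJ + 0 * b.imK) := by rw [hb']
  have nz : normSq z = 1 := by
    rw [Quaternion.normSq_def', zre, zI, zJ, zK]
    linear_combination hcd
  have nb' : normSq b' = 1 := by
    rw [Quaternion.normSq_def', b're, b'I, b'J, b'K]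
    linear_combination hb.2 + (b.imJ ^ 2 + b.imK ^ 2) * hcd
  have na' : normSq a' = 1 := by
    rw [Quaternion.normSq_def', ha']
    simp only
    linear_combination ha.2 + (a.imJ ^ 2 + a.imK ^ 2) * hcd
  have hzX : z ∈ LL (GG s t) := by
    refine ⟨nz, z, nz, s * s, mul_mem hsG hsG, fun v => ?_⟩
    have h1 := (rot_conj hcd ha hb v).1
    show s (s v) = tF z z v
    rw [hs v, hs, h1, hz]
  have haX : a ∈ LL (GG s t) := ⟨na, b, nb, t, htG, ht⟩
  have hsinv : ∀ v, s⁻¹ v = sF (-1) 0 (-d) v := by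
    intro v
    have h1 : s (sF (-1) 0 (-d) v) = v := by
      rw [hs]
      unfold sF
      ext
      · simp
      · simp
      · simp only
        linear_combination v.imJ * hcd
      · simp only
        linear_combination v.imK * hcd
    have h2 : s⁻¹ (s (sF (-1) 0 (-d) v)) = sF (-1) 0 (-d) v := s.symm_apply_apply _
    rw [h1] at h2
    exact h2
  have hb'X : b' ∈ LL (GG s t) := by
    refine ⟨nb', a', na', s * t * s⁻¹, mul_mem (mul_mem hsG htG) (inv_mem hsG), fun v => ?_⟩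
    have h1 := (rot_conj hcd ha hb v).2
    show s (t (s⁻¹ v)) = tF b' a' v
    rw [hsinv v, ht, hs, h1, hb', ha']
  refine ⟨C7b_co hX hd2 hzX haX zre zI zJ zK, ?_⟩
  obtain ⟨q, hq⟩ := C7b_co hX hd2 hzX hb'X zre zI zJ zK
  exact ⟨q, by rw [← hq, b'I]⟩

end ChiralQ
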