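import Pool.Agent.Lib.MP_bc704c_co.Q.Re3
/-! # MP_bc704c_co, row D0: general conditions for a polyhedron -/

namespace ChiralQ

open Quaternion ChiralNF

/-- conditions for `s, t` under which the points `g 1` are the vertices of a polyhedron -/
structure Geo (s t : ℍ[ℝ] ≃ₗᵢ[ℝ] ℍ[ℝ]) : Prop where
  tt : ∀ v, t (t v) = v
  s1 : s 1 = 1
  t1 : t 1 ≠ 1
  edge_fix : ∀ {j : ℤ}, (s ^ j) (t 1) = t 1 → s ^ j = 1
  sn : s ≠ 1
  face_faithful : ∀ j : ℤ, (∀ k : ℤ, ∃ m : ℤ, (s ^ j) (((s * t) ^ k) 1) = ((s * t) ^ m) 1) →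
    s ^ j = 1

variable {s t : ℍ[ℝ] ≃ₗᵢ[ℝ] ℍ[ℝ]}

lemma D0_pow_one (H : Geo s t) (j : ℤ) : (s ^ j) (1 : ℍ[ℝ]) = 1 := by
  have hn : ∀ n : ℕ, (s ^ n) (1 : ℍ[ℝ]) = 1 := by
    intro n
    induction n with
    | zero => rfl
    | succ n ih =>
      rw [pow_succ]
      change (s ^ n) (s 1) = 1
      rw [H.s1, ih]
  cases j with
  | ofNat n =>
    rw [Int.ofNat_eq_natCast, zpow_natCast]
    exact hn n
  | negSucc n =>
    have h1 : (s ^ (Int.negSucc n)) ((s ^ (n + 1)) (1 : ℍ[ℝ])) = 1 := by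
      have h2 : s ^ (Int.negSucc n) * s ^ (n + 1) = 1 := by
        rw [zpow_negSucc, inv_mul_cancel]
      have h3 := congrArg (fun g : ℍ[ℝ] ≃ₗᵢ[ℝ] ℍ[ℝ] => g 1) h2
      exact h3
    rwa [hn (n + 1)] at h1

/-- Row D0. `s ^ j = (s t) ^ k` commutes with `s` and with `s t`, so with `t`; it fixes `1` (`s ^ j 1 = 1`), so it
fixes `t 1 = t (s ^ j 1) = s ^ j (t 1)`: `edge_fix`. -/
theorem Geo.inter (H : Geo s t) (j k : ℤ) (h : s ^ j = (s * t) ^ k) : s ^ j = 1 := by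
  apply H.edge_fix
  have h1 : Commute (s ^ j) s := (Commute.refl s).zpow_left j
  have h2 : Commute (s ^ j) (s * t) := by
    rw [h]
    exact (Commute.refl (s * t)).zpow_left k
  have h3 : Commute (s ^ j) t := by
    have h4 : t = s⁻¹ * (s * t) := by rw [inv_mul_cancel_left]
    rw [h4]
    exact h1.inv_right.mul_right h2
  have h5 := congrArg (fun g : ℍ[ℝ] ≃ₗᵢ[ℝ] ℍ[ℝ] => g 1) h3.eq
  have h6 : (s ^ j) (t 1) = t ((s ^ j) 1) := h5
  rw [h6, D0_pow_one H]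

/-- Row D0. `t 1 ≠ 1 = s ^ j 1`. -/
theorem Geo.ts (H : Geo s t) (j : ℤ) : t ≠ s ^ j := by
  intro h
  apply H.t1
  rw [h]
  exact D0_pow_one H j

/-- Row D0. `t` commutes with `s t`, so with `s`: `s (t 1) = t (s 1) = t 1`, `s = 1` by `edge_fix` (`j = 1`). -/
theorem Geo.tf (H : Geo s t) (j : ℤ) : t ≠ (s * t) ^ j := by
  intro h
  have h2 : Commute t (s * t) := by
    have h3 := (Commute.refl (s * t)).zpow_left j
    rwa [← h] at h3
  have h4 : Commute t s := by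
    have h5 : s = (s * t) * t⁻¹ := by rw [mul_inv_cancel_right]
    rw [h5]
    exact h2.mul_right (Commute.refl t).inv_right
  have h5 := congrArg (fun g : ℍ[ℝ] ≃ₗᵢ[ℝ] ℍ[ℝ] => g 1) h4.eq
  have h6 : t (s 1) = s (t 1) := h5
  rw [H.s1] at h6
  have h7 : (s ^ (1 : ℤ)) (t 1) = t 1 := by
    rw [zpow_one]
    exact h6.symm
  have h8 := H.edge_fix h7
  rw [zpow_one] at h8
  exact H.sn h8

/-- Row D0. `s t s t = 1` gives `s (t (s v)) = t v`, at `v = 1`: `s (t 1) = t 1`, `s = 1`. -/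
theorem Geo.face3 (H : Geo s t) : (s * t) ^ (2 : ℤ) ≠ 1 := by
  intro h
  have h1 : s * t * (s * t) = 1 := by
    rw [← h]
    rw [zpow_ofNat, pow_two]
  have h2 := congrArg (fun g : ℍ[ℝ] ≃ₗᵢ[ℝ] ℍ[ℝ] => g (t 1)) h1
  have h3 : s (t (s (t (t 1)))) = t 1 := h2
  rw [H.tt, H.s1] at h3
  have h7 : (s ^ (1 : ℤ)) (t 1) = t 1 := by
    rw [zpow_one]
    exact h3
  have h8 := H.edge_fix h7
  rw [zpow_one] at h8
  exact H.sn h8

end ChiralQ
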