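import Pool.Agent.Lib.MP_bc704c_co.R.D0
/-! # MP_bc704c_co: the realization of the coset polyhedron, general version of Re2, Re3 -/

namespace ChiralQ

open Quaternion ChiralNF

variable {s t : ℍ[ℝ] ≃ₗᵢ[ℝ] ℍ[ℝ]}

/-- the data of the group generated by `s` and `t` -/
noncomputable def gx (H : Geo s t) : GD (GG s t) where
  s := ⟨s, s_mem s t⟩
  t := ⟨t, t_mem s t⟩
  tt := by
    apply Subtype.ext
    apply LinearIsometryEquiv.ext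
    intro v
    exact H.tt v
  gen := gg_gen s t
  inter := fun j k h => by
    have h1 := congrArg Subtype.val h
    apply Subtype.ext
    exact H.inter j k (by simpa using h1)
  ts := fun j h => H.ts j (by simpa using congrArg Subtype.val h)
  tf := fun j h => H.tf j (by simpa using congrArg Subtype.val h)

/-- the realization: the vertex of `g` goes to `g 1` -/
noncomputable def bx (H : Geo s t) : Fc (gx H) → EuclideanSpace ℝ (Fin 4)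
  | .v x => Quaternion.linearIsometryEquivTuple
      (((Quotient.out x : GG s t) : ℍ[ℝ] ≃ₗᵢ[ℝ] ℍ[ℝ]) 1)
  | _ => 0

theorem D1_s_one (H : Geo s t) : s 1 = 1 := H.s1

theorem D1_zpow_one (H : Geo s t) (j : ℤ) : (s ^ j) 1 = 1 := by
  have h0 : ∀ n : ℕ, (s ^ n) 1 = 1 := by
    intro n
    induction n with
    | zero => rfl
    | succ n ih =>
      rw [pow_succ]
      show (s ^ n) (s 1) = 1
      rw [D1_s_one H, ih]
  obtain ⟨n, rfl | rfl⟩ := j.eq_nat_or_neg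
  · rw [zpow_natCast]
    exact h0 n
  · rw [zpow_neg, zpow_natCast]
    have h1 : ((s ^ n)⁻¹ * s ^ n) 1 = (1 : ℍ[ℝ]) := by
      rw [inv_mul_cancel]
      rfl
    have h2 : (s ^ n)⁻¹ ((s ^ n) 1) = (1 : ℍ[ℝ]) := h1
    rw [h0 n] at h2
    exact h2

/-- Row Re2. Two representatives differ by a power of `s`, and `s 1 = 1`. -/
theorem bx_cv (H : Geo s t) (g : GG s t) : bx H (cv (gx H) g) =
    Quaternion.linearIsometryEquivTuple ((g : ℍ[ℝ] ≃ₗᵢ[ℝ] ℍ[ℝ]) 1) := by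
  show Quaternion.linearIsometryEquivTuple
      (((Quotient.out (QuotientGroup.mk g : GG s t ⧸ Subgroup.zpowers (gx H).s) : GG s t) :
        ℍ[ℝ] ≃ₗᵢ[ℝ] ℍ[ℝ]) 1) = _
  congr 1
  have h1 : (QuotientGroup.mk (Quotient.out
      (QuotientGroup.mk g : GG s t ⧸ Subgroup.zpowers (gx H).s)) :
      GG s t ⧸ Subgroup.zpowers (gx H).s) = QuotientGroup.mk g := Quotient.out_eq' _
  rw [QuotientGroup.eq] at h1
  obtain ⟨j, hj⟩ := Subgroup.mem_zpowers_iff.1 h1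
  have h2 : g = Quotient.out (QuotientGroup.mk g : GG s t ⧸ Subgroup.zpowers (gx H).s) *
      (gx H).s ^ j := by
    rw [hj, mul_inv_cancel_left]
  have h3 := congrArg (fun x : GG s t => (x : ℍ[ℝ] ≃ₗᵢ[ℝ] ℍ[ℝ]) 1) h2
  have h4 : (((Quotient.out (QuotientGroup.mk g : GG s t ⧸ Subgroup.zpowers (gx H).s) *
      (gx H).s ^ j : GG s t)) : ℍ[ℝ] ≃ₗᵢ[ℝ] ℍ[ℝ]) 1 =
      ((Quotient.out (QuotientGroup.mk g : GG s t ⧸ Subgroup.zpowers (gx H).s) : GG s t) :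
        ℍ[ℝ] ≃ₗᵢ[ℝ] ℍ[ℝ]) ((((gx H).s ^ j : GG s t) : ℍ[ℝ] ≃ₗᵢ[ℝ] ℍ[ℝ]) 1) := rfl
  have h5 : (((gx H).s ^ j : GG s t) : ℍ[ℝ] ≃ₗᵢ[ℝ] ℍ[ℝ]) 1 = (1 : ℍ[ℝ]) := by
    rw [Subgroup.coe_zpow]
    exact D1_zpow_one H j
  rw [h5] at h4
  exact (h3.trans h4).symm

/-- Row Re2. The vertex sets of the faces. -/
theorem vset_cex (H : Geo s t) (g : GG s t) : vset Fc.rk (bx H) (ce (gx H) g) =
    {Quaternion.linearIsometryEquivTuple ((g : ℍ[ℝ] ≃ₗᵢ[ℝ] ℍ[ℝ]) 1),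
      Quaternion.linearIsometryEquivTuple ((g : ℍ[ℝ] ≃ₗᵢ[ℝ] ℍ[ℝ]) (t 1))} := by
  have hgt : bx H (cv (gx H) (g * (gx H).t)) =
      Quaternion.linearIsometryEquivTuple ((g : ℍ[ℝ] ≃ₗᵢ[ℝ] ℍ[ℝ]) (t 1)) := by
    rw [bx_cv]
    rfl
  ext p
  constructor
  · rintro ⟨x, ⟨hx, hle⟩, rfl⟩
    obtain ⟨k, rfl⟩ := Re2_rk_zero x hx
    obtain ⟨l, hl1, hl2⟩ := cv_le_ce.1 hle
    rw [← hl1]
    rcases ce_eq.1 hl2.symm with h | h
    · subst h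
      left
      exact bx_cv H l
    · subst h
      right
      exact hgt
  · rintro (h | h)
    · refine ⟨cv (gx H) g, ⟨rfl, cv_le_ce.2 ⟨g, rfl, rfl⟩⟩, ?_⟩
      rw [bx_cv, h]
    · rw [Set.mem_singleton_iff] at h
      refine ⟨cv (gx H) (g * (gx H).t), ⟨rfl, cv_le_ce.2 ⟨g * (gx H).t, rfl, ?_⟩⟩, ?_⟩
      · exact (ce_eq.2 (Or.inr rfl)).symm
      · rw [hgt, h]

theorem vset_cfx (H : Geo s t) (g : GG s t) : vset Fc.rk (bx H) (cf (gx H) g) =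
    {p | ∃ j : ℤ, p = Quaternion.linearIsometryEquivTuple
      ((g : ℍ[ℝ] ≃ₗᵢ[ℝ] ℍ[ℝ]) (((s * t) ^ j) 1))} := by
  have hg : ∀ j : ℤ, bx H (cv (gx H) (g * ((gx H).s * (gx H).t) ^ j)) =
      Quaternion.linearIsometryEquivTuple
        ((g : ℍ[ℝ] ≃ₗᵢ[ℝ] ℍ[ℝ]) (((s * t) ^ j) 1)) := by
    intro j
    rw [bx_cv]
    have h1 : (((g * ((gx H).s * (gx H).t) ^ j : GG s t)) : ℍ[ℝ] ≃ₗᵢ[ℝ] ℍ[ℝ]) =
        (g : ℍ[ℝ] ≃ₗᵢ[ℝ] ℍ[ℝ]) * (s * t) ^ j := by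
      rw [Subgroup.coe_mul, Subgroup.coe_zpow]
      rfl
    rw [h1]
    rfl
  ext p
  constructor
  · rintro ⟨x, ⟨hx, hle⟩, rfl⟩
    obtain ⟨k, rfl⟩ := Re2_rk_zero x hx
    obtain ⟨l, hl1, hl2⟩ := cv_le_cf.1 hle
    rw [← hl1]
    obtain ⟨j, hj⟩ := cf_eq.1 hl2.symm
    exact ⟨j, by rw [hj]; exact hg j⟩
  · rintro ⟨j, rfl⟩
    refine ⟨cv (gx H) (g * ((gx H).s * (gx H).t) ^ j), ⟨rfl, cv_le_cf.2
      ⟨g * ((gx H).s * (gx H).t) ^ j, rfl, ?_⟩⟩, hg j⟩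
    exact (cf_eq.2 ⟨j, rfl⟩).symm


private theorem Re3_cases (D : GD (GG s t)) (x : Fc D) :
    x = Fc.bot ∨ (∃ g, x = cv D g) ∨ (∃ g, x = ce D g) ∨ (∃ g, x = cf D g) ∨ x = Fc.top := by
  cases x with
  | bot => exact Or.inl rfl
  | v x =>
    obtain ⟨g, rfl⟩ := QuotientGroup.mk_surjective x
    exact Or.inr (Or.inl ⟨g, rfl⟩)
  | e x =>
    obtain ⟨g, rfl⟩ := QuotientGroup.mk_surjective x
    exact Or.inr (Or.inr (Or.inl ⟨g, rfl⟩))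
  | f x =>
    obtain ⟨g, rfl⟩ := QuotientGroup.mk_surjective x
    exact Or.inr (Or.inr (Or.inr (Or.inl ⟨g, rfl⟩)))
  | top => exact Or.inr (Or.inr (Or.inr (Or.inr rfl)))

private theorem Re3_rk0 (D : GD (GG s t)) (x : Fc D) (h : Fc.rk x = 0) : ∃ g, x = cv D g := by
  rcases Re3_cases D x with rfl | ⟨g, rfl⟩ | ⟨g, rfl⟩ | ⟨g, rfl⟩ | rfl
  · exact absurd h (by simp [Fc.rk, ce, cf])
  · exact ⟨g, rfl⟩
  · exact absurd h (by simp [Fc.rk, ce, cf])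
  · exact absurd h (by simp [Fc.rk, ce, cf])
  · exact absurd h (by simp [Fc.rk, ce, cf])

private theorem Re3_bot (H : Geo s t) :
    vset Fc.rk (bx H) (Fc.bot : Fc (gx H)) = ∅ := by
  ext p
  simp only [Set.mem_empty_iff_false, iff_false]
  rintro ⟨x, ⟨h1, h2⟩, -⟩
  obtain ⟨g, rfl⟩ := Re3_rk0 _ x h1
  exact h2

private theorem Re3_v (H : Geo s t) (g : GG s t) :
    vset Fc.rk (bx H) (cv (gx H) g) =
      {Quaternion.linearIsometryEquivTuple ((g : ℍ[ℝ] ≃ₗᵢ[ℝ] ℍ[ℝ]) 1)} := by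
  ext p
  rw [Set.mem_singleton_iff]
  constructor
  · rintro ⟨x, ⟨h1, h2⟩, rfl⟩
    obtain ⟨k, rfl⟩ := Re3_rk0 _ x h1
    have h3 : cv (gx H) k = cv (gx H) g := congrArg Fc.v h2
    rw [h3, bx_cv]
  · rintro rfl
    exact ⟨cv (gx H) g, ⟨rfl, le_refl _⟩, bx_cv H g⟩

private theorem Re3_top (H : Geo s t) :
    vset Fc.rk (bx H) (Fc.top : Fc (gx H)) =
      {p | ∃ g : GG s t, p = Quaternion.linearIsometryEquivTuple
        ((g : ℍ[ℝ] ≃ₗᵢ[ℝ] ℍ[ℝ]) 1)} := by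
  ext p
  constructor
  · rintro ⟨x, ⟨h1, h2⟩, rfl⟩
    obtain ⟨k, rfl⟩ := Re3_rk0 _ x h1
    exact ⟨k, bx_cv H k⟩
  · rintro ⟨g, rfl⟩
    exact ⟨cv (gx H) g, ⟨rfl, (le_top : cv (gx H) g ≤ ⊤)⟩, bx_cv H g⟩

private theorem Re3_s1 (H : Geo s t) (j : ℤ) : (s ^ j) 1 = 1 := by
  have h0 : s 1 = 1 := H.s1
  have h1 : s⁻¹ 1 = 1 := by
    have h2 : (s⁻¹ * s) 1 = (1 : ℍ[ℝ] ≃ₗᵢ[ℝ] ℍ[ℝ]) 1 := by rw [inv_mul_cancel]
    have h3 : (s⁻¹ * s) 1 = s⁻¹ (s 1) := rfl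
    rw [h3, h0] at h2
    exact h2
  induction j with
  | zero => rfl
  | succ i ih =>
    rw [zpow_add, zpow_one]
    show (s ^ (i : ℤ)) (s 1) = 1
    rw [h0, ih]
  | pred i ih =>
    rw [zpow_sub, zpow_one]
    show (s ^ (-(i : ℤ))) (s⁻¹ 1) = 1
    rw [h1, ih]

/-- the three points of a face -/
private theorem Re3_three (H : Geo s t)
    (hst : ∀ g ∈ GG s t, g 1 = 1 → g ∈ Subgroup.zpowers s) :
    (s * t) 1 ≠ 1 ∧ ((s * t) ^ (-1 : ℤ)) 1 ≠ 1 ∧ (s * t) 1 ≠ ((s * t) ^ (-1 : ℤ)) 1 := by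
  have hm : s * t ∈ GG s t := Subgroup.mul_mem _ (s_mem s t) (t_mem s t)
  have e1 : (s * t) 1 ≠ 1 := by
    intro h
    have h1 : s (t 1) = s 1 := by
      rw [H.s1]
      exact h
    exact H.t1 (s.injective h1)
  refine ⟨e1, ?_, ?_⟩
  · intro h
    apply e1
    have h1 : ((s * t) * (s * t) ^ (-1 : ℤ)) 1 = (s * t) (((s * t) ^ (-1 : ℤ)) 1) := rfl
    rw [h, zpow_neg_one, mul_inv_cancel] at h1
    exact h1.symm
  · intro h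
    have h1 : ((s * t) ^ (2 : ℤ)) 1 = 1 := by
      have h2 : ((s * t) ^ (2 : ℤ)) 1 = (s * t) ((s * t) 1) := by
        rw [zpow_two]
        rfl
      rw [h2, h]
      have h3 : ((s * t) * (s * t) ^ (-1 : ℤ)) 1 = (s * t) (((s * t) ^ (-1 : ℤ)) 1) := rfl
      rw [← h3, zpow_neg_one, mul_inv_cancel]
      rfl
    obtain ⟨j, hj⟩ := Subgroup.mem_zpowers_iff.1 (hst _ (Subgroup.zpow_mem _ hm 2) h1)
    have h4 := H.inter j 2 hj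
    apply H.face3
    rw [← hj, h4]

private theorem Re3_edges (H : Geo s t)
    (hst : ∀ g ∈ GG s t, g 1 = 1 → g ∈ Subgroup.zpowers s) (k : ℍ[ℝ] ≃ₗᵢ[ℝ] ℍ[ℝ])
    (hk : k ∈ GG s t) (h1 : k 1 = 1) (h2 : k (t 1) = t 1) : k = 1 := by
  obtain ⟨j, rfl⟩ := Subgroup.mem_zpowers_iff.1 (hst k hk h1)
  exact H.edge_fix h2

/-- Row Re3. Injective on the vertices: `g 1 = h 1` means `g⁻¹ h` is a power of `s` (`hst`). Discrete:
finite. Distinct faces have distinct vertex sets. The vertex set of `⊥` is empty, of a vertex has one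
point, of an edge two (`t 1 ≠ 1`), of a face at least three: `1, (s t) 1, (s t)^(-1) 1` are different by
`face3`, `inter` (`(s t) ^ 2 ∈ ⟨s⟩` is impossible) and `hst`. Two edges with the same
vertex set: `k = g⁻¹ h` maps `{1, t 1}` onto itself; if `k 1 = 1`, `k = s ^ j`, `s ^ j (t 1) = t 1`, so `k = 1`
(`Std.edge_fix`); if `k 1 = t 1` the same for `t k`, so `k = t`. Two faces: `k = g⁻¹ h` maps
`W = {(s t)^j 1}` onto itself, `k 1 = (s t)^m 1`, `k = (s t)^m s ^ j`, `s ^ j` maps `W` onto itself, so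
`s ^ j = 1` (`Std.face_faithful`). A face and `⊤`: then all `g 1` are in `W` (up to the group), in particular
`s` maps `W` into `W`, so `s = 1` by `Std.face_faithful`, contradiction to `d ≠ 0`. -/
theorem isRealx (H : Geo s t) [Finite (GG s t)]
    (hst : ∀ g ∈ GG s t, g 1 = 1 → g ∈ Subgroup.zpowers s) :
    IsRealization (Fc.rk : Fc (gx H) → ℤ) (bx H) := by
  have hL : Function.Injective (Quaternion.linearIsometryEquivTuple : ℍ[ℝ] → _) :=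
    Quaternion.linearIsometryEquivTuple.injective
  obtain ⟨t1, t2, t3⟩ := Re3_three H hst
  -- distances in the group
  have hinj : ∀ g h : GG s t, (g : ℍ[ℝ] ≃ₗᵢ[ℝ] ℍ[ℝ]) 1 = (h : ℍ[ℝ] ≃ₗᵢ[ℝ] ℍ[ℝ]) 1 →
      cv (gx H) g = cv (gx H) h := by
    intro g h hgh
    have h1 : ((g⁻¹ * h : GG s t) : ℍ[ℝ] ≃ₗᵢ[ℝ] ℍ[ℝ]) 1 = 1 := by
      show ((g : ℍ[ℝ] ≃ₗᵢ[ℝ] ℍ[ℝ])⁻¹) ((h : ℍ[ℝ] ≃ₗᵢ[ℝ] ℍ[ℝ]) 1) = 1
      rw [← hgh]
      exact (g : ℍ[ℝ] ≃ₗᵢ[ℝ] ℍ[ℝ]).symm_apply_apply 1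
    obtain ⟨j, hj⟩ := Subgroup.mem_zpowers_iff.1 (hst _ (g⁻¹ * h).2 h1)
    rw [cv_eq]
    refine ⟨j, ?_⟩
    apply Subtype.ext
    show (h : ℍ[ℝ] ≃ₗᵢ[ℝ] ℍ[ℝ]) = g * (((gx H).s ^ j : GG s t) : ℍ[ℝ] ≃ₗᵢ[ℝ] ℍ[ℝ])
    have h2 : (((gx H).s ^ j : GG s t) : ℍ[ℝ] ≃ₗᵢ[ℝ] ℍ[ℝ]) = s ^ j := by
      rw [Subgroup.coe_zpow]
      rfl
    rw [h2, hj, Subgroup.coe_mul, Subgroup.coe_inv, mul_inv_cancel_left]
  refine ⟨?_, ?_, ?_⟩
  · intro x y hx hy hxy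
    obtain ⟨g, rfl⟩ := Re3_rk0 _ x hx
    obtain ⟨h, rfl⟩ := Re3_rk0 _ y hy
    rw [bx_cv, bx_cv] at hxy
    exact hinj g h (hL hxy)
  · have : Finite (bx H '' {x : Fc (gx H) | Fc.rk x = 0}) := (Set.toFinite _).to_subtype
    infer_instance
  · -- the types of the vertex sets
    have hf3 : ∀ g : GG s t, ∃ p ∈ vset Fc.rk (bx H) (cf (gx H) g),
        ∃ q ∈ vset Fc.rk (bx H) (cf (gx H) g), ∃ r ∈ vset Fc.rk (bx H) (cf (gx H) g),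
        p ≠ q ∧ p ≠ r ∧ q ≠ r := by
      intro g
      have hg := (g : ℍ[ℝ] ≃ₗᵢ[ℝ] ℍ[ℝ]).injective
      rw [vset_cfx]
      refine ⟨_, ⟨0, rfl⟩, _, ⟨1, rfl⟩, _, ⟨-1, rfl⟩, ?_, ?_, ?_⟩
      · intro h
        have h1 := hg (hL h)
        rw [zpow_one] at h1
        exact t1 h1.symm
      · intro h
        have h1 := hg (hL h)
        exact t2 h1.symm
      · intro h
        have h1 := hg (hL h)
        rw [zpow_one] at h1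
        exact t3 h1
    have hsub : ∀ x : Fc (gx H), vset Fc.rk (bx H) x ⊆ vset Fc.rk (bx H) (Fc.top : Fc (gx H)) := by
      rintro x p ⟨y, ⟨h1, -⟩, rfl⟩
      exact ⟨y, ⟨h1, (le_top : y ≤ ⊤)⟩, rfl⟩
    have ht3 : ∃ p ∈ vset Fc.rk (bx H) (Fc.top : Fc (gx H)),
        ∃ q ∈ vset Fc.rk (bx H) (Fc.top : Fc (gx H)),
        ∃ r ∈ vset Fc.rk (bx H) (Fc.top : Fc (gx H)), p ≠ q ∧ p ≠ r ∧ q ≠ r := by
      obtain ⟨p, hp, q, hq, r, hr, h⟩ := hf3 1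
      exact ⟨p, hsub _ hp, q, hsub _ hq, r, hsub _ hr, h⟩
    have he2 : ∀ g : GG s t, ∃ p ∈ vset Fc.rk (bx H) (ce (gx H) g),
        ∃ q ∈ vset Fc.rk (bx H) (ce (gx H) g), p ≠ q := by
      intro g
      rw [vset_cex]
      refine ⟨_, Or.inl rfl, _, Or.inr rfl, ?_⟩
      intro h
      exact H.t1 ((g : ℍ[ℝ] ≃ₗᵢ[ℝ] ℍ[ℝ]).injective (hL h)).symm
    have he3 : ∀ g : GG s t, ¬ ∃ p ∈ vset Fc.rk (bx H) (ce (gx H) g),
        ∃ q ∈ vset Fc.rk (bx H) (ce (gx H) g), ∃ r ∈ vset Fc.rk (bx H) (ce (gx H) g),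
        p ≠ q ∧ p ≠ r ∧ q ≠ r := by
      intro g
      rw [vset_cex]
      rintro ⟨p, hp, q, hq, r, hr, h1, h2, h3⟩
      rcases hp with hp | hp <;> rcases hq with hq | hq <;> rcases hr with hr | hr
      all_goals
        first
          | exact h1 (hp.trans hq.symm)
          | exact h2 (hp.trans hr.symm)
          | exact h3 (hq.trans hr.symm)
    have hv2 : ∀ g : GG s t, ¬ ∃ p ∈ vset Fc.rk (bx H) (cv (gx H) g),
        ∃ q ∈ vset Fc.rk (bx H) (cv (gx H) g), p ≠ q := by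
      intro g
      rw [Re3_v]
      rintro ⟨p, hp, q, hq, h1⟩
      exact h1 ((Set.mem_singleton_iff.1 hp).trans (Set.mem_singleton_iff.1 hq).symm)
    have h32 : ∀ S : Set (EuclideanSpace ℝ (Fin 4)), (∃ p ∈ S, ∃ q ∈ S, ∃ r ∈ S,
        p ≠ q ∧ p ≠ r ∧ q ≠ r) → ∃ p ∈ S, ∃ q ∈ S, p ≠ q := by
      rintro S ⟨p, hp, q, hq, r, -, h, -⟩
      exact ⟨p, hp, q, hq, h⟩
    have h21 : ∀ S : Set (EuclideanSpace ℝ (Fin 4)), (∃ p ∈ S, ∃ q ∈ S, p ≠ q) → S ≠ ∅ := by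
      rintro S ⟨p, hp, -⟩ rfl
      exact hp
    -- the rank can be assumed monotone
    have key : ∀ x y : Fc (gx H), Fc.rk x ≤ Fc.rk y →
        vset Fc.rk (bx H) x = vset Fc.rk (bx H) y → x = y := by
      intro x y hxy hV
      rcases Re3_cases _ x with rfl | ⟨g, rfl⟩ | ⟨g, rfl⟩ | ⟨g, rfl⟩ | rfl
      · -- `⊥`
        rw [Re3_bot] at hV
        rcases Re3_cases _ y with rfl | ⟨h, rfl⟩ | ⟨h, rfl⟩ | ⟨h, rfl⟩ | rfl
        · rfl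
        · rw [Re3_v] at hV
          exact absurd hV.symm (Set.singleton_ne_empty _)
        · exact absurd hV.symm (h21 _ (he2 h))
        · exact absurd hV.symm (h21 _ (h32 _ (hf3 h)))
        · exact absurd hV.symm (h21 _ (h32 _ ht3))
      · -- a vertex
        rcases Re3_cases _ y with rfl | ⟨h, rfl⟩ | ⟨h, rfl⟩ | ⟨h, rfl⟩ | rfl
        · exact absurd hxy (by simp [Fc.rk, cv, ce, cf])
        · rw [Re3_v, Re3_v, Set.singleton_eq_singleton_iff] at hV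
          exact hinj g h (hL hV)
        · exact absurd (hV ▸ he2 h) (hv2 g)
        · exact absurd (hV ▸ h32 _ (hf3 h)) (hv2 g)
        · exact absurd (hV ▸ h32 _ ht3) (hv2 g)
      · -- an edge
        rcases Re3_cases _ y with rfl | ⟨h, rfl⟩ | ⟨h, rfl⟩ | ⟨h, rfl⟩ | rfl
        · exact absurd hxy (by simp [Fc.rk, cv, ce, cf])
        · exact absurd hxy (by simp [Fc.rk, cv, ce, cf])
        · rw [vset_cex, vset_cex] at hV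
          have hg := (g : ℍ[ℝ] ≃ₗᵢ[ℝ] ℍ[ℝ]).injective
          have hh := (h : ℍ[ℝ] ≃ₗᵢ[ℝ] ℍ[ℝ]).injective
          have hk : ∀ v w : ℍ[ℝ], (h : ℍ[ℝ] ≃ₗᵢ[ℝ] ℍ[ℝ]) v = (g : ℍ[ℝ] ≃ₗᵢ[ℝ] ℍ[ℝ]) w →
              ((g : ℍ[ℝ] ≃ₗᵢ[ℝ] ℍ[ℝ])⁻¹ * (h : ℍ[ℝ] ≃ₗᵢ[ℝ] ℍ[ℝ])) v = w := by
            intro v w hvw
            show ((g : ℍ[ℝ] ≃ₗᵢ[ℝ] ℍ[ℝ])⁻¹) ((h : ℍ[ℝ] ≃ₗᵢ[ℝ] ℍ[ℝ]) v) = w
            rw [hvw]
            exact (g : ℍ[ℝ] ≃ₗᵢ[ℝ] ℍ[ℝ]).symm_apply_apply w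
          have hmem : (g : ℍ[ℝ] ≃ₗᵢ[ℝ] ℍ[ℝ])⁻¹ * (h : ℍ[ℝ] ≃ₗᵢ[ℝ] ℍ[ℝ]) ∈ GG s t := (g⁻¹ * h).2
          rw [ce_eq]
          have m1 : Quaternion.linearIsometryEquivTuple ((h : ℍ[ℝ] ≃ₗᵢ[ℝ] ℍ[ℝ]) 1) ∈
              ({Quaternion.linearIsometryEquivTuple ((g : ℍ[ℝ] ≃ₗᵢ[ℝ] ℍ[ℝ]) 1),
                Quaternion.linearIsometryEquivTuple ((g : ℍ[ℝ] ≃ₗᵢ[ℝ] ℍ[ℝ]) (t 1))} : Set _) := by
            rw [hV]
            exact Or.inl rfl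
          have m2 : Quaternion.linearIsometryEquivTuple ((h : ℍ[ℝ] ≃ₗᵢ[ℝ] ℍ[ℝ]) (t 1)) ∈
              ({Quaternion.linearIsometryEquivTuple ((g : ℍ[ℝ] ≃ₗᵢ[ℝ] ℍ[ℝ]) 1),
                Quaternion.linearIsometryEquivTuple ((g : ℍ[ℝ] ≃ₗᵢ[ℝ] ℍ[ℝ]) (t 1))} : Set _) := by
            rw [hV]
            exact Or.inr rfl
          have hne : (h : ℍ[ℝ] ≃ₗᵢ[ℝ] ℍ[ℝ]) 1 ≠ (h : ℍ[ℝ] ≃ₗᵢ[ℝ] ℍ[ℝ]) (t 1) := fun h0 =>
            H.t1 (hh h0).symm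
          rcases m1 with m1 | m1
          · left
            have m1' := hL m1
            have m2' : (h : ℍ[ℝ] ≃ₗᵢ[ℝ] ℍ[ℝ]) (t 1) = (g : ℍ[ℝ] ≃ₗᵢ[ℝ] ℍ[ℝ]) (t 1) := by
              rcases m2 with m2 | m2
              · exact absurd (m1'.trans (hL m2).symm) hne
              · exact hL m2
            have h1 := Re3_edges H hst _ hmem (hk _ _ m1') (hk _ _ m2')
            apply Subtype.ext
            exact (inv_mul_eq_one.1 h1).symm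
          · right
            have m1' := hL (Set.mem_singleton_iff.1 m1)
            have m2' : (h : ℍ[ℝ] ≃ₗᵢ[ℝ] ℍ[ℝ]) (t 1) = (g : ℍ[ℝ] ≃ₗᵢ[ℝ] ℍ[ℝ]) 1 := by
              rcases m2 with m2 | m2
              · exact hL m2
              · exact absurd (m1'.trans (hL (Set.mem_singleton_iff.1 m2)).symm) hne
            have h1 := Re3_edges H hst (t * ((g : ℍ[ℝ] ≃ₗᵢ[ℝ] ℍ[ℝ])⁻¹ * (h : ℍ[ℝ] ≃ₗᵢ[ℝ] ℍ[ℝ])))
              (Subgroup.mul_mem _ (t_mem s t) hmem)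
              (by
                show t (((g : ℍ[ℝ] ≃ₗᵢ[ℝ] ℍ[ℝ])⁻¹ * (h : ℍ[ℝ] ≃ₗᵢ[ℝ] ℍ[ℝ])) 1) = 1
                rw [hk _ _ m1']
                exact H.tt 1)
              (by
                show t (((g : ℍ[ℝ] ≃ₗᵢ[ℝ] ℍ[ℝ])⁻¹ * (h : ℍ[ℝ] ≃ₗᵢ[ℝ] ℍ[ℝ])) (t 1)) = t 1
                rw [hk _ _ m2'])
            have htt : t * t = 1 := by
              apply LinearIsometryEquiv.ext
              intro v
              exact H.tt v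
            apply Subtype.ext
            show (h : ℍ[ℝ] ≃ₗᵢ[ℝ] ℍ[ℝ]) = (g : ℍ[ℝ] ≃ₗᵢ[ℝ] ℍ[ℝ]) * t
            have h2 : (g : ℍ[ℝ] ≃ₗᵢ[ℝ] ℍ[ℝ])⁻¹ * (h : ℍ[ℝ] ≃ₗᵢ[ℝ] ℍ[ℝ]) = t := by
              have h3 := congrArg (fun x => t * x) h1
              simp only [mul_one] at h3
              rw [← mul_assoc, htt, one_mul] at h3
              exact h3
            exact eq_mul_of_inv_mul_eq h2
        · exact absurd (hV ▸ hf3 h) (he3 g)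
        · exact absurd (hV ▸ ht3) (he3 g)
      · -- a face
        rcases Re3_cases _ y with rfl | ⟨h, rfl⟩ | ⟨h, rfl⟩ | ⟨h, rfl⟩ | rfl
        · exact absurd hxy (by simp [Fc.rk, cv, ce, cf])
        · exact absurd hxy (by simp [Fc.rk, cv, ce, cf])
        · exact absurd hxy (by simp [Fc.rk, cv, ce, cf])
        · rw [vset_cfx, vset_cfx] at hV
          have hmem : ∀ i : ℤ, ∃ l : ℤ, (h : ℍ[ℝ] ≃ₗᵢ[ℝ] ℍ[ℝ]) (((s * t) ^ i) 1) =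
              (g : ℍ[ℝ] ≃ₗᵢ[ℝ] ℍ[ℝ]) (((s * t) ^ l) 1) := by
            intro i
            have h1 : Quaternion.linearIsometryEquivTuple
                ((h : ℍ[ℝ] ≃ₗᵢ[ℝ] ℍ[ℝ]) (((s * t) ^ i) 1)) ∈
                {p | ∃ j : ℤ, p = Quaternion.linearIsometryEquivTuple
                  ((g : ℍ[ℝ] ≃ₗᵢ[ℝ] ℍ[ℝ]) (((s * t) ^ j) 1))} := by
              rw [hV]
              exact ⟨i, rfl⟩
            obtain ⟨l, hl⟩ := h1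
            exact ⟨l, hL hl⟩
          obtain ⟨m, hm⟩ := hmem 0
          have hst' : s * t ∈ GG s t := Subgroup.mul_mem _ (s_mem s t) (t_mem s t)
          have hk1 : ((s * t) ^ (-m) * ((g : ℍ[ℝ] ≃ₗᵢ[ℝ] ℍ[ℝ])⁻¹ *
              (h : ℍ[ℝ] ≃ₗᵢ[ℝ] ℍ[ℝ]))) 1 = 1 := by
            show ((s * t) ^ (-m)) ((g : ℍ[ℝ] ≃ₗᵢ[ℝ] ℍ[ℝ])⁻¹ ((h : ℍ[ℝ] ≃ₗᵢ[ℝ] ℍ[ℝ]) 1)) = 1
            have h1 : (h : ℍ[ℝ] ≃ₗᵢ[ℝ] ℍ[ℝ]) 1 = (g : ℍ[ℝ] ≃ₗᵢ[ℝ] ℍ[ℝ]) (((s * t) ^ m) 1) := hm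
            rw [h1]
            have h2 : (g : ℍ[ℝ] ≃ₗᵢ[ℝ] ℍ[ℝ])⁻¹ ((g : ℍ[ℝ] ≃ₗᵢ[ℝ] ℍ[ℝ]) (((s * t) ^ m) 1)) =
                ((s * t) ^ m) 1 := (g : ℍ[ℝ] ≃ₗᵢ[ℝ] ℍ[ℝ]).symm_apply_apply _
            rw [h2]
            have h3 : ((s * t) ^ (-m)) (((s * t) ^ m) 1) = ((s * t) ^ (-m) * (s * t) ^ m) 1 := rfl
            rw [h3, ← zpow_add, neg_add_cancel, zpow_zero]
            rfl
          obtain ⟨j, hj⟩ := Subgroup.mem_zpowers_iff.1 (hst _ (Subgroup.mul_mem _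
            (Subgroup.zpow_mem _ hst' (-m)) (g⁻¹ * h).2) hk1)
          have hsj : s ^ j = 1 := by
            refine H.face_faithful j fun i => ?_
            obtain ⟨l, hl⟩ := hmem i
            refine ⟨-m + l, ?_⟩
            have hj' : s ^ j = (s * t) ^ (-m) * ((g : ℍ[ℝ] ≃ₗᵢ[ℝ] ℍ[ℝ])⁻¹ *
              (h : ℍ[ℝ] ≃ₗᵢ[ℝ] ℍ[ℝ])) := hj
            rw [hj']
            show ((s * t) ^ (-m)) ((g : ℍ[ℝ] ≃ₗᵢ[ℝ] ℍ[ℝ])⁻¹
              ((h : ℍ[ℝ] ≃ₗᵢ[ℝ] ℍ[ℝ]) (((s * t) ^ i) 1))) = _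
            rw [hl]
            have h2 : (g : ℍ[ℝ] ≃ₗᵢ[ℝ] ℍ[ℝ])⁻¹ ((g : ℍ[ℝ] ≃ₗᵢ[ℝ] ℍ[ℝ]) (((s * t) ^ l) 1)) =
                ((s * t) ^ l) 1 := (g : ℍ[ℝ] ≃ₗᵢ[ℝ] ℍ[ℝ]).symm_apply_apply _
            rw [h2, zpow_add]
            rfl
          rw [cf_eq]
          refine ⟨m, ?_⟩
          apply Subtype.ext
          have h2 : ((((gx H).s * (gx H).t) ^ m : GG s t) : ℍ[ℝ] ≃ₗᵢ[ℝ] ℍ[ℝ]) = (s * t) ^ m := by
            rw [Subgroup.coe_zpow]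
            rfl
          rw [Subgroup.coe_mul, h2]
          have hj' : s ^ j = (s * t) ^ (-m) * ((g : ℍ[ℝ] ≃ₗᵢ[ℝ] ℍ[ℝ])⁻¹ *
              (h : ℍ[ℝ] ≃ₗᵢ[ℝ] ℍ[ℝ])) := hj
          rw [hsj, zpow_neg] at hj'
          have h4 : (g : ℍ[ℝ] ≃ₗᵢ[ℝ] ℍ[ℝ])⁻¹ * (h : ℍ[ℝ] ≃ₗᵢ[ℝ] ℍ[ℝ]) = (s * t) ^ m :=
            (inv_mul_eq_one.1 hj'.symm).symm
          rw [← h4, mul_inv_cancel_left]
        · exfalso
          rw [vset_cfx, Re3_top] at hV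
          have hall : ∀ k : GG s t, ∃ m : ℤ, (k : ℍ[ℝ] ≃ₗᵢ[ℝ] ℍ[ℝ]) 1 = ((s * t) ^ m) 1 := by
            intro k
            have h1 : Quaternion.linearIsometryEquivTuple
                (((g * k : GG s t) : ℍ[ℝ] ≃ₗᵢ[ℝ] ℍ[ℝ]) 1) ∈
                {p | ∃ j : ℤ, p = Quaternion.linearIsometryEquivTuple
                  ((g : ℍ[ℝ] ≃ₗᵢ[ℝ] ℍ[ℝ]) (((s * t) ^ j) 1))} := by
              rw [hV]
              exact ⟨g * k, rfl⟩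
            obtain ⟨m, hm⟩ := h1
            exact ⟨m, (g : ℍ[ℝ] ≃ₗᵢ[ℝ] ℍ[ℝ]).injective (hL hm)⟩
          have hst' : s * t ∈ GG s t := Subgroup.mul_mem _ (s_mem s t) (t_mem s t)
          have h1 : s ^ (1 : ℤ) = 1 := by
            refine H.face_faithful 1 fun i => ?_
            obtain ⟨m, hm⟩ := hall ⟨s ^ (1 : ℤ) * (s * t) ^ i, Subgroup.mul_mem _
              (Subgroup.zpow_mem _ (s_mem s t) 1) (Subgroup.zpow_mem _ hst' i)⟩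
            exact ⟨m, hm⟩
          rw [zpow_one] at h1
          exact H.sn h1
      · -- the top
        rcases Re3_cases _ y with rfl | ⟨h, rfl⟩ | ⟨h, rfl⟩ | ⟨h, rfl⟩ | rfl
        · exact absurd hxy (by simp [Fc.rk, cv, ce, cf])
        · exact absurd hxy (by simp [Fc.rk, cv, ce, cf])
        · exact absurd hxy (by simp [Fc.rk, cv, ce, cf])
        · exact absurd hxy (by simp [Fc.rk, cv, ce, cf])
        · rfl
    intro x y hV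
    rcases le_total (Fc.rk x) (Fc.rk y) with h | h
    · exact key x y h hV
    · exact (key y x h hV.symm).symm

/-- Row Re3. `Φ` is the inverse of `Quaternion.linearIsometryEquivTuple`; `exists_gens`. -/
theorem exists_bsex (H : Geo s t) :
    ∃ A, Bse (isPolytope (gx H)) (bx H) (fun x => Quaternion.linearIsometryEquivTuple.symm x) A
      (lft (gx H) (gx H).s) (lft (gx H) (gx H).t) s t := by
  obtain ⟨A, h0, h1, h2, hG⟩ := exists_gens (gx H)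
  refine ⟨A, hG, ⟨1, one_pos, fun x y => ?_⟩, ?_, fun x hx => ?_, fun x hx => ?_, ?_⟩
  · rw [one_mul]
    exact Quaternion.linearIsometryEquivTuple.symm.dist_map x y
  · exact Quaternion.linearIsometryEquivTuple.symm.surjective
  · obtain ⟨g, rfl⟩ := Re3_rk0 _ x hx
    rw [lft_cv, bx_cv, bx_cv, LinearIsometryEquiv.symm_apply_apply,
      LinearIsometryEquiv.symm_apply_apply]
    rfl
  · obtain ⟨g, rfl⟩ := Re3_rk0 _ x hx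
    rw [lft_cv, bx_cv, bx_cv, LinearIsometryEquiv.symm_apply_apply,
      LinearIsometryEquiv.symm_apply_apply]
    rfl
  · rw [h0, bx_cv, LinearIsometryEquiv.symm_apply_apply]
    rfl

end ChiralQ
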