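import Pool.Agent.Lib.MP_bc704c_co.R.D0
import Pool.Agent.Lib.MP_bc704c_co.R.B10b

/-! # MP_bc704c_co, row D2: rotatory type, the fixed vector and the faces -/

namespace ChiralQ

open Quaternion ChiralNF

variable {s t : ℍ[ℝ] ≃ₗᵢ[ℝ] ℍ[ℝ]} {ε c d : ℝ} {a b : ℍ[ℝ]}

theorem D2_plane {c d y z : ℝ} (h1 : c * y - d * z = y) (h2 : d * y + c * z = z)
    (h : (c - 1) ^ 2 + d ^ 2 ≠ 0) : y = 0 ∧ z = 0 := by
  have e1 : ((c - 1) ^ 2 + d ^ 2) * y = 0 := by
    linear_combination (c - 1) * h1 + d * h2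
  have e2 : ((c - 1) ^ 2 + d ^ 2) * z = 0 := by
    linear_combination (c - 1) * h2 - d * h1
  exact ⟨(mul_eq_zero.1 e1).resolve_left h, (mul_eq_zero.1 e2).resolve_left h⟩

theorem D2_JK (H : Std s t ε c d a b) : (t 1).imJ ≠ 0 ∨ (t 1).imK ≠ 0 := by
  by_contra hcon
  have hJ := not_not.1 (not_or.1 hcon).1
  have hK := not_not.1 (not_or.1 hcon).2
  rw [H.ht, tF, mul_one, H.hb.star] at hJ hK
  have ha0 := H.ha.1
  have hb0 := H.hb.1
  simp only [mul_neg, Quaternion.imJ_neg, Quaternion.imK_neg, Quaternion.imJ_mul,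
    Quaternion.imK_mul, ha0, hb0] at hJ hK
  have hdet := H.chi.2
  have hα : a.imI = 0 := by
    have : a.imI * (a.imJ * b.imK - a.imK * b.imJ) = 0 := by
      linear_combination a.imJ * hJ + a.imK * hK
    exact (mul_eq_zero.1 this).resolve_right hdet
  have hβ : b.imI = 0 := by
    have : b.imI * (a.imJ * b.imK - a.imK * b.imJ) = 0 := by
      linear_combination b.imK * hK + b.imJ * hJ
    exact (mul_eq_zero.1 this).resolve_right hdet
  exact H.chi.1 (by rw [hα, hβ])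

theorem D2_I (H : Std s t ε c d a b) : (t 1).imI ≠ 0 := by
  intro hI
  rw [H.ht, tF, mul_one, H.hb.star] at hI
  have ha0 := H.ha.1
  have hb0 := H.hb.1
  simp only [mul_neg, Quaternion.imI_neg, Quaternion.imI_mul, ha0, hb0] at hI
  exact H.chi.2 (by linear_combination -hI)

/-- Row D2. `Std.zpow`; the part of `t 1 = a b̄` in the plane of `j, k` is not `0` (`Al8_JK`, as in the
proof of `Std.edge_fix` in `Q/Al8.lean`, copy it), so `c' = 1, d' = 0`; the `i`-part of `t 1` is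
`-(u_J w_K - u_K w_J) ≠ 0` by `Chi`, so `ε' = 1`. -/
theorem Std.edge_fix' (H : Std s t ε c d a b) {j : ℤ} (h : (s ^ j) (t 1) = t 1) : s ^ j = 1 := by
  obtain ⟨e', c', d', he, h1, hcd, hv⟩ := H.zpow j
  rw [hv] at h
  have hI : e' * (t 1).imI = (t 1).imI := congrArg QuaternionAlgebra.imI h
  have hJ : c' * (t 1).imJ - d' * (t 1).imK = (t 1).imJ := congrArg QuaternionAlgebra.imJ h
  have hK : d' * (t 1).imJ + c' * (t 1).imK = (t 1).imK := congrArg QuaternionAlgebra.imK h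
  have he1 : e' = 1 := by
    have h3 : (e' - 1) * (t 1).imI = 0 := by linear_combination hI
    have := (mul_eq_zero.1 h3).resolve_right (D2_I H)
    linarith
  subst he1
  have hz : (c' - 1) ^ 2 + d' ^ 2 = 0 := by
    by_contra hne
    obtain ⟨z1, z2⟩ := D2_plane hJ hK hne
    rcases D2_JK H with h' | h'
    · exact h' z1
    · exact h' z2
  have hd' : d' = 0 := by
    have : d' ^ 2 = 0 := by nlinarith [sq_nonneg (c' - 1), sq_nonneg d']
    exact pow_eq_zero_iff (two_ne_zero) |>.1 this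
  have hc' : c' = 1 := by
    have : (c' - 1) ^ 2 = 0 := by nlinarith [sq_nonneg (c' - 1), sq_nonneg d']
    have := pow_eq_zero_iff (two_ne_zero) |>.1 this
    linarith
  subst hd' hc'
  apply LinearIsometryEquiv.ext
  intro v
  rw [hv]
  change _ = v
  ext <;> simp [sF]

/-- Row D2. `d ≠ 0`. -/
theorem Std.sn (H : Std s t ε c d a b) : s ≠ 1 := by
  intro h
  have h1 := H.hs ⟨0, 0, 1, 0⟩
  rw [h] at h1
  have h2 := congrArg QuaternionAlgebra.imK h1
  have h3 : (0 : ℝ) = d * 1 + c * 0 := h2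
  exact H.hd (by linarith)

theorem D2_st {k : ℍ[ℝ]} (H : Std s t ε c d a b) (hs : ∀ v, s v = k * star v * star k) (v : ℍ[ℝ]) :
    s (t v) = (k * b) * star v * star (k * a) := by
  rw [hs, H.ht, tF]
  simp only [star_mul, star_star]
  noncomm_ring

/-- Row D2. By `exists_k` `s v = k v̄ k̄`, `k` unit, so `s (t v) = x v̄ ȳ` with `x = k b`, `y = k a` (unit).
`v = x + ȳ` is fixed (`x (x̄ + y) ȳ = ȳ + x`). If `x + ȳ = 0` then `ȳ = -x` and `v = x i` is fixed
(`x (-i) x̄ ȳ = -x i x̄ (-x)...`: `x · star (x i) · ȳ = x (-i) x̄ (-x) = x i`). -/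
theorem exists_fixed (H : Std s t (-1) c d a b) : ∃ v, v ≠ 0 ∧ s (t v) = v := by
  obtain ⟨k, l, -, hk, -, -, -, hs⟩ := exists_k H
  have hst := D2_st H hs
  obtain ⟨x, hx⟩ : ∃ x : ℍ[ℝ], x = (k : ℍ[ℝ]) * b := ⟨_, rfl⟩
  obtain ⟨y, hy⟩ : ∃ y : ℍ[ℝ], y = (k : ℍ[ℝ]) * a := ⟨_, rfl⟩
  rw [← hx, ← hy] at hst
  have nx : normSq x = 1 := by rw [hx, map_mul, hk, H.hb.normSq, one_mul]
  have ny : normSq y = 1 := by rw [hy, map_mul, hk, H.ha.normSq, one_mul]
  have x1 : x * star x = 1 := by rw [Quaternion.self_mul_star, nx]; rfl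
  have x2 : star x * x = 1 := by rw [Quaternion.star_mul_self, nx]; rfl
  have y1 : y * star y = 1 := by rw [Quaternion.self_mul_star, ny]; rfl
  by_cases h0 : x + star y = 0
  · have hy' : star y = -x := by
      rw [eq_neg_iff_add_eq_zero, add_comm]; exact h0
    obtain ⟨i, hi⟩ : ∃ i : ℍ[ℝ], i = ⟨0, 1, 0, 0⟩ := ⟨_, rfl⟩
    have hsi : star i = -i := by
      rw [hi]
      ext <;> simp
    have hii : i * i = -1 := by
      rw [hi]
      ext <;> simp
    refine ⟨x * i, ?_, ?_⟩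
    · intro h
      have h2 : star x * (x * i) * i = 0 := by rw [h]; simp
      rw [← mul_assoc, x2, one_mul, hii] at h2
      exact one_ne_zero (neg_eq_zero.1 h2)
    · rw [hst, star_mul, hsi, hy']
      calc x * (-i * star x) * -x = x * i * (star x * x) := by noncomm_ring
        _ = x * i := by rw [x2, mul_one]
  · refine ⟨x + star y, h0, ?_⟩
    rw [hst, star_add, star_star]
    calc x * (star x + y) * star y = (x * star x) * star y + x * (y * star y) := by noncomm_ring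
      _ = x + star y := by rw [x1, y1, one_mul, mul_one, add_comm]

theorem D2_fixpow {f : ℍ[ℝ] ≃ₗᵢ[ℝ] ℍ[ℝ]} {v : ℍ[ℝ]} (h : f v = v) (k : ℤ) : (f ^ k) v = v := by
  have hi : (f⁻¹ : ℍ[ℝ] ≃ₗᵢ[ℝ] ℍ[ℝ]) v = v := by
    have h3 : (f⁻¹ : ℍ[ℝ] ≃ₗᵢ[ℝ] ℍ[ℝ]) (f v) = v := f.symm_apply_apply v
    rwa [h] at h3
  induction k using Int.induction_on with
  | zero => rw [zpow_zero]; rfl
  | succ n ih =>
    rw [zpow_add_one]
    show (f ^ (n : ℤ)) (f v) = v
    rw [h, ih]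
  | pred n ih =>
    rw [zpow_sub_one]
    show (f ^ (-(n : ℤ))) ((f⁻¹ : ℍ[ℝ] ≃ₗᵢ[ℝ] ℍ[ℝ]) v) = v
    rw [hi, ih]

/-- Row D2. Not all vertices are on the base face. Let `v` be as in `exists_fixed`, `f = s t`. Then
`⟪f ^ k 1, v⟫ = ⟪1, v⟫` for all `k`, so `⟪p, v⟫` is constant on the vertices `p = g 1`. For `g ∈ GG s t` then
`⟪g v - v, p⟫ = ⟪v, g⁻¹ p⟫ - ⟪v, p⟫ = 0` for all vertices `p`, so `g v = v` by `Std.span` (a vector orthogonal to all
vertices is `0`), and `v = 0` by `Std.fix_zero'`. -/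
theorem not_all (H : Std s t (-1) c d a b) :
    ¬ ∀ g ∈ GG s t, ∃ k : ℤ, g 1 = ((s * t) ^ k) 1 := by
  intro hall
  obtain ⟨v, hv0, hv⟩ := exists_fixed H
  have hf : (s * t) v = v := hv
  have hc : ∀ g ∈ GG s t, inner ℝ (g 1) v = inner ℝ (1 : ℍ[ℝ]) v := by
    intro g hg
    obtain ⟨k, hk⟩ := hall g hg
    rw [hk]
    calc inner ℝ (((s * t) ^ k) 1) v = inner ℝ (((s * t) ^ k) 1) (((s * t) ^ k) v) := by
          rw [D2_fixpow hf k]
      _ = inner ℝ (1 : ℍ[ℝ]) v := LinearIsometryEquiv.inner_map_map _ _ _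
  apply hv0
  apply H.fix_zero'
  intro g hg
  have hmem : g v - v ∈ (Submodule.span ℝ {p : ℍ[ℝ] | ∃ g ∈ GG s t, g 1 = p})ᗮ := by
    rw [Submodule.mem_orthogonal]
    intro u hu
    induction hu using Submodule.span_induction with
    | mem p hp =>
      obtain ⟨h, hh, rfl⟩ := hp
      rw [inner_sub_right, hc h hh]
      have e1 : inner ℝ (h 1) (g v) = inner ℝ ((g⁻¹ * h) 1) v := by
        rw [← LinearIsometryEquiv.inner_map_map g ((g⁻¹ * h) 1) v]
        have : g ((g⁻¹ * h) 1) = h 1 := g.apply_symm_apply (h 1)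
        rw [this]
      rw [e1, hc _ (mul_mem (inv_mem hg) hh), sub_self]
    | zero => simp
    | add x y _ _ hx hy => rw [inner_add_left, hx, hy, add_zero]
    | smul r x _ hx => rw [inner_smul_left, hx, mul_zero]
  rw [H.span, Submodule.top_orthogonal_eq_bot, Submodule.mem_bot] at hmem
  exact sub_eq_zero.1 hmem

/-- Row D2. If all `s ^ m (t 1)` are in `W = {f ^ k 1}` then all `g 1` are in `W`: closure induction over the
elements of `GG s t`, multiplied from the right: the set of the `g` with `∃ k, g 1 = f ^ k 1` is invariant under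
`g ↦ g s` (`s 1 = 1`) and `g ↦ g t`: `f ^ (-k) g` fixes `1`, so `f ^ (-k) g = s ^ m` by `hst` and
`g (t 1) = f ^ k (s ^ m (t 1))`. (`g ↦ g s⁻¹` also; `Subgroup.closure_induction_right` or
`Subgroup.closure_induction` for the set of the `h` such that for all such `g` also `g h` and `g h⁻¹` are in the
set.) Contradiction to `not_all`. -/
theorem not_all_nb (H : Std s t (-1) c d a b)
    (hst : ∀ g ∈ GG s t, g 1 = 1 → g ∈ Subgroup.zpowers s)
    (h : ∀ m : ℤ, ∃ k : ℤ, (s ^ m) (t 1) = ((s * t) ^ k) 1) : False := by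
  apply not_all H
  have hsG : s ∈ GG s t := Subgroup.subset_closure (by simp)
  have htG : t ∈ GG s t := Subgroup.subset_closure (by simp)
  have ht' : ∀ g ∈ GG s t, (∃ k : ℤ, g 1 = ((s * t) ^ k) 1) →
      ∃ k : ℤ, (g * t) 1 = ((s * t) ^ k) 1 := by
    rintro g hg ⟨k, hk⟩
    have h1 : (((s * t) ^ (-k)) * g) 1 = 1 := by
      show ((s * t) ^ (-k)) (g 1) = 1
      rw [hk]
      show (((s * t) ^ (-k)) * ((s * t) ^ k)) 1 = 1
      rw [← zpow_add, neg_add_cancel, zpow_zero]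
      rfl
    obtain ⟨m, hm⟩ := Subgroup.mem_zpowers_iff.1
      (hst _ (mul_mem (Subgroup.zpow_mem _ (mul_mem hsG htG) _) hg) h1)
    obtain ⟨k', hk'⟩ := h m
    refine ⟨k + k', ?_⟩
    have h2 : g = ((s * t) ^ k) * s ^ m := by
      rw [hm, ← mul_assoc, ← zpow_add, add_neg_cancel, zpow_zero, one_mul]
    rw [zpow_add]
    show (g * t) 1 = ((s * t) ^ k) (((s * t) ^ k') 1)
    rw [← hk', h2]
    rfl
  have hs' : ∀ g ∈ GG s t, (∃ k : ℤ, g 1 = ((s * t) ^ k) 1) →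
      ∃ k : ℤ, (g * s) 1 = ((s * t) ^ k) 1 := by
    rintro g hg ⟨k, hk⟩
    refine ⟨k, ?_⟩
    show g (s 1) = _
    rw [H.s1, hk]
  have hs1 : (s⁻¹ : ℍ[ℝ] ≃ₗᵢ[ℝ] ℍ[ℝ]) 1 = 1 := by
    have h3 : (s⁻¹ : ℍ[ℝ] ≃ₗᵢ[ℝ] ℍ[ℝ]) (s 1) = 1 := s.symm_apply_apply 1
    rwa [H.s1] at h3
  have htt : t⁻¹ = t := by
    rw [inv_eq_iff_mul_eq_one]
    apply LinearIsometryEquiv.ext
    intro v
    exact H.tt v
  have key : ∀ x ∈ GG s t, ∀ g ∈ GG s t, (∃ k : ℤ, g 1 = ((s * t) ^ k) 1) →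
      (∃ k : ℤ, (g * x) 1 = ((s * t) ^ k) 1) ∧ ∃ k : ℤ, (g * x⁻¹) 1 = ((s * t) ^ k) 1 := by
    intro x hx
    induction hx using Subgroup.closure_induction with
    | mem x hx =>
      intro g hg hk
      rcases hx with hx | hx
      · subst hx
        refine ⟨hs' g hg hk, ?_⟩
        obtain ⟨k, hk⟩ := hk
        refine ⟨k, ?_⟩
        show g ((x⁻¹ : ℍ[ℝ] ≃ₗᵢ[ℝ] ℍ[ℝ]) 1) = _
        rw [hs1, hk]
      · rw [Set.mem_singleton_iff] at hx
        subst hx
        refine ⟨ht' g hg hk, ?_⟩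
        rw [htt]
        exact ht' g hg hk
    | one =>
      intro g hg hk
      rw [inv_one, mul_one]
      exact ⟨hk, hk⟩
    | mul x y hx hy ihx ihy =>
      intro g hg hk
      refine ⟨?_, ?_⟩
      · rw [← mul_assoc]
        exact (ihy (g * x) (mul_mem hg hx) (ihx g hg hk).1).1
      · rw [mul_inv_rev, ← mul_assoc]
        exact (ihx (g * y⁻¹) (mul_mem hg (inv_mem hy)) (ihy g hg hk).2).2
    | inv x hx ih =>
      intro g hg hk
      rw [inv_inv]
      exact ⟨(ih g hg hk).2, (ih g hg hk).1⟩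
  intro g hg
  have := (key g hg 1 (one_mem _) ⟨0, by rw [zpow_zero]⟩).1
  rwa [one_mul] at this

end ChiralQ
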