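import Pool.Agent.Lib.MP_bc704c_co.R.D2

/-! # MP_bc704c_co, row D2b: rotatory type, the conditions of the coset polyhedron -/

namespace ChiralQ

open Quaternion ChiralNF

variable {s t : ℍ[ℝ] ≃ₗᵢ[ℝ] ℍ[ℝ]} {c d : ℝ} {a b : ℍ[ℝ]}

theorem D2b_f1 (t1 : ∀ v, t (t v) = v) (s1 : s 1 = 1) : ((s * t) ^ (-1 : ℤ)) 1 = t 1 := by
  have e2 : (s * t) (t 1) = 1 := by
    show s (t (t 1)) = 1
    rw [t1, s1]
  have e3 : ((s * t) ^ (-1 : ℤ)) ((s * t) (t 1)) = t 1 := by
    rw [zpow_neg_one]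
    exact (s * t).symm_apply_apply _
  rw [e2] at e3
  exact e3

theorem D2b_add (g : ℍ[ℝ] ≃ₗᵢ[ℝ] ℍ[ℝ]) (i j : ℤ) (v : ℍ[ℝ]) : (g ^ (i + j)) v = (g ^ i) ((g ^ j) v) := by
  rw [zpow_add]
  rfl

theorem D2b_one (s1 : s 1 = 1) (j : ℤ) : (s ^ j) 1 = 1 := by
  have hn : ∀ n : ℕ, (s ^ n) 1 = 1 := by
    intro n
    induction n with
    | zero => rfl
    | succ n ih =>
      rw [pow_succ']
      show s ((s ^ n) 1) = 1
      rw [ih, s1]
  cases j with
  | ofNat n =>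
    have := hn n
    simpa using this
  | negSucc n =>
    rw [zpow_negSucc]
    have h := hn (n + 1)
    have h2 : (s ^ (n + 1))⁻¹ ((s ^ (n + 1)) 1) = 1 := (s ^ (n + 1)).symm_apply_apply _
    rw [h] at h2
    exact h2

/-- from `s ^ i (t 1) = s ^ j (t 1)` -/
theorem D2b_eq (hfix : ∀ {j : ℤ}, (s ^ j) (t 1) = t 1 → s ^ j = 1) (i j : ℤ)
    (h : (s ^ i) (t 1) = (s ^ j) (t 1)) : s ^ (i - j) = 1 := by
  apply hfix
  have e1 : (s ^ (i - j)) (t 1) = (s ^ (-j)) ((s ^ i) (t 1)) := by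
    rw [← D2b_add]
    congr 2
    ring
  rw [e1, h, ← D2b_add]
  simp

/-- Row D2b. `c = 0`: `s ^ 4 = 1` (in coordinates, `d² = 1`). Fields: `Std.tt`, `Std.s1`, `Std.t1`,
`Std.edge_fix'`, `Std.sn`; `face_faithful`: `W = {f ^ k 1}`, `f = s t`, contains `t 1 = f⁻¹ 1` (`s⁻¹ 1 = 1`) and
`s (t 1) = f 1`. If `s ^ j ≠ 1` maps `W` into `W` then `j` is `1`, `2` or `3` modulo `4` and `W` contains `t 1`, `s (t 1)`,
`s ^ j (t 1)`, `s ^ j (s (t 1))`, and `s ^ (2 j) (t 1)`, ...: all `s ^ m (t 1)`. `not_all_nb`. -/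
theorem geo_zero (H : Std s t (-1) 0 d a b)
    (hst : ∀ g ∈ GG s t, g 1 = 1 → g ∈ Subgroup.zpowers s) : Geo s t := by
  have s1 := H.s1
  have tt := H.tt
  refine ⟨H.tt, H.s1, H.t1, fun h => H.edge_fix' h, H.sn, ?_⟩
  intro j hj
  by_contra hne
  have hd2 : d ^ 2 = 1 := by linear_combination H.hcd
  have hs4 : s ^ (4 : ℤ) = 1 := by
    have e4 : s ^ (4 : ℤ) = s * s * s * s := by
      rw [show (4 : ℤ) = ((4 : ℕ) : ℤ) by norm_num, zpow_natCast]
      simp only [pow_succ, pow_zero, one_mul]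
    rw [e4]
    ext1 v
    show s (s (s (s v))) = v
    rw [H.hs, H.hs, H.hs, H.hs]
    ext
    · simp [sF]
    · simp [sF]
    · simp only [sF]
      linear_combination (d ^ 2 + 1) * v.imJ * hd2
    · simp only [sF]
      linear_combination (d ^ 2 + 1) * v.imK * hd2
  have hmod : ∀ m : ℤ, s ^ m = s ^ (m % 4) := fun m => zpow_eq_zpow_emod m hs4
  -- the vertices of the base face
  have hW : ∀ p : ℍ[ℝ], (∃ m : ℤ, p = ((s * t) ^ m) 1) → ∃ m : ℤ, (s ^ j) p = ((s * t) ^ m) 1 := by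
    rintro p ⟨m, rfl⟩
    exact hj m
  have w1 : ∃ m : ℤ, t 1 = ((s * t) ^ m) 1 := ⟨-1, (D2b_f1 tt s1).symm⟩
  have w2 : ∃ m : ℤ, s (t 1) = ((s * t) ^ m) 1 := ⟨1, by rw [zpow_one]; rfl⟩
  have hn : ∀ n : ℕ, ∃ m : ℤ, (s ^ (j * n)) (t 1) = ((s * t) ^ m) 1 := by
    intro n
    induction n with
    | zero => simpa using w1
    | succ n ih =>
      have e : j * ((n + 1 : ℕ) : ℤ) = j + j * n := by push_cast; ring
      rw [e, D2b_add]
      exact hW _ ih
  refine not_all_nb H hst fun m => ?_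
  have hj4 : j % 4 = 0 ∨ j % 4 = 1 ∨ j % 4 = 2 ∨ j % 4 = 3 := by omega
  have hm4 : m % 4 = 0 ∨ m % 4 = 1 ∨ m % 4 = 2 ∨ m % 4 = 3 := by omega
  rcases hj4 with h | h | h | h
  · exact absurd (by rw [hmod, h, zpow_zero]) hne
  · obtain ⟨k, hk⟩ := hn (m % 4).toNat
    refine ⟨k, ?_⟩
    rw [← hk, hmod m, hmod (j * _)]
    congr 2
    have e : ((m % 4).toNat : ℤ) = m % 4 := Int.toNat_of_nonneg (by omega)
    rw [e, Int.mul_emod, h]
    simp
  · rcases hm4 with h' | h' | h' | h'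
    · obtain ⟨k, hk⟩ := w1
      refine ⟨k, ?_⟩
      rw [← hk, hmod m, h', zpow_zero]
      rfl
    · obtain ⟨k, hk⟩ := w2
      refine ⟨k, ?_⟩
      rw [← hk, hmod m, h', zpow_one]
    · obtain ⟨k, hk⟩ := hW _ w1
      refine ⟨k, ?_⟩
      rw [← hk, hmod m, hmod j, h', h]
    · obtain ⟨k, hk⟩ := hW _ w2
      refine ⟨k, ?_⟩
      rw [← hk, hmod m, hmod j, h', h, show (3 : ℤ) = 2 + 1 by norm_num, D2b_add, zpow_one]
  · obtain ⟨k, hk⟩ := hn (3 * (m % 4)).toNat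
    refine ⟨k, ?_⟩
    rw [← hk, hmod m, hmod (j * _)]
    congr 2
    have e : ((3 * (m % 4)).toNat : ℤ) = 3 * (m % 4) := Int.toNat_of_nonneg (by omega)
    rw [e, Int.mul_emod, h]
    rcases hm4 with h' | h' | h' | h' <;> rw [h'] <;> norm_num

/-- Row D2b. If `⟪u, w⟫ = c α β` then `(s t)⁴ = 1`. With `x = k b`, `y = k a` (`exists_k`): `(s t) v = x v̄ ȳ`,
`(s t)² v = (x y) v (y x)‾`, `(s t)⁴ v = (x y)² v ((y x)²)‾`. `Re (x y) = Re (k b k a) = Re (b k a k)`, in coordinates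
`= ⟪u, w⟫ - c α β` up to sign (checked), so `(x y)² = -1 = (y x)²`. (In coordinates: `k = x0 + x1 i`,
`k² = x0² - x1² + 2 x0 x1 i = -c - d i`.) -/
theorem pow_four (H : Std s t (-1) c d a b)
    (h : a.imJ * b.imJ + a.imK * b.imK = c * (a.imI * b.imI)) : (s * t) ^ 4 = 1 := by
  obtain ⟨k, l, hl, hk1, hkJ, hkK, hkk, hs⟩ := exists_k H
  have hkk' : (k : ℍ[ℝ]) * k = -(l : ℍ[ℝ]) := by
    have := congrArg (fun u : ℍ[ℝ]ˣ => (u : ℍ[ℝ])) hkk
    simpa using this
  rw [hl] at hkk'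
  generalize (k : ℍ[ℝ]) = q at *
  have r0 := congrArg QuaternionAlgebra.re hkk'
  simp only [Quaternion.re_mul, hkJ, hkK, Quaternion.re_neg] at r0
  have hq1 : q.re ^ 2 + q.imI ^ 2 = 1 := by
    rw [Quaternion.normSq_def', hkJ, hkK] at hk1
    linear_combination hk1
  have hq2 : q.re ^ 2 - q.imI ^ 2 = -c := by linear_combination r0
  have na : normSq a = 1 := by
    rw [Quaternion.normSq_def', H.ha.1]
    linear_combination H.ha.2
  have nb : normSq b = 1 := by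
    rw [Quaternion.normSq_def', H.hb.1]
    linear_combination H.hb.2
  have hre1 : (q * b * (q * a)).re = 0 := by
    simp only [Quaternion.re_mul, Quaternion.imI_mul, Quaternion.imJ_mul, Quaternion.imK_mul, hkJ, hkK,
      H.ha.1, H.hb.1]
    linear_combination (-(a.imI * b.imI)) * hq2 - (a.imJ * b.imJ + a.imK * b.imK) * hq1 - h
  have hre2 : (q * a * (q * b)).re = 0 := by
    simp only [Quaternion.re_mul, Quaternion.imI_mul, Quaternion.imJ_mul, Quaternion.imK_mul, hkJ, hkK,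
      H.ha.1, H.hb.1]
    linear_combination (-(a.imI * b.imI)) * hq2 - (a.imJ * b.imJ + a.imK * b.imK) * hq1 - h
  have hsq : ∀ z : ℍ[ℝ], z.re = 0 → normSq z = 1 → z * z = -1 := by
    intro z h0 h1
    rw [Quaternion.normSq_def', h0] at h1
    ext
    · simp only [Quaternion.re_mul, h0, Quaternion.re_neg, Quaternion.re_one]
      linear_combination -h1
    · simp only [Quaternion.imI_mul, h0, Quaternion.imI_neg, Quaternion.imI_one]
      ring
    · simp only [Quaternion.imJ_mul, h0, Quaternion.imJ_neg, Quaternion.imJ_one]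
      ring
    · simp only [Quaternion.imK_mul, h0, Quaternion.imK_neg, Quaternion.imK_one]
      ring
  have q1 := hsq _ hre1 (by rw [map_mul, map_mul, map_mul, hk1, na, nb]; norm_num)
  have q2 := hsq _ hre2 (by rw [map_mul, map_mul, map_mul, hk1, na, nb]; norm_num)
  have hst : ∀ v, (s * t) v = (q * b) * star v * star (q * a) := by
    intro v
    show s (t v) = _
    rw [H.ht, hs, tF]
    simp only [star_mul, star_star]
    noncomm_ring
  have hst2 : ∀ v, (s * t) ((s * t) v) = (q * b * (q * a)) * v * star (q * a * (q * b)) := by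
    intro v
    rw [hst, hst v]
    simp only [star_mul, star_star]
    noncomm_ring
  have e4 : (s * t) ^ 4 = (s * t) * (s * t) * ((s * t) * (s * t)) := by
    rw [show (4 : ℕ) = 2 + 2 by norm_num, pow_add, pow_two]
  rw [e4]
  ext1 v
  show (s * t) ((s * t) ((s * t) ((s * t) v))) = v
  rw [hst2, hst2]
  have e5 : q * b * (q * a) * (q * b * (q * a) * v * star (q * a * (q * b))) * star (q * a * (q * b)) =
      (q * b * (q * a) * (q * b * (q * a))) * v * star (q * a * (q * b) * (q * a * (q * b))) := by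
    rw [star_mul (q * a * (q * b)) (q * a * (q * b))]
    noncomm_ring
  rw [e5, q1, q2]
  simp

/-- Row D2b. `c² = 1/2`, `(s t)⁴ = 1`: `s` has the order 8 (`s ^ j = 1` iff `8 ∣ j`, in coordinates `s²` is the
rotation with `c' = 0`, `d' = 2 c d = ± 1`, and `s ^ 4` is `-1` on the plane of `j, k`). `W` has the elements
`1, f 1 = s (t 1), f² 1, f³ 1 = t 1`. Let `s ^ j` map `W` into `W`, `s ^ j ≠ 1`. `s ^ j (t 1)` and
`s ^ j (s (t 1))` are not `1` (`t 1 ≠ 1`) and two of the `s ^ m (t 1)` are equal only if the exponents are congruent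
modulo 8 (`Std.edge_fix'`). So `s ^ j (t 1) ∈ {s (t 1), f² 1}` and `s ^ j (s (t 1)) ∈ {f² 1, t 1}`; both equal to `f² 1` is
impossible, so is `s ^ (j - 1) = 1 = s ^ (j + 1)`. If `s ^ (j - 1) = 1` and `s² (t 1) = f² 1`: then
`s (f² 1) = s³ (t 1) ∈ W`, impossible. If `s ^ (j + 1) = 1` and `s⁻¹ (t 1) = f² 1`: `s⁻¹ (f² 1) = s⁻² (t 1) ∈ W`, impossible. -/
theorem geo_four (H : Std s t (-1) c d a b) (hc : c ^ 2 = 1 / 2) (h4 : (s * t) ^ 4 = 1) :
    Geo s t := by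
  have s1 := H.s1
  have tt := H.tt
  have hfix : ∀ {j : ℤ}, (s ^ j) (t 1) = t 1 → s ^ j = 1 := fun h => H.edge_fix' h
  refine ⟨H.tt, H.s1, H.t1, hfix, H.sn, ?_⟩
  intro j hj
  by_contra hne
  have hd2 : d ^ 2 = 1 / 2 := by linear_combination H.hcd - hc
  have hcd0 : c * d ≠ 0 := by
    intro h0
    have : (c * d) ^ 2 = 1 / 4 := by
      rw [mul_pow, hc, hd2]; norm_num
    rw [h0] at this
    norm_num at this
  have n1 : s ^ (1 : ℤ) ≠ 1 := by rw [zpow_one]; exact H.sn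
  have n2 : s ^ (2 : ℤ) ≠ 1 := by
    intro h0
    have e4 : s ^ (2 : ℤ) = s * s := by
      rw [show (2 : ℤ) = ((2 : ℕ) : ℤ) by norm_num, zpow_natCast, pow_two]
    rw [e4] at h0
    have h1 : (s * s) ⟨0, 0, 1, 0⟩ = (⟨0, 0, 1, 0⟩ : ℍ[ℝ]) := by rw [h0]; rfl
    have h2 : s (s ⟨0, 0, 1, 0⟩) = (⟨0, 0, 1, 0⟩ : ℍ[ℝ]) := h1
    rw [H.hs, H.hs] at h2
    have h3 := congrArg QuaternionAlgebra.imK h2
    simp only [sF] at h3
    apply hcd0
    linear_combination h3 / 2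
  have n3 : s ^ (3 : ℤ) ≠ 1 := by
    intro h0
    have e4 : s ^ (3 : ℤ) = s * s * s := by
      rw [show (3 : ℤ) = ((3 : ℕ) : ℤ) by norm_num, zpow_natCast]
      simp only [pow_succ, pow_zero, one_mul]
    rw [e4] at h0
    have h1 : (s * s * s) ⟨0, 1, 0, 0⟩ = (⟨0, 1, 0, 0⟩ : ℍ[ℝ]) := by rw [h0]; rfl
    have h2 : s (s (s ⟨0, 1, 0, 0⟩)) = (⟨0, 1, 0, 0⟩ : ℍ[ℝ]) := h1
    rw [H.hs, H.hs, H.hs] at h2
    have h3 := congrArg QuaternionAlgebra.imI h2
    simp only [sF] at h3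
    norm_num at h3
  have inj : ∀ i : ℤ, (s ^ i) (t 1) ≠ 1 := by
    intro i h0
    have h1 := D2b_one s1 i
    exact H.t1 ((s ^ i).injective (h0.trans h1.symm))
  have hne1 : ∀ i : ℤ, (s ^ i = 1 → False) → ∀ k : ℤ, (s ^ (k + i)) (t 1) ≠ (s ^ k) (t 1) := by
    intro i hi k h0
    have := D2b_eq hfix _ _ h0
    rw [show k + i - k = i by ring] at this
    exact hi this
  -- the four vertices
  have h4' : (s * t) ^ (4 : ℤ) = 1 := by
    rw [show (4 : ℤ) = ((4 : ℕ) : ℤ) by norm_num, zpow_natCast]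
    exact h4
  have hW : ∀ p : ℍ[ℝ], (∃ m : ℤ, p = ((s * t) ^ m) 1) →
      p = 1 ∨ p = (s ^ (1 : ℤ)) (t 1) ∨ p = ((s * t) ^ (2 : ℤ)) 1 ∨ p = (s ^ (0 : ℤ)) (t 1) := by
    rintro p ⟨m, rfl⟩
    have hm4 : m % 4 = 0 ∨ m % 4 = 1 ∨ m % 4 = 2 ∨ m % 4 = 3 := by omega
    rw [zpow_eq_zpow_emod m h4']
    rcases hm4 with h' | h' | h' | h' <;> rw [h']
    · left
      rw [zpow_zero]
      rfl
    · right; left
      rw [zpow_one, zpow_one]
      rfl
    · right; right; left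
      rfl
    · right; right; right
      rw [zpow_zero]
      have e : (s * t) ^ (3 : ℤ) = (s * t) ^ (-1 : ℤ) := by
        rw [show (3 : ℤ) = -1 + 4 by norm_num, zpow_add, h4', mul_one]
      rw [e, D2b_f1 tt s1]
      rfl
  have w1 : ∃ m : ℤ, t 1 = ((s * t) ^ m) 1 := ⟨-1, (D2b_f1 tt s1).symm⟩
  have w2 : ∃ m : ℤ, (s ^ (1 : ℤ)) (t 1) = ((s * t) ^ m) 1 := ⟨1, by rw [zpow_one, zpow_one]; rfl⟩
  have hj' : ∀ p : ℍ[ℝ], (∃ m : ℤ, p = ((s * t) ^ m) 1) → ∃ m : ℤ, (s ^ j) p = ((s * t) ^ m) 1 := by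
    rintro p ⟨m, rfl⟩
    exact hj m
  have a1 := hW _ (hj' _ w1)
  have a2 := hW _ (hj' _ w2)
  have a3 := hW _ (hj' _ ⟨2, rfl⟩)
  have a1' : (s ^ j) (t 1) = (s ^ (1 : ℤ)) (t 1) ∨ (s ^ j) (t 1) = ((s * t) ^ (2 : ℤ)) 1 := by
    rcases a1 with h | h | h | h
    · exact absurd h (inj j)
    · exact Or.inl h
    · exact Or.inr h
    · rw [zpow_zero] at h
      exact absurd (hfix h) hne
  rw [← D2b_add] at a2
  have a2' : (s ^ (j + 1)) (t 1) = (s ^ (0 : ℤ)) (t 1) ∨ (s ^ (j + 1)) (t 1) = ((s * t) ^ (2 : ℤ)) 1 := by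
    rcases a2 with h | h | h | h
    · exact absurd h (inj _)
    · exfalso
      have := D2b_eq hfix _ _ h
      rw [show j + 1 - 1 = j by ring] at this
      exact hne this
    · exact Or.inr h
    · exact Or.inl h
  rcases a1' with h1 | h1
  · -- `s ^ j = s`
    have e1 := D2b_eq hfix _ _ h1
    have e2 : s ^ j = s ^ (1 : ℤ) := by
      rw [show j = (j - 1) + 1 by ring, zpow_add, e1, one_mul]
    rcases a2' with h2 | h2
    · have e3 := D2b_eq hfix _ _ h2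
      rw [show j + 1 - 0 = j + 1 by ring, zpow_add, e2, ← zpow_add, show (1 : ℤ) + 1 = 2 by norm_num] at e3
      exact n2 e3
    · rw [zpow_add, e2, ← zpow_add, show (1 : ℤ) + 1 = 2 by norm_num] at h2
      rw [← h2, e2, ← D2b_add, show (1 : ℤ) + 2 = 3 by norm_num] at a3
      rcases a3 with h | h | h | h
      · exact inj 3 h
      · have := D2b_eq hfix 3 1 h
        exact n2 (by rw [show (3 : ℤ) - 1 = 2 by norm_num] at this; exact this)
      · have := D2b_eq hfix 3 2 h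
        exact n1 (by rw [show (3 : ℤ) - 2 = 1 by norm_num] at this; exact this)
      · exact n3 (hfix h)
  · rcases a2' with h2 | h2
    · -- `s ^ j = s⁻¹`
      have e3 := D2b_eq hfix _ _ h2
      rw [show j + 1 - 0 = j + 1 by ring] at e3
      have e2 : s ^ j = s ^ (-1 : ℤ) := by
        rw [show j = (j + 1) + (-1) by ring, zpow_add, e3, one_mul]
      rw [← h1, e2, ← D2b_add] at a3
      have hinv : ∀ i : ℤ, s ^ i = 1 → s ^ (-i) = 1 := by
        intro i hi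
        rw [zpow_neg, hi, inv_one]
      rcases a3 with h | h | h | h
      · exact inj _ h
      · have := hinv _ (D2b_eq hfix _ _ h)
        rw [show -(-1 + -1 - (1 : ℤ)) = 3 by norm_num] at this
        exact n3 this
      · have := hinv _ (D2b_eq hfix _ _ h)
        rw [show -(-1 + -1 - (-1 : ℤ)) = 1 by norm_num] at this
        exact n1 this
      · have := hinv _ (D2b_eq hfix _ _ h)
        rw [show -(-1 + -1 - (0 : ℤ)) = 2 by norm_num] at this
        exact n2 this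
    · have h3 := h1.trans h2.symm
      have := D2b_eq hfix _ _ h3.symm
      rw [show j + 1 - j = 1 by ring] at this
      exact n1 this

end ChiralQ
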