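import Pool.Agent.Lib.MP_bc704c_co.R.B10b

/-! # MP_bc704c_co, row D3: finite groups with two classes of elements -/

namespace ChiralQ

open Quaternion ChiralNF

/-- two classes of quaternions, even and odd -/
structure Par (E O : Set ℍ[ℝ]) : Prop where
  finE : E.Finite
  finO : O.Finite
  one : 1 ∈ E
  neg : -1 ∈ E
  ee : ∀ x ∈ E, ∀ y ∈ E, x * y ∈ E
  eo : ∀ x ∈ E, ∀ y ∈ O, x * y ∈ O
  oe : ∀ x ∈ O, ∀ y ∈ E, x * y ∈ O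
  oo : ∀ x ∈ O, ∀ y ∈ O, x * y ∈ E
  stE : ∀ x ∈ E, star x ∈ E
  stO : ∀ x ∈ O, star x ∈ O

variable {s t : ℍ[ℝ] ≃ₗᵢ[ℝ] ℍ[ℝ]} {c d : ℝ} {a b : ℍ[ℝ]} {E O : Set ℍ[ℝ]}

theorem D3_ns_inv (x : ℍ[ℝ]ˣ) (h : normSq (x : ℍ[ℝ]) = 1) :
    normSq ((x⁻¹ : ℍ[ℝ]ˣ) : ℍ[ℝ]) = 1 := by
  have h1 : normSq ((x * x⁻¹ : ℍ[ℝ]ˣ) : ℍ[ℝ]) = 1 := by
    rw [mul_inv_cancel, Units.val_one, map_one]
  rw [Units.val_mul, map_mul, h, one_mul] at h1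
  exact h1

theorem D3_inv (x : ℍ[ℝ]ˣ) (h : normSq (x : ℍ[ℝ]) = 1) :
    ((x⁻¹ : ℍ[ℝ]ˣ) : ℍ[ℝ]) = star (x : ℍ[ℝ]) := by
  have h1 : (x : ℍ[ℝ]) * star (x : ℍ[ℝ]) = 1 := by
    rw [Quaternion.self_mul_star, h]
    simp
  calc ((x⁻¹ : ℍ[ℝ]ˣ) : ℍ[ℝ]) = ((x⁻¹ : ℍ[ℝ]ˣ) : ℍ[ℝ]) * ((x : ℍ[ℝ]) * star (x : ℍ[ℝ])) := by
        rw [h1, mul_one]
    _ = star (x : ℍ[ℝ]) := by
        rw [← mul_assoc, Units.inv_mul, one_mul]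

/-- Row D3. Closure induction over `HH l A B`. The inverse of a unit quaternion `x` (`normSq x = 1`) is `star x`;
the norms by `HH_real` or in the same induction. -/
theorem HH_par (P : Par E O) {l A B : ℍ[ℝ]ˣ} (nl : normSq (l : ℍ[ℝ]) = 1)
    (nA : normSq (A : ℍ[ℝ]) = 1) (nB : normSq (B : ℍ[ℝ]) = 1) (lO : (l : ℍ[ℝ]) ∈ O)
    (AO : (A : ℍ[ℝ]) ∈ O) (BO : (B : ℍ[ℝ]) ∈ O) {x y : ℍ[ℝ]ˣ} (h : (x, y) ∈ HH l A B) :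
    ((x : ℍ[ℝ]) ∈ E ∧ (y : ℍ[ℝ]) ∈ E) ∨ ((x : ℍ[ℝ]) ∈ O ∧ (y : ℍ[ℝ]) ∈ O) := by
  have main : ∀ p ∈ HH l A B, normSq (p.1 : ℍ[ℝ]) = 1 ∧ normSq (p.2 : ℍ[ℝ]) = 1 ∧
      (((p.1 : ℍ[ℝ]) ∈ E ∧ (p.2 : ℍ[ℝ]) ∈ E) ∨ ((p.1 : ℍ[ℝ]) ∈ O ∧ (p.2 : ℍ[ℝ]) ∈ O)) := by
    intro p hp
    induction hp using Subgroup.closure_induction with
    | mem p hp =>
      rcases hp with rfl | rfl | rfl | rfl
      · exact ⟨nl, nl, Or.inr ⟨lO, lO⟩⟩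
      · exact ⟨nA, nB, Or.inr ⟨AO, BO⟩⟩
      · refine ⟨nB, ?_, Or.inr ⟨BO, ?_⟩⟩
        · change normSq ((l * A * l⁻¹ : ℍ[ℝ]ˣ) : ℍ[ℝ]) = 1
          rw [Units.val_mul, Units.val_mul, map_mul, map_mul, nl, nA, D3_ns_inv l nl]
          norm_num
        · change ((l * A * l⁻¹ : ℍ[ℝ]ˣ) : ℍ[ℝ]) ∈ O
          rw [Units.val_mul, Units.val_mul, D3_inv l nl]
          exact P.eo _ (P.oo _ lO _ AO) _ (P.stO _ lO)
      · refine ⟨by simp, by simp, Or.inl ⟨?_, ?_⟩⟩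
        · simpa using P.neg
        · simpa using P.neg
    | one =>
      refine ⟨by simp, by simp, Or.inl ⟨?_, ?_⟩⟩
      · simpa using P.one
      · simpa using P.one
    | mul p q hp hq ihp ihq =>
      obtain ⟨n1, n2, hpp⟩ := ihp
      obtain ⟨m1, m2, hqq⟩ := ihq
      refine ⟨?_, ?_, ?_⟩
      · rw [Prod.fst_mul, Units.val_mul, map_mul, n1, m1, one_mul]
      · rw [Prod.snd_mul, Units.val_mul, map_mul, n2, m2, one_mul]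
      · rw [Prod.fst_mul, Units.val_mul, Prod.snd_mul, Units.val_mul]
        rcases hpp with ⟨h1, h2⟩ | ⟨h1, h2⟩ <;> rcases hqq with ⟨h3, h4⟩ | ⟨h3, h4⟩
        · exact Or.inl ⟨P.ee _ h1 _ h3, P.ee _ h2 _ h4⟩
        · exact Or.inr ⟨P.eo _ h1 _ h3, P.eo _ h2 _ h4⟩
        · exact Or.inr ⟨P.oe _ h1 _ h3, P.oe _ h2 _ h4⟩
        · exact Or.inl ⟨P.oo _ h1 _ h3, P.oo _ h2 _ h4⟩
    | inv p hp ih =>
      obtain ⟨n1, n2, hpp⟩ := ih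
      refine ⟨?_, ?_, ?_⟩
      · rw [Prod.fst_inv]
        exact D3_ns_inv _ n1
      · rw [Prod.snd_inv]
        exact D3_ns_inv _ n2
      · rw [Prod.fst_inv, Prod.snd_inv, D3_inv _ n1, D3_inv _ n2]
        rcases hpp with ⟨h1, h2⟩ | ⟨h1, h2⟩
        · exact Or.inl ⟨P.stE _ h1, P.stE _ h2⟩
        · exact Or.inr ⟨P.stO _ h1, P.stO _ h2⟩
  exact (main (x, y) h).2.2

/-- the map of a pair -/
noncomputable def D3_e (k : ℍ[ℝ]ˣ) (p : ℍ[ℝ]ˣ × ℍ[ℝ]ˣ) (v : ℍ[ℝ]) : ℍ[ℝ] :=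
  tF p.1 ((k⁻¹ * p.2 * k : ℍ[ℝ]ˣ) : ℍ[ℝ]) v

theorem D3_e_mul (k : ℍ[ℝ]ˣ) (p q : ℍ[ℝ]ˣ × ℍ[ℝ]ˣ) (v : ℍ[ℝ]) :
    D3_e k p (D3_e k q v) = D3_e k (p * q) v := by
  have e1 : k⁻¹ * (p * q).2 * k = (k⁻¹ * p.2 * k) * (k⁻¹ * q.2 * k) := by
    simp [mul_assoc]
  unfold D3_e
  rw [e1]
  generalize k⁻¹ * p.2 * k = Y
  generalize k⁻¹ * q.2 * k = Z
  simp only [tF, Prod.fst_mul, Units.val_mul, star_mul, mul_assoc]

theorem D3_e_one (k : ℍ[ℝ]ˣ) (v : ℍ[ℝ]) : D3_e k 1 v = v := by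
  have e1 : k⁻¹ * (1 : ℍ[ℝ]ˣ × ℍ[ℝ]ˣ).2 * k = 1 := by simp
  unfold D3_e
  rw [e1, tF]
  simp

/-- `s e (x, y) = e (y, l x l⁻¹) s` -/
theorem D3_s {s : ℍ[ℝ] ≃ₗᵢ[ℝ] ℍ[ℝ]} {k l : ℍ[ℝ]ˣ}
    (hk : normSq (k : ℍ[ℝ]) = 1) (hkk : k * k = -l)
    (hs : ∀ v, s v = (k : ℍ[ℝ]) * star v * star (k : ℍ[ℝ]))
    (x y : ℍ[ℝ]ˣ) (v : ℍ[ℝ]) :
    s (D3_e k (x, y) v) = D3_e k (y, l * x * l⁻¹) (s v) := by
  have hlk : l = -(k * k) := by rw [hkk, neg_neg]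
  have hk' : ((k⁻¹ : ℍ[ℝ]ˣ) : ℍ[ℝ]) = star (k : ℍ[ℝ]) := D3_inv k hk
  have hks : (k : ℍ[ℝ]) * star (k : ℍ[ℝ]) = 1 := by rw [← hk', Units.mul_inv]
  have hsk : star (k : ℍ[ℝ]) * (k : ℍ[ℝ]) = 1 := by rw [← hk', Units.inv_mul]
  have e1 : k⁻¹ * (l * x * l⁻¹) * k = k * x * k⁻¹ := by
    rw [hlk]
    simp [mul_assoc]
  unfold D3_e
  rw [hs, hs]
  simp only
  rw [e1, tF, tF, Units.val_mul, Units.val_mul, Units.val_mul, Units.val_mul, hk']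
  simp only [star_mul, star_star]
  calc (k : ℍ[ℝ]) * ((star (k : ℍ[ℝ]) * (y : ℍ[ℝ]) * (k : ℍ[ℝ])) * (star v * star (x : ℍ[ℝ]))) *
        star (k : ℍ[ℝ])
      = ((k : ℍ[ℝ]) * star (k : ℍ[ℝ])) * (y : ℍ[ℝ]) * (k : ℍ[ℝ]) * star v * 1 * star (x : ℍ[ℝ]) *
        star (k : ℍ[ℝ]) := by simp only [mul_assoc, mul_one]
    _ = ((k : ℍ[ℝ]) * star (k : ℍ[ℝ])) * (y : ℍ[ℝ]) * (k : ℍ[ℝ]) * star v *
        (star (k : ℍ[ℝ]) * (k : ℍ[ℝ])) * star (x : ℍ[ℝ]) * star (k : ℍ[ℝ]) := by rw [hsk]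
    _ = _ := by rw [hks, one_mul]; simp only [mul_assoc]


/-- Row D3. Closure induction over `GG s t`. Write `e (x, y)` for the map `v ↦ x v (k⁻¹ y k)‾`. It is
multiplicative in `(x, y)`. `t = e (A, B)`, `s² = e (l, l)` (`s v = k v̄ k̄`, `k² = -l`), and
`s e (x, y) s⁻¹ = e (y, l x l⁻¹)`: `s (x (k̄ v̄ k) (k⁻¹ y k)‾)`, i.e. `k (k⁻¹ y k) (k⁻¹ v k) x̄ k̄`, and
`k x k⁻¹ = k⁻¹ (l x l⁻¹) k` because `k² = -l` and `k` commutes with `l`. The set of the pairs is invariant under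
`(x, y) ↦ (y, l x l⁻¹)` (`HH_pr`) and its inverse `(x, y) ↦ (l⁻¹ y l, x)` (conjugate first with `(l, l)⁻¹`). So the
elements `e (x, y)` and `s e (x, y)` form a group which contains `s` and `t`. -/
theorem GG_HH (H : Std s t (-1) c d a b) {k l A B : ℍ[ℝ]ˣ} (hl : (l : ℍ[ℝ]) = ⟨c, d, 0, 0⟩)
    (hk : normSq (k : ℍ[ℝ]) = 1) (hkJ : (k : ℍ[ℝ]).imJ = 0) (hkK : (k : ℍ[ℝ]).imK = 0)
    (hkk : k * k = -l) (hs : ∀ v, s v = (k : ℍ[ℝ]) * star v * star (k : ℍ[ℝ]))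
    (hA : (A : ℍ[ℝ]) = a) (hB : (B : ℍ[ℝ]) = k * b * star (k : ℍ[ℝ])) {g : ℍ[ℝ] ≃ₗᵢ[ℝ] ℍ[ℝ]}
    (hg : g ∈ GG s t) : ∃ x y : ℍ[ℝ]ˣ, (x, y) ∈ HH l A B ∧
      ((∀ v, g v = tF x ((k⁻¹ * y * k : ℍ[ℝ]ˣ) : ℍ[ℝ]) v) ∨
        (∀ v, g v = s (tF x ((k⁻¹ * y * k : ℍ[ℝ]ˣ) : ℍ[ℝ]) v))) := by
  have hlk : l = -(k * k) := by rw [hkk, neg_neg]
  have hk' : ((k⁻¹ : ℍ[ℝ]ˣ) : ℍ[ℝ]) = star (k : ℍ[ℝ]) := D3_inv k hk
  have hks : (k : ℍ[ℝ]) * star (k : ℍ[ℝ]) = 1 := by rw [← hk', Units.mul_inv]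
  have hsk : star (k : ℍ[ℝ]) * (k : ℍ[ℝ]) = 1 := by rw [← hk', Units.inv_mul]
  have haa : a * a = -1 := by
    obtain ⟨h0, h1⟩ := H.ha
    ext <;> simp [h0] <;> nlinarith
  have hbb : b * b = -1 := by
    obtain ⟨h0, h1⟩ := H.hb
    ext <;> simp [h0] <;> nlinarith
  have hAA : A * A = -1 := by
    apply Units.ext
    rw [Units.val_mul, hA, haa]
    simp
  have hBB : B * B = -1 := by
    apply Units.ext
    rw [Units.val_mul, hB]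
    calc (k : ℍ[ℝ]) * b * star (k : ℍ[ℝ]) * ((k : ℍ[ℝ]) * b * star (k : ℍ[ℝ]))
        = (k : ℍ[ℝ]) * b * (star (k : ℍ[ℝ]) * (k : ℍ[ℝ])) * b * star (k : ℍ[ℝ]) := by
          simp only [mul_assoc]
      _ = (k : ℍ[ℝ]) * (b * b) * star (k : ℍ[ℝ]) := by rw [hsk, mul_one]; simp only [mul_assoc]
      _ = ((-1 : ℍ[ℝ]ˣ) : ℍ[ℝ]) := by rw [hbb, mul_neg, mul_one, neg_mul, hks]; simp
  have P : Pr (HH l A B) l A B (-1) := HH_pr hAA hBB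
  -- the inverse of the twist
  have tw : ∀ p ∈ HH l A B, (l⁻¹ * p.2 * l, p.1) ∈ HH l A B := by
    rintro ⟨x, y⟩ hp
    have h1 : (l, l)⁻¹ * (x, y) * (l, l) ∈ HH l A B :=
      Subgroup.mul_mem _ (Subgroup.mul_mem _ (Subgroup.inv_mem _ P.ll) hp) P.ll
    have h2 := P.sw _ _ h1
    have e : l * (l⁻¹ * x * l) * l⁻¹ = x := by simp [mul_assoc]
    change (l⁻¹ * y * l, l * (l⁻¹ * x * l) * l⁻¹) ∈ HH l A B at h2
    rw [e] at h2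
    exact h2
  have es : ∀ p ∈ HH l A B, ∀ v, D3_e k p (s v) = s (D3_e k (l⁻¹ * p.2 * l, p.1) v) := by
    rintro ⟨x, y⟩ hp v
    rw [D3_s hk hkk hs]
    have e : l * (l⁻¹ * y * l) * l⁻¹ = y := by simp [mul_assoc]
    simp only
    rw [e]
  have ss : ∀ v, s (s v) = D3_e k (l, l) v := by
    intro v
    have e1 : k⁻¹ * l * k = l := by
      rw [hlk]
      simp
    unfold D3_e
    simp only
    rw [e1, hs, hs, tF, hlk]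
    simp [mul_assoc]
  have main : ∀ g ∈ GG s t, ∃ p ∈ HH l A B, (∀ v, g v = D3_e k p v) ∨
      (∀ v, g v = s (D3_e k p v)) := by
    intro g hg
    induction hg using Subgroup.closure_induction with
    | mem g hg =>
      rcases hg with rfl | rfl
      · exact ⟨1, Subgroup.one_mem _, Or.inr fun v => by rw [D3_e_one]⟩
      · refine ⟨(A, B), P.ab, Or.inl fun v => ?_⟩
        have e1 : ((k⁻¹ * B * k : ℍ[ℝ]ˣ) : ℍ[ℝ]) = b := by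
          rw [Units.val_mul, Units.val_mul, hB, hk']
          calc star (k : ℍ[ℝ]) * (k * b * star (k : ℍ[ℝ])) * k
              = (star (k : ℍ[ℝ]) * k) * b * (star (k : ℍ[ℝ]) * k) := by
                simp only [mul_assoc]
            _ = b := by rw [hsk, one_mul, mul_one]
        unfold D3_e
        simp only
        rw [e1, H.ht, hA]
    | one => exact ⟨1, Subgroup.one_mem _, Or.inl fun v => by rw [D3_e_one]; rfl⟩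
    | mul g g' hg hg' ih ih' =>
      obtain ⟨p, hp, h1⟩ := ih
      obtain ⟨q, hq, h2⟩ := ih'
      rcases h1 with h1 | h1 <;> rcases h2 with h2 | h2
      · refine ⟨p * q, Subgroup.mul_mem _ hp hq, Or.inl fun v => ?_⟩
        change g (g' v) = _
        rw [h1, h2, D3_e_mul]
      · refine ⟨_, Subgroup.mul_mem _ (tw p hp) hq, Or.inr fun v => ?_⟩
        change g (g' v) = _
        rw [h1, h2, es p hp, D3_e_mul]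
      · refine ⟨p * q, Subgroup.mul_mem _ hp hq, Or.inr fun v => ?_⟩
        change g (g' v) = _
        rw [h1, h2, D3_e_mul]
      · refine ⟨_, Subgroup.mul_mem _ P.ll (Subgroup.mul_mem _ (tw p hp) hq), Or.inl fun v => ?_⟩
        change g (g' v) = _
        rw [h1, h2, es p hp, ss, D3_e_mul, D3_e_mul, mul_assoc]
    | inv g hg ih =>
      obtain ⟨p, hp, h1⟩ := ih
      rcases h1 with h1 | h1
      · refine ⟨p⁻¹, Subgroup.inv_mem _ hp, Or.inl fun v => ?_⟩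
        apply g.injective
        have e3 : g (g⁻¹ v) = v := g.apply_symm_apply v
        rw [e3, h1, D3_e_mul, mul_inv_cancel, D3_e_one]
      · refine ⟨_, Subgroup.mul_mem _ (tw _ (Subgroup.inv_mem _ hp)) (Subgroup.inv_mem _ P.ll),
          Or.inr fun v => ?_⟩
        apply g.injective
        have e3 : g (g⁻¹ v) = v := g.apply_symm_apply v
        rw [e3, h1, ← D3_e_mul, ← es _ (Subgroup.inv_mem _ hp), D3_e_mul, mul_inv_cancel,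
          D3_e_one, ss, D3_e_mul, mul_inv_cancel, D3_e_one]
  obtain ⟨⟨x, y⟩, hp, h⟩ := main g hg
  exact ⟨x, y, hp, h⟩

end ChiralQ
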