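import Pool.Agent.Lib.MP_bc704c_co.R.D3

/-! # MP_bc704c_co, row D3b: finite groups with two classes of elements -/

namespace ChiralQ

open Quaternion ChiralNF

variable {s t : ℍ[ℝ] ≃ₗᵢ[ℝ] ℍ[ℝ]} {c d : ℝ} {a b : ℍ[ℝ]} {E O : Set ℍ[ℝ]}

theorem D3b_inv (x : ℍ[ℝ]ˣ) (h : normSq (x : ℍ[ℝ]) = 1) :
    ((x⁻¹ : ℍ[ℝ]ˣ) : ℍ[ℝ]) = star (x : ℍ[ℝ]) := by
  have h1 : (x : ℍ[ℝ]) * star (x : ℍ[ℝ]) = 1 := by
    rw [Quaternion.self_mul_star, h]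
    simp
  calc ((x⁻¹ : ℍ[ℝ]ˣ) : ℍ[ℝ]) = ((x⁻¹ : ℍ[ℝ]ˣ) : ℍ[ℝ]) * ((x : ℍ[ℝ]) * star (x : ℍ[ℝ])) := by
        rw [h1, mul_one]
    _ = star (x : ℍ[ℝ]) := by
        rw [← mul_assoc, Units.inv_mul, one_mul]

/-- the common part -/
theorem D3b_key (H : Std s t (-1) c d a b) (P : Par E O) (lO : (⟨c, d, 0, 0⟩ : ℍ[ℝ]) ∈ O)
    (AO : a ∈ O)
    (BO : (⟨0, b.imI, -(c * b.imJ - d * b.imK), -(d * b.imJ + c * b.imK)⟩ : ℍ[ℝ]) ∈ O) :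
    ∃ k l : ℍ[ℝ]ˣ, (l : ℍ[ℝ]) = ⟨c, d, 0, 0⟩ ∧ normSq (k : ℍ[ℝ]) = 1 ∧ k * k = -l ∧
      (∀ v, s v = (k : ℍ[ℝ]) * star v * star (k : ℍ[ℝ])) ∧
      ∀ g ∈ GG s t, ∃ x y : ℍ[ℝ]ˣ, normSq (x : ℍ[ℝ]) = 1 ∧ normSq (y : ℍ[ℝ]) = 1 ∧
        (((x : ℍ[ℝ]) ∈ E ∧ (y : ℍ[ℝ]) ∈ E) ∨ ((x : ℍ[ℝ]) ∈ O ∧ (y : ℍ[ℝ]) ∈ O)) ∧
        ((∀ v, g v = tF x ((k⁻¹ * y * k : ℍ[ℝ]ˣ) : ℍ[ℝ]) v) ∨
          (∀ v, g v = s (tF x ((k⁻¹ * y * k : ℍ[ℝ]ˣ) : ℍ[ℝ]) v))) := by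
  obtain ⟨k, l, hl, hk, hkJ, hkK, hkk, hs⟩ := exists_k H
  refine ⟨k, l, hl, hk, hkk, hs, fun g hg => ?_⟩
  have hna : normSq a = 1 := H.ha.normSq
  have hnb : normSq b = 1 := H.hb.normSq
  have ha0 : a ≠ 0 := by
    rintro rfl
    simp at hna
  have hb0 : b ≠ 0 := by
    rintro rfl
    simp at hnb
  obtain ⟨A, hA⟩ : ∃ A : ℍ[ℝ]ˣ, (A : ℍ[ℝ]) = a := ⟨Units.mk0 a ha0, rfl⟩
  obtain ⟨b', hb'⟩ : ∃ B : ℍ[ℝ]ˣ, (B : ℍ[ℝ]) = b := ⟨Units.mk0 b hb0, rfl⟩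
  have hkinv := D3b_inv k hk
  obtain ⟨B, hB⟩ : ∃ B : ℍ[ℝ]ˣ, (B : ℍ[ℝ]) = k * b * star (k : ℍ[ℝ]) :=
    ⟨k * b' * k⁻¹, by rw [Units.val_mul, Units.val_mul, hb', hkinv]⟩
  have hnA : normSq (A : ℍ[ℝ]) = 1 := by rw [hA]; exact hna
  have hnB : normSq (B : ℍ[ℝ]) = 1 := by
    rw [hB, map_mul, map_mul, hnb, hk, Quaternion.normSq_star, hk]
    norm_num
  have hnl : normSq (l : ℍ[ℝ]) = 1 := by
    rw [hl, Quaternion.normSq_def']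
    have := H.hcd
    simp only
    linarith
  have hBO : (B : ℍ[ℝ]) ∈ O := by
    have hkk' : (k : ℍ[ℝ]) * k = -⟨c, d, 0, 0⟩ := by
      rw [← hl, ← Units.val_mul, hkk, Units.val_neg]
    have e1 := congrArg QuaternionAlgebra.re hkk'
    have e2 := congrArg QuaternionAlgebra.imI hkk'
    simp only [Quaternion.re_mul, Quaternion.imI_mul, Quaternion.re_neg, Quaternion.imI_neg, hkJ, hkK] at e1 e2
    rw [Quaternion.normSq_def', hkJ, hkK] at hk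
    have hb0 : b.re = 0 := H.hb.1
    have e : (B : ℍ[ℝ]) =
        ⟨0, b.imI, -(c * b.imJ - d * b.imK), -(d * b.imJ + c * b.imK)⟩ := by
      rw [hB]
      have e3 : (k : ℍ[ℝ]).re * (k : ℍ[ℝ]).re = -c + (k : ℍ[ℝ]).imI * (k : ℍ[ℝ]).imI := by
        linarith
      have e4 : (k : ℍ[ℝ]).re * (k : ℍ[ℝ]).imI * 2 = -d := by linarith
      ext
      · simp only [Quaternion.re_mul, Quaternion.imI_mul, Quaternion.imJ_mul, Quaternion.imK_mul,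
          Quaternion.re_star, Quaternion.imI_star, Quaternion.imJ_star, Quaternion.imK_star, hkJ, hkK, hb0]
        ring
      · simp only [Quaternion.re_mul, Quaternion.imI_mul, Quaternion.imJ_mul, Quaternion.imK_mul,
          Quaternion.re_star, Quaternion.imI_star, Quaternion.imJ_star, Quaternion.imK_star, hkJ, hkK, hb0]
        linear_combination b.imI * hk
      · simp only [Quaternion.re_mul, Quaternion.imI_mul, Quaternion.imJ_mul, Quaternion.imK_mul,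
          Quaternion.re_star, Quaternion.imI_star, Quaternion.imJ_star, Quaternion.imK_star, hkJ, hkK, hb0]
        linear_combination b.imJ * e3 - b.imK * e4
      · simp only [Quaternion.re_mul, Quaternion.imI_mul, Quaternion.imJ_mul, Quaternion.imK_mul,
          Quaternion.re_star, Quaternion.imI_star, Quaternion.imJ_star, Quaternion.imK_star, hkJ, hkK, hb0]
        linear_combination b.imK * e3 + b.imJ * e4
    rw [e]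
    exact BO
  obtain ⟨x, y, hxy, hg'⟩ := GG_HH H hl hk hkJ hkK hkk hs hA hB hg
  obtain ⟨nx, ny, -⟩ := HH_real H hl hk hkJ hkK hkk hs hA hB hxy
  refine ⟨x, y, nx, ny, ?_, hg'⟩
  exact HH_par P hnl hnA hnB (by rw [hl]; exact lO) (by rw [hA]; exact AO) hBO hxy

/-- Row D3b. By `exists_k`, `GG_HH`, `HH_par` (`A = a`, `B = k b k̄` as units, `B = β i - (c + d i) w` in
coordinates, `k² = -l`) every `g ∈ GG s t` is, as a function, `v ↦ x v (k⁻¹ y k)‾` or `s` of it with `x, y` in the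
finite set `E ∪ O`. So the set of the functions `g` is finite, and `g ↦ (g : ℍ[ℝ] → ℍ[ℝ])` is injective. -/
theorem par_fin (H : Std s t (-1) c d a b) (P : Par E O) (lO : (⟨c, d, 0, 0⟩ : ℍ[ℝ]) ∈ O)
    (AO : a ∈ O)
    (BO : (⟨0, b.imI, -(c * b.imJ - d * b.imK), -(d * b.imJ + c * b.imK)⟩ : ℍ[ℝ]) ∈ O) :
    Finite (GG s t) := by
  obtain ⟨k, l, hl, hk, hkk, hs, key⟩ := D3b_key H P lO AO BO
  have hkinv := D3b_inv k hk
  have hfin : (E ∪ O).Finite := P.finE.union P.finO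
  let F1 : ℍ[ℝ] × ℍ[ℝ] → (ℍ[ℝ] → ℍ[ℝ]) := fun p v => tF p.1 (star (k : ℍ[ℝ]) * p.2 * k) v
  let F2 : ℍ[ℝ] × ℍ[ℝ] → (ℍ[ℝ] → ℍ[ℝ]) := fun p v => s (tF p.1 (star (k : ℍ[ℝ]) * p.2 * k) v)
  have hF : (F1 '' ((E ∪ O) ×ˢ (E ∪ O)) ∪ F2 '' ((E ∪ O) ×ˢ (E ∪ O))).Finite :=
    ((hfin.prod hfin).image F1).union ((hfin.prod hfin).image F2)
  have hpre : ((fun g : ℍ[ℝ] ≃ₗᵢ[ℝ] ℍ[ℝ] => (g : ℍ[ℝ] → ℍ[ℝ])) ⁻¹'
      (F1 '' ((E ∪ O) ×ˢ (E ∪ O)) ∪ F2 '' ((E ∪ O) ×ˢ (E ∪ O)))).Finite :=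
    hF.preimage (fun g _ g' _ h => DFunLike.coe_injective h)
  have hsub : ((GG s t : Subgroup (ℍ[ℝ] ≃ₗᵢ[ℝ] ℍ[ℝ])) : Set (ℍ[ℝ] ≃ₗᵢ[ℝ] ℍ[ℝ])) ⊆
      ((fun g : ℍ[ℝ] ≃ₗᵢ[ℝ] ℍ[ℝ] => (g : ℍ[ℝ] → ℍ[ℝ])) ⁻¹'
      (F1 '' ((E ∪ O) ×ˢ (E ∪ O)) ∪ F2 '' ((E ∪ O) ×ˢ (E ∪ O)))) := by
    intro g hg
    obtain ⟨x, y, nx, ny, hxy, hg'⟩ := key g hg
    have hx : (x : ℍ[ℝ]) ∈ E ∪ O := by
      rcases hxy with h | h
      · exact Or.inl h.1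
      · exact Or.inr h.1
    have hy : (y : ℍ[ℝ]) ∈ E ∪ O := by
      rcases hxy with h | h
      · exact Or.inl h.2
      · exact Or.inr h.2
    have e : ((k⁻¹ * y * k : ℍ[ℝ]ˣ) : ℍ[ℝ]) = star (k : ℍ[ℝ]) * y * k := by
      rw [Units.val_mul, Units.val_mul, hkinv]
    rw [e] at hg'
    rcases hg' with h | h
    · exact Or.inl ⟨(x, y), ⟨hx, hy⟩, funext fun v => (h v).symm⟩
    · exact Or.inr ⟨(x, y), ⟨hx, hy⟩, funext fun v => (h v).symm⟩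
  exact (hpre.subset hsub).to_subtype

/-- Row D3b. Let `g 1 = 1`. In the second case of `GG_HH` also the element without `s` fixes `1`
(`s⁻¹ 1 = 1`), so consider `v ↦ x v (k⁻¹ y k)‾`, fixing `1`: `x = k⁻¹ y k`, so `y k = k x`. As
`1 - l = 1 + k² = k (k̄ + k) = 2 Re(k) k` also `y (1 - l) = (1 - l) x`. By `hx` `x = ± l ^ j`, `l` commutes with `k`,
`y = x`, `k⁻¹ y k = x`, the map is `v ↦ l ^ j v (l ^ j)‾ = s ^ (2 j)` (`s² v = l v l̄`). -/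
theorem par_stab (H : Std s t (-1) c d a b) (P : Par E O) (lO : (⟨c, d, 0, 0⟩ : ℍ[ℝ]) ∈ O)
    (AO : a ∈ O)
    (BO : (⟨0, b.imI, -(c * b.imJ - d * b.imK), -(d * b.imJ + c * b.imK)⟩ : ℍ[ℝ]) ∈ O)
    (hx : ∀ x y : ℍ[ℝ], ((x ∈ E ∧ y ∈ E) ∨ (x ∈ O ∧ y ∈ O)) → normSq x = 1 →
      y * (1 - ⟨c, d, 0, 0⟩) = (1 - ⟨c, d, 0, 0⟩) * x →
      ∃ j : ℕ, x = (⟨c, d, 0, 0⟩ : ℍ[ℝ]) ^ j ∨ x = -(⟨c, d, 0, 0⟩ : ℍ[ℝ]) ^ j) :
    ∀ g ∈ GG s t, g 1 = 1 → g ∈ Subgroup.zpowers s := by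
  obtain ⟨k, l, hl, hk, hkk, hs, key⟩ := D3b_key H P lO AO BO
  have hkinv := D3b_inv k hk
  have hs1 : s 1 = 1 := by
    rw [hs, star_one, mul_one, Quaternion.self_mul_star, hk]
    simp
  have hlk : l = -(k * k) := by rw [hkk, neg_neg]
  -- powers of `s ^ 2`
  have hpow : ∀ j : ℕ, ∀ v, ((s ^ 2) ^ j) v = (l : ℍ[ℝ]) ^ j * v * star ((l : ℍ[ℝ]) ^ j) := by
    intro j
    induction j with
    | zero =>
      intro v
      rw [pow_zero, pow_zero, star_one, mul_one, one_mul]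
      rfl
    | succ n ih =>
      intro v
      have e0 : ((s ^ 2) ^ (n + 1)) v = ((s ^ 2) ^ n) (s (s v)) := by
        rw [pow_succ, sq s]
        rfl
      rw [e0, ih, hs, hs, pow_succ, hlk]
      simp only [star_mul, star_star, mul_assoc, Units.val_neg, Units.val_mul, star_neg, neg_mul, mul_neg,
        neg_neg]
  have main : ∀ x y : ℍ[ℝ]ˣ, normSq (x : ℍ[ℝ]) = 1 → normSq (y : ℍ[ℝ]) = 1 →
      (((x : ℍ[ℝ]) ∈ E ∧ (y : ℍ[ℝ]) ∈ E) ∨ ((x : ℍ[ℝ]) ∈ O ∧ (y : ℍ[ℝ]) ∈ O)) →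
      tF x ((k⁻¹ * y * k : ℍ[ℝ]ˣ) : ℍ[ℝ]) 1 = 1 →
      ∃ j : ℕ, ∀ v, tF x ((k⁻¹ * y * k : ℍ[ℝ]ˣ) : ℍ[ℝ]) v = ((s ^ 2) ^ j) v := by
    intro x y nx ny hxy h1
    have nk' : normSq ((k⁻¹ : ℍ[ℝ]ˣ) : ℍ[ℝ]) = 1 := by
      rw [hkinv, Quaternion.normSq_star, hk]
    have nq : normSq ((k⁻¹ * y * k : ℍ[ℝ]ˣ) : ℍ[ℝ]) = 1 := by
      rw [Units.val_mul, Units.val_mul, map_mul, map_mul, nk', ny, hk]
      norm_num
    have h2 : x * (k⁻¹ * y * k)⁻¹ = 1 := by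
      apply Units.ext
      rw [Units.val_mul, D3b_inv _ nq, Units.val_one]
      rw [tF, mul_one] at h1
      exact h1
    have h3 : x = k⁻¹ * y * k := mul_inv_eq_one.1 h2
    have h4 : k * x = y * k := by rw [h3]; simp [mul_assoc]
    have h5 : (y : ℍ[ℝ]) * (1 - (l : ℍ[ℝ])) = (1 - (l : ℍ[ℝ])) * x := by
      have h4' : (k : ℍ[ℝ]) * x = y * k := by
        rw [← Units.val_mul, h4, Units.val_mul]
      have e1 : (1 : ℍ[ℝ]) - l = ((2 * (k : ℍ[ℝ]).re : ℝ) : ℍ[ℝ]) * k := by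
        have e2 : (k : ℍ[ℝ]) + star (k : ℍ[ℝ]) = ((2 * (k : ℍ[ℝ]).re : ℝ) : ℍ[ℝ]) :=
          Quaternion.self_add_star' _
        have e3 : star (k : ℍ[ℝ]) * k = 1 := by
          rw [Quaternion.star_mul_self, hk]
          simp
        rw [← e2, add_mul, e3, hlk, Units.val_neg, Units.val_mul]
        abel
      rw [e1, ← mul_assoc, ← Quaternion.coe_commutes, mul_assoc, ← h4', mul_assoc]
    obtain ⟨j, hj⟩ := hx x y hxy nx (by rw [← hl]; exact h5)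
    have hkl : Commute (k : ℍ[ℝ]) (l : ℍ[ℝ]) := by
      rw [hlk, Units.val_neg, Units.val_mul]
      exact ((Commute.refl (k : ℍ[ℝ])).mul_right (Commute.refl _)).neg_right
    have hkx : Commute (k : ℍ[ℝ]) (x : ℍ[ℝ]) := by
      rcases hj with hj | hj
      · rw [hj, ← hl]
        exact hkl.pow_right j
      · rw [hj, ← hl]
        exact (hkl.pow_right j).neg_right
    have hxy' : x = y := by
      have h6 : x * k = y * k := by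
        rw [← h4]
        exact Units.ext (by rw [Units.val_mul, Units.val_mul]; exact hkx.eq.symm)
      exact mul_right_cancel h6
    refine ⟨j, fun v => ?_⟩
    rw [← h3, hpow, tF]
    rcases hj with hj | hj
    · rw [hj, ← hl]
      rfl
    · have hj' : (x : ℍ[ℝ]) = -((l : ℍ[ℝ]) ^ j) := by
        rw [hj, ← hl]
        rfl
      rw [hj', star_neg, neg_mul, neg_mul, mul_neg, neg_neg]
  intro g hg hg1
  obtain ⟨x, y, nx, ny, hxy, hg'⟩ := key g hg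
  rcases hg' with h | h
  · obtain ⟨j, hj⟩ := main x y nx ny hxy (by rw [← h]; exact hg1)
    have e : g = (s ^ 2) ^ j := by
      apply LinearIsometryEquiv.ext
      intro v
      rw [h, hj]
    rw [e, ← pow_mul]
    exact Subgroup.npow_mem_zpowers s _
  · obtain ⟨j, hj⟩ := main x y nx ny hxy (by
      apply s.injective
      rw [← h, hg1, hs1])
    have e : g = s * (s ^ 2) ^ j := by
      apply LinearIsometryEquiv.ext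
      intro v
      rw [h, hj]
      rfl
    rw [e, ← pow_mul, ← pow_succ']
    exact Subgroup.npow_mem_zpowers s _

end ChiralQ
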