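import Pool.Agent.Lib.MP_bc704c_co.R.D3

/-! # MP_bc704c_co, row D4: the binary octahedral group -/

namespace ChiralQ

open Quaternion ChiralNF

/-- integral quaternions -/
structure Z4 where
  a : ℤ
  b : ℤ
  c : ℤ
  d : ℤ
deriving DecidableEq

/-- product -/
def z4m (x y : Z4) : Z4 where
  a := x.a * y.a - x.b * y.b - x.c * y.c - x.d * y.d
  b := x.a * y.b + x.b * y.a + x.c * y.d - x.d * y.c
  c := x.a * y.c - x.b * y.d + x.c * y.a + x.d * y.b
  d := x.a * y.d + x.b * y.c - x.c * y.b + x.d * y.a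

/-- twice -/
def z4t (x : Z4) : Z4 := ⟨2 * x.a, 2 * x.b, 2 * x.c, 2 * x.d⟩

/-- conjugate -/
def z4c (x : Z4) : Z4 := ⟨x.a, -x.b, -x.c, -x.d⟩

/-- all `Z4` with entries in `{-1, 0, 1}` -/
def box : List Z4 :=
  [-1, 0, 1].flatMap fun a => [-1, 0, 1].flatMap fun b => [-1, 0, 1].flatMap fun c =>
    [-1, 0, 1].map fun d => ⟨a, b, c, d⟩

/-- norm -/
def z4n (x : Z4) : ℤ := x.a * x.a + x.b * x.b + x.c * x.c + x.d * x.d

/-- twice the even elements -/
def LE : List Z4 := ((box.filter fun x => decide (z4n x = 1)).map z4t) ++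
  (box.filter fun x => decide (z4n x = 4))

/-- `√2` times the odd elements -/
def LO : List Z4 := box.filter fun x => decide (z4n x = 2)

theorem LE_LE : (LE.all fun x => LE.all fun y => LE.any fun z => decide (z4m x y = z4t z)) = true := by
  decide +kernel

theorem LE_LO : (LE.all fun x => LO.all fun y => LO.any fun z => decide (z4m x y = z4t z)) = true := by
  decide +kernel

theorem LO_LE : (LO.all fun x => LE.all fun y => LO.any fun z => decide (z4m x y = z4t z)) = true := by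
  decide +kernel

theorem LO_LO : (LO.all fun x => LO.all fun y => decide (z4m x y ∈ LE)) = true := by
  decide +kernel

theorem L_star : (LE.all fun x => decide (z4c x ∈ LE)) = true ∧
    (LO.all fun x => decide (z4c x ∈ LO)) = true := by
  decide +kernel

/-- the quaternion -/
def q4 (x : Z4) : ℍ[ℝ] := ⟨x.a, x.b, x.c, x.d⟩

/-- even elements of the binary octahedral group, conjugated with `r` -/
def OE (r : ℍ[ℝ]) : Set ℍ[ℝ] := {x | ∃ p ∈ LE, r * x * star r = (1 / 2 : ℝ) • q4 p}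

/-- odd elements -/
def OO (r : ℍ[ℝ]) : Set ℍ[ℝ] := {x | ∃ p ∈ LO, r * x * star r = (√2 / 2 : ℝ) • q4 p}

theorem D4_mul (x y : Z4) : q4 (z4m x y) = q4 x * q4 y := by
  ext <;> simp [q4, z4m]

theorem D4_t (x : Z4) : q4 (z4t x) = (2 : ℝ) • q4 x := by
  ext <;> simp [q4, z4t]

theorem D4_c (x : Z4) : q4 (z4c x) = star (q4 x) := by
  ext <;> simp [q4, z4c]

theorem D4_mul_star {r : ℍ[ℝ]} (h : normSq r = 1) : r * star r = 1 := by
  rw [Quaternion.self_mul_star, h]
  rfl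

theorem D4_star_mul {r : ℍ[ℝ]} (h : normSq r = 1) : star r * r = 1 := by
  rw [Quaternion.star_mul_self, h]
  rfl

/-- conjugation is multiplicative -/
theorem D4_phi_mul {r : ℍ[ℝ]} (h : normSq r = 1) (x y : ℍ[ℝ]) :
    r * (x * y) * star r = r * x * star r * (r * y * star r) := by
  calc r * (x * y) * star r = r * x * 1 * (y * star r) := by
        rw [mul_one]; simp only [mul_assoc]
    _ = r * x * (star r * r) * (y * star r) := by rw [D4_star_mul h]
    _ = r * x * star r * (r * y * star r) := by simp only [mul_assoc]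

theorem D4_phi_inv {r : ℍ[ℝ]} (h : normSq r = 1) (x : ℍ[ℝ]) :
    star r * (r * x * star r) * r = x := by
  calc star r * (r * x * star r) * r = star r * r * x * (star r * r) := by simp only [mul_assoc]
    _ = x := by rw [D4_star_mul h, one_mul, mul_one]

theorem D4_phi_inj {r : ℍ[ℝ]} (h : normSq r = 1) {x y : ℍ[ℝ]}
    (hxy : r * x * star r = r * y * star r) : x = y := by
  rw [← D4_phi_inv h x, hxy, D4_phi_inv h y]

theorem D4_phi_star (r x : ℍ[ℝ]) : r * star x * star r = star (r * x * star r) := by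
  rw [star_mul, star_mul, star_star, mul_assoc]

theorem D4_ee {x y : Z4} (hx : x ∈ LE) (hy : y ∈ LE) : ∃ z ∈ LE, z4m x y = z4t z := by
  have h := LE_LE
  simp only [List.all_eq_true, List.any_eq_true, decide_eq_true_iff] at h
  exact h x hx y hy

theorem D4_eo {x y : Z4} (hx : x ∈ LE) (hy : y ∈ LO) : ∃ z ∈ LO, z4m x y = z4t z := by
  have h := LE_LO
  simp only [List.all_eq_true, List.any_eq_true, decide_eq_true_iff] at h
  exact h x hx y hy

theorem D4_oe {x y : Z4} (hx : x ∈ LO) (hy : y ∈ LE) : ∃ z ∈ LO, z4m x y = z4t z := by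
  have h := LO_LE
  simp only [List.all_eq_true, List.any_eq_true, decide_eq_true_iff] at h
  exact h x hx y hy

theorem D4_oo {x y : Z4} (hx : x ∈ LO) (hy : y ∈ LO) : z4m x y ∈ LE := by
  have h := LO_LO
  simp only [List.all_eq_true, decide_eq_true_iff] at h
  exact h x hx y hy

theorem D4_stE {x : Z4} (hx : x ∈ LE) : z4c x ∈ LE := by
  have h := L_star.1
  simp only [List.all_eq_true, decide_eq_true_iff] at h
  exact h x hx

theorem D4_stO {x : Z4} (hx : x ∈ LO) : z4c x ∈ LO := by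
  have h := L_star.2
  simp only [List.all_eq_true, decide_eq_true_iff] at h
  exact h x hx

theorem D4_fin {r : ℍ[ℝ]} (hr : normSq r = 1) (L : List Z4) (k : ℝ) :
    {x : ℍ[ℝ] | ∃ p ∈ L, r * x * star r = k • q4 p}.Finite := by
  refine ((L.finite_toSet).image (fun p => star r * (k • q4 p) * r)).subset ?_
  rintro x ⟨p, hp, hx⟩
  refine ⟨p, hp, ?_⟩
  change star r * (k • q4 p) * r = x
  rw [← hx, D4_phi_inv hr]

/-- Row D4. `x = star r * (r x r̄) * r`, so the sets are finite; `r (x y) r̄ = (r x r̄)(r y r̄)`, `q4` is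
multiplicative, `LE_LE` ..., `(√2/2)² = 1/2`. -/
theorem par_oct {r : ℍ[ℝ]} (hr : normSq r = 1) : Par (OE r) (OO r) where
  finE := D4_fin hr LE (1 / 2)
  finO := D4_fin hr LO (√2 / 2)
  one := by
    refine ⟨⟨2, 0, 0, 0⟩, by decide +kernel, ?_⟩
    rw [mul_one, D4_mul_star hr]
    ext <;> simp [q4]
  neg := by
    refine ⟨⟨-2, 0, 0, 0⟩, by decide +kernel, ?_⟩
    rw [mul_neg, mul_one, neg_mul, D4_mul_star hr]
    ext <;> simp [q4]
  ee := by
    rintro x ⟨p, hp, hx⟩ y ⟨q, hq, hy⟩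
    obtain ⟨z, hz, hzz⟩ := D4_ee hp hq
    refine ⟨z, hz, ?_⟩
    rw [D4_phi_mul hr, hx, hy, smul_mul_smul_comm, ← D4_mul, hzz, D4_t, smul_smul]
    norm_num
  eo := by
    rintro x ⟨p, hp, hx⟩ y ⟨q, hq, hy⟩
    obtain ⟨z, hz, hzz⟩ := D4_eo hp hq
    refine ⟨z, hz, ?_⟩
    rw [D4_phi_mul hr, hx, hy, smul_mul_smul_comm, ← D4_mul, hzz, D4_t, smul_smul]
    congr 1
    ring
  oe := by
    rintro x ⟨p, hp, hx⟩ y ⟨q, hq, hy⟩
    obtain ⟨z, hz, hzz⟩ := D4_oe hp hq
    refine ⟨z, hz, ?_⟩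
    rw [D4_phi_mul hr, hx, hy, smul_mul_smul_comm, ← D4_mul, hzz, D4_t, smul_smul]
    congr 1
    ring
  oo := by
    rintro x ⟨p, hp, hx⟩ y ⟨q, hq, hy⟩
    refine ⟨z4m p q, D4_oo hp hq, ?_⟩
    rw [D4_phi_mul hr, hx, hy, smul_mul_smul_comm, ← D4_mul]
    congr 1
    have h : √2 * √2 = (2 : ℝ) := Real.mul_self_sqrt (by norm_num)
    linarith
  stE := by
    rintro x ⟨p, hp, hx⟩
    refine ⟨z4c p, D4_stE hp, ?_⟩
    rw [D4_phi_star, hx, D4_c]
    ext <;> simp
  stO := by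
    rintro x ⟨p, hp, hx⟩
    refine ⟨z4c p, D4_stO hp, ?_⟩
    rw [D4_phi_star, hx, D4_c]
    ext <;> simp

/-- irrationality of `√2` -/
theorem D4_irr {p q : ℤ} (h : 2 * (p : ℝ) = √2 * q) : p = 0 ∧ q = 0 := by
  have hq : q = 0 := by
    by_contra hq
    have hq' : (q : ℝ) ≠ 0 := by exact_mod_cast hq
    apply irrational_sqrt_two
    refine ⟨(2 * p / q : ℚ), ?_⟩
    push_cast
    rw [div_eq_iff hq', h]
  refine ⟨?_, hq⟩
  rw [hq, Int.cast_zero, mul_zero] at h
  have : (p : ℝ) = 0 := by linarith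
  exact_mod_cast this

/-- the separated equation over the integers -/
theorem D4_sep {X Y m : Z4} (h : q4 Y * (1 - (√2 / 2 : ℝ) • q4 m) = (1 - (√2 / 2 : ℝ) • q4 m) * q4 X) :
    q4 Y = q4 X ∧ q4 X * q4 m = q4 m * q4 X := by
  have h2 : (2 : ℝ) • (q4 Y - q4 X) = √2 • (q4 (z4m Y m) - q4 (z4m m X)) := by
    rw [D4_mul, D4_mul]
    rw [mul_sub, sub_mul, mul_one, one_mul, mul_smul_comm, smul_mul_assoc] at h
    have h3 : q4 Y - q4 X = (√2 / 2 : ℝ) • (q4 Y * q4 m) - (√2 / 2 : ℝ) • (q4 m * q4 X) := by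
      rw [sub_eq_sub_iff_add_eq_add] at h ⊢
      rw [h]
      abel
    rw [h3, ← smul_sub, smul_smul]
    congr 1
    ring
  have e1 := D4_irr (p := Y.a - X.a) (q := (z4m Y m).a - (z4m m X).a) (by
    have := congrArg QuaternionAlgebra.re h2
    simpa [q4] using this)
  have e2 := D4_irr (p := Y.b - X.b) (q := (z4m Y m).b - (z4m m X).b) (by
    have := congrArg QuaternionAlgebra.imI h2
    simpa [q4] using this)
  have e3 := D4_irr (p := Y.c - X.c) (q := (z4m Y m).c - (z4m m X).c) (by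
    have := congrArg QuaternionAlgebra.imJ h2
    simpa [q4] using this)
  have e4 := D4_irr (p := Y.d - X.d) (q := (z4m Y m).d - (z4m m X).d) (by
    have := congrArg QuaternionAlgebra.imK h2
    simpa [q4] using this)
  have hYX : Y = X := by
    cases Y
    cases X
    simp only [Z4.mk.injEq]
    exact ⟨by linarith [e1.1], by linarith [e2.1], by linarith [e3.1], by linarith [e4.1]⟩
  refine ⟨by rw [hYX], ?_⟩
  have hmm : z4m Y m = z4m m X := by
    have f1 := e1.2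
    have f2 := e2.2
    have f3 := e3.2
    have f4 := e4.2
    generalize z4m Y m = u at f1 f2 f3 f4 ⊢
    generalize z4m m X = v at f1 f2 f3 f4 ⊢
    cases u
    cases v
    simp only [Z4.mk.injEq]
    exact ⟨by linarith, by linarith, by linarith, by linarith⟩
  rw [← D4_mul, ← D4_mul, ← hmm, hYX]

/-- Row D4. Let `l = c + d i`, `r l r̄ = (√2/2) m` with integral `m` (`l ∈ OO r`), `x, y` both even or both odd and
`y (1 - l) = (1 - l) x`. Conjugate with `r` and multiply with `2` (even) or `√2` (odd): `Y, X` integral,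
`Y (1 - (√2/2) m) = (1 - (√2/2) m) X`, i.e. `2 (Y - X) = √2 (Y m - m X)`: each component gives `p = √2 q` with
integers, so both sides vanish. -/
theorem oct_sep {r : ℍ[ℝ]} (hr : normSq r = 1) {l x y : ℍ[ℝ]} (hl : l ∈ OO r)
    (h : (x ∈ OE r ∧ y ∈ OE r) ∨ (x ∈ OO r ∧ y ∈ OO r)) (h1 : y * (1 - l) = (1 - l) * x) :
    y = x ∧ x * l = l * x := by
  obtain ⟨m, hm, hl⟩ := hl
  obtain ⟨k, X, Y, hk, hx, hy⟩ : ∃ (k : ℝ) (X Y : Z4), k ≠ 0 ∧ r * x * star r = k • q4 X ∧
      r * y * star r = k • q4 Y := by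
    rcases h with ⟨⟨X, _, hX⟩, ⟨Y, _, hY⟩⟩ | ⟨⟨X, _, hX⟩, ⟨Y, _, hY⟩⟩
    · exact ⟨1 / 2, X, Y, by norm_num, hX, hY⟩
    · exact ⟨√2 / 2, X, Y, by positivity, hX, hY⟩
  have h2 : r * (y * (1 - l)) * star r = r * ((1 - l) * x) * star r := by rw [h1]
  have h3 : r * (1 - l) * star r = 1 - (√2 / 2 : ℝ) • q4 m := by
    rw [mul_sub, sub_mul, mul_one, D4_mul_star hr, hl]
  rw [D4_phi_mul hr, D4_phi_mul hr, h3, hx, hy, smul_mul_assoc, mul_smul_comm] at h2
  obtain ⟨h4, h5⟩ := D4_sep (smul_right_injective ℍ[ℝ] hk h2)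
  refine ⟨D4_phi_inj hr (by rw [hx, hy, h4]), D4_phi_inj hr ?_⟩
  rw [D4_phi_mul hr, D4_phi_mul hr, hx, hl, smul_mul_smul_comm, smul_mul_smul_comm, h5, mul_comm k]

end ChiralQ
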