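import Pool.Agent.Lib.MP_bc704c_co.R.D3b
import Pool.Agent.Lib.MP_bc704c_co.R.D4
import Pool.Agent.Lib.MP_bc704c_co.Q.Fg5b

/-! # MP_bc704c_co, row D5: the sporadic polyhedron of type `{4, 8}` -/

namespace ChiralQ

open Quaternion ChiralNF

variable {s t : ℍ[ℝ] ≃ₗᵢ[ℝ] ℍ[ℝ]} {c d : ℝ} {a b : ℍ[ℝ]}

theorem D5_re (r q : ℍ[ℝ]) : (r * q * star r).re = normSq r * q.re := by
  rw [Quaternion.normSq_def']
  simp only [Quaternion.re_mul, Quaternion.imI_mul, Quaternion.imJ_mul, Quaternion.imK_mul,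
    Quaternion.re_star, Quaternion.imI_star, Quaternion.imJ_star, Quaternion.imK_star]
  ring

theorem D5_inner {r x y : ℍ[ℝ]} (hr : normSq r = 1) :
    ((r * x * star r) * (r * y * star r)).re = (x * y).re := by
  have h : star r * r = 1 := by rw [Quaternion.star_mul_self, hr]; simp
  have h2 : (r * x * star r) * (r * y * star r) = r * (x * y) * star r := by
    calc (r * x * star r) * (r * y * star r) = r * x * (star r * r) * y * star r := by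
          noncomm_ring
      _ = r * (x * y) * star r := by
          rw [h]
          noncomm_ring
  rw [h2, D5_re, hr, one_mul]

theorem D5_sq {x : ℝ} (h : x ^ 2 = 1 / 2) :
    ∃ e : ℤ, (e = 1 ∨ e = -1) ∧ x = √2 / 2 * (e : ℝ) := by
  have q2 : (√2 / 2) ^ 2 = (1 / 2 : ℝ) := by
    rw [div_pow, Real.sq_sqrt (by norm_num)]
    norm_num
  rcases sq_eq_sq_iff_eq_or_eq_neg.1 (h.trans q2.symm) with h | h
  · exact ⟨1, Or.inl rfl, by rw [h]; push_cast; ring⟩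
  · exact ⟨-1, Or.inr rfl, by rw [h]; push_cast; ring⟩

theorem D5_mem {e f : ℤ} (he : e = 1 ∨ e = -1) (hf : f = 1 ∨ f = -1) :
    (⟨0, e, 0, f⟩ : Z4) ∈ LO ∧ (⟨0, e, f, 0⟩ : Z4) ∈ LO ∧ (⟨e, f, 0, 0⟩ : Z4) ∈ LO := by
  rcases he with rfl | rfl <;> rcases hf with rfl | rfl <;> decide +kernel

theorem D5_lin {r i : ℍ[ℝ]} (hr : normSq r = 1) (hi : i = ⟨0, 1, 0, 0⟩) (c d : ℝ) :
    r * ⟨c, d, 0, 0⟩ * star r = (c : ℍ[ℝ]) + d • (r * i * star r) := by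
  have h : (⟨c, d, 0, 0⟩ : ℍ[ℝ]) = (c : ℍ[ℝ]) + d • i := by
    rw [hi]
    ext <;> simp
  have h2 : r * star r = 1 := by rw [Quaternion.self_mul_star, hr]; simp
  rw [h, mul_add, add_mul, mul_smul_comm, smul_mul_assoc, ← Quaternion.coe_commutes, mul_assoc,
    h2, mul_one]

theorem D5_comm {x : ℍ[ℝ]} {c d : ℝ} (hd : d ≠ 0) (h : x * ⟨c, d, 0, 0⟩ = ⟨c, d, 0, 0⟩ * x) :
    x.imJ = 0 ∧ x.imK = 0 ∧ x = ⟨x.re, x.imI, 0, 0⟩ := by
  have hJ := congrArg QuaternionAlgebra.imJ h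
  have hK := congrArg QuaternionAlgebra.imK h
  simp only [Quaternion.imJ_mul, Quaternion.imK_mul] at hJ hK
  have e1 : (2 * d) * x.imK = 0 := by linear_combination hJ
  have e2 : (2 * d) * x.imJ = 0 := by linear_combination -hK
  have h2 : 2 * d ≠ 0 := mul_ne_zero two_ne_zero hd
  have e3 := (mul_eq_zero.1 e2).resolve_left h2
  have e4 := (mul_eq_zero.1 e1).resolve_left h2
  refine ⟨e3, e4, ?_⟩
  ext
  · rfl
  · rfl
  · exact e3
  · exact e4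

theorem D5_core {X Y : ℍ[ℝ]} (hX : UI X) (hY : UI Y) (h0 : X.imI = 0) (h1 : Y.imI ^ 2 = 1 / 2)
    (h2 : (X.imJ * Y.imJ + X.imK * Y.imK) ^ 2 = 1 / 4) :
    ∃ r : ℍ[ℝ], normSq r = 1 ∧ r * ⟨0, 1, 0, 0⟩ * star r = ⟨0, 1, 0, 0⟩ ∧ X ∈ OO r ∧ Y ∈ OO r := by
  have q2 : √2 * √2 = (2 : ℝ) := Real.mul_self_sqrt (by norm_num)
  have hI : UI (⟨0, 1, 0, 0⟩ : ℍ[ℝ]) := ⟨rfl, by norm_num⟩
  have hA : UI (⟨0, 0, √2 / 2, √2 / 2⟩ : ℍ[ℝ]) := by
    refine ⟨rfl, ?_⟩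
    show (0 : ℝ) ^ 2 + (√2 / 2) ^ 2 + (√2 / 2) ^ 2 = 1
    linear_combination q2 / 2
  obtain ⟨r, hr, hri, hrX⟩ := align hI hA hI hX (by simp [h0])
  obtain ⟨Z, hZ⟩ : ∃ Z, Z = r * Y * star r := ⟨_, rfl⟩
  have e1 := D5_inner (x := ⟨0, 1, 0, 0⟩) (y := Y) hr
  have e2 := D5_inner (x := X) (y := Y) hr
  rw [hri, ← hZ] at e1
  rw [hrX, ← hZ] at e2
  simp only [Quaternion.re_mul] at e1 e2
  have z0 : Z.re = 0 := by rw [hZ, D5_re, hY.1, mul_zero]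
  have zn : Z.imI ^ 2 + Z.imJ ^ 2 + Z.imK ^ 2 = 1 := by
    have h3 : normSq Z = 1 := by
      rw [hZ, map_mul, map_mul, Quaternion.normSq_star, hr, Quaternion.normSq_def', hY.1]
      linear_combination hY.2
    rw [Quaternion.normSq_def', z0] at h3
    linear_combination h3
  have z1 : Z.imI = Y.imI := by linear_combination -e1
  have z2 : √2 / 2 * (Z.imJ + Z.imK) = X.imJ * Y.imJ + X.imK * Y.imK := by
    rw [h0, hX.1] at e2
    linear_combination -e2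
  have z3 : (Z.imJ + Z.imK) ^ 2 = 1 / 2 := by
    rw [← z2] at h2
    linear_combination 2 * h2 - (Z.imJ + Z.imK) ^ 2 / 2 * q2
  have z4 : Z.imJ * Z.imK = 0 := by
    rw [z1] at zn
    linear_combination (z3 - zn + h1) / 2
  refine ⟨r, hr, hri, ⟨⟨0, 0, 1, 1⟩, by decide +kernel, ?_⟩, ?_⟩
  · rw [hrX]
    ext <;> simp [q4]
  · obtain ⟨e, he, ee⟩ := D5_sq h1
    rcases mul_eq_zero.1 z4 with h5 | h5
    · obtain ⟨f, hf, ff⟩ := D5_sq (x := Z.imK) (by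
        rw [h5] at z3
        linear_combination z3)
      refine ⟨⟨0, e, 0, f⟩, (D5_mem he hf).1, ?_⟩
      rw [← hZ]
      ext
      · simp [q4, z0]
      · simp [q4, z1, ee]
      · simp [q4, h5]
      · simp [q4, ff]
    · obtain ⟨f, hf, ff⟩ := D5_sq (x := Z.imJ) (by
        rw [h5] at z3
        linear_combination z3)
      refine ⟨⟨0, e, f, 0⟩, (D5_mem he hf).2.1, ?_⟩
      rw [← hZ]
      ext
      · simp [q4, z0]
      · simp [q4, z1, ee]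
      · simp [q4, ff]
      · simp [q4, h5]

/-- Row D5. Let `X, Y` be `a, b'` or `b', a` (`b' = β i - (c + d i) w`) such that `X.imI = 0`,
`Y.imI² = 1/2`. `⟪a, b'⟫ = α β - ⟪u, (c + d i) w⟫ = d D` with `D = u_J w_K - u_K w_J`, `D² = |u|² |w|² - ⟪u, w⟫² = 1/2`,
`d² = 1/2`, so `⟪X, Y⟫² = 1/4`. `align` (with `p' = i`, `a' = X`, `p = i`, `a = (√2/2)(j + k)`) gives a unit `r` with
`r i r̄ = i`, `r X r̄ = (√2/2)(j + k)`; `Y' = r Y r̄ = y1 i + y2 j + y3 k` is unit, `y1² = 1/2` (`⟪r i r̄, r Y r̄⟫ = ⟪i, Y⟫`),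
`(√2/2)(y2 + y3) = ± 1/2`, `y2² + y3² = 1/2`, so `y2 y3 = 0` and `√2 Y'` is integral of norm 2. `r l r̄ = c + d i`,
`c² = d² = 1/2`. -/
theorem s1_align (H : Std s t (-1) c d a b) (hc : c ^ 2 = 1 / 2)
    (hS : a.imJ * b.imJ + a.imK * b.imK = 0)
    (h : (a.imI ^ 2 = 0 ∧ b.imI ^ 2 = 1 / 2) ∨ (a.imI ^ 2 = 1 / 2 ∧ b.imI ^ 2 = 0)) :
    ∃ r : ℍ[ℝ], normSq r = 1 ∧ r * ⟨0, 1, 0, 0⟩ * star r = ⟨0, 1, 0, 0⟩ ∧
      (⟨c, d, 0, 0⟩ : ℍ[ℝ]) ∈ OO r ∧ a ∈ OO r ∧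
      (⟨0, b.imI, -(c * b.imJ - d * b.imK), -(d * b.imJ + c * b.imK)⟩ : ℍ[ℝ]) ∈ OO r := by
  have hcd := H.hcd
  have ha := H.ha
  have hb := H.hb
  have hd2 : d ^ 2 = 1 / 2 := by linear_combination hcd - hc
  obtain ⟨b', hb'⟩ : ∃ b' : ℍ[ℝ],
      b' = ⟨0, b.imI, -(c * b.imJ - d * b.imK), -(d * b.imJ + c * b.imK)⟩ := ⟨_, rfl⟩
  have b're : b'.re = 0 := by rw [hb']
  have b'I : b'.imI = b.imI := by rw [hb']
  have b'J : b'.imJ = -(c * b.imJ - d * b.imK) := by rw [hb']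
  have b'K : b'.imK = -(d * b.imJ + c * b.imK) := by rw [hb']
  have hUb' : UI b' := by
    refine ⟨b're, ?_⟩
    rw [b'I, b'J, b'K]
    linear_combination hb.2 + (b.imJ ^ 2 + b.imK ^ 2) * hcd
  have hin : a.imJ * b'.imJ + a.imK * b'.imK = d * (a.imJ * b.imK - a.imK * b.imJ) := by
    rw [b'J, b'K]
    linear_combination -c * hS
  have hD : (a.imJ * b.imK - a.imK * b.imJ) ^ 2 = 1 / 2 := by
    have e1 : (a.imJ * b.imK - a.imK * b.imJ) ^ 2 =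
        (1 - a.imI ^ 2) * (1 - b.imI ^ 2) - (a.imJ * b.imJ + a.imK * b.imK) ^ 2 := by
      linear_combination (a.imJ ^ 2 + a.imK ^ 2) * hb.2 + (1 - b.imI ^ 2) * ha.2
    rw [e1, hS]
    rcases h with ⟨h3, h4⟩ | ⟨h3, h4⟩ <;> rw [h3, h4] <;> norm_num
  have hin2 : (a.imJ * b'.imJ + a.imK * b'.imK) ^ 2 = 1 / 4 := by
    rw [hin]
    linear_combination (a.imJ * b.imK - a.imK * b.imJ) ^ 2 * hd2 + hD / 2
  have hlO : ∀ r : ℍ[ℝ], normSq r = 1 → r * ⟨0, 1, 0, 0⟩ * star r = ⟨0, 1, 0, 0⟩ →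
      (⟨c, d, 0, 0⟩ : ℍ[ℝ]) ∈ OO r := by
    intro r hr hri
    obtain ⟨e, he, ee⟩ := D5_sq hc
    obtain ⟨f, hf, ff⟩ := D5_sq hd2
    refine ⟨⟨e, f, 0, 0⟩, (D5_mem he hf).2.2, ?_⟩
    rw [D5_lin hr rfl, hri]
    ext
    · simpa [q4] using ee
    · simpa [q4] using ff
    · simp [q4]
    · simp [q4]
  rw [← hb']
  rcases h with ⟨h3, h4⟩ | ⟨h3, h4⟩
  · have h5 : a.imI = 0 := pow_eq_zero_iff (two_ne_zero) |>.1 h3
    obtain ⟨r, hr, hri, h6, h7⟩ := D5_core ha hUb' h5 (by rw [b'I]; exact h4) hin2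
    exact ⟨r, hr, hri, hlO r hr hri, h6, h7⟩
  · have h5 : b'.imI = 0 := by rw [b'I]; exact pow_eq_zero_iff (two_ne_zero) |>.1 h4
    obtain ⟨r, hr, hri, h6, h7⟩ := D5_core hUb' ha h5 h3 (by
      rw [← hin2]
      ring)
    exact ⟨r, hr, hri, hlO r hr hri, h7, h6⟩

theorem D5_LE : ∀ p ∈ LE, p.c = 0 → p.d = 0 →
    (p.b = 0 ∧ p.a ^ 2 = 4) ∨ (p.a = 0 ∧ p.b ^ 2 = 4) := by
  decide +kernel

theorem D5_LO : ∀ p ∈ LO, p.c = 0 → p.d = 0 → p.a ^ 2 = 1 ∧ p.b ^ 2 = 1 := by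
  decide +kernel

/-- Row D5. `s1_align`, `par_oct`, `par_fin`, `par_stab`. For the last one: by `oct_sep` (`l = c + d i`)
`x` commutes with `l`, so (as `d ≠ 0`) `x = x0 + x1 i`, and `r x r̄ = x` (`r` commutes with `i`), so `2 x` or `√2 x` is in
the list: `x ∈ {± 1, ± i}` or `x = (√2/2)(± 1 ± i)`. These are the `± l ^ j`, `j ≤ 3`: `l² = 2 c d i = ± i`,
`l³ = ± i l`. -/
theorem s1_group (H : Std s t (-1) c d a b) (hc : c ^ 2 = 1 / 2)
    (hS : a.imJ * b.imJ + a.imK * b.imK = 0)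
    (h : (a.imI ^ 2 = 0 ∧ b.imI ^ 2 = 1 / 2) ∨ (a.imI ^ 2 = 1 / 2 ∧ b.imI ^ 2 = 0)) :
    Finite (GG s t) ∧ ∀ g ∈ GG s t, g 1 = 1 → g ∈ Subgroup.zpowers s := by
  obtain ⟨r, hr, hri, lO, aO, bO⟩ := s1_align H hc hS h
  have P := par_oct hr
  refine ⟨par_fin H P lO aO bO, par_stab H P lO aO bO ?_⟩
  intro x y hxy _ h1
  have hcd := H.hcd
  have hd2 : d ^ 2 = 1 / 2 := by linear_combination hcd - hc
  obtain ⟨_, hc1⟩ := oct_sep hr lO hxy h1
  obtain ⟨xJ, xK, hx⟩ := D5_comm H.hd hc1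
  have hrx : r * x * star r = x := by
    rw [hx, D5_lin hr rfl, hri]
    ext <;> simp
  have l2 : (⟨c, d, 0, 0⟩ : ℍ[ℝ]) ^ 2 = ⟨0, 2 * c * d, 0, 0⟩ := by
    rw [pow_two]
    ext
    · simp
      linear_combination hc - hd2
    · simp
      ring
    · simp
    · simp
  have l3 : (⟨c, d, 0, 0⟩ : ℍ[ℝ]) ^ 3 = ⟨-c, d, 0, 0⟩ := by
    rw [pow_succ, l2]
    ext
    · simp
      linear_combination 2 * c * hd2
    · simp
      linear_combination 2 * d * hc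
    · simp
    · simp
  have q2 : √2 * √2 = (2 : ℝ) := Real.mul_self_sqrt (by norm_num)
  rcases hxy with ⟨⟨p, hp, hpe⟩, _⟩ | ⟨⟨p, hp, hpe⟩, _⟩
  · rw [hrx] at hpe
    have p0 := congrArg QuaternionAlgebra.re hpe
    have p1 := congrArg QuaternionAlgebra.imI hpe
    have p2 := congrArg QuaternionAlgebra.imJ hpe
    have p3 := congrArg QuaternionAlgebra.imK hpe
    rw [xJ] at p2
    rw [xK] at p3
    simp only [q4, Quaternion.re_smul, Quaternion.imI_smul, Quaternion.imJ_smul,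
      Quaternion.imK_smul, smul_eq_mul] at p0 p1 p2 p3
    have pc : p.c = 0 := by
      have : (p.c : ℝ) = 0 := by linear_combination -2 * p2
      exact_mod_cast this
    have pd : p.d = 0 := by
      have : (p.d : ℝ) = 0 := by linear_combination -2 * p3
      exact_mod_cast this
    rcases D5_LE p hp pc pd with ⟨h4, h5⟩ | ⟨h4, h5⟩
    · have h6 : x.imI = 0 := by rw [p1, h4]; simp
      have h7 : x.re ^ 2 = 1 ^ 2 := by
        have : (p.a : ℝ) ^ 2 = 4 := by exact_mod_cast h5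
        rw [p0]
        linear_combination this / 4
      refine ⟨0, ?_⟩
      rcases sq_eq_sq_iff_eq_or_eq_neg.1 h7 with h8 | h8
      · left
        rw [hx, h6, h8, pow_zero]
        ext <;> simp
      · right
        rw [hx, h6, h8, pow_zero]
        ext <;> simp
    · have h6 : x.re = 0 := by rw [p0, h4]; simp
      have h7 : x.imI ^ 2 = (2 * c * d) ^ 2 := by
        have : (p.b : ℝ) ^ 2 = 4 := by exact_mod_cast h5
        rw [p1]
        linear_combination this / 4 - 4 * d ^ 2 * hc - 2 * hd2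
      refine ⟨2, ?_⟩
      rcases sq_eq_sq_iff_eq_or_eq_neg.1 h7 with h8 | h8
      · left
        rw [hx, h6, h8, l2]
      · right
        rw [hx, h6, h8, l2]
        ext <;> simp
  · rw [hrx] at hpe
    have p0 := congrArg QuaternionAlgebra.re hpe
    have p1 := congrArg QuaternionAlgebra.imI hpe
    have p2 := congrArg QuaternionAlgebra.imJ hpe
    have p3 := congrArg QuaternionAlgebra.imK hpe
    rw [xJ] at p2
    rw [xK] at p3
    simp only [q4, Quaternion.re_smul, Quaternion.imI_smul, Quaternion.imJ_smul,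
      Quaternion.imK_smul, smul_eq_mul] at p0 p1 p2 p3
    have pc : p.c = 0 := by
      have : (p.c : ℝ) = 0 := by linear_combination -√2 * p2 - (p.c : ℝ) / 2 * q2
      exact_mod_cast this
    have pd : p.d = 0 := by
      have : (p.d : ℝ) = 0 := by linear_combination -√2 * p3 - (p.d : ℝ) / 2 * q2
      exact_mod_cast this
    obtain ⟨h4, h5⟩ := D5_LO p hp pc pd
    have h6 : x.re ^ 2 = c ^ 2 := by
      have : (p.a : ℝ) ^ 2 = 1 := by exact_mod_cast h4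
      rw [p0]
      linear_combination this / 2 - hc + (p.a : ℝ) ^ 2 / 4 * q2
    have h7 : x.imI ^ 2 = d ^ 2 := by
      have : (p.b : ℝ) ^ 2 = 1 := by exact_mod_cast h5
      rw [p1]
      linear_combination this / 2 - hd2 + (p.b : ℝ) ^ 2 / 4 * q2
    rcases sq_eq_sq_iff_eq_or_eq_neg.1 h6 with h8 | h8 <;>
      rcases sq_eq_sq_iff_eq_or_eq_neg.1 h7 with h9 | h9
    · refine ⟨1, Or.inl ?_⟩
      rw [hx, h8, h9, pow_one]
    · refine ⟨3, Or.inr ?_⟩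
      rw [hx, h8, h9, l3]
      ext <;> simp
    · refine ⟨3, Or.inl ?_⟩
      rw [hx, h8, h9, l3]
    · refine ⟨1, Or.inr ?_⟩
      rw [hx, h8, h9, pow_one]
      ext <;> simp

end ChiralQ
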