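import Pool.Agent.Lib.MP_bc704c_co.R.D3b
import Pool.Agent.Lib.MP_bc704c_co.R.D4
import Pool.Agent.Lib.MP_bc704c_co.Q.Fg5b

/-! # MP_bc704c_co, row D6: the sporadic polyhedron of type `{8, 4}` -/

namespace ChiralQ

open Quaternion ChiralNF

variable {s t : ℍ[ℝ] ≃ₗᵢ[ℝ] ℍ[ℝ]} {d : ℝ} {a b : ℍ[ℝ]}

theorem D6_re (r q : ℍ[ℝ]) : (r * q * star r).re = normSq r * q.re := by
  rw [Quaternion.normSq_def']
  simp only [Quaternion.re_mul, Quaternion.imI_mul, Quaternion.imJ_mul, Quaternion.imK_mul,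
    Quaternion.re_star, Quaternion.imI_star, Quaternion.imJ_star, Quaternion.imK_star]
  ring

theorem D6_inner {r x y : ℍ[ℝ]} (hr : normSq r = 1) :
    ((r * x * star r) * (r * y * star r)).re = (x * y).re := by
  have h : star r * r = 1 := by rw [Quaternion.star_mul_self, hr]; simp
  have h2 : (r * x * star r) * (r * y * star r) = r * (x * y) * star r := by
    calc (r * x * star r) * (r * y * star r) = r * x * (star r * r) * y * star r := by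
          noncomm_ring
      _ = r * (x * y) * star r := by
          rw [h]
          noncomm_ring
  rw [h2, D6_re, hr, one_mul]

theorem D6_sq {x : ℝ} (h : x ^ 2 = 1 / 2) :
    ∃ e : ℤ, (e = 1 ∨ e = -1) ∧ x = √2 / 2 * (e : ℝ) := by
  have q2 : (√2 / 2) ^ 2 = (1 / 2 : ℝ) := by
    rw [div_pow, Real.sq_sqrt (by norm_num)]
    norm_num
  rcases sq_eq_sq_iff_eq_or_eq_neg.1 (h.trans q2.symm) with h | h
  · exact ⟨1, Or.inl rfl, by rw [h]; push_cast; ring⟩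
  · exact ⟨-1, Or.inr rfl, by rw [h]; push_cast; ring⟩

theorem D6_mem {e f : ℤ} (he : e = 1 ∨ e = -1) (hf : f = 1 ∨ f = -1) :
    (⟨0, 0, e, f⟩ : Z4) ∈ LO ∧ (⟨0, e, 0, f⟩ : Z4) ∈ LO ∧ (⟨0, e, e, 0⟩ : Z4) ∈ LO := by
  rcases he with rfl | rfl <;> rcases hf with rfl | rfl <;> decide +kernel

theorem D6_lin {r i : ℍ[ℝ]} (hr : normSq r = 1) (hi : i = ⟨0, 1, 0, 0⟩) (c d : ℝ) :
    r * ⟨c, d, 0, 0⟩ * star r = (c : ℍ[ℝ]) + d • (r * i * star r) := by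
  have h : (⟨c, d, 0, 0⟩ : ℍ[ℝ]) = (c : ℍ[ℝ]) + d • i := by
    rw [hi]
    ext <;> simp
  have h2 : r * star r = 1 := by rw [Quaternion.self_mul_star, hr]; simp
  rw [h, mul_add, add_mul, mul_smul_comm, smul_mul_assoc, ← Quaternion.coe_commutes, mul_assoc,
    h2, mul_one]

theorem D6_comm {x : ℍ[ℝ]} {c d : ℝ} (hd : d ≠ 0) (h : x * ⟨c, d, 0, 0⟩ = ⟨c, d, 0, 0⟩ * x) :
    x = ⟨x.re, x.imI, 0, 0⟩ := by
  have hJ := congrArg QuaternionAlgebra.imJ h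
  have hK := congrArg QuaternionAlgebra.imK h
  simp only [Quaternion.imJ_mul, Quaternion.imK_mul] at hJ hK
  have e1 : (2 * d) * x.imK = 0 := by linear_combination hJ
  have e2 : (2 * d) * x.imJ = 0 := by linear_combination -hK
  have h2 : 2 * d ≠ 0 := mul_ne_zero two_ne_zero hd
  have e3 := (mul_eq_zero.1 e2).resolve_left h2
  have e4 := (mul_eq_zero.1 e1).resolve_left h2
  ext
  · rfl
  · rfl
  · exact e3
  · exact e4

theorem D6_core {X Y : ℍ[ℝ]} (hX : UI X) (hY : UI Y) (h0 : X.imI = 0) (h1 : Y.imI ^ 2 = 1 / 4)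
    (h2 : (X.imJ * Y.imJ + X.imK * Y.imK) ^ 2 = 1 / 4) :
    ∃ r : ℍ[ℝ], normSq r = 1 ∧
      r * ⟨0, 1, 0, 0⟩ * star r = (√2 / 2 : ℝ) • (⟨0, 1, 1, 0⟩ : ℍ[ℝ]) ∧
      X ∈ OO r ∧ Y ∈ OO r := by
  have q2 : √2 * √2 = (2 : ℝ) := Real.mul_self_sqrt (by norm_num)
  have hI : UI (⟨0, 1, 0, 0⟩ : ℍ[ℝ]) := ⟨rfl, by norm_num⟩
  have hP : UI (⟨0, √2 / 2, √2 / 2, 0⟩ : ℍ[ℝ]) := by
    refine ⟨rfl, ?_⟩
    show (√2 / 2) ^ 2 + (√2 / 2) ^ 2 + (0 : ℝ) ^ 2 = 1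
    linear_combination q2 / 2
  have hA : UI (⟨0, √2 / 2, -(√2 / 2), 0⟩ : ℍ[ℝ]) := by
    refine ⟨rfl, ?_⟩
    show (√2 / 2) ^ 2 + (-(√2 / 2)) ^ 2 + (0 : ℝ) ^ 2 = 1
    linear_combination q2 / 2
  obtain ⟨r, hr, hri, hrX⟩ := align hP hA hI hX (by simp [h0])
  obtain ⟨Z, hZ⟩ : ∃ Z, Z = r * Y * star r := ⟨_, rfl⟩
  have e1 := D6_inner (x := ⟨0, 1, 0, 0⟩) (y := Y) hr
  have e2 := D6_inner (x := X) (y := Y) hr
  rw [hri, ← hZ] at e1
  rw [hrX, ← hZ] at e2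
  simp only [Quaternion.re_mul] at e1 e2
  have z0 : Z.re = 0 := by rw [hZ, D6_re, hY.1, mul_zero]
  have zn : Z.imI ^ 2 + Z.imJ ^ 2 + Z.imK ^ 2 = 1 := by
    have h3 : normSq Z = 1 := by
      rw [hZ, map_mul, map_mul, Quaternion.normSq_star, hr, Quaternion.normSq_def', hY.1]
      linear_combination hY.2
    rw [Quaternion.normSq_def', z0] at h3
    linear_combination h3
  have z1 : √2 / 2 * (Z.imI + Z.imJ) = Y.imI := by linear_combination -e1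
  have z2 : √2 / 2 * (Z.imI - Z.imJ) = X.imJ * Y.imJ + X.imK * Y.imK := by
    rw [h0, hX.1] at e2
    linear_combination -e2
  have z3 : (Z.imI + Z.imJ) ^ 2 = 1 / 2 := by
    rw [← z1] at h1
    linear_combination 2 * h1 - (Z.imI + Z.imJ) ^ 2 / 2 * q2
  have z4 : (Z.imI - Z.imJ) ^ 2 = 1 / 2 := by
    rw [← z2] at h2
    linear_combination 2 * h2 - (Z.imI - Z.imJ) ^ 2 / 2 * q2
  have z5 : Z.imI * Z.imJ = 0 := by linear_combination (z3 - z4) / 4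
  have z6 : Z.imK ^ 2 = 1 / 2 := by linear_combination zn - (z3 + z4) / 2
  obtain ⟨f, hf, ff⟩ := D6_sq z6
  refine ⟨r, hr, ?_, ⟨⟨0, 1, -1, 0⟩, by decide +kernel, ?_⟩, ?_⟩
  · rw [hri]
    ext <;> simp
  · rw [hrX]
    ext <;> simp [q4]
  · rcases mul_eq_zero.1 z5 with h5 | h5
    · obtain ⟨e, he, ee⟩ := D6_sq (x := Z.imJ) (by
        rw [h5] at z3
        linear_combination z3)
      refine ⟨⟨0, 0, e, f⟩, (D6_mem he hf).1, ?_⟩
      rw [← hZ]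
      ext
      · simp [q4, z0]
      · simp [q4, h5]
      · simpa [q4] using ee
      · simpa [q4] using ff
    · obtain ⟨e, he, ee⟩ := D6_sq (x := Z.imI) (by
        rw [h5] at z3
        linear_combination z3)
      refine ⟨⟨0, e, 0, f⟩, (D6_mem he hf).2.1, ?_⟩
      rw [← hZ]
      ext
      · simp [q4, z0]
      · simpa [q4] using ee
      · simp [q4, h5]
      · simpa [q4] using ff

/-- Row D6. `c = 0`, `d = ± 1`, `b' = β i - d i w` (in coordinates `⟨0, β, d w_K, -d w_J⟩`). Let `X, Y` be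
`a, b'` or `b', a` such that `X.imI = 0`, `Y.imI² = 1/4`. `⟪a, b'⟫ = α β + d D`, `D = u_J w_K - u_K w_J`,
`D² = |u|² |w|² - ⟪u, w⟫² = 3/4 - 1/2 = 1/4`, so `⟪X, Y⟫² = 1/4`. `align` (with `p' = i`, `a' = X`,
`p = (√2/2)(i + j)`, `a = (√2/2)(i - j)`) gives a unit `r` with `r i r̄ = (√2/2)(i + j)`, `r X r̄ = (√2/2)(i - j)`;
`Y' = r Y r̄ = y1 i + y2 j + y3 k` is unit, `(√2/2)(y1 + y2) = ± 1/2`, `(√2/2)(y1 - y2) = ± 1/2`, so one of `y1, y2` is
`0` and the other one `± √2/2`, `y3² = 1/2`: `√2 Y'` is integral of norm 2. -/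
theorem s2_align (H : Std s t (-1) 0 d a b) (hS : (a.imJ * b.imJ + a.imK * b.imK) ^ 2 = 1 / 2)
    (h : (a.imI ^ 2 = 0 ∧ b.imI ^ 2 = 1 / 4) ∨ (a.imI ^ 2 = 1 / 4 ∧ b.imI ^ 2 = 0)) :
    ∃ r : ℍ[ℝ], normSq r = 1 ∧
      r * ⟨0, 1, 0, 0⟩ * star r = (√2 / 2 : ℝ) • (⟨0, 1, 1, 0⟩ : ℍ[ℝ]) ∧
      (⟨0, d, 0, 0⟩ : ℍ[ℝ]) ∈ OO r ∧ a ∈ OO r ∧
      (⟨0, b.imI, -(0 * b.imJ - d * b.imK), -(d * b.imJ + 0 * b.imK)⟩ : ℍ[ℝ]) ∈ OO r := by
  have hcd := H.hcd
  have ha := H.ha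
  have hb := H.hb
  have hd2 : d ^ 2 = 1 := by linear_combination hcd
  obtain ⟨b', hb'⟩ : ∃ b' : ℍ[ℝ],
      b' = ⟨0, b.imI, -(0 * b.imJ - d * b.imK), -(d * b.imJ + 0 * b.imK)⟩ := ⟨_, rfl⟩
  have b're : b'.re = 0 := by rw [hb']
  have b'I : b'.imI = b.imI := by rw [hb']
  have b'J : b'.imJ = -(0 * b.imJ - d * b.imK) := by rw [hb']
  have b'K : b'.imK = -(d * b.imJ + 0 * b.imK) := by rw [hb']
  have hUb' : UI b' := by
    refine ⟨b're, ?_⟩
    rw [b'I, b'J, b'K]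
    linear_combination hb.2 + (b.imJ ^ 2 + b.imK ^ 2) * hd2
  have hin : a.imJ * b'.imJ + a.imK * b'.imK = d * (a.imJ * b.imK - a.imK * b.imJ) := by
    rw [b'J, b'K]
    ring
  have hD : (a.imJ * b.imK - a.imK * b.imJ) ^ 2 = 1 / 4 := by
    have e1 : (a.imJ * b.imK - a.imK * b.imJ) ^ 2 =
        (1 - a.imI ^ 2) * (1 - b.imI ^ 2) - (a.imJ * b.imJ + a.imK * b.imK) ^ 2 := by
      linear_combination (a.imJ ^ 2 + a.imK ^ 2) * hb.2 + (1 - b.imI ^ 2) * ha.2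
    rw [e1, hS]
    rcases h with ⟨h3, h4⟩ | ⟨h3, h4⟩ <;> rw [h3, h4] <;> norm_num
  have hin2 : (a.imJ * b'.imJ + a.imK * b'.imK) ^ 2 = 1 / 4 := by
    rw [hin]
    linear_combination (a.imJ * b.imK - a.imK * b.imJ) ^ 2 * hd2 + hD
  have hlO : ∀ r : ℍ[ℝ], normSq r = 1 →
      r * ⟨0, 1, 0, 0⟩ * star r = (√2 / 2 : ℝ) • (⟨0, 1, 1, 0⟩ : ℍ[ℝ]) →
      (⟨0, d, 0, 0⟩ : ℍ[ℝ]) ∈ OO r := by
    intro r hr hri
    obtain ⟨e, he, ee⟩ : ∃ e : ℤ, (e = 1 ∨ e = -1) ∧ d = (e : ℝ) := by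
      rcases sq_eq_sq_iff_eq_or_eq_neg.1 (hd2.trans (one_pow 2).symm) with h | h
      · exact ⟨1, Or.inl rfl, by rw [h]; norm_num⟩
      · exact ⟨-1, Or.inr rfl, by rw [h]; norm_num⟩
    refine ⟨⟨0, e, e, 0⟩, (D6_mem he he).2.2, ?_⟩
    rw [D6_lin hr rfl, hri, ee]
    ext
    · simp [q4]
    · simp [q4]
      ring
    · simp [q4]
      ring
    · simp [q4]
  rw [← hb']
  rcases h with ⟨h3, h4⟩ | ⟨h3, h4⟩
  · have h5 : a.imI = 0 := pow_eq_zero_iff (two_ne_zero) |>.1 h3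
    obtain ⟨r, hr, hri, h6, h7⟩ := D6_core ha hUb' h5 (by rw [b'I]; exact h4) hin2
    exact ⟨r, hr, hri, hlO r hr hri, h6, h7⟩
  · have h5 : b'.imI = 0 := by rw [b'I]; exact pow_eq_zero_iff (two_ne_zero) |>.1 h4
    obtain ⟨r, hr, hri, h6, h7⟩ := D6_core hUb' ha h5 h3 (by
      rw [← hin2]
      ring)
    exact ⟨r, hr, hri, hlO r hr hri, h7, h6⟩

theorem D6_LE : ∀ p ∈ LE, p.b = p.c → p.d = 0 → p.b = 0 ∧ p.a ^ 2 = 4 := by
  decide +kernel

theorem D6_LO : ∀ p ∈ LO, p.b = p.c → p.d = 0 → p.a = 0 ∧ p.b ^ 2 = 1 := by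
  decide +kernel

/-- Row D6. `s2_align`, `par_oct`, `par_fin`, `par_stab`. For the last one: by `oct_sep` (`l = d i`) `x` commutes
with `i`, so `r x r̄ = x0 + x1 (√2/2)(i + j)`: its `k`-component is `0` and the `i`- and `j`-components are equal. In the
list `LE` (entries `± 1` or one entry `± 2`) only `± 2` has this property, in the list `LO` only `± (i + j)`. So
`x = ± 1` or `x = ± i = ± l`. -/
theorem s2_group (H : Std s t (-1) 0 d a b) (hS : (a.imJ * b.imJ + a.imK * b.imK) ^ 2 = 1 / 2)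
    (h : (a.imI ^ 2 = 0 ∧ b.imI ^ 2 = 1 / 4) ∨ (a.imI ^ 2 = 1 / 4 ∧ b.imI ^ 2 = 0)) :
    Finite (GG s t) ∧ ∀ g ∈ GG s t, g 1 = 1 → g ∈ Subgroup.zpowers s := by
  obtain ⟨r, hr, hri, lO, aO, bO⟩ := s2_align H hS h
  have P := par_oct hr
  refine ⟨par_fin H P lO aO bO, par_stab H P lO aO bO ?_⟩
  intro x y hxy _ h1
  have hcd := H.hcd
  have hd2 : d ^ 2 = 1 := by linear_combination hcd
  obtain ⟨_, hc1⟩ := oct_sep hr lO hxy h1
  have hx := D6_comm H.hd hc1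
  obtain ⟨u, hu⟩ : ∃ u, u = x.re := ⟨_, rfl⟩
  obtain ⟨w, hw⟩ : ∃ w, w = x.imI := ⟨_, rfl⟩
  rw [← hu, ← hw] at hx
  have hrx : r * x * star r = ⟨u, √2 / 2 * w, √2 / 2 * w, 0⟩ := by
    rw [hx, D6_lin hr rfl, hri]
    ext
    · simp
    · simp
      ring
    · simp
      ring
    · simp
  have q2 : √2 * √2 = (2 : ℝ) := Real.mul_self_sqrt (by norm_num)
  have qn : (√2 / 2 : ℝ) ≠ 0 := by positivity
  rcases hxy with ⟨⟨p, hp, hpe⟩, _⟩ | ⟨⟨p, hp, hpe⟩, _⟩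
  · rw [hrx] at hpe
    have p0 := congrArg QuaternionAlgebra.re hpe
    have p1 := congrArg QuaternionAlgebra.imI hpe
    have p2 := congrArg QuaternionAlgebra.imJ hpe
    have p3 := congrArg QuaternionAlgebra.imK hpe
    simp only [q4, Quaternion.re_smul, Quaternion.imI_smul, Quaternion.imJ_smul,
      Quaternion.imK_smul, smul_eq_mul] at p0 p1 p2 p3
    have pb : p.b = p.c := by
      have : (p.b : ℝ) = p.c := by linear_combination 2 * p2 - 2 * p1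
      exact_mod_cast this
    have pd : p.d = 0 := by
      have : (p.d : ℝ) = 0 := by linear_combination -2 * p3
      exact_mod_cast this
    obtain ⟨h4, h5⟩ := D6_LE p hp pb pd
    have h6 : w = 0 := by
      rw [h4] at p1
      have : √2 / 2 * w = 0 := by rw [p1]; simp
      exact (mul_eq_zero.1 this).resolve_left qn
    have h7 : u ^ 2 = 1 ^ 2 := by
      have : (p.a : ℝ) ^ 2 = 4 := by exact_mod_cast h5
      rw [p0]
      linear_combination this / 4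
    refine ⟨0, ?_⟩
    rcases sq_eq_sq_iff_eq_or_eq_neg.1 h7 with h8 | h8
    · left
      rw [hx, h6, h8, pow_zero]
      ext <;> simp
    · right
      rw [hx, h6, h8, pow_zero]
      ext <;> simp
  · rw [hrx] at hpe
    have p0 := congrArg QuaternionAlgebra.re hpe
    have p1 := congrArg QuaternionAlgebra.imI hpe
    have p2 := congrArg QuaternionAlgebra.imJ hpe
    have p3 := congrArg QuaternionAlgebra.imK hpe
    simp only [q4, Quaternion.re_smul, Quaternion.imI_smul, Quaternion.imJ_smul,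
      Quaternion.imK_smul, smul_eq_mul] at p0 p1 p2 p3
    have pb : p.b = p.c := by
      have : √2 / 2 * ((p.b : ℝ) - p.c) = 0 := by linear_combination p2 - p1
      have h9 := (mul_eq_zero.1 this).resolve_left qn
      have : (p.b : ℝ) = p.c := by linear_combination h9
      exact_mod_cast this
    have pd : p.d = 0 := by
      have : √2 / 2 * (p.d : ℝ) = 0 := by linear_combination -p3
      have h9 := (mul_eq_zero.1 this).resolve_left qn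
      exact_mod_cast h9
    obtain ⟨h4, h5⟩ := D6_LO p hp pb pd
    have h6 : u = 0 := by rw [p0, h4]; simp
    have h7 : w ^ 2 = d ^ 2 := by
      have h8 : (p.b : ℝ) ^ 2 = 1 := by exact_mod_cast h5
      have h9 : w = p.b := by
        have : √2 / 2 * (w - p.b) = 0 := by linear_combination p1
        linear_combination (mul_eq_zero.1 this).resolve_left qn
      rw [h9, h8, hd2]
    refine ⟨1, ?_⟩
    rcases sq_eq_sq_iff_eq_or_eq_neg.1 h7 with h8 | h8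
    · left
      rw [hx, h6, h8, pow_one]
    · right
      rw [hx, h6, h8, pow_one]
      ext <;> simp

end ChiralQ
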