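import Pool.Agent.Lib.MP_bc704c_co.R.D3b

/-! # MP_bc704c_co, row D7: the chiral tori -/

namespace ChiralQ

open Quaternion ChiralNF

variable {s t : ℍ[ℝ] ≃ₗᵢ[ℝ] ℍ[ℝ]} {d : ℝ} {a b : ℍ[ℝ]}

/-- the elements `x + y P` with `(x + y P) ^ N = 1` (`P` unit imaginary) -/
def TZ (P : ℍ[ℝ]) (N : ℕ) : Set ℍ[ℝ] :=
  {z | ∃ x y : ℝ, z = (x : ℍ[ℝ]) + y • P ∧ x ^ 2 + y ^ 2 = 1 ∧ z ^ N = 1}

/-- the elements `z i`, `z` in `TZ P N` -/
def TO (P : ℍ[ℝ]) (N : ℕ) : Set ℍ[ℝ] := {z | ∃ w ∈ TZ P N, z = w * ⟨0, 1, 0, 0⟩}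

/-- the homomorphism of the complex numbers with `I ↦ P` -/
noncomputable def D7_phi (P : ℍ[ℝ]) (hP : UI P) : ℂ →ₐ[ℝ] ℍ[ℝ] := Complex.liftAux P (UI.mul_self hP)

theorem D7_phi_apply (P : ℍ[ℝ]) (hP : UI P) (z : ℂ) :
    D7_phi P hP z = (z.re : ℍ[ℝ]) + z.im • P := by
  unfold D7_phi
  rw [Complex.liftAux_apply]
  rfl

theorem D7_phi_mk (P : ℍ[ℝ]) (hP : UI P) (x y : ℝ) :
    D7_phi P hP ⟨x, y⟩ = (x : ℍ[ℝ]) + y • P := D7_phi_apply P hP _

theorem D7_inj (P : ℍ[ℝ]) (hP : UI P) : Function.Injective (D7_phi P hP) :=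
  (D7_phi P hP).toRingHom.injective

theorem D7_mem (P : ℍ[ℝ]) (hP : UI P) (N : ℕ) (z : ℍ[ℝ]) :
    z ∈ TZ P N ↔ ∃ w : ℂ, z = D7_phi P hP w ∧ w.re ^ 2 + w.im ^ 2 = 1 ∧ w ^ N = 1 := by
  constructor
  · rintro ⟨x, y, h1, h2, h3⟩
    refine ⟨⟨x, y⟩, ?_, h2, ?_⟩
    · rw [h1, D7_phi_mk]
    · apply D7_inj P hP
      rw [map_pow, map_one, D7_phi_mk, ← h1, h3]
  · rintro ⟨w, h1, h2, h3⟩
    refine ⟨w.re, w.im, ?_, h2, ?_⟩
    · rw [h1, D7_phi_apply]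
    · rw [h1, ← map_pow, h3, map_one]

/-- the quaternion `i` -/
def D7_i : ℍ[ℝ] := ⟨0, 1, 0, 0⟩

theorem D7_memO (P : ℍ[ℝ]) (N : ℕ) (z : ℍ[ℝ]) : z ∈ TO P N ↔ ∃ w ∈ TZ P N, z = w * D7_i := Iff.rfl

theorem D7_comm (P : ℍ[ℝ]) (hP : UI P) (hi : P.imI = 0) (w : ℂ) :
    D7_i * D7_phi P hP w = D7_phi P hP (star w) * D7_i := by
  have h0 : P.re = 0 := hP.1
  rw [D7_phi_apply, D7_phi_apply]
  ext <;> simp [hi, h0, D7_i]

theorem D7_star (P : ℍ[ℝ]) (hP : UI P) (w : ℂ) :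
    star (D7_phi P hP w) = D7_phi P hP (star w) := by
  have h0 : P.re = 0 := hP.1
  rw [D7_phi_apply, D7_phi_apply]
  ext <;> simp [h0]

theorem D7_ii : D7_i * D7_i = -1 := by
  ext <;> simp [D7_i]

theorem D7_stO (P : ℍ[ℝ]) (hP : UI P) (hi : P.imI = 0) (w : ℂ) :
    star (D7_phi P hP w * D7_i) = D7_phi P hP (-w) * D7_i := by
  have h0 : P.re = 0 := hP.1
  rw [D7_phi_apply, D7_phi_apply]
  ext <;> simp [hi, h0, D7_i]

/-- Row D7. `P` is unit imaginary and orthogonal to `i`, `N` even and positive. `i z = z̄ i` for `z = x + y P`, the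
elements `x + y P` commute, `i² = -1 ∈ TZ P N` as `N` is even; conjugates are inverses. Finite: `x + y P` corresponds
to the complex number `x + y I` (a ring homomorphism) with `N`-th power `1`. -/
theorem par_torus {P : ℍ[ℝ]} (hP : UI P) (hi : P.imI = 0) {N : ℕ} (hN : 0 < N) (h2 : Even N) :
    Par (TZ P N) (TO P N) := by
  have hstar : ∀ w : ℂ, w.re ^ 2 + w.im ^ 2 = 1 → w ^ N = 1 →
      (star w).re ^ 2 + (star w).im ^ 2 = 1 ∧ (star w) ^ N = 1 := by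
    intro w h1 h3
    refine ⟨?_, ?_⟩
    · simpa using h1
    · rw [← star_pow, h3, star_one]
  have hneg : ∀ w : ℂ, w.re ^ 2 + w.im ^ 2 = 1 → w ^ N = 1 →
      (-w).re ^ 2 + (-w).im ^ 2 = 1 ∧ (-w) ^ N = 1 := by
    intro w h1 h3
    refine ⟨?_, ?_⟩
    · simpa using h1
    · rw [h2.neg_pow, h3]
  have hmul : ∀ w v : ℂ, w.re ^ 2 + w.im ^ 2 = 1 → w ^ N = 1 → v.re ^ 2 + v.im ^ 2 = 1 →
      v ^ N = 1 → (w * v).re ^ 2 + (w * v).im ^ 2 = 1 ∧ (w * v) ^ N = 1 := by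
    intro w v h1 h3 h4 h5
    refine ⟨?_, ?_⟩
    · have e : (w * v).re ^ 2 + (w * v).im ^ 2 =
          (w.re ^ 2 + w.im ^ 2) * (v.re ^ 2 + v.im ^ 2) := by
        rw [Complex.mul_re, Complex.mul_im]; ring
      rw [e, h1, h4, one_mul]
    · rw [mul_pow, h3, h5, one_mul]
  have hfin : (TZ P N).Finite := by
    refine ((Polynomial.nthRootsFinset N (1 : ℂ)).finite_toSet.image (D7_phi P hP)).subset ?_
    intro z hz
    obtain ⟨w, h1, -, h3⟩ := (D7_mem P hP N z).1 hz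
    refine ⟨w, ?_, h1.symm⟩
    rw [Finset.mem_coe, Polynomial.mem_nthRootsFinset hN]
    exact h3
  refine ⟨hfin, ?_, ?_, ?_, ?_, ?_, ?_, ?_, ?_, ?_⟩
  · refine (hfin.image (fun w => w * D7_i)).subset ?_
    intro z hz
    rw [D7_memO] at hz
    obtain ⟨w, hw, rfl⟩ := hz
    exact ⟨w, hw, rfl⟩
  · rw [D7_mem P hP]
    exact ⟨1, by rw [map_one], by simp, one_pow N⟩
  · rw [D7_mem P hP]
    exact ⟨-1, by rw [map_neg, map_one], by simp, h2.neg_one_pow⟩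
  · intro x hx y hy
    rw [D7_mem P hP] at hx hy ⊢
    obtain ⟨w, rfl, h3, h4⟩ := hx
    obtain ⟨v, rfl, h5, h6⟩ := hy
    exact ⟨w * v, (map_mul _ _ _).symm, hmul w v h3 h4 h5 h6⟩
  · intro x hx y hy
    rw [D7_memO] at hy ⊢
    obtain ⟨y', hy, rfl⟩ := hy
    refine ⟨x * y', ?_, (mul_assoc _ _ _).symm⟩
    rw [D7_mem P hP] at hx hy ⊢
    obtain ⟨w, rfl, h3, h4⟩ := hx
    obtain ⟨v, rfl, h5, h6⟩ := hy
    exact ⟨w * v, (map_mul _ _ _).symm, hmul w v h3 h4 h5 h6⟩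
  · intro x hx y hy
    rw [D7_memO] at hx ⊢
    obtain ⟨x', hx, rfl⟩ := hx
    rw [D7_mem P hP] at hx hy
    obtain ⟨w, rfl, h3, h4⟩ := hx
    obtain ⟨v, rfl, h5, h6⟩ := hy
    refine ⟨D7_phi P hP (w * star v), ?_, ?_⟩
    · rw [D7_mem P hP]
      obtain ⟨h7, h8⟩ := hstar v h5 h6
      exact ⟨w * star v, rfl, hmul w _ h3 h4 h7 h8⟩
    · rw [mul_assoc, D7_comm P hP hi, map_mul, mul_assoc]
  · intro x hx y hy
    rw [D7_memO] at hx hy
    obtain ⟨x', hx, rfl⟩ := hx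
    obtain ⟨y', hy, rfl⟩ := hy
    rw [D7_mem P hP] at hx hy ⊢
    obtain ⟨w, rfl, h3, h4⟩ := hx
    obtain ⟨v, rfl, h5, h6⟩ := hy
    obtain ⟨h7, h8⟩ := hstar v h5 h6
    obtain ⟨h9, h10⟩ := hmul w _ h3 h4 h7 h8
    refine ⟨-(w * star v), ?_, hneg _ h9 h10⟩
    have e : D7_phi P hP w * D7_i * (D7_phi P hP v * D7_i) =
        D7_phi P hP w * (D7_i * D7_phi P hP v) * D7_i := by
      simp only [mul_assoc]
    rw [e, D7_comm P hP hi, map_neg, map_mul, mul_assoc, mul_assoc, D7_ii]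
    simp
  · intro x hx
    rw [D7_mem P hP] at hx ⊢
    obtain ⟨w, rfl, h3, h4⟩ := hx
    exact ⟨star w, D7_star P hP w, hstar w h3 h4⟩
  · intro x hx
    rw [D7_memO] at hx ⊢
    obtain ⟨x', hx, rfl⟩ := hx
    rw [D7_mem P hP] at hx
    obtain ⟨w, rfl, h3, h4⟩ := hx
    refine ⟨D7_phi P hP (-w), ?_, ?_⟩
    · rw [D7_mem P hP]
      exact ⟨-w, rfl, hneg w h3 h4⟩
    · exact D7_stO P hP hi w

/-- Row D7. If `cos (π q)` is the real part of `x + y P` (`x² + y² = 1`, `q` rational) then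
`(x + y P) ^ N = 1` for `N = 2 q.den`: `x + y P = cos φ + (sin φ) P`, `φ = ± π q` (de Moivre, e.g. by the
homomorphism of the complex numbers). -/
theorem pow_of_cos {P : ℍ[ℝ]} (hP : UI P) {x y : ℝ} (hxy : x ^ 2 + y ^ 2 = 1) (q : ℚ)
    (hq : x = Real.cos (Real.pi * q)) : ((x : ℍ[ℝ]) + y • P) ^ (2 * q.den) = 1 := by
  obtain ⟨θ, hθ, h1, h2⟩ : ∃ θ : ℝ, (θ = Real.pi * q ∨ θ = -(Real.pi * q)) ∧
      x = Real.cos θ ∧ y = Real.sin θ := by
    have h3 : y ^ 2 = Real.sin (Real.pi * q) ^ 2 := by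
      have := Real.sin_sq_add_cos_sq (Real.pi * q)
      rw [← hq] at this
      linarith
    rcases sq_eq_sq_iff_eq_or_eq_neg.1 h3 with h | h
    · exact ⟨Real.pi * q, Or.inl rfl, hq, h⟩
    · refine ⟨-(Real.pi * q), Or.inr rfl, ?_, ?_⟩
      · rw [Real.cos_neg, hq]
      · rw [Real.sin_neg, h]
  have h4 : (⟨x, y⟩ : ℂ) = Complex.exp (θ * Complex.I) := by
    rw [Complex.exp_mul_I, ← Complex.ofReal_cos, ← Complex.ofReal_sin]
    apply Complex.ext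
    · simp [h1]
      exact (Complex.cos_ofReal_re θ).symm
    · simp [h2]
      exact (Complex.sin_ofReal_re θ).symm
  have hden : ((q.den : ℕ) : ℂ) ≠ 0 := by exact_mod_cast q.den_ne_zero
  have hqc : (q : ℂ) * q.den = q.num := by
    have : (q : ℚ) * q.den = q.num := Rat.mul_den_eq_num q
    exact_mod_cast this
  have h5 : (⟨x, y⟩ : ℂ) ^ (2 * q.den) = 1 := by
    rw [h4, ← Complex.exp_nat_mul]
    rcases hθ with h | h
    · have e : ((2 * q.den : ℕ) : ℂ) * (θ * Complex.I) = q.num * (2 * Real.pi * Complex.I) := by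
        rw [h, ← hqc]; push_cast; ring
      rw [e, Complex.exp_int_mul_two_pi_mul_I]
    · have e : ((2 * q.den : ℕ) : ℂ) * (θ * Complex.I) =
          ((-q.num : ℤ) : ℂ) * (2 * Real.pi * Complex.I) := by
        rw [h]; push_cast; rw [← hqc]; ring
      rw [e, Complex.exp_int_mul_two_pi_mul_I]
  rw [← D7_phi_mk P hP, ← map_pow, h5, map_one]

/-- Row D7. `c = 0`, `d = ± 1`, `⟪u, w⟫ = 0`. Put `ρ² = |u|²`, `P = i u/ρ` (`ρ ≠ 0` by `Chi`), unit imaginary orthogonal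
to `i`. `b' = β i - d i w`, where `i w` is parallel to `u`: `u` and `b' - β i` are multiples of `P i = u/ρ`... (all of
`i, a, b'` are in the plane `span (i, u) = {z i | z ∈ ℝ + ℝ P}`): `a = (α + y P) i`, `b' = (β + y' P) i`, with
`α² + y² = 1`, `β² + y'² = 1`. `pow_of_cos` for `α`, `β` and `N = 2 q q'`. -/
theorem torus_mem (H : Std s t (-1) 0 d a b) (hS : a.imJ * b.imJ + a.imK * b.imK = 0)
    (h1 : ∃ x : ℚ, a.imI = Real.cos (Real.pi * x)) (h2 : ∃ x : ℚ, b.imI = Real.cos (Real.pi * x)) :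
    ∃ (P : ℍ[ℝ]) (N : ℕ), UI P ∧ P.imI = 0 ∧ 0 < N ∧ Even N ∧
      (⟨0, d, 0, 0⟩ : ℍ[ℝ]) ∈ TO P N ∧ a ∈ TO P N ∧
      (⟨0, b.imI, -(0 * b.imJ - d * b.imK), -(d * b.imJ + 0 * b.imK)⟩ : ℍ[ℝ]) ∈ TO P N := by
  obtain ⟨q1, hq1⟩ := h1
  obtain ⟨q2, hq2⟩ := h2
  have hd2 : d ^ 2 = 1 := by have := H.hcd; linarith
  have hc := H.chi.2
  have ha0 := H.ha.1
  have ha1 := H.ha.2
  have hb1 := H.hb.2
  set r2 := a.imJ ^ 2 + a.imK ^ 2 with hr2
  have hr2pos : 0 < r2 := by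
    rcases eq_or_ne a.imJ 0 with h | h
    · have h' : a.imK ≠ 0 := by
        intro h'
        apply hc
        rw [h, h']
        ring
      positivity
    · positivity
  set r := Real.sqrt r2 with hr
  have hr0 : 0 < r := Real.sqrt_pos.2 hr2pos
  have hrr : r ^ 2 = r2 := Real.sq_sqrt hr2pos.le
  have hrne : r ≠ 0 := hr0.ne'
  set P : ℍ[ℝ] := ⟨0, 0, -a.imK / r, a.imJ / r⟩ with hPdef
  have hP : UI P := by
    refine ⟨rfl, ?_⟩
    show (0 : ℝ) ^ 2 + (-a.imK / r) ^ 2 + (a.imJ / r) ^ 2 = 1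
    field_simp
    rw [hrr, hr2]
    ring
  set μ := (a.imJ * b.imK - a.imK * b.imJ) / r with hμ
  -- b in the frame
  have hbJ : b.imJ * r = -(μ * a.imK) := by
    have e : b.imJ * r ^ 2 = -((a.imJ * b.imK - a.imK * b.imJ) * a.imK) := by
      rw [hrr, hr2]
      linear_combination a.imJ * hS
    rw [hμ]
    field_simp
    linear_combination e
  have hbK : b.imK * r = μ * a.imJ := by
    have e : b.imK * r ^ 2 = (a.imJ * b.imK - a.imK * b.imJ) * a.imJ := by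
      rw [hrr, hr2]
      linear_combination a.imK * hS
    rw [hμ]
    field_simp
    linear_combination e
  have hμ2 : μ ^ 2 = b.imJ ^ 2 + b.imK ^ 2 := by
    have e : (b.imJ ^ 2 + b.imK ^ 2) * r ^ 2 = μ ^ 2 * r ^ 2 := by
      have e1 : (b.imJ ^ 2 + b.imK ^ 2) * r ^ 2 = (b.imJ * r) ^ 2 + (b.imK * r) ^ 2 := by ring
      rw [e1, hbJ, hbK, hrr, hr2]
      ring
    exact (mul_right_cancel₀ (pow_ne_zero 2 hrne) e).symm
  have n1 : a.imI ^ 2 + r ^ 2 = 1 := by rw [hrr, hr2]; linarith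
  have n2 : b.imI ^ 2 + (d * μ) ^ 2 = 1 := by rw [mul_pow, hd2, hμ2]; linarith
  have p1 := pow_of_cos hP n1 q1 hq1
  have p2 := pow_of_cos hP n2 q2 hq2
  refine ⟨P, (2 * q1.den) * (2 * q2.den), hP, rfl, ?_, ?_, ?_, ?_, ?_⟩
  · have := q1.pos
    have := q2.pos
    positivity
  · exact (even_two_mul _).mul_right _
  · refine ⟨(d : ℍ[ℝ]) + (0 : ℝ) • P, ⟨d, 0, rfl, by rw [hd2]; ring, ?_⟩, ?_⟩
    · have e : ((d : ℍ[ℝ]) + (0 : ℝ) • P) ^ 2 = 1 := by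
        rw [zero_smul, add_zero, ← Quaternion.coe_pow, hd2]
        rfl
      rw [mul_assoc, pow_mul, e, one_pow]
    · rw [zero_smul, add_zero]
      ext <;> simp
  · refine ⟨(a.imI : ℍ[ℝ]) + r • P, ⟨a.imI, r, rfl, n1, ?_⟩, ?_⟩
    · rw [pow_mul, p1, one_pow]
    · ext
      · simp [hPdef, ha0]
      · simp [hPdef]
      · simp [hPdef]
        field_simp
      · simp [hPdef]
        field_simp
  · refine ⟨(b.imI : ℍ[ℝ]) + (d * μ) • P, ⟨b.imI, d * μ, rfl, n2, ?_⟩, ?_⟩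
    · rw [mul_comm (2 * q1.den), pow_mul, p2, one_pow]
    · ext
      · simp [hPdef]
      · simp [hPdef]
      · simp [hPdef]
        field_simp
        linear_combination d * hbK
      · simp [hPdef]
        field_simp
        linear_combination d * hbJ

/-- Row D7. `torus_mem`, `par_torus`, `par_fin`, `par_stab`. For the last one let `y (1 - l) = (1 - l) x`, `l = d i`,
`P = p j + q k`. Even: `x = x0 + x1 P`, `y = y0 + y1 P`: the coefficients of `1, i, j, k` give `y0 = x0` and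
`y1 P + .. i P = x1 P - .. i P`, so `x1 = 0 = y1` (`P` and `i P` are independent): `x = ± 1 = ± l ^ 0`. Odd:
`x = (x0 + x1 P) i`, the same: `x1 = 0`, `x = ± i = ± l`. -/
theorem torus_group (H : Std s t (-1) 0 d a b) (hS : a.imJ * b.imJ + a.imK * b.imK = 0)
    (h1 : ∃ x : ℚ, a.imI = Real.cos (Real.pi * x)) (h2 : ∃ x : ℚ, b.imI = Real.cos (Real.pi * x)) :
    Finite (GG s t) ∧ ∀ g ∈ GG s t, g 1 = 1 → g ∈ Subgroup.zpowers s := by
  obtain ⟨P, N, hP, hi, hN, hE, hl, hA, hB⟩ := torus_mem H hS h1 h2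
  have hpar := par_torus hP hi hN hE
  refine ⟨par_fin H hpar hl hA hB, par_stab H hpar hl hA hB ?_⟩
  have hd2 : d ^ 2 = 1 := by have := H.hcd; linarith
  have hP0 : P.re = 0 := hP.1
  have hP1 : P.imJ ^ 2 + P.imK ^ 2 = 1 := by have := hP.2; rw [hi] at this; linarith
  have hmain : ∀ x1 y1 : ℝ, y1 * P.imJ - d * (y1 * P.imK) = x1 * P.imJ + d * (x1 * P.imK) →
      y1 * P.imK + d * (y1 * P.imJ) = x1 * P.imK - d * (x1 * P.imJ) → x1 = 0 ∧ y1 = 0 := by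
    intro x1 y1 g1 g2
    have g3 : y1 = x1 := by linear_combination P.imJ * g1 + P.imK * g2 + (x1 - y1) * hP1
    have g4 : d * (y1 + x1) = 0 := by
      linear_combination P.imJ * g2 - P.imK * g1 - (d * (y1 + x1)) * hP1
    have hd0 : d ≠ 0 := H.hd
    have g5 : y1 + x1 = 0 := (mul_eq_zero.1 g4).resolve_left hd0
    constructor <;> linarith
  rintro x y (⟨⟨x0, x1, hx, hxn, -⟩, ⟨y0, y1, hy, -, -⟩⟩ | ⟨hx, hy⟩) hn h
  · rw [hx, hy] at h
    have e0 := congrArg QuaternionAlgebra.re h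
    have e2 := congrArg QuaternionAlgebra.imJ h
    have e3 := congrArg QuaternionAlgebra.imK h
    simp [hi, hP0] at e0 e2 e3
    obtain ⟨f1, f2⟩ := hmain x1 y1 (by linarith) (by linarith)
    rw [f1] at hxn
    have hx0 : x0 ^ 2 = 1 := by linarith
    refine ⟨0, ?_⟩
    rw [pow_zero, hx, f1, zero_smul, add_zero]
    have hx1 : (x0 - 1) * (x0 + 1) = 0 := by linear_combination hx0
    rcases mul_eq_zero.1 hx1 with g | g
    · left
      have g' : x0 = 1 := by linarith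
      rw [g']; rfl
    · right
      have g' : x0 = -1 := by linarith
      rw [g']
      ext <;> simp
  · rw [D7_memO] at hx hy
    obtain ⟨x', ⟨x0, x1, rfl, hxn, -⟩, rfl⟩ := hx
    obtain ⟨y', ⟨y0, y1, rfl, -, -⟩, rfl⟩ := hy
    have e1 := congrArg QuaternionAlgebra.imI h
    have e2 := congrArg QuaternionAlgebra.imJ h
    have e3 := congrArg QuaternionAlgebra.imK h
    simp [hi, hP0, D7_i] at e1 e2 e3
    obtain ⟨f1, f2⟩ := hmain x1 y1 (by linarith) (by linarith)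
    rw [f1] at hxn
    have hx1 : (x0 - d) * (x0 + d) = 0 := by linear_combination hxn - hd2
    refine ⟨1, ?_⟩
    rw [pow_one, f1, zero_smul, add_zero]
    rcases mul_eq_zero.1 hx1 with g | g
    · left
      have g' : x0 = d := by linarith
      rw [g']
      ext <;> simp [D7_i]
    · right
      have g' : x0 = -d := by linarith
      rw [g']
      ext <;> simp [D7_i]

end ChiralQ
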