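import Pool.Agent.Lib.MP_bc704c_co.R.U1

/-! # MP_bc704c_co, row U1: equal invariants give conjugate generators -/

namespace ChiralQ

open Quaternion ChiralNF

variable {s t s' t' s₂ t₂ : ℍ[ℝ] ≃ₗᵢ[ℝ] ℍ[ℝ]} {ε c d ε' c' d' : ℝ} {a b a' b' : ℍ[ℝ]}

theorem U1b_star : ∃ R : ℍ[ℝ] ≃ₗᵢ[ℝ] ℍ[ℝ], ∀ v, R v = star v := by
  let e : ℍ[ℝ] ≃ₗ[ℝ] ℍ[ℝ] :=
    { toFun := fun v => star v
      invFun := fun v => star v
      map_add' := fun v w => star_add v w
      map_smul' := fun r v => by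
        show star (r • v) = r • star v
        ext <;> simp
      left_inv := fun v => star_star v
      right_inv := fun v => star_star v }
  exact ⟨⟨e, fun v => Quaternion.norm_star v⟩, fun v => rfl⟩

theorem U1b_neg (H : Std s t ε c d a b) : Std s t ε c d (-a) (-b) where
  hε := H.hε
  hcd := H.hcd
  hd := H.hd
  ha := by
    obtain ⟨h0, h1⟩ := H.ha
    refine ⟨by simp [h0], ?_⟩
    simp only [Quaternion.imI_neg, Quaternion.imJ_neg, Quaternion.imK_neg]
    linear_combination h1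
  hb := by
    obtain ⟨h0, h1⟩ := H.hb
    refine ⟨by simp [h0], ?_⟩
    simp only [Quaternion.imI_neg, Quaternion.imJ_neg, Quaternion.imK_neg]
    linear_combination h1
  chi := by
    obtain ⟨h0, h1⟩ := H.chi
    refine ⟨?_, ?_⟩
    · simp only [Quaternion.imI_neg]
      intro h
      exact h0 (by linear_combination h)
    · simp only [Quaternion.imJ_neg, Quaternion.imK_neg]
      intro h
      exact h1 (by linear_combination h)
  hs := H.hs
  ht := by
    intro v
    rw [H.ht, tF, tF, star_neg]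
    noncomm_ring

/-- the conjugation exchanges `a` and `b` -/
theorem U1b_swap (H : Std s t ε c d a b) : ∃ t₂ : ℍ[ℝ] ≃ₗᵢ[ℝ] ℍ[ℝ], Std s t₂ ε c d b a ∧
    ∃ R, Cnj R s t s t₂ := by
  obtain ⟨t₂, ht₂⟩ := exists_tIso H.hb.normSq H.ha.normSq
  obtain ⟨R, hR⟩ := U1b_star
  refine ⟨t₂, ?_, R, ?_, Or.inl ?_, ?_⟩
  · exact {
      hε := H.hε
      hcd := H.hcd
      hd := H.hd
      ha := H.hb
      hb := H.ha
      chi := ⟨fun h => H.chi.1 h.symm, fun h => H.chi.2 (by linear_combination -h)⟩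
      hs := H.hs
      ht := ht₂ }
  · rw [hR, star_one]
  · intro v
    rw [hR, hR, H.hs, H.hs]
    ext
    · simp [sF]
    · simp [sF]
    · simp [sF]
      ring
    · simp [sF]
      ring
  · intro v
    rw [hR, hR, H.ht, ht₂, tF, tF, star_mul, star_mul, star_star, mul_assoc]

/-- Row U1. `(α' + β')² = (α + β)²`, `(α' - β')² = (α - β)²`, so `(α', β')` is `± (α, β)` or `± (β, α)`. The pair
`-a', -b'` gives the same `t'` (`Std s' t' ε c d' (-a') (-b')`). The map `R v = v̄` is a linear isometry which fixes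
`1`, `R (a v b̄) = b (R v) ā`, `R (s v) = s (R v)`: so `Cnj R s t s t₂` with `Std s t₂ ε c d b a` (`t₂ v = b v ā`,
`exists_tIso`). So reduce to `cnj_same`. -/
theorem cnj_of_inv (H : Std s t ε c d a b) (H' : Std s' t' ε' c' d' a' b')
    (h : Inv ε c a b ε' c' a' b') : ∃ R, Cnj R s t s' t' := by
  obtain ⟨rfl, rfl, h1, h2, h3⟩ := h
  have key : ∀ {a₂ b₂ : ℍ[ℝ]}, Std s' t' ε c d' a₂ b₂ → a.imI + b.imI = a₂.imI + b₂.imI →
      a₂.imI ^ 2 + b₂.imI ^ 2 = a.imI ^ 2 + b.imI ^ 2 → a₂.imI * b₂.imI = a.imI * b.imI →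
      a.imJ * b.imJ + a.imK * b.imK = a₂.imJ * b₂.imJ + a₂.imK * b₂.imK →
      ∃ R, Cnj R s t s' t' := by
    intro a₂ b₂ H2 k1 k2 k3 k4
    have k5 : (a₂.imI - b₂.imI - (a.imI - b.imI)) * (a₂.imI - b₂.imI + (a.imI - b.imI)) = 0 := by
      linear_combination k2 - 2 * k3
    rcases mul_eq_zero.1 k5 with k6 | k6
    · exact cnj_same H H2 (by linarith) (by linarith) k4
    · obtain ⟨t₂, Ht₂, R, hR⟩ := U1b_swap H
      obtain ⟨R', hR'⟩ := cnj_same Ht₂ H2 (by linarith) (by linarith) (by linear_combination k4)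
      exact ⟨_, hR.trans hR'⟩
  have k7 : (a'.imI + b'.imI - (a.imI + b.imI)) * (a'.imI + b'.imI + (a.imI + b.imI)) = 0 := by
    linear_combination -h1 - 2 * h2
  rcases mul_eq_zero.1 k7 with k8 | k8
  · exact key H' (by linarith) h1.symm h2.symm h3
  · refine key (U1b_neg H') ?_ ?_ ?_ ?_
    · simp only [Quaternion.imI_neg]
      linarith
    · simp only [Quaternion.imI_neg]
      linear_combination -h1
    · simp only [Quaternion.imI_neg]
      linear_combination -h2
    · simp only [Quaternion.imJ_neg, Quaternion.imK_neg]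
      linear_combination h3

end ChiralQ
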