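import Pool.Agent.Lib.MP_bc704c_co.R.U0

/-! # MP_bc704c_co, row U2: conjugate generators have equal invariants -/

namespace ChiralQ

open Quaternion ChiralNF

variable {s t s' t' : ℍ[ℝ] ≃ₗᵢ[ℝ] ℍ[ℝ]} {ε c d ε' c' d' : ℝ} {a b a' b' : ℍ[ℝ]}

/-- the inner product in coordinates -/
theorem U2_inner (x y : ℍ[ℝ]) :
    inner ℝ x y = x.re * y.re + x.imI * y.imI + x.imJ * y.imJ + x.imK * y.imK := by
  rw [Quaternion.inner_def]
  simp only [Quaternion.re_mul, Quaternion.re_star, Quaternion.imI_star, Quaternion.imJ_star,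
    Quaternion.imK_star]
  ring

/-- the inner product is preserved, in coordinates -/
theorem U2_pres (R : ℍ[ℝ] ≃ₗᵢ[ℝ] ℍ[ℝ]) (x y : ℍ[ℝ]) :
    (R x).re * (R y).re + (R x).imI * (R y).imI + (R x).imJ * (R y).imJ + (R x).imK * (R y).imK =
      x.re * y.re + x.imI * y.imI + x.imJ * y.imJ + x.imK * y.imK := by
  rw [← U2_inner, ← U2_inner]
  exact R.inner_map_map x y

theorem U2_smul (R : ℍ[ℝ] ≃ₗᵢ[ℝ] ℍ[ℝ]) {x y : ℍ[ℝ]} (r : ℝ) (h : y = r • x) :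
    R y = r • R x := by
  rw [h]
  exact map_smul R r x

theorem U2_neg (R : ℍ[ℝ] ≃ₗᵢ[ℝ] ℍ[ℝ]) {x y : ℍ[ℝ]} (h : y = -x) : R y = -R x := by
  rw [h]
  exact map_neg R x

/-- the image of `i` and of `j` under `R` -/
theorem U2_main (H : Std s t ε c d a b) (H' : Std s' t' ε' c' d' a' b')
    {R : ℍ[ℝ] ≃ₗᵢ[ℝ] ℍ[ℝ]} (h1 : R 1 = 1)
    (hs : (∀ v, R (s v) = s' (R v)) ∨ (∀ v, R (s v) = s'.symm (R v))) :
    ε = ε' ∧ c = c' ∧ (R ⟨0, 1, 0, 0⟩ = ⟨0, 1, 0, 0⟩ ∨ R ⟨0, 1, 0, 0⟩ = ⟨0, -1, 0, 0⟩) := by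
  have hεε : ε * ε = 1 := by rcases H.hε with h | h <;> rw [h] <;> norm_num
  -- the image of `i`
  obtain ⟨x, hx⟩ : ∃ x, x = R ⟨0, 1, 0, 0⟩ := ⟨_, rfl⟩
  have hx0 : x.re = 0 := by
    have h := U2_pres R 1 ⟨0, 1, 0, 0⟩
    rw [h1, ← hx] at h
    simpa using h
  have hxn : x.imI * x.imI + x.imJ * x.imJ + x.imK * x.imK = 1 := by
    have h := U2_pres R ⟨0, 1, 0, 0⟩ ⟨0, 1, 0, 0⟩
    rw [← hx, hx0] at h
    simpa using h
  have hsi : s ⟨0, 1, 0, 0⟩ = ε • (⟨0, 1, 0, 0⟩ : ℍ[ℝ]) := by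
    rw [H.hs]
    ext <;> simp [sF]
  have hsx : s' x = ε • x := by
    have hsi' : R (s ⟨0, 1, 0, 0⟩) = ε • x := by
      rw [hx]
      exact U2_smul R ε hsi
    rcases hs with h | h
    · rw [← hsi', h, ← hx]
    · have h2 := h ⟨0, 1, 0, 0⟩
      rw [hsi', ← hx] at h2
      have h3 : s' (ε • x) = x := by rw [h2, LinearIsometryEquiv.apply_symm_apply]
      rw [U2_smul s' ε rfl] at h3
      calc s' x = ε • (ε • s' x) := by rw [smul_smul, hεε, one_smul]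
        _ = ε • x := by rw [h3]
  rw [H'.hs] at hsx
  have e1 : ε' * x.imI = ε * x.imI := congrArg (fun z : ℍ[ℝ] => z.imI) hsx
  have e2 : c' * x.imJ - d' * x.imK = ε * x.imJ := congrArg (fun z : ℍ[ℝ] => z.imJ) hsx
  have e3 : d' * x.imJ + c' * x.imK = ε * x.imK := congrArg (fun z : ℍ[ℝ] => z.imK) hsx
  have hd2 : 0 < d' ^ 2 := by
    have := H'.hd
    positivity
  have hq : (c' - ε) ^ 2 + d' ^ 2 ≠ 0 := by
    have := sq_nonneg (c' - ε)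
    linarith
  have xJ : x.imJ = 0 := by
    have : ((c' - ε) ^ 2 + d' ^ 2) * x.imJ = 0 := by
      linear_combination (c' - ε) * e2 + d' * e3
    exact (mul_eq_zero.1 this).resolve_left hq
  have xK : x.imK = 0 := by
    have : ((c' - ε) ^ 2 + d' ^ 2) * x.imK = 0 := by
      linear_combination (c' - ε) * e3 - d' * e2
    exact (mul_eq_zero.1 this).resolve_left hq
  rw [xJ, xK] at hxn
  have hxI : x.imI * x.imI = 1 := by linarith
  have hxI0 : x.imI ≠ 0 := by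
    intro h0
    rw [h0] at hxI
    norm_num at hxI
  have hε : ε = ε' := (mul_right_cancel₀ hxI0 e1).symm
  have hcase : x.imI = 1 ∨ x.imI = -1 := mul_self_eq_one_iff.1 hxI
  have hRi : R ⟨0, 1, 0, 0⟩ = ⟨0, 1, 0, 0⟩ ∨ R ⟨0, 1, 0, 0⟩ = ⟨0, -1, 0, 0⟩ := by
    rw [← hx]
    rcases hcase with h | h
    · left
      exact Quaternion.ext _ _ hx0 h xJ xK
    · right
      exact Quaternion.ext _ _ hx0 h xJ xK
  -- the image of `j`
  obtain ⟨y, hy⟩ : ∃ y, y = R ⟨0, 0, 1, 0⟩ := ⟨_, rfl⟩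
  have hy0 : y.re = 0 := by
    have h := U2_pres R 1 ⟨0, 0, 1, 0⟩
    rw [h1, ← hy] at h
    simpa using h
  have hyI : y.imI = 0 := by
    have h := U2_pres R ⟨0, 1, 0, 0⟩ ⟨0, 0, 1, 0⟩
    rw [← hx, ← hy, hy0, xJ, xK] at h
    have h2 : x.imI * y.imI = 0 := by simpa using h
    exact (mul_eq_zero.1 h2).resolve_left hxI0
  have hyn : y.imJ * y.imJ + y.imK * y.imK = 1 := by
    have h := U2_pres R ⟨0, 0, 1, 0⟩ ⟨0, 0, 1, 0⟩
    rw [← hy, hy0, hyI] at h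
    simpa using h
  have hsj : s ⟨0, 0, 1, 0⟩ = (⟨0, 0, c, d⟩ : ℍ[ℝ]) := by
    rw [H.hs]
    ext <;> simp [sF]
  have hc : c = c' := by
    rcases hs with h | h
    · have h2 := U2_pres R ⟨0, 0, 1, 0⟩ (s ⟨0, 0, 1, 0⟩)
      rw [h, ← hy, H'.hs, hsj] at h2
      simp only [sF, hy0, hyI] at h2
      have h3 : y.imJ * (c' * y.imJ - d' * y.imK) + y.imK * (d' * y.imJ + c' * y.imK) = c := by
        simpa using h2
      linear_combination -h3 + c' * hyn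
    · have h2 := U2_pres R ⟨0, 0, 1, 0⟩ (s ⟨0, 0, 1, 0⟩)
      rw [h, ← hy] at h2
      have h4 := U2_pres s' y (s'.symm y)
      rw [LinearIsometryEquiv.apply_symm_apply] at h4
      rw [← h4, H'.hs, hsj] at h2
      simp only [sF, hy0, hyI] at h2
      have h3 : (c' * y.imJ - d' * y.imK) * y.imJ + (d' * y.imJ + c' * y.imK) * y.imK = c := by
        simpa using h2
      linear_combination -h3 + c' * hyn
  exact ⟨hε, hc, hRi⟩

/-- Row U2. `R i` is orthogonal to `1` and `s' (R i) = ε (R i)` in both cases, so the part of `R i` in the plane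
of `j, k` is `0` (`d' ≠ 0`) and `R i = ± i`, `ε' = ε`. `R j` is a unit vector in the plane of `j, k` (orthogonal to
`1, R i`), `⟪j, s j⟫ = c = ⟪R j, R (s j)⟫ = ⟪R j, s'^{± 1} (R j)⟫ = c'`. -/
theorem cnj_eps (H : Std s t ε c d a b) (H' : Std s' t' ε' c' d' a' b')
    {R : ℍ[ℝ] ≃ₗᵢ[ℝ] ℍ[ℝ]} (h : Cnj R s t s' t') :
    ε = ε' ∧ c = c' ∧ (R ⟨0, 1, 0, 0⟩ = ⟨0, 1, 0, 0⟩ ∨ R ⟨0, 1, 0, 0⟩ = ⟨0, -1, 0, 0⟩) :=
  U2_main H H' h.1 h.2.1

/-- Row U2. In coordinates `⟪1, t 1⟫ = α β + ⟪u, w⟫`, `⟪i, t i⟫ = α β - ⟪u, w⟫`, `⟪i, t 1⟫ = -(u_J w_K - u_K w_J)`,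
and the square of the last one is `(1 - α²)(1 - β²) - ⟪u, w⟫²`. `R` preserves inner products, `R 1 = 1`,
`R i = ± i`, `R (t v) = t' (R v)`. -/
theorem inv_of_cnj (H : Std s t ε c d a b) (H' : Std s' t' ε' c' d' a' b')
    {R : ℍ[ℝ] ≃ₗᵢ[ℝ] ℍ[ℝ]} (h : Cnj R s t s' t') : Inv ε c a b ε' c' a' b' := by
  obtain ⟨hε, hc, hRi⟩ := cnj_eps H H' h
  obtain ⟨h1, -, ht⟩ := h
  obtain ⟨a0, an⟩ := H.ha
  obtain ⟨b0, bn⟩ := H.hb
  obtain ⟨a0', an'⟩ := H'.ha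
  obtain ⟨b0', bn'⟩ := H'.hb
  -- the vectors `t 1` and `t i`
  have T1 : ∀ {t : ℍ[ℝ] ≃ₗᵢ[ℝ] ℍ[ℝ]} {a b : ℍ[ℝ]}, (∀ v, t v = tF a b v) → a.re = 0 → b.re = 0 →
      (t 1).re = a.imI * b.imI + a.imJ * b.imJ + a.imK * b.imK ∧
      (t 1).imI = -(a.imJ * b.imK - a.imK * b.imJ) := by
    intro t a b ht h0 h0'
    rw [ht]
    constructor
    · simp only [tF, mul_one, Quaternion.re_mul, Quaternion.re_star, Quaternion.imI_star,
        Quaternion.imJ_star, Quaternion.imK_star, h0, h0']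
      ring
    · simp only [tF, mul_one, Quaternion.imI_mul, Quaternion.re_star, Quaternion.imI_star,
        Quaternion.imJ_star, Quaternion.imK_star, h0, h0']
      ring
  have Ti : ∀ {t : ℍ[ℝ] ≃ₗᵢ[ℝ] ℍ[ℝ]} {a b : ℍ[ℝ]}, (∀ v, t v = tF a b v) → a.re = 0 → b.re = 0 →
      (t ⟨0, 1, 0, 0⟩).imI = a.imI * b.imI - (a.imJ * b.imJ + a.imK * b.imK) := by
    intro t a b ht h0 h0'
    rw [ht]
    simp only [tF, Quaternion.imI_mul, Quaternion.re_mul, Quaternion.imJ_mul, Quaternion.imK_mul,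
      Quaternion.re_star, Quaternion.imI_star, Quaternion.imJ_star, Quaternion.imK_star, h0, h0']
    ring
  obtain ⟨p1, p2⟩ := T1 H.ht a0 b0
  obtain ⟨p1', p2'⟩ := T1 H'.ht a0' b0'
  have p3 := Ti H.ht a0 b0
  have p3' := Ti H'.ht a0' b0'
  have q1 : (t 1).re = (t' 1).re := by
    have h := U2_pres R 1 (t 1)
    rw [ht, h1] at h
    simpa using h.symm
  have q2 : (t ⟨0, 1, 0, 0⟩).imI = (t' ⟨0, 1, 0, 0⟩).imI := by
    have h := U2_pres R ⟨0, 1, 0, 0⟩ (t ⟨0, 1, 0, 0⟩)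
    rw [ht] at h
    rcases hRi with e | e
    · rw [e] at h
      simpa using h.symm
    · have e2 : (⟨0, -1, 0, 0⟩ : ℍ[ℝ]) = -⟨0, 1, 0, 0⟩ := by
        ext <;> simp
      rw [e, U2_neg t' e2] at h
      simpa using h.symm
  have q3 : (t 1).imI ^ 2 = (t' 1).imI ^ 2 := by
    have h := U2_pres R ⟨0, 1, 0, 0⟩ (t 1)
    rw [ht, h1] at h
    rcases hRi with e | e
    · rw [e] at h
      have h2 : (t' 1).imI = (t 1).imI := by simpa using h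
      rw [h2]
    · rw [e] at h
      have h2 : -(t' 1).imI = (t 1).imI := by simpa using h
      rw [← h2]
      ring
  rw [p1, p1'] at q1
  rw [p3, p3'] at q2
  rw [p2, p2'] at q3
  have r1 : a.imI * b.imI = a'.imI * b'.imI := by linarith
  have r2 : a.imJ * b.imJ + a.imK * b.imK = a'.imJ * b'.imJ + a'.imK * b'.imK := by linarith
  refine ⟨hε, hc, ?_, r1, r2⟩
  have k1 : (a.imJ * b.imK - a.imK * b.imJ) ^ 2 + (a.imJ * b.imJ + a.imK * b.imK) ^ 2 =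
      (1 - a.imI ^ 2) * (1 - b.imI ^ 2) := by
    have ea : 1 - a.imI ^ 2 = a.imJ ^ 2 + a.imK ^ 2 := by linarith
    have eb : 1 - b.imI ^ 2 = b.imJ ^ 2 + b.imK ^ 2 := by linarith
    rw [ea, eb]
    ring
  have k1' : (a'.imJ * b'.imK - a'.imK * b'.imJ) ^ 2 + (a'.imJ * b'.imJ + a'.imK * b'.imK) ^ 2 =
      (1 - a'.imI ^ 2) * (1 - b'.imI ^ 2) := by
    have ea : 1 - a'.imI ^ 2 = a'.imJ ^ 2 + a'.imK ^ 2 := by linarith
    have eb : 1 - b'.imI ^ 2 = b'.imJ ^ 2 + b'.imK ^ 2 := by linarith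
    rw [ea, eb]
    ring
  rw [← r2] at k1'
  have r3 : (a.imI * b.imI) ^ 2 = (a'.imI * b'.imI) ^ 2 := by rw [r1]
  linear_combination k1 - k1' - q3 + r3

end ChiralQ
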