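import Pool.Agent.Lib.MP_bc704c_co.R.U3

/-! # MP_bc704c_co, row U3: models with conjugate generators are similar -/

namespace ChiralQ

open Quaternion ChiralNF

universe u u'

variable {F : Type u} [PartialOrder F] [BoundedOrder F] {rk : F → ℤ}
  {β : F → EuclideanSpace ℝ (Fin 4)} {Φ : EuclideanSpace ℝ (Fin 4) → ℍ[ℝ]}
  {F' : Type u'} [PartialOrder F'] [BoundedOrder F'] {rk' : F' → ℤ}
  {β' : F' → EuclideanSpace ℝ (Fin 4)} {Φ' : EuclideanSpace ℝ (Fin 4) → ℍ[ℝ]}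
  {s t s' t' : ℍ[ℝ] ≃ₗᵢ[ℝ] ℍ[ℝ]}

/-- Row U3b. A face of rank `-1` is `⊥`. -/
theorem U3b_bot (hP : IsPolytope 3 F rk) {x : F} (hx : rk x = -1) : x = ⊥ := by
  by_contra hne
  have h1 := hP.rk_mono (bot_lt_iff_ne_bot.mpr hne)
  rw [hP.rk_bot] at h1
  omega

/-- Row U3b. A face of rank `3` is `⊤`. -/
theorem U3b_top (hP : IsPolytope 3 F rk) {x : F} (hx : rk x = 3) : x = ⊤ := by
  by_contra hne
  have h1 := hP.rk_mono (lt_top_iff_ne_top.mpr hne)
  rw [hP.rk_top] at h1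
  push_cast at h1
  omega

/-- Row U3b. The vertex set of `⊥` is empty. -/
theorem U3b_vbot (hP : IsPolytope 3 F rk) : vset rk β (⊥ : F) = ∅ := by
  rw [Set.eq_empty_iff_forall_notMem]
  rintro p ⟨z, ⟨hz, hzb⟩, -⟩
  have h1 : z = ⊥ := le_bot_iff.mp hzb
  rw [h1, hP.rk_bot] at hz
  omega

/-- Row U3b. The vertex set of a vertex. -/
theorem U3b_vvert (hP : IsPolytope 3 F rk) {x : F} (hx : rk x = 0) : vset rk β x = {β x} := by
  ext p
  constructor
  · rintro ⟨z, ⟨hz, hzx⟩, rfl⟩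
    rcases hzx.eq_or_lt with h | h
    · rw [h]
      exact Set.mem_singleton _
    · have h1 := hP.rk_mono h
      omega
  · intro hp
    rw [Set.mem_singleton_iff] at hp
    exact ⟨x, ⟨hx, le_refl _⟩, hp.symm⟩

/-- Row U3b. `Φ` is injective. -/
theorem U3b_inj (M : Model rk β Φ s t) : Function.Injective Φ := by
  obtain ⟨r, hr, h⟩ := M.sim
  intro x y hxy
  have h1 := h x y
  rw [hxy, dist_self] at h1
  have h2 : dist x y = 0 := by
    rcases mul_eq_zero.mp h1.symm with h3 | h3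
    · exact absurd h3 hr.ne'
    · exact h3
  exact dist_eq_zero.mp h2

/-- Row U3b. The image of the vertex set of `⊤`. -/
theorem U3b_vtop (M : Model rk β Φ s t) :
    Φ '' vset rk β (⊤ : F) = {p | ∃ g ∈ GG s t, g 1 = p} := by
  ext p
  rw [Set.mem_setOf_eq, ← M.vert p]
  constructor
  · rintro ⟨q, ⟨z, ⟨hz, -⟩, rfl⟩, rfl⟩
    exact ⟨z, hz, rfl⟩
  · rintro ⟨z, hz, rfl⟩
    exact ⟨β z, ⟨z, ⟨hz, le_top⟩, rfl⟩, rfl⟩

/-- Row U3b. The corresponding face. -/
theorem U3b_corr (hP : IsPolytope 3 F rk) (hP' : IsPolytope 3 F' rk') (M : Model rk β Φ s t)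
    (M' : Model rk' β' Φ' s t) (x : F) :
    ∃ y : F', rk' y = rk x ∧ Φ' '' vset rk' β' y = Φ '' vset rk β x := by
  obtain ⟨h1, h2⟩ := hP.rk_range x
  push_cast at h2
  have hc : rk x = -1 ∨ rk x = 0 ∨ rk x = 1 ∨ rk x = 2 ∨ rk x = 3 := by omega
  rcases hc with h | h | h | h | h
  · refine ⟨⊥, ?_, ?_⟩
    · rw [hP'.rk_bot, h]
    · rw [U3b_bot hP h, U3b_vbot hP, U3b_vbot hP', Set.image_empty, Set.image_empty]
  · obtain ⟨y, hy, hyx⟩ := (M'.vert (Φ (β x))).mpr ((M.vert (Φ (β x))).mp ⟨x, h, rfl⟩)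
    refine ⟨y, by rw [hy, h], ?_⟩
    rw [U3b_vvert hP h, U3b_vvert hP' hy, Set.image_singleton, Set.image_singleton, hyx]
  · obtain ⟨y, hy, hyx⟩ := (M'.edge (Φ '' vset rk β x)).mpr ((M.edge (Φ '' vset rk β x)).mp ⟨x, h, rfl⟩)
    exact ⟨y, by rw [hy, h], hyx⟩
  · obtain ⟨y, hy, hyx⟩ := (M'.face (Φ '' vset rk β x)).mpr ((M.face (Φ '' vset rk β x)).mp ⟨x, h, rfl⟩)
    exact ⟨y, by rw [hy, h], hyx⟩
  · refine ⟨⊤, ?_, ?_⟩
    · rw [hP'.rk_top, h]
      norm_num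
    · rw [U3b_top hP h, U3b_vtop M, U3b_vtop M']

/-- Row U3b. Corresponding vertices have the same point. -/
theorem U3b_pt (hP : IsPolytope 3 F rk) (hP' : IsPolytope 3 F' rk') {x : F} {y : F'}
    (hr : rk' y = rk x) (hV : Φ' '' vset rk' β' y = Φ '' vset rk β x) (hx : rk x = 0) :
    Φ' (β' y) = Φ (β x) := by
  rw [U3b_vvert hP hx, U3b_vvert hP' (hr.trans hx), Set.image_singleton, Set.image_singleton,
    Set.singleton_eq_singleton_iff] at hV
  exact hV

/-- Row U3b. The correspondence is monotone. -/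
theorem U3b_mono (hP : IsPolytope 3 F rk) (hP' : IsPolytope 3 F' rk')
    (hβ' : IsRealization rk' β') (M : Model rk β Φ s t) (M' : Model rk' β' Φ' s t)
    {φ : F → F'} (hr : ∀ x, rk' (φ x) = rk x)
    (hV : ∀ x, Φ' '' vset rk' β' (φ x) = Φ '' vset rk β x) : Monotone φ := by
  intro x y hxy
  rcases hxy.eq_or_lt with h | h
  · rw [h]
  have hlt := hP.rk_mono h
  obtain ⟨h1, -⟩ := hP.rk_range x
  obtain ⟨-, h2⟩ := hP.rk_range y
  push_cast at h2
  have hc : rk x = -1 ∨ rk x = 0 ∨ (rk x = 1 ∧ rk y = 2) ∨ rk y = 3 := by omega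
  rcases hc with hx | hx | ⟨hx, hy⟩ | hy
  · have : φ x = ⊥ := U3b_bot hP' ((hr x).trans hx)
    rw [this]
    exact bot_le
  · have h3 : Φ (β x) ∈ Φ' '' vset rk' β' (φ y) := by
      rw [hV]
      exact ⟨β x, ⟨x, ⟨hx, hxy⟩, rfl⟩, rfl⟩
    obtain ⟨q, ⟨w, ⟨hw, hwy⟩, rfl⟩, hq⟩ := h3
    have h4 : Φ' (β' (φ x)) = Φ (β x) := U3b_pt hP hP' (hr x) (hV x) hx
    have h5 : β' w = β' (φ x) := U3b_inj M' (hq.trans h4.symm)
    have h6 : w = φ x := hβ'.inj w (φ x) hw ((hr x).trans hx) h5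
    rw [← h6]
    exact hwy
  · obtain ⟨g, hg, ha, hb⟩ := (M.inc x y hx hy).mp h
    refine le_of_lt ((M'.inc (φ x) (φ y) ((hr x).trans hx) ((hr y).trans hy)).mpr ⟨g, hg, ?_, ?_⟩)
    · rw [hV, ha]
    · rw [hV, hb]
  · have : φ y = ⊤ := U3b_top hP' ((hr y).trans hy)
    rw [this]
    exact le_top

/-- Row U3. `g = Φ'⁻¹ ∘ Φ` is a similarity (`sim`, `surj`; `Φ'` is injective by `sim`). For a face `x` of rank `-1`,
`0`, `1`, `2`, `3` there is a face `y` of `F'` of the same rank with `Φ' '' vset rk' β' y = Φ '' vset rk β x`: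
`⊥` and `⊥` (empty), `vert`, `edge`, `face`, `⊤` and `⊤` (all vertices; a face of rank `3` is `⊤`: `rk_range`,
`rk_mono`, similarly for `-1`); `y` is unique by `faithful`. This gives inverse bijections. Order: faces of equal rank
are comparable iff equal; rank `-1` and `3` are clear; vertex and face: `x ≤ y` iff `Φ (β x) ∈ Φ '' vset rk β y` (by
`inj`); rank `1` and `2`: `inc`. -/
theorem Model.similar (hP : IsPolytope 3 F rk) (hβ : IsRealization rk β)
    (hP' : IsPolytope 3 F' rk') (hβ' : IsRealization rk' β') (M : Model rk β Φ s t)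
    (M' : Model rk' β' Φ' s t) : Simil rk β β' := by
  choose φ hφr hφV using U3b_corr hP hP' M M'
  choose ψ hψr hψV using U3b_corr hP' hP M' M
  have hl : ∀ x, ψ (φ x) = x := by
    intro x
    apply hβ.faithful
    exact (U3b_inj M).image_injective ((hψV (φ x)).trans (hφV x))
  have hrr : ∀ y, φ (ψ y) = y := by
    intro y
    apply hβ'.faithful
    exact (U3b_inj M').image_injective ((hφV (ψ y)).trans (hψV y))
  have hm1 : Monotone φ := U3b_mono hP hP' hβ' M M' hφr hφV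
  have hm2 : Monotone ψ := U3b_mono hP' hP hβ M' M hψr hψV
  obtain ⟨r, hr, hd⟩ := M.sim
  obtain ⟨r', hr', hd'⟩ := M'.sim
  have hg : ∀ p, Φ' (Function.surjInv M'.surj (Φ p)) = Φ p := fun p =>
    Function.surjInv_eq M'.surj (Φ p)
  refine ⟨fun p => Function.surjInv M'.surj (Φ p), r / r', div_pos hr hr', ?_, ?_⟩
  · intro x y
    have h1 := hd' (Function.surjInv M'.surj (Φ x)) (Function.surjInv M'.surj (Φ y))
    rw [hg, hg, hd] at h1
    rw [div_mul_eq_mul_div, eq_div_iff hr'.ne', mul_comm]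
    exact h1.symm
  · refine ⟨{ toFun := φ, invFun := ψ, left_inv := hl, right_inv := hrr,
              map_rel_iff' := ?_ }, ?_⟩
    · intro a b
      constructor
      · intro h
        have := hm2 h
        change ψ (φ a) ≤ ψ (φ b) at this
        rwa [hl, hl] at this
      · intro h
        exact hm1 h
    · intro x hx
      apply U3b_inj M'
      change Φ' (Function.surjInv M'.surj (Φ (β x))) = Φ' (β' (φ x))
      rw [hg]
      exact (U3b_pt hP hP' (hφr x) (hφV x) hx).symm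

/-- Row U3. `Model.map`, `Model.similar`; if `R (s v) = s'⁻¹ (R v)` use `Model.flip` for `M'`. -/
theorem similar_of_cnj (hP : IsPolytope 3 F rk) (hβ : IsRealization rk β)
    (hP' : IsPolytope 3 F' rk') (hβ' : IsRealization rk' β') (M : Model rk β Φ s t)
    (M' : Model rk' β' Φ' s' t') (h1 : s' 1 = 1) (h2 : ∀ v, t' (t' v) = v)
    {R : ℍ[ℝ] ≃ₗᵢ[ℝ] ℍ[ℝ]} (h : Cnj R s t s' t') : Simil rk β β' := by
  obtain ⟨hR1, hs, ht⟩ := h
  rcases hs with hs | hs
  · exact Model.similar hP hβ hP' hβ' (M.map hR1 hs ht) M'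
  · have hs2 : ∀ v, R (s v) = (s'⁻¹ : ℍ[ℝ] ≃ₗᵢ[ℝ] ℍ[ℝ]) (R v) := fun v => hs v
    exact Model.similar hP hβ hP' hβ' (M.map hR1 hs2 ht) (M'.flip h1 h2)

end ChiralQ
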