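import Pool.Agent.Lib.MP_bc704c_co.R.U5b

/-! # MP_bc704c_co, row U6: an isometry between the models conjugates the generators -/

namespace ChiralQ

open Quaternion ChiralNF

universe u u'

variable {F : Type u} [PartialOrder F] [BoundedOrder F] {rk : F → ℤ}
  {β : F → EuclideanSpace ℝ (Fin 4)} {Φ : EuclideanSpace ℝ (Fin 4) → ℍ[ℝ]}
  {F' : Type u'} [PartialOrder F'] [BoundedOrder F'] {rk' : F' → ℤ}
  {β' : F' → EuclideanSpace ℝ (Fin 4)} {Φ' : EuclideanSpace ℝ (Fin 4) → ℍ[ℝ]}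
  {s t s' t' : ℍ[ℝ] ≃ₗᵢ[ℝ] ℍ[ℝ]} {ε c d ε' c' d' : ℝ} {a b a' b' : ℍ[ℝ]}

theorem U6_s_mem (s t : ℍ[ℝ] ≃ₗᵢ[ℝ] ℍ[ℝ]) : s ∈ GG s t :=
  Subgroup.subset_closure (Or.inl rfl)

theorem U6_t_mem (s t : ℍ[ℝ] ≃ₗᵢ[ℝ] ℍ[ℝ]) : t ∈ GG s t :=
  Subgroup.subset_closure (Or.inr rfl)

theorem U6_fix (M' : Model rk' β' Φ' s' t') (G' : Geo s' t') {g : ℍ[ℝ] ≃ₗᵢ[ℝ] ℍ[ℝ]}
    (hg : g ∈ GG s' t') (h1 : g 1 = 1) (h2 : g (t' 1) = t' 1) : g = 1 := by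
  obtain ⟨m, hm⟩ := Subgroup.mem_zpowers_iff.1 (M'.stab g hg h1)
  rw [← hm] at h2 ⊢
  exact G'.edge_fix h2

theorem U6_swap (M' : Model rk' β' Φ' s' t') (G' : Geo s' t') {g : ℍ[ℝ] ≃ₗᵢ[ℝ] ℍ[ℝ]}
    (hg : g ∈ GG s' t') (h1 : g 1 = t' 1) (h2 : g (t' 1) = 1) : g = t' := by
  have h3 : t' * g = 1 := by
    apply U6_fix M' G' ((GG s' t').mul_mem (U6_t_mem s' t') hg)
    · change t' (g 1) = 1
      rw [h1, G'.tt]
    · change t' (g (t' 1)) = t' 1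
      rw [h2]
  have h4 : t' * t' = 1 := by
    ext1 v
    exact G'.tt v
  have h5 : t' * g = t' * t' := by rw [h3, h4]
  exact mul_left_cancel h5

theorem U6_pow1 (G' : Geo s' t') (m : ℤ) : (s' ^ m) (1 : ℍ[ℝ]) = 1 := D0_pow_one G' m

/-- the orbit sets of two powers agree only if the quotient is trivial -/
theorem U6_orb (G' : Geo s' t') {α γ : ℤ}
    (h : {p | ∃ j : ℤ, p = (s' ^ α) (((s' * t') ^ j) 1)} =
      {p | ∃ j : ℤ, p = (s' ^ γ) (((s' * t') ^ j) 1)}) : s' ^ (γ - α) = 1 := by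
  apply G'.face_faithful
  intro k
  have h1 : (s' ^ γ) (((s' * t') ^ k) 1) ∈ {p | ∃ j : ℤ, p = (s' ^ γ) (((s' * t') ^ j) 1)} :=
    ⟨k, rfl⟩
  rw [← h] at h1
  obtain ⟨l, hl⟩ := h1
  refine ⟨l, ?_⟩
  have h2 : s' ^ (γ - α) = (s' ^ α)⁻¹ * s' ^ γ := by
    rw [← zpow_neg, ← zpow_add]
    congr 1
    ring
  rw [h2]
  change ((s' ^ α)⁻¹ : ℍ[ℝ] ≃ₗᵢ[ℝ] ℍ[ℝ]) ((s' ^ γ) (((s' * t') ^ k) 1)) = _
  rw [hl]
  have h3 : (s' ^ α)⁻¹ * s' ^ α = 1 := inv_mul_cancel _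
  have h4 := congrArg (fun g : ℍ[ℝ] ≃ₗᵢ[ℝ] ℍ[ℝ] => g (((s' * t') ^ l) 1)) h3
  exact h4

theorem U6_tset (s' t' : ℍ[ℝ] ≃ₗᵢ[ℝ] ℍ[ℝ]) (n : ℤ) :
    {p | ∃ j : ℤ, p = (s' ^ n * t') (((s' * t') ^ j) 1)} =
      {p | ∃ j : ℤ, p = (s' ^ (n - 1)) (((s' * t') ^ j) 1)} := by
  have key : ∀ j : ℤ, (s' ^ n * t') (((s' * t') ^ j) 1) =
      (s' ^ (n - 1)) (((s' * t') ^ (j + 1)) 1) := by
    intro j
    have h1 : s' ^ n * t' * (s' * t') ^ j = s' ^ (n - 1) * (s' * t') ^ (j + 1) := by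
      have h2 : (s' * t') ^ (j + 1) = s' * t' * (s' * t') ^ j := by
        rw [add_comm, zpow_one_add]
      have h3 : s' ^ n = s' ^ (n - 1) * s' := by
        rw [← zpow_add_one]; congr 1; ring
      rw [h2, h3]
      simp only [mul_assoc]
    have h4 := congrArg (fun g : ℍ[ℝ] ≃ₗᵢ[ℝ] ℍ[ℝ] => g 1) h1
    exact h4
  ext p
  constructor
  · rintro ⟨j, hj⟩
    exact ⟨j + 1, by rw [hj, key]⟩
  · rintro ⟨j, hj⟩
    refine ⟨j - 1, ?_⟩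
    rw [key, hj]
    congr 2
    ring_nf

/-- Row U6. `t`: `lin_conj` gives `T ∈ GG s' t'` with `R (t v) = T (R v)`; `T 1 = t' 1`, `T (t' 1) = R (t (t 1)) = 1`, so
`t'⁻¹ T` (`t' t' = 1`) fixes `1`, is a power of `s'` (`stab`), fixes `t' 1`: it is `1` (`Geo.edge_fix`). -/
theorem lin_t (M : Model rk β Φ s t) (M' : Model rk' β' Φ' s' t') (hP : IsPolytope 3 F rk)
    (hP' : IsPolytope 3 F' rk') (G : Geo s t) (G' : Geo s' t')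
    {R : ℍ[ℝ] ≃ₗᵢ[ℝ] ℍ[ℝ]} {φ : F ≃o F'}
    (h : ∀ x, rk x = 0 → R (Φ (β x)) = Φ' (β' (φ x))) (h1 : R 1 = 1) (h2 : R (t 1) = t' 1) :
    ∀ v, R (t v) = t' (R v) := by
  obtain ⟨T, hT, hTv⟩ := lin_conj M M' hP hP' h (U6_t_mem s t)
  have e1 : T 1 = t' 1 := by
    have := hTv 1
    rw [h1, h2] at this
    exact this.symm
  have e2 : T (t' 1) = 1 := by
    have := hTv (t 1)
    rw [G.tt, h1, h2] at this
    exact this.symm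
  have e3 := U6_swap M' G' hT e1 e2
  intro v
  rw [hTv v, e3]

/-- Row U6. `s`: `lin_conj` gives `S ∈ GG s' t'` with `R (s v) = S (R v)`, `S 1 = 1`, so `S = s' ^ m` (`stab`). Write
`W = {(s t) ^ j 1}`, `W' = {(s' t') ^ j 1}`. Let `x` be the face with the vertices `W`, `e` the edge `{1, t 1}`, `e2` the
edge `{1, s (t 1)}`; `e, e2 < x` by `inc` with `g = 1` and `g = s t` (`s t W = W`, `s t (t 1) = s 1 = 1`). So `φ e, φ e2 < φ x`,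
where `φ e, φ e2` have the vertices `{1, t' 1}`, `{1, s' ^ m (t' 1)}` (`lin_vset`). By `inc` for `φ e`: `φ x` has the
vertex set `g W'` with `{g 1, g (t' 1)} = {1, t' 1}`: `g` fixes both (then `g = 1` by `stab` and `edge_fix`) or
exchanges them (then `g = t'`, as in `lin_t`), so it is `W'` or `t' W' = s'⁻¹ W'` (`(s' t')⁻¹ = t' s'⁻¹`). By `inc` for
`φ e2` in the same way it is `s' ^ m W'` or `s' ^ m t' W' = s' ^ (m - 1) W'`. So one of `s' ^ m`, `s' ^ (m - 1)`,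
`s' ^ (m + 1)` maps `W'` onto itself and is `1` by `Geo.face_faithful`. `s' ^ m = 1` would give `s = 1`, excluded by
`Geo.sn`. -/
theorem lin_s (M : Model rk β Φ s t) (M' : Model rk' β' Φ' s' t') (hP : IsPolytope 3 F rk)
    (hP' : IsPolytope 3 F' rk') (G : Geo s t) (G' : Geo s' t')
    {R : ℍ[ℝ] ≃ₗᵢ[ℝ] ℍ[ℝ]} {φ : F ≃o F'}
    (h : ∀ x, rk x = 0 → R (Φ (β x)) = Φ' (β' (φ x))) (h1 : R 1 = 1) (h2 : R (t 1) = t' 1) :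
    (∀ v, R (s v) = s' (R v)) ∨ (∀ v, R (s v) = s'.symm (R v)) := by
  obtain ⟨S, hS, hSv⟩ := lin_conj M M' hP hP' h (U6_s_mem s t)
  have e1 : S 1 = 1 := by
    have := hSv 1
    rw [G.s1, h1] at this
    exact this.symm
  obtain ⟨m, hm⟩ := Subgroup.mem_zpowers_iff.1 (M'.stab S hS e1)
  -- the face and its two edges
  obtain ⟨x, hx2, hxA⟩ := (M.face {p | ∃ j : ℤ, p = (1 : ℍ[ℝ] ≃ₗᵢ[ℝ] ℍ[ℝ]) (((s * t) ^ j) 1)}).2
    ⟨1, (GG s t).one_mem, rfl⟩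
  obtain ⟨e, he1, heA⟩ := (M.edge {(1 : ℍ[ℝ] ≃ₗᵢ[ℝ] ℍ[ℝ]) 1, (1 : ℍ[ℝ] ≃ₗᵢ[ℝ] ℍ[ℝ]) (t 1)}).2
    ⟨1, (GG s t).one_mem, rfl⟩
  have hst : s * t ∈ GG s t := (GG s t).mul_mem (U6_s_mem s t) (U6_t_mem s t)
  obtain ⟨f, hf1, hfA⟩ := (M.edge {(s * t) 1, (s * t) (t 1)}).2 ⟨s * t, hst, rfl⟩
  have hex : e < x := (M.inc e x he1 hx2).2 ⟨1, (GG s t).one_mem, heA, hxA⟩
  have hfx : f < x := by
    refine (M.inc f x hf1 hx2).2 ⟨s * t, hst, hfA, ?_⟩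
    rw [hxA]
    ext p
    constructor
    · rintro ⟨j, hj⟩
      refine ⟨j - 1, ?_⟩
      rw [hj]
      have h3 : (1 : ℍ[ℝ] ≃ₗᵢ[ℝ] ℍ[ℝ]) * (s * t) ^ j = (s * t) * (s * t) ^ (j - 1) := by
        rw [one_mul, ← zpow_one_add]; congr 1; ring
      exact congrArg (fun g : ℍ[ℝ] ≃ₗᵢ[ℝ] ℍ[ℝ] => g 1) h3
    · rintro ⟨j, hj⟩
      refine ⟨j + 1, ?_⟩
      rw [hj]
      have h3 : (s * t) * (s * t) ^ j = (1 : ℍ[ℝ] ≃ₗᵢ[ℝ] ℍ[ℝ]) * (s * t) ^ (j + 1) := by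
        rw [one_mul, add_comm, zpow_add, zpow_one]
      exact congrArg (fun g : ℍ[ℝ] ≃ₗᵢ[ℝ] ℍ[ℝ] => g 1) h3
  have hex' : φ e < φ x := φ.lt_iff_lt.2 hex
  have hfx' : φ f < φ x := φ.lt_iff_lt.2 hfx
  have rx : rk' (φ x) = 2 := by rw [rk_iso hP hP' φ x, hx2]
  have re : rk' (φ e) = 1 := by rw [rk_iso hP hP' φ e, he1]
  have rf : rk' (φ f) = 1 := by rw [rk_iso hP hP' φ f, hf1]
  have ve : Φ' '' vset rk' β' (φ e) = {1, t' 1} := by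
    rw [lin_vset hP hP' h e, heA, Set.image_pair]
    change {R 1, R (t 1)} = _
    rw [h1, h2]
  have vf : Φ' '' vset rk' β' (φ f) = {(s' ^ m) (t' 1), 1} := by
    rw [lin_vset hP hP' h f, hfA, Set.image_pair]
    change {R (s (t 1)), R (s (t (t 1)))} = _
    rw [hSv, h2, G.tt, G.s1, h1, hm]
  obtain ⟨g, hg, hg1, hg2⟩ := (M'.inc (φ e) (φ x) re rx).1 hex'
  obtain ⟨k, hk, hk1, hk2⟩ := (M'.inc (φ f) (φ x) rf rx).1 hfx'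
  rw [ve] at hg1
  rw [vf] at hk1
  have hG : ∃ α : ℤ, (α = 0 ∨ α = -1) ∧ Φ' '' vset rk' β' (φ x) =
      {p | ∃ j : ℤ, p = (s' ^ α) (((s' * t') ^ j) 1)} := by
    rcases Set.pair_eq_pair_iff.1 hg1 with ⟨h3, h4⟩ | ⟨h3, h4⟩
    · have h5 := U6_fix M' G' hg h3.symm h4.symm
      refine ⟨0, Or.inl rfl, ?_⟩
      rw [hg2, h5, zpow_zero]
    · have h5 := U6_swap M' G' hg h4.symm h3.symm
      refine ⟨-1, Or.inr rfl, ?_⟩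
      rw [hg2, h5]
      have h6 := U6_tset s' t' 0
      rw [zpow_zero, one_mul] at h6
      rw [h6]
      norm_num
  have hK : ∃ γ : ℤ, (γ = m ∨ γ = m - 1) ∧ Φ' '' vset rk' β' (φ x) =
      {p | ∃ j : ℤ, p = (s' ^ γ) (((s' * t') ^ j) 1)} := by
    have hmem : (s' ^ m)⁻¹ * k ∈ GG s' t' := (GG s' t').mul_mem
      ((GG s' t').inv_mem ((GG s' t').zpow_mem (U6_s_mem s' t') m)) hk
    have hinv : ∀ v, ((s' ^ m)⁻¹ : ℍ[ℝ] ≃ₗᵢ[ℝ] ℍ[ℝ]) ((s' ^ m) v) = v := by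
      intro v
      have h3 : (s' ^ m)⁻¹ * s' ^ m = 1 := inv_mul_cancel _
      exact congrArg (fun g : ℍ[ℝ] ≃ₗᵢ[ℝ] ℍ[ℝ] => g v) h3
    have hinv1 : ((s' ^ m)⁻¹ : ℍ[ℝ] ≃ₗᵢ[ℝ] ℍ[ℝ]) 1 = 1 := by
      have := hinv 1
      rwa [U6_pow1 G' m] at this
    rcases Set.pair_eq_pair_iff.1 hk1 with ⟨h3, h4⟩ | ⟨h3, h4⟩
    · have h5 : (s' ^ m)⁻¹ * k = t' := by
        apply U6_swap M' G' hmem
        · change ((s' ^ m)⁻¹ : ℍ[ℝ] ≃ₗᵢ[ℝ] ℍ[ℝ]) (k 1) = _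
          rw [← h3, hinv]
        · change ((s' ^ m)⁻¹ : ℍ[ℝ] ≃ₗᵢ[ℝ] ℍ[ℝ]) (k (t' 1)) = _
          rw [← h4, hinv1]
      have h6 : k = s' ^ m * t' := by rw [← h5, mul_inv_cancel_left]
      refine ⟨m - 1, Or.inr rfl, ?_⟩
      rw [hk2, h6, U6_tset]
    · have h5 : (s' ^ m)⁻¹ * k = 1 := by
        apply U6_fix M' G' hmem
        · change ((s' ^ m)⁻¹ : ℍ[ℝ] ≃ₗᵢ[ℝ] ℍ[ℝ]) (k 1) = _
          rw [← h4, hinv1]
        · change ((s' ^ m)⁻¹ : ℍ[ℝ] ≃ₗᵢ[ℝ] ℍ[ℝ]) (k (t' 1)) = _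
          rw [← h3, hinv]
      have h6 : k = s' ^ m := by rw [← mul_one (s' ^ m), ← h5, mul_inv_cancel_left]
      refine ⟨m, Or.inl rfl, ?_⟩
      rw [hk2, h6]
  obtain ⟨α, hα, hαV⟩ := hG
  obtain ⟨γ, hγ, hγV⟩ := hK
  have hone := U6_orb G' (hαV.symm.trans hγV)
  have hcases : s' ^ m = 1 ∨ s' ^ m = s' ∨ s' ^ m = s'⁻¹ := by
    rcases hα with rfl | rfl <;> rcases hγ with rfl | rfl
    · left
      rwa [sub_zero] at hone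
    · right; left
      rw [sub_zero] at hone
      have : s' ^ m = s' ^ (m - 1) * s' := by rw [← zpow_add_one]; congr 1; ring
      rw [this, hone, one_mul]
    · right; right
      have : s' ^ γ = s' ^ (γ - -1) * s'⁻¹ := by rw [← zpow_sub_one]; congr 1; ring
      rw [this, hone, one_mul]
    · left
      have : m - 1 - -1 = m := by ring
      rwa [this] at hone
  rcases hcases with h3 | h3 | h3
  · exfalso
    apply G.sn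
    ext1 v
    have h4 := hSv v
    rw [← hm, h3] at h4
    exact R.injective h4
  · left
    intro v
    rw [hSv v, ← hm, h3]
  · right
    intro v
    rw [hSv v, ← hm, h3]
    rfl

end ChiralQ
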