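import Pool.Agent.Lib.MP_bc704c_co.R.D1
import Pool.Agent.Lib.MP_bc704c_co.R.D2b
import Pool.Agent.Lib.MP_bc704c_co.R.D5
import Pool.Agent.Lib.MP_bc704c_co.R.D6
import Pool.Agent.Lib.MP_bc704c_co.R.D7
import Pool.Agent.Lib.MP_bc704c_co.R.B12
import Pool.Agent.Lib.MP_bc704c_co.R.C7
import Pool.Agent.Lib.MP_bc704c_co.R.C7b
import Pool.Agent.Lib.MP_bc704c_co.R.U1b
import Pool.Agent.Lib.MP_bc704c_co.R.U2
import Pool.Agent.Lib.MP_bc704c_co.R.U3b
import Pool.Agent.Lib.MP_bc704c_co.R.U4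
import Pool.Agent.Lib.MP_bc704c_co.R.U6
import Pool.Agent.Lib.MP_bc704c_co.Q.Gen

/-! # MP_bc704c_co: the classification of the finite chiral polyhedra in E^4, assembly -/

namespace ChiralQ

open Quaternion ChiralNF

universe u u'

/-- The list of the parameters. Rotation type (`ε = 1`): `c` and the squares of the `i`-parts `α, β` of `a, b` in
`Ax`. Rotatory type (`ε = -1`): the tori, the polyhedra of type `{4, 8}` and those of type `{8, 4}`. -/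
def Full (ε c : ℝ) (a b : ℍ[ℝ]) : Prop :=
  (ε = 1 ∧ Ax c (a.imI ^ 2) ∧ Ax c (b.imI ^ 2)) ∨
  (ε = -1 ∧ c = 0 ∧ a.imJ * b.imJ + a.imK * b.imK = 0 ∧
    (∃ x : ℚ, a.imI = Real.cos (Real.pi * x)) ∧ ∃ x : ℚ, b.imI = Real.cos (Real.pi * x)) ∨
  (ε = -1 ∧ c ^ 2 = 1 / 2 ∧ a.imJ * b.imJ + a.imK * b.imK = 0 ∧
    ((a.imI ^ 2 = 0 ∧ b.imI ^ 2 = 1 / 2) ∨ (a.imI ^ 2 = 1 / 2 ∧ b.imI ^ 2 = 0))) ∨
  (ε = -1 ∧ c = 0 ∧ (a.imJ * b.imJ + a.imK * b.imK) ^ 2 = 1 / 2 ∧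
    ((a.imI ^ 2 = 0 ∧ b.imI ^ 2 = 1 / 4) ∨ (a.imI ^ 2 = 1 / 4 ∧ b.imI ^ 2 = 0)))

variable {s t : ℍ[ℝ] ≃ₗᵢ[ℝ] ℍ[ℝ]} {ε c d : ℝ} {a b : ℍ[ℝ]}

theorem full_of_std (H : Std s t ε c d a b) (hG : Finite (GG s t))
    (hst : ∀ g ∈ GG s t, g 1 = 1 → g ∈ Subgroup.zpowers s) : Full ε c a b := by
  rcases H.hε with h | h
  · subst h
    exact Or.inl ⟨rfl, listed_rot H hG⟩
  · subst h
    by_cases hc : c = 0
    · subst hc
      rcases refl_zero H hG hst with h | ⟨h1, h2⟩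
      · exact Or.inr (Or.inl ⟨rfl, rfl, h, (torus_rat H hG).1, (torus_rat H hG).2⟩)
      · exact Or.inr (Or.inr (Or.inr ⟨rfl, rfl, h1, h2⟩))
    · obtain ⟨h1, h2, h3⟩ := refl_ne H hG hc hst
      exact Or.inr (Or.inr (Or.inl ⟨rfl, h1, h2, h3⟩))

theorem group_of_full (H : Std s t ε c d a b) (h : Full ε c a b)
    (hst : ε = 1 → ∀ g ∈ GG s t, g 1 = 1 → g ∈ Subgroup.zpowers s) :
    Finite (GG s t) ∧ ∀ g ∈ GG s t, g 1 = 1 → g ∈ Subgroup.zpowers s := by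
  rcases h with ⟨h0, h1, h2⟩ | ⟨h0, h1, h2, h3, h4⟩ | ⟨h0, h1, h2, h3⟩ | ⟨h0, h1, h2, h3⟩
  · subst h0
    exact ⟨finite_of_listed H h1 h2, hst rfl⟩
  · subst h0 h1
    exact torus_group H h2 h3 h4
  · subst h0
    exact s1_group H h1 h2 h3
  · subst h0 h1
    exact s2_group H h2 h3

theorem geo_all (H : Std s t ε c d a b) (hG : Finite (GG s t))
    (hst : ∀ g ∈ GG s t, g 1 = 1 → g ∈ Subgroup.zpowers s) : Geo s t := by
  rcases H.hε with h | h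
  · subst h
    exact
      { tt := H.tt
        s1 := H.s1
        t1 := H.t1
        edge_fix := fun h => H.edge_fix h
        sn := H.sn
        face_faithful := fun j h => H.face_faithful hst j h }
  · subst h
    by_cases hc : c = 0
    · subst hc
      exact geo_zero H hst
    · obtain ⟨h1, h2, h3⟩ := refl_ne H hG hc hst
      refine geo_four H h1 (pow_four H ?_)
      have h4 : a.imI * b.imI = 0 := by
        rcases h3 with ⟨h, -⟩ | ⟨-, h⟩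
        · rw [pow_eq_zero_iff (two_ne_zero)] at h
          rw [h, zero_mul]
        · rw [pow_eq_zero_iff (two_ne_zero)] at h
          rw [h, mul_zero]
      rw [h2, h4, mul_zero]

/-- every finite chiral polyhedron in `E^4` is in the list -/
theorem classify_full {F : Type u} [PartialOrder F] [BoundedOrder F] {rk : F → ℤ} [Finite F]
    (hP : IsPolytope 3 F rk) {β : F → EuclideanSpace ℝ (Fin 4)} (hβ : IsRealization rk β)
    (hc : IsChiral rk β) :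
    ∃ (Φ : EuclideanSpace ℝ (Fin 4) → ℍ[ℝ]) (s t : ℍ[ℝ] ≃ₗᵢ[ℝ] ℍ[ℝ]) (ε c d : ℝ) (a b : ℍ[ℝ]),
      Std s t ε c d a b ∧ Full ε c a b ∧ Model rk β Φ s t := by
  obtain ⟨Φ, A, σ, τ, s, t, ε, c, d, a, b, H, S, hG⟩ := exists_base hP hβ hc
  have M := H.model hβ S
  exact ⟨Φ, s, t, ε, c, d, a, b, S, full_of_std S hG M.stab, M⟩

/-- all the data in the list occur (for the rotation type: with a good stabiliser) -/
theorem construct_full (H : Std s t ε c d a b) (h : Full ε c a b)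
    (hst : ε = 1 → ∀ g ∈ GG s t, g 1 = 1 → g ∈ Subgroup.zpowers s) :
    ∃ (F : Type) (_ : PartialOrder F) (_ : BoundedOrder F) (rk : F → ℤ)
      (β : F → EuclideanSpace ℝ (Fin 4)) (Φ : EuclideanSpace ℝ (Fin 4) → ℍ[ℝ]),
      Finite F ∧ IsPolytope 3 F rk ∧ IsRealization rk β ∧ IsChiral rk β ∧ Model rk β Φ s t := by
  obtain ⟨hG, hst'⟩ := group_of_full H h hst
  have G := geo_all H hG hst'
  obtain ⟨A, hB⟩ := exists_bsex G
  exact ⟨Fc (gx G), inferInstance, inferInstance, Fc.rk, bx G, _, inferInstance,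
    isPolytope (gx G), isRealx G hst', hB.chiral H, hB.model (isRealx G hst') H⟩

/-- similar iff the invariants agree -/
theorem simil_iff {F : Type u} [PartialOrder F] [BoundedOrder F] {rk : F → ℤ}
    {β : F → EuclideanSpace ℝ (Fin 4)} {Φ : EuclideanSpace ℝ (Fin 4) → ℍ[ℝ]}
    {F' : Type u'} [PartialOrder F'] [BoundedOrder F'] {rk' : F' → ℤ}
    {β' : F' → EuclideanSpace ℝ (Fin 4)} {Φ' : EuclideanSpace ℝ (Fin 4) → ℍ[ℝ]}
    {s' t' : ℍ[ℝ] ≃ₗᵢ[ℝ] ℍ[ℝ]} {ε' c' d' : ℝ} {a' b' : ℍ[ℝ]}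
    (hP : IsPolytope 3 F rk) (hβ : IsRealization rk β) (hP' : IsPolytope 3 F' rk')
    (hβ' : IsRealization rk' β') (H : Std s t ε c d a b) (H' : Std s' t' ε' c' d' a' b')
    (h : Full ε c a b) (h' : Full ε' c' a' b') (M : Model rk β Φ s t) (M' : Model rk' β' Φ' s' t') :
    Simil rk β β' ↔ Inv ε c a b ε' c' a' b' := by
  constructor
  · intro hs
    obtain ⟨R, φ, hR⟩ := simil_lin hP hP' M M' H' hs
    obtain ⟨R', φ', h1, h2, h3⟩ := lin_norm M M' hP hP' H' hR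
    have G := geo_all H (group_of_full H h fun _ => M.stab).1 M.stab
    have G' := geo_all H' (group_of_full H' h' fun _ => M'.stab).1 M'.stab
    exact inv_of_cnj H H' ⟨h2, lin_s M M' hP hP' G G' h1 h2 h3, lin_t M M' hP hP' G G' h1 h2 h3⟩
  · intro hi
    obtain ⟨R, hR⟩ := cnj_of_inv H H' hi
    exact similar_of_cnj hP hβ hP' hβ' M M' H'.s1 H'.tt hR

end ChiralQ
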