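import Pool.Agent.Lib.MP_bc704c_co.R.D0
import Pool.Agent.Lib.MP_bc704c_co.Q.Ex6

/-! # MP_bc704c_co, row U0: similar realizations, definitions and the rank -/

namespace ChiralQ

open Quaternion ChiralNF

universe u u'

/-- the two realizations are similar: a similarity of `E^4` takes the vertices of the first one to those
of the second one and induces an isomorphism of the face posets -/
def Simil {F : Type u} [PartialOrder F] (rk : F → ℤ) (β : F → EuclideanSpace ℝ (Fin 4))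
    {F' : Type u'} [PartialOrder F'] (β' : F' → EuclideanSpace ℝ (Fin 4)) : Prop :=
  ∃ (g : EuclideanSpace ℝ (Fin 4) → EuclideanSpace ℝ (Fin 4)) (r : ℝ), 0 < r ∧
    (∀ x y, dist (g x) (g y) = r * dist x y) ∧
    ∃ φ : F ≃o F', ∀ x, rk x = 0 → g (β x) = β' (φ x)

/-- the invariants of the generators -/
def Inv (ε c : ℝ) (a b : ℍ[ℝ]) (ε' c' : ℝ) (a' b' : ℍ[ℝ]) : Prop :=
  ε = ε' ∧ c = c' ∧ a.imI ^ 2 + b.imI ^ 2 = a'.imI ^ 2 + b'.imI ^ 2 ∧
    a.imI * b.imI = a'.imI * b'.imI ∧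
    a.imJ * b.imJ + a.imK * b.imK = a'.imJ * b'.imJ + a'.imK * b'.imK

/-- `R` fixes `1` and conjugates `s, t` to `s'` or its inverse and `t'` -/
def Cnj (R s t s' t' : ℍ[ℝ] ≃ₗᵢ[ℝ] ℍ[ℝ]) : Prop :=
  R 1 = 1 ∧ ((∀ v, R (s v) = s' (R v)) ∨ (∀ v, R (s v) = s'.symm (R v))) ∧ ∀ v, R (t v) = t' (R v)

theorem U0_rk_le {F : Type u} [PartialOrder F] [BoundedOrder F] {rk : F → ℤ} {F' : Type u'}
    [PartialOrder F'] [BoundedOrder F'] {rk' : F' → ℤ} {n : ℕ} (hP : IsPolytope n F rk)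
    (hP' : IsPolytope n F' rk') (φ : F ≃o F') :
    ∀ (k : ℕ) (x : F), rk x = (k : ℤ) - 1 → (k : ℤ) - 1 ≤ rk' (φ x) := by
  intro k
  induction k with
  | zero =>
    intro x _
    have := (hP'.rk_range (φ x)).1
    simpa using this
  | succ k ih =>
    intro x hx
    push_cast at hx ⊢
    obtain ⟨S, hS⟩ := hP.exists_chain (C := {x}) Set.subsingleton_singleton.isChain
    have h1 := hS x rfl
    have hr := hP.rk_range x
    have h2 : S.f (rk x - 1) < x := by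
      apply lt_of_le_of_ne
      · conv_rhs => rw [← h1]
        exact S.mono (by omega)
      · intro h
        have h3 := congrArg rk h
        rw [S.rank _ (by omega) (by omega)] at h3
        omega
    have h4 := ih (S.f (rk x - 1)) (by rw [S.rank _ (by omega) (by omega)]; omega)
    have h5 := hP'.rk_mono (φ.strictMono h2)
    omega

/-- Row U0. Isomorphisms preserve the rank: the proof of `rk_le_auto`, `rk_auto` (`Comb.lean`, about line 340)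
for two posets. -/
theorem rk_iso {F : Type u} [PartialOrder F] [BoundedOrder F] {rk : F → ℤ} {F' : Type u'}
    [PartialOrder F'] [BoundedOrder F'] {rk' : F' → ℤ} {n : ℕ} (hP : IsPolytope n F rk)
    (hP' : IsPolytope n F' rk') (φ : F ≃o F') (x : F) : rk' (φ x) = rk x := by
  have h1 := hP.rk_range x
  have h2 := hP'.rk_range (φ x)
  apply le_antisymm
  · have := U0_rk_le hP' hP φ.symm (rk' (φ x) + 1).toNat (φ x) (by omega)
    rw [OrderIso.symm_apply_apply] at this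
    omega
  · have := U0_rk_le hP hP' φ (rk x + 1).toNat x (by omega)
    omega

theorem U0_GG (s t : ℍ[ℝ] ≃ₗᵢ[ℝ] ℍ[ℝ]) : GG s⁻¹ t = GG s t := by
  unfold GG
  apply le_antisymm
  · rw [Subgroup.closure_le]
    rintro x (rfl | hx)
    · exact (Subgroup.closure {s, t}).inv_mem (Subgroup.subset_closure (Or.inl rfl))
    · exact Subgroup.subset_closure (Or.inr hx)
  · rw [Subgroup.closure_le]
    rintro x (rfl | hx)
    · have h := (Subgroup.closure {x⁻¹, t}).inv_mem (Subgroup.subset_closure (Or.inl rfl))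
      rwa [inv_inv] at h
    · exact Subgroup.subset_closure (Or.inr hx)

theorem U0_mul (s t : ℍ[ℝ] ≃ₗᵢ[ℝ] ℍ[ℝ]) (v : ℍ[ℝ]) : (s * t) v = s (t v) := rfl

theorem U0_pow {s t : ℍ[ℝ] ≃ₗᵢ[ℝ] ℍ[ℝ]} (h1 : s 1 = 1) (htt : t * t = 1) (j : ℤ) :
    ((s⁻¹ * t) ^ j) 1 = s⁻¹ (((s * t) ^ (-j)) 1) := by
  have htinv : t⁻¹ = t := inv_eq_of_mul_eq_one_right htt
  have h2 : s⁻¹ * t = s⁻¹ * (t * s⁻¹) * (s⁻¹)⁻¹ := by group
  have h3 : t * s⁻¹ = (s * t)⁻¹ := by rw [mul_inv_rev, htinv]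
  have h4 : (s⁻¹ * t) ^ j = s⁻¹ * (s * t) ^ (-j) * s := by
    rw [h2, conj_zpow, h3, inv_zpow', inv_inv]
  rw [h4, U0_mul, U0_mul, h1]

theorem U0_set {s t : ℍ[ℝ] ≃ₗᵢ[ℝ] ℍ[ℝ]} (h1 : s 1 = 1) (htt : t * t = 1)
    (g : ℍ[ℝ] ≃ₗᵢ[ℝ] ℍ[ℝ]) :
    {p | ∃ j : ℤ, p = g (((s⁻¹ * t) ^ j) 1)} = {p | ∃ j : ℤ, p = (g * s⁻¹) (((s * t) ^ j) 1)} := by
  ext p
  constructor
  · rintro ⟨j, rfl⟩
    exact ⟨-j, by rw [U0_pow h1 htt, U0_mul]⟩
  · rintro ⟨j, rfl⟩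
    exact ⟨-j, by rw [U0_pow h1 htt, neg_neg, U0_mul]⟩

theorem U0_shift (s t g : ℍ[ℝ] ≃ₗᵢ[ℝ] ℍ[ℝ]) :
    {p | ∃ j : ℤ, p = (g * (s * t)⁻¹) (((s * t) ^ j) 1)} = {p | ∃ j : ℤ, p = g (((s * t) ^ j) 1)} := by
  have key : ∀ j : ℤ, (g * (s * t)⁻¹) (((s * t) ^ (j + 1)) 1) = g (((s * t) ^ j) 1) := by
    intro j
    have h : g * (s * t)⁻¹ * (s * t) ^ (j + 1) = g * (s * t) ^ j := by
      rw [add_comm, zpow_add, zpow_one, mul_assoc, inv_mul_cancel_left]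
    rw [← U0_mul, h, U0_mul]
  ext p
  constructor
  · rintro ⟨j, rfl⟩
    refine ⟨j - 1, ?_⟩
    rw [← key (j - 1), sub_add_cancel]
  · rintro ⟨j, rfl⟩
    exact ⟨j + 1, (key j).symm⟩

/-- Row U0. `Model` for the inverse of `s`. `GG s⁻¹ t = GG s t`, the powers are the same. With
`W = {(s t) ^ j 1}`, `W₂ = {(s⁻¹ t) ^ j 1}`: `(s t)⁻¹ = t s⁻¹` (`t² = 1`), `s (s⁻¹ t) ^ j s⁻¹ = (t s⁻¹) ^ j = (s t) ^ (-j)`,
so `s W₂ = W` (`s 1 = 1`), the faces are the same sets. Incidence: for `g` use `g t` (and back): `g t {1, t 1} = g {1, t 1}`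
and `g t W₂ = g t s⁻¹ W = g (s t)⁻¹ W = g W`. -/
theorem Model.flip {F : Type u} [PartialOrder F] [BoundedOrder F] {rk : F → ℤ}
    {β : F → EuclideanSpace ℝ (Fin 4)} {Φ : EuclideanSpace ℝ (Fin 4) → ℍ[ℝ]}
    {s t : ℍ[ℝ] ≃ₗᵢ[ℝ] ℍ[ℝ]} (M : Model rk β Φ s t) (h1 : s 1 = 1) (ht : ∀ v, t (t v) = v) :
    Model rk β Φ s⁻¹ t := by
  have htt : t * t = 1 := by
    ext1 v
    exact ht v
  have htinv : t⁻¹ = t := inv_eq_of_mul_eq_one_right htt
  have hG := U0_GG s t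
  have hs : s ∈ GG s t := Subgroup.subset_closure (Or.inl rfl)
  have htm : t ∈ GG s t := Subgroup.subset_closure (Or.inr rfl)
  have hpair : ∀ g : ℍ[ℝ] ≃ₗᵢ[ℝ] ℍ[ℝ], ({(g * t) 1, (g * t) (t 1)} : Set ℍ[ℝ]) = {g 1, g (t 1)} := by
    intro g
    rw [U0_mul, U0_mul, ht, Set.pair_comm]
  have hflip : ∀ g : ℍ[ℝ] ≃ₗᵢ[ℝ] ℍ[ℝ], {p | ∃ j : ℤ, p = (g * t) (((s⁻¹ * t) ^ j) 1)} =
      {p | ∃ j : ℤ, p = g (((s * t) ^ j) 1)} := by
    intro g
    rw [U0_set h1 htt, ← U0_shift s t g]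
    have h : g * t * s⁻¹ = g * (s * t)⁻¹ := by rw [mul_inv_rev, htinv, mul_assoc]
    rw [h]
  refine ⟨M.sim, M.surj, ?_, ?_, ?_, ?_, ?_, ?_⟩
  · intro h
    rw [hG]
    exact M.sym h
  · intro g hg hg1
    rw [Subgroup.zpowers_inv]
    rw [hG] at hg
    exact M.stab g hg hg1
  · intro p
    rw [hG]
    exact M.vert p
  · intro A
    rw [hG]
    exact M.edge A
  · intro A
    rw [hG, M.face A]
    constructor
    · rintro ⟨g, hg, rfl⟩
      exact ⟨g * t, (GG s t).mul_mem hg htm, (hflip g).symm⟩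
    · rintro ⟨g, hg, rfl⟩
      refine ⟨g * t, (GG s t).mul_mem hg htm, ?_⟩
      have h := hflip (g * t)
      have h2 : g * t * t = g := by rw [mul_assoc, htt, mul_one]
      rw [h2] at h
      exact h
  · intro x y hx hy
    rw [hG, M.inc x y hx hy]
    constructor
    · rintro ⟨g, hg, h2, h3⟩
      exact ⟨g * t, (GG s t).mul_mem hg htm, by rw [hpair]; exact h2, by rw [hflip]; exact h3⟩
    · rintro ⟨g, hg, h2, h3⟩
      refine ⟨g * t, (GG s t).mul_mem hg htm, by rw [hpair]; exact h2, ?_⟩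
      have h := hflip (g * t)
      have h4 : g * t * t = g := by rw [mul_assoc, htt, mul_one]
      rw [h4] at h
      rw [← h]
      exact h3

end ChiralQ
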