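import Pool.Agent.Lib.MP_bc704c_co.R.U0

/-! # MP_bc704c_co, row U1: equal invariants give conjugate generators -/

namespace ChiralQ

open Quaternion ChiralNF

variable {s t s' t' s₂ t₂ : ℍ[ℝ] ≃ₗᵢ[ℝ] ℍ[ℝ]} {ε c d ε' c' d' : ℝ} {a b a' b' : ℍ[ℝ]}

/-- Row U1. -/
theorem Cnj.trans {R R' : ℍ[ℝ] ≃ₗᵢ[ℝ] ℍ[ℝ]} (h : Cnj R s t s' t') (h' : Cnj R' s' t' s₂ t₂) :
    Cnj (R.trans R') s t s₂ t₂ := by
  obtain ⟨h1, h2, h3⟩ := h
  obtain ⟨h1', h2', h3'⟩ := h'
  have hsymm1 : (∀ v, R' (s' v) = s₂ (R' v)) → ∀ v, R' (s'.symm v) = s₂.symm (R' v) := by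
    intro h v
    rw [LinearIsometryEquiv.eq_symm_apply, ← h, LinearIsometryEquiv.apply_symm_apply]
  have hsymm2 : (∀ v, R' (s' v) = s₂.symm (R' v)) → ∀ v, R' (s'.symm v) = s₂ (R' v) := by
    intro h v
    have := h (s'.symm v)
    rw [LinearIsometryEquiv.apply_symm_apply, LinearIsometryEquiv.eq_symm_apply] at this
    exact this.symm
  refine ⟨?_, ?_, ?_⟩
  · rw [LinearIsometryEquiv.trans_apply, h1, h1']
  · rcases h2 with h2 | h2 <;> rcases h2' with h2' | h2'
    · left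
      intro v
      rw [LinearIsometryEquiv.trans_apply, LinearIsometryEquiv.trans_apply, h2, h2']
    · right
      intro v
      rw [LinearIsometryEquiv.trans_apply, LinearIsometryEquiv.trans_apply, h2, h2']
    · right
      intro v
      rw [LinearIsometryEquiv.trans_apply, LinearIsometryEquiv.trans_apply, h2, hsymm1 h2']
    · left
      intro v
      rw [LinearIsometryEquiv.trans_apply, LinearIsometryEquiv.trans_apply, h2, hsymm2 h2']
  · intro v
    rw [LinearIsometryEquiv.trans_apply, LinearIsometryEquiv.trans_apply, h3, h3']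

theorem U1_sF_mul {p q : ℝ} (hpq : p ^ 2 + q ^ 2 = 1) (x y : ℍ[ℝ]) :
    sF 1 p q (x * y) = sF 1 p q x * sF 1 p q y := by
  apply Quaternion.ext
  · simp only [sF, Quaternion.re_mul]
    linear_combination (x.imJ * y.imJ + x.imK * y.imK) * hpq
  · simp only [sF, Quaternion.imI_mul]
    linear_combination (x.imK * y.imJ - x.imJ * y.imK) * hpq
  · simp only [sF, Quaternion.imJ_mul, Quaternion.imK_mul]
    ring
  · simp only [sF, Quaternion.imJ_mul, Quaternion.imK_mul]
    ring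

theorem U1_rF_mul {p q : ℝ} (hpq : p ^ 2 + q ^ 2 = 1) (x y : ℍ[ℝ]) :
    rF (-1) p q (x * y) = rF (-1) p q x * rF (-1) p q y := by
  apply Quaternion.ext
  · simp only [rF, Quaternion.re_mul]
    linear_combination (x.imJ * y.imJ + x.imK * y.imK) * hpq
  · simp only [rF, Quaternion.imI_mul]
    linear_combination (x.imJ * y.imK - x.imK * y.imJ) * hpq
  · simp only [rF, Quaternion.imJ_mul, Quaternion.imK_mul]
    ring
  · simp only [rF, Quaternion.imJ_mul, Quaternion.imK_mul]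
    ring

theorem U1_sF_star {p q : ℝ} (x : ℍ[ℝ]) : sF 1 p q (star x) = star (sF 1 p q x) := by
  apply Quaternion.ext <;> simp [sF] <;> ring

theorem U1_rF_star {p q : ℝ} (x : ℍ[ℝ]) : rF (-1) p q (star x) = star (rF (-1) p q x) := by
  apply Quaternion.ext <;> simp [rF] <;> ring

theorem U1_sF_comm {p q ε c d : ℝ} (v : ℍ[ℝ]) :
    sF 1 p q (sF ε c d v) = sF ε c d (sF 1 p q v) := by
  apply Quaternion.ext <;> simp only [sF] <;> ring

/-- `uJ, uK, wJ, wK` and the four primed numbers -/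
theorem U1_det {x y z w x' y' z' w' : ℝ} (h1 : x ^ 2 + y ^ 2 = x' ^ 2 + y' ^ 2)
    (h2 : z ^ 2 + w ^ 2 = z' ^ 2 + w' ^ 2) (h3 : x * z + y * w = x' * z' + y' * w') :
    x' * w' - y' * z' = x * w - y * z ∨ x' * w' - y' * z' = -(x * w - y * z) := by
  have h : (x' * w' - y' * z') ^ 2 = (x * w - y * z) ^ 2 := by
    have e1 : (x' * w' - y' * z') ^ 2 = (x' ^ 2 + y' ^ 2) * (z' ^ 2 + w' ^ 2) -
        (x' * z' + y' * w') ^ 2 := by ring
    rw [e1, ← h1, ← h2, ← h3]
    ring
  exact sq_eq_sq_iff_eq_or_eq_neg.1 h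

/-- Row U1. The case `α' = α`, `β' = β`. By `UI`, `|u'| = |u|`, `|w'| = |w|`, and `⟪u', w'⟫ = ⟪u, w⟫`, `u, w`
independent (`Chi`), so `D' = ± D` (`D = u_J w_K - u_K w_J`, `D² + ⟪u, w⟫² = |u|² |w|²`). If `D' = D`: the rotation
`sF 1 p q` with `p u + q (i u) = u'` (`p = ⟪u, u'⟫/|u|²`, `q = (u_J u'_K - u_K u'_J)/|u|²`) takes `u` to `u'` and `w` to
`w'` (`|u|² w = ⟪u, w⟫ u + D i u`); `R = sF 1 p q` (`exists_sIso`), it commutes with `s`, and
`R (a v b̄) = a' R(v) b̄'` (coordinates, `tF`). If `D' = -D`: the reflexion `rF (-1) p q` (`exists_rIso`) with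
`rF (-1) p q a = -a'`, `rF (-1) p q b = -b'`; `R (a v b̄) = a' R(v) b̄'`, `R (s v) = s⁻¹ (R v)`. And `s'` is `s` or its
inverse as `d' = ± d` (`symm_s`). -/
theorem cnj_same (H : Std s t ε c d a b) (H' : Std s' t' ε c d' a' b') (h1 : a'.imI = a.imI)
    (h2 : b'.imI = b.imI)
    (h3 : a.imJ * b.imJ + a.imK * b.imK = a'.imJ * b'.imJ + a'.imK * b'.imK) :
    ∃ R, Cnj R s t s' t' := by
  obtain ⟨hε, hcd, hd, ha, hb, chi, hs, ht⟩ := H
  obtain ⟨-, hcd', hd', ha', hb', chi', hs', ht'⟩ := H'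
  have hu : a.imJ ^ 2 + a.imK ^ 2 = a'.imJ ^ 2 + a'.imK ^ 2 := by
    have e1 := ha.2
    have e2 := ha'.2
    rw [h1] at e2
    linarith
  have hw : b.imJ ^ 2 + b.imK ^ 2 = b'.imJ ^ 2 + b'.imK ^ 2 := by
    have e1 := hb.2
    have e2 := hb'.2
    rw [h2] at e2
    linarith
  have hN : a.imJ ^ 2 + a.imK ^ 2 ≠ 0 := by
    intro h0
    have e1 : a.imJ = 0 := by nlinarith [sq_nonneg a.imJ, sq_nonneg a.imK]
    have e2 : a.imK = 0 := by nlinarith [sq_nonneg a.imJ, sq_nonneg a.imK]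
    apply chi.2
    rw [e1, e2]
    ring
  have hdd : d' = d ∨ d' = -d := by
    apply sq_eq_sq_iff_eq_or_eq_neg.1
    linarith
  have hs'' := symm_s hε hcd' hs'
  rcases U1_det hu hw h3 with hD | hD
  · -- rotation
    obtain ⟨p, q, hpq, e1, e2, e3, e4⟩ : ∃ p q : ℝ, p ^ 2 + q ^ 2 = 1 ∧
        p * a.imJ - q * a.imK = a'.imJ ∧ q * a.imJ + p * a.imK = a'.imK ∧
        p * b.imJ - q * b.imK = b'.imJ ∧ q * b.imJ + p * b.imK = b'.imK := by
      refine ⟨(a.imJ * a'.imJ + a.imK * a'.imK) / (a.imJ ^ 2 + a.imK ^ 2),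
        (a.imJ * a'.imK - a.imK * a'.imJ) / (a.imJ ^ 2 + a.imK ^ 2), ?_, ?_, ?_, ?_, ?_⟩
      · rw [div_pow, div_pow, ← add_div, div_eq_one_iff_eq (pow_ne_zero 2 hN)]
        linear_combination (-(a.imJ ^ 2 + a.imK ^ 2)) * hu
      · field_simp
        ring
      · field_simp
        ring
      · rw [div_mul_eq_mul_div, div_mul_eq_mul_div, ← sub_div, div_eq_iff hN]
        linear_combination a'.imJ * h3 + a'.imK * hD - b'.imJ * hu
      · rw [div_mul_eq_mul_div, div_mul_eq_mul_div, ← add_div, div_eq_iff hN]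
        linear_combination a'.imK * h3 - a'.imJ * hD - b'.imK * hu
    obtain ⟨R, hR⟩ := exists_sIso (ε := 1) (Or.inl rfl) hpq
    have hRa : sF 1 p q a = a' := by
      apply Quaternion.ext
      · simp only [sF]
        rw [ha.1, ha'.1]
      · simp only [sF]
        rw [h1, one_mul]
      · exact e1
      · exact e2
    have hRb : sF 1 p q b = b' := by
      apply Quaternion.ext
      · simp only [sF]
        rw [hb.1, hb'.1]
      · simp only [sF]
        rw [h2, one_mul]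
      · exact e3
      · exact e4
    refine ⟨R, ?_, ?_, ?_⟩
    · rw [hR]
      apply Quaternion.ext <;> simp [sF]
    · rcases hdd with h | h
      · left
        intro v
        rw [hR, hR, hs, hs', h, U1_sF_comm]
      · right
        intro v
        rw [hR, hR, hs, hs'', h, neg_neg, U1_sF_comm]
    · intro v
      rw [hR, hR, ht, ht', tF, tF, U1_sF_mul hpq, U1_sF_mul hpq, U1_sF_star, hRa, hRb]
  · -- reflexion
    obtain ⟨p, q, hpq, e1, e2, e3, e4⟩ : ∃ p q : ℝ, p ^ 2 + q ^ 2 = 1 ∧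
        p * a.imJ + q * a.imK = -a'.imJ ∧ q * a.imJ - p * a.imK = -a'.imK ∧
        p * b.imJ + q * b.imK = -b'.imJ ∧ q * b.imJ - p * b.imK = -b'.imK := by
      refine ⟨(-a.imJ * a'.imJ + a.imK * a'.imK) / (a.imJ ^ 2 + a.imK ^ 2),
        (-a.imK * a'.imJ - a.imJ * a'.imK) / (a.imJ ^ 2 + a.imK ^ 2), ?_, ?_, ?_, ?_, ?_⟩
      · rw [div_pow, div_pow, ← add_div, div_eq_one_iff_eq (pow_ne_zero 2 hN)]
        linear_combination (-(a.imJ ^ 2 + a.imK ^ 2)) * hu
      · field_simp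
        ring
      · field_simp
        ring
      · rw [div_mul_eq_mul_div, div_mul_eq_mul_div, ← add_div, div_eq_iff hN]
        linear_combination (-a'.imJ) * h3 - a'.imK * hD + b'.imJ * hu
      · rw [div_mul_eq_mul_div, div_mul_eq_mul_div, ← sub_div, div_eq_iff hN]
        linear_combination (-a'.imK) * h3 + a'.imJ * hD + b'.imK * hu
    obtain ⟨R, hR⟩ := exists_rIso (η := -1) (Or.inr rfl) hpq
    have hRa : rF (-1) p q a = -a' := by
      apply Quaternion.ext
      · simp only [rF, Quaternion.re_neg]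
        rw [ha.1, ha'.1, neg_zero]
      · simp only [rF, Quaternion.imI_neg]
        rw [h1]
        ring
      · exact e1
      · exact e2
    have hRb : rF (-1) p q b = -b' := by
      apply Quaternion.ext
      · simp only [rF, Quaternion.re_neg]
        rw [hb.1, hb'.1, neg_zero]
      · simp only [rF, Quaternion.imI_neg]
        rw [h2]
        ring
      · exact e3
      · exact e4
    refine ⟨R, ?_, ?_, ?_⟩
    · rw [hR]
      apply Quaternion.ext <;> simp [rF]
    · rcases hdd with h | h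
      · right
        intro v
        rw [hR, hR, hs, hs'', h, rF_sF]
      · left
        intro v
        rw [hR, hR, hs, hs', h, rF_sF]
    · intro v
      rw [hR, hR, ht, ht', tF, tF, U1_rF_mul hpq, U1_rF_mul hpq, U1_rF_star, hRa, hRb, star_neg,
        neg_mul, neg_mul_neg]

end ChiralQ
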