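import Pool.Agent.Lib.MP_bc704c_co.R.U0

/-! # MP_bc704c_co, row U3: models with conjugate generators are similar -/

namespace ChiralQ

open Quaternion ChiralNF

universe u u'

variable {F : Type u} [PartialOrder F] [BoundedOrder F] {rk : F → ℤ}
  {β : F → EuclideanSpace ℝ (Fin 4)} {Φ : EuclideanSpace ℝ (Fin 4) → ℍ[ℝ]}
  {F' : Type u'} [PartialOrder F'] [BoundedOrder F'] {rk' : F' → ℤ}
  {β' : F' → EuclideanSpace ℝ (Fin 4)} {Φ' : EuclideanSpace ℝ (Fin 4) → ℍ[ℝ]}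
  {s t s' t' : ℍ[ℝ] ≃ₗᵢ[ℝ] ℍ[ℝ]}

lemma U3_conj {R g g' : ℍ[ℝ] ≃ₗᵢ[ℝ] ℍ[ℝ]} (h : ∀ v, R (g v) = g' (R v)) :
    MulAut.conj R g = g' := by
  rw [MulAut.conj_apply, mul_inv_eq_iff_eq_mul]
  ext1 v
  exact h v

lemma U3_app (R g : ℍ[ℝ] ≃ₗᵢ[ℝ] ℍ[ℝ]) (v : ℍ[ℝ]) : (MulAut.conj R g) (R v) = R (g v) := by
  have h1 : MulAut.conj R g * R = R * g := by
    rw [MulAut.conj_apply, inv_mul_cancel_right]
  have h2 := congrArg (fun k : ℍ[ℝ] ≃ₗᵢ[ℝ] ℍ[ℝ] => k v) h1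
  exact h2

lemma U3_GG {R : ℍ[ℝ] ≃ₗᵢ[ℝ] ℍ[ℝ]}
    (hs : ∀ v, R (s v) = s' (R v)) (ht : ∀ v, R (t v) = t' (R v)) :
    GG s' t' = (GG s t).map (MulAut.conj R).toMonoidHom := by
  unfold GG
  rw [MonoidHom.map_closure, Set.image_pair]
  have h1 : (MulAut.conj R).toMonoidHom s = s' := U3_conj hs
  have h2 : (MulAut.conj R).toMonoidHom t = t' := U3_conj ht
  rw [h1, h2]

lemma U3_ex {R : ℍ[ℝ] ≃ₗᵢ[ℝ] ℍ[ℝ]}
    (hs : ∀ v, R (s v) = s' (R v)) (ht : ∀ v, R (t v) = t' (R v))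
    (P : (ℍ[ℝ] ≃ₗᵢ[ℝ] ℍ[ℝ]) → Prop) :
    (∃ g ∈ GG s' t', P g) ↔ ∃ g ∈ GG s t, P (MulAut.conj R g) := by
  rw [U3_GG hs ht]
  constructor
  · rintro ⟨g, ⟨k, hk, rfl⟩, hg⟩
    exact ⟨k, hk, hg⟩
  · rintro ⟨k, hk, hg⟩
    exact ⟨MulAut.conj R k, ⟨k, hk, rfl⟩, hg⟩

lemma U3_img (R : ℍ[ℝ] ≃ₗᵢ[ℝ] ℍ[ℝ]) (X A : Set ℍ[ℝ]) : R '' X = R '' A ↔ X = A :=
  R.injective.image_injective.eq_iff

lemma U3_comp (R : ℍ[ℝ] ≃ₗᵢ[ℝ] ℍ[ℝ]) (X : Set (EuclideanSpace ℝ (Fin 4))) :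
    (fun x => R (Φ x)) '' X = R '' (Φ '' X) := by
  rw [Set.image_image]

lemma U3_edge {R : ℍ[ℝ] ≃ₗᵢ[ℝ] ℍ[ℝ]} (h1 : R 1 = 1) (ht : ∀ v, R (t v) = t' (R v))
    (g : ℍ[ℝ] ≃ₗᵢ[ℝ] ℍ[ℝ]) :
    ({(MulAut.conj R g) 1, (MulAut.conj R g) (t' 1)} : Set ℍ[ℝ]) = R '' {g 1, g (t 1)} := by
  have e1 : (MulAut.conj R g) 1 = R (g 1) := by
    have h := U3_app R g 1
    rwa [h1] at h
  have e2 : (MulAut.conj R g) (t' 1) = R (g (t 1)) := by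
    have h := U3_app R g (t 1)
    rwa [ht, h1] at h
  rw [e1, e2, Set.image_pair]

lemma U3_face {R : ℍ[ℝ] ≃ₗᵢ[ℝ] ℍ[ℝ]} (h1 : R 1 = 1)
    (hs : ∀ v, R (s v) = s' (R v)) (ht : ∀ v, R (t v) = t' (R v))
    (g : ℍ[ℝ] ≃ₗᵢ[ℝ] ℍ[ℝ]) :
    {p : ℍ[ℝ] | ∃ j : ℤ, p = (MulAut.conj R g) (((s' * t') ^ j) 1)} =
      R '' {p | ∃ j : ℤ, p = g (((s * t) ^ j) 1)} := by
  have key : ∀ j : ℤ, (MulAut.conj R g) (((s' * t') ^ j) 1) = R (g (((s * t) ^ j) 1)) := by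
    intro j
    have e1 : (s' * t') ^ j = MulAut.conj R ((s * t) ^ j) := by
      rw [map_zpow, map_mul, U3_conj hs, U3_conj ht]
    have e2 : ((s' * t') ^ j) 1 = R (((s * t) ^ j) 1) := by
      rw [e1]
      have h := U3_app R ((s * t) ^ j) 1
      rwa [h1] at h
    rw [e2, U3_app]
  ext p
  constructor
  · rintro ⟨j, hj⟩
    exact ⟨_, ⟨j, rfl⟩, by rw [hj, key]⟩
  · rintro ⟨q, ⟨j, hj⟩, hq⟩
    exact ⟨j, by rw [← hq, hj, key]⟩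

/-- Row U3. `g ↦ R g R⁻¹` is a bijection from `GG s t` to `GG s' t'` (`R s R⁻¹ = s'`, `R t R⁻¹ = t'`; closure
induction in both directions), `R (g v) = g' (R v)`. Check the fields of `Model`. -/
theorem Model.map (M : Model rk β Φ s t) {R : ℍ[ℝ] ≃ₗᵢ[ℝ] ℍ[ℝ]} (h1 : R 1 = 1)
    (hs : ∀ v, R (s v) = s' (R v)) (ht : ∀ v, R (t v) = t' (R v)) :
    Model rk β (fun x => R (Φ x)) s' t' := by
  refine ⟨?_, ?_, ?_, ?_, ?_, ?_, ?_, ?_⟩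
  · obtain ⟨r, hr, hd⟩ := M.sim
    exact ⟨r, hr, fun x y => by rw [R.dist_map]; exact hd x y⟩
  · exact R.surjective.comp M.surj
  · intro h
    rw [U3_ex hs ht]
    have h2 := M.sym (R.toIsometryEquiv.trans (h.trans R.symm.toIsometryEquiv))
    have e0 : ∀ v, (R.toIsometryEquiv.trans (h.trans R.symm.toIsometryEquiv)) v =
      R.symm (h (R v)) := fun v => rfl
    constructor
    · rintro ⟨φ, hφ⟩
      obtain ⟨g, hg, hgv⟩ := h2.1 ⟨φ, fun x hx => by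
        rw [e0, hφ x hx]; exact R.symm_apply_apply _⟩
      refine ⟨g, hg, fun v => ?_⟩
      obtain ⟨w, rfl⟩ := R.surjective v
      rw [U3_app, ← hgv, e0]
      exact (R.apply_symm_apply _).symm
    · rintro ⟨g, hg, hgv⟩
      obtain ⟨φ, hφ⟩ := h2.2 ⟨g, hg, fun v => by
        rw [e0, hgv, U3_app]; exact R.symm_apply_apply _⟩
      refine ⟨φ, fun x hx => ?_⟩
      have h3 := hφ x hx
      rw [e0] at h3
      have h4 := congrArg R h3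
      rwa [R.apply_symm_apply] at h4
  · intro g hg hg1
    rw [U3_GG hs ht] at hg
    obtain ⟨k, hk, rfl⟩ := hg
    have e1 : R (k 1) = R 1 := by
      have h := U3_app R k 1
      rw [← h, h1]
      exact hg1
    have e2 : k 1 = 1 := R.injective e1
    obtain ⟨j, hj⟩ := M.stab k hk e2
    refine ⟨j, ?_⟩
    have e3 : s' ^ j = MulAut.conj R (s ^ j) := by rw [map_zpow, U3_conj hs]
    change s' ^ j = MulAut.conj R k
    rw [e3]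
    exact congrArg _ hj
  · intro p
    rw [U3_ex hs ht]
    obtain ⟨q, rfl⟩ := R.surjective p
    have h2 := M.vert q
    constructor
    · rintro ⟨x, hx, hxq⟩
      obtain ⟨g, hg, hgq⟩ := h2.1 ⟨x, hx, R.injective hxq⟩
      refine ⟨g, hg, ?_⟩
      have h := U3_app R g 1
      rw [h1] at h
      rw [h, hgq]
    · rintro ⟨g, hg, hgq⟩
      have h := U3_app R g 1
      rw [h1] at h
      rw [h] at hgq
      obtain ⟨x, hx, hxq⟩ := h2.2 ⟨g, hg, R.injective hgq⟩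
      exact ⟨x, hx, by rw [hxq]⟩
  · intro A
    rw [U3_ex hs ht]
    obtain ⟨B, rfl⟩ := R.surjective.image_surjective A
    have h2 := M.edge B
    simp only [U3_comp, U3_edge h1 ht, U3_img]
    exact h2
  · intro A
    rw [U3_ex hs ht]
    obtain ⟨B, rfl⟩ := R.surjective.image_surjective A
    have h2 := M.face B
    simp only [U3_comp, U3_face h1 hs ht, U3_img]
    exact h2
  · intro x y hx hy
    rw [U3_ex hs ht]
    have h2 := M.inc x y hx hy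
    simp only [U3_comp, U3_edge h1 ht, U3_face h1 hs ht, U3_img]
    exact h2

end ChiralQ
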