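import Pool.Agent.Lib.MP_bc704c_co.R.U0

/-! # MP_bc704c_co, row U4: a similarity of the models is a linear isometry -/

namespace ChiralQ

open Quaternion ChiralNF

universe u u'

variable {F : Type u} [PartialOrder F] [BoundedOrder F] {rk : F → ℤ}
  {β : F → EuclideanSpace ℝ (Fin 4)} {Φ : EuclideanSpace ℝ (Fin 4) → ℍ[ℝ]}
  {F' : Type u'} [PartialOrder F'] [BoundedOrder F'] {rk' : F' → ℤ}
  {β' : F' → EuclideanSpace ℝ (Fin 4)} {Φ' : EuclideanSpace ℝ (Fin 4) → ℍ[ℝ]}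
  {s t s' t' : ℍ[ℝ] ≃ₗᵢ[ℝ] ℍ[ℝ]} {ε c d ε' c' d' : ℝ} {a b a' b' : ℍ[ℝ]}

/-- a similarity is injective -/
theorem U4_inj {X Y : Type*} [MetricSpace X] [MetricSpace Y] {f : X → Y} {r : ℝ} (hr : 0 < r)
    (h : ∀ x y, dist (f x) (f y) = r * dist x y) : Function.Injective f := by
  intro x y hxy
  have h1 := h x y
  rw [hxy, dist_self] at h1
  rcases mul_eq_zero.1 h1.symm with h2 | h2
  · exact absurd h2 hr.ne'
  · exact dist_eq_zero.1 h2

/-- a similarity of `E^4` is surjective -/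
theorem U4_surj {g : EuclideanSpace ℝ (Fin 4) → EuclideanSpace ℝ (Fin 4)} {r : ℝ} (hr : 0 < r)
    (h : ∀ x y, dist (g x) (g y) = r * dist x y) : Function.Surjective g := by
  have hiso : Isometry (fun x => r⁻¹ • g x) := by
    apply Isometry.of_dist_eq
    intro x y
    rw [dist_smul₀, h, Real.norm_eq_abs, abs_of_pos (inv_pos.2 hr), ← mul_assoc,
      inv_mul_cancel₀ hr.ne', one_mul]
  have hs : Function.Surjective (fun x => r⁻¹ • g x) := by
    have h1 := (hiso.affineIsometryOfStrictConvexSpace.toAffineIsometryEquiv rfl).surjective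
    exact h1
  intro y
  obtain ⟨x, hx⟩ := hs (r⁻¹ • y)
  refine ⟨x, ?_⟩
  have hx' : r⁻¹ • g x = r⁻¹ • y := hx
  exact smul_right_injective _ (inv_ne_zero hr.ne') hx'

/-- Row U4. Let `f = Φ' ∘ g ∘ Φ⁻¹`, a similarity of `ℍ[ℝ]` with some ratio `r > 0`, surjective (`g` is: a similarity
of a finite dimensional space onto itself; or: an isometry after scaling, `Isometry` of `E^4` is surjective,
by `LinearIsometry.toLinearIsometryEquiv` and Mazur-Ulam, see `Bse.linear` in `Q/Ex4.lean` or `exists_lin` in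
`Q/Ex1.lean` for similar arguments), with `f (Φ (β x)) = Φ' (β' (φ x))` for vertices. For `g' ∈ GG s' t'` the map
`f⁻¹ g' f` is an isometry which permutes the vertices by an automorphism (`M'.sym`), so it is an element of
`GG s t` by `M.sym` and fixes `0`; so `g' (f 0) = f 0` and `f 0 = 0` by `Std.fix_zero'`. So `‖f v‖ = r ‖v‖`; `1` is a
vertex, `f 1 = g' 1` for some `g' ∈ GG s' t'` (`vert`), `‖f 1‖ = 1`, so `r = 1` and `f` is a linear isometry
(Mazur-Ulam: `IsometryEquiv.toRealLinearIsometryEquivOfMapZero`). -/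
theorem simil_lin (hP : IsPolytope 3 F rk) (hP' : IsPolytope 3 F' rk') (M : Model rk β Φ s t)
    (M' : Model rk' β' Φ' s' t') (H' : Std s' t' ε' c' d' a' b') (h : Simil rk β β') :
    ∃ (R : ℍ[ℝ] ≃ₗᵢ[ℝ] ℍ[ℝ]) (φ : F ≃o F'), ∀ x, rk x = 0 → R (Φ (β x)) = Φ' (β' (φ x)) := by
  obtain ⟨g, r, hr, hg, φ, hφ⟩ := h
  obtain ⟨r1, hr1, hd1⟩ := M.sim
  obtain ⟨r2, hr2, hd2⟩ := M'.sim
  have hgs : Function.Surjective g := U4_surj hr hg
  have hinj : Function.Injective Φ := U4_inj hr1 hd1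
  let e1 : EuclideanSpace ℝ (Fin 4) ≃ ℍ[ℝ] := Equiv.ofBijective Φ ⟨hinj, M.surj⟩
  have he1 : ∀ x, e1.symm (Φ x) = x := fun x => e1.symm_apply_apply x
  have he2 : ∀ v, Φ (e1.symm v) = v := fun v => e1.apply_symm_apply v
  have hρ : 0 < r2 * r / r1 := by positivity
  have hf : ∀ u v, dist (Φ' (g (e1.symm u))) (Φ' (g (e1.symm v))) = r2 * r / r1 * dist u v := by
    intro u v
    have h1 := hd1 (e1.symm u) (e1.symm v)
    rw [he2, he2] at h1
    rw [hd2, hg, h1]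
    field_simp
  have hfs : Function.Surjective (fun v => Φ' (g (e1.symm v))) :=
    M'.surj.comp (hgs.comp e1.symm.surjective)
  have hfi : Function.Injective (fun v => Φ' (g (e1.symm v))) := U4_inj hρ hf
  let fe : ℍ[ℝ] ≃ ℍ[ℝ] := Equiv.ofBijective _ ⟨hfi, hfs⟩
  have hfe : ∀ v, fe v = Φ' (g (e1.symm v)) := fun v => rfl
  have hfd : ∀ u v, dist (fe u) (fe v) = r2 * r / r1 * dist u v := hf
  have hfv : ∀ x, rk x = 0 → fe (Φ (β x)) = Φ' (β' (φ x)) := by
    intro x hx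
    rw [hfe, he1, hφ x hx]
  have hrk : ∀ x, rk' (φ x) = rk x := rk_iso hP hP' φ
  -- the group of the second model fixes `fe 0`
  have h0 : fe 0 = 0 := by
    apply H'.fix_zero'
    intro g' hg'
    obtain ⟨φ', hφ'⟩ := (M'.sym g'.toIsometryEquiv).2 ⟨g', hg', fun v => rfl⟩
    have hφ'' : ∀ y, rk' y = 0 → g' (Φ' (β' y)) = Φ' (β' (φ' y)) := hφ'
    have hiso : Isometry ((fe.trans g'.toEquiv).trans fe.symm) := by
      apply Isometry.of_dist_eq
      intro u v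
      have h1 := hfd (fe.symm (g' (fe u))) (fe.symm (g' (fe v)))
      rw [fe.apply_symm_apply, fe.apply_symm_apply, g'.dist_map, hfd] at h1
      exact (mul_left_cancel₀ hρ.ne' h1).symm
    let hI : ℍ[ℝ] ≃ᵢ ℍ[ℝ] := ⟨(fe.trans g'.toEquiv).trans fe.symm, hiso⟩
    have hIv : ∀ v, hI v = fe.symm (g' (fe v)) := fun v => rfl
    obtain ⟨g0, _, hg0⟩ := (M.sym hI).1 ⟨(φ.trans φ').trans φ.symm, by
      intro x hx
      have hx1 : rk' (φ x) = 0 := by rw [hrk, hx]
      have hx2 : rk (φ.symm (φ' (φ x))) = 0 := by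
        rw [← hrk, φ.apply_symm_apply, rk_iso hP' hP' φ', hx1]
      have h3 : fe (Φ (β (φ.symm (φ' (φ x))))) = g' (fe (Φ (β x))) := by
        rw [hfv _ hx2, hfv x hx, φ.apply_symm_apply, hφ'' _ hx1]
      rw [hIv, ← h3, fe.symm_apply_apply]
      rfl⟩
    have h4 : hI 0 = 0 := by rw [hg0, map_zero]
    rw [hIv] at h4
    have h5 := congrArg fe h4
    rwa [fe.apply_symm_apply] at h5
  have hnorm : ∀ v, ‖fe v‖ = r2 * r / r1 * ‖v‖ := by
    intro v
    have h1 := hfd v 0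
    rwa [h0, dist_zero_right, dist_zero_right] at h1
  -- the ratio is one
  have hone : r2 * r / r1 = 1 := by
    obtain ⟨x, hx, hx1⟩ := (M.vert 1).2 ⟨1, Subgroup.one_mem _, rfl⟩
    obtain ⟨g', _, hg'⟩ := (M'.vert (Φ' (β' (φ x)))).1 ⟨φ x, by rw [hrk, hx], rfl⟩
    have h1 := hnorm 1
    rw [← hx1, hfv x hx, ← hg', g'.norm_map, hx1, norm_one, mul_one] at h1
    exact h1.symm
  have hisof : Isometry fe := by
    apply Isometry.of_dist_eq
    intro u v
    rw [hfd, hone, one_mul]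
  let fI : ℍ[ℝ] ≃ᵢ ℍ[ℝ] := ⟨fe, hisof⟩
  refine ⟨fI.toRealLinearIsometryEquivOfMapZero h0, φ, fun x hx => ?_⟩
  rw [← hfv x hx]
  rfl

end ChiralQ
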