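import Pool.Agent.Lib.MP_bc704c_co.R.U0
import Pool.Agent.Lib.MP_bc704c_co.R.D2

/-! # MP_bc704c_co, row U5: an isometry between the models conjugates the generators -/

namespace ChiralQ

open Quaternion ChiralNF

universe u u'

variable {F : Type u} [PartialOrder F] [BoundedOrder F] {rk : F → ℤ}
  {β : F → EuclideanSpace ℝ (Fin 4)} {Φ : EuclideanSpace ℝ (Fin 4) → ℍ[ℝ]}
  {F' : Type u'} [PartialOrder F'] [BoundedOrder F'] {rk' : F' → ℤ}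
  {β' : F' → EuclideanSpace ℝ (Fin 4)} {Φ' : EuclideanSpace ℝ (Fin 4) → ℍ[ℝ]}
  {s t s' t' : ℍ[ℝ] ≃ₗᵢ[ℝ] ℍ[ℝ]} {ε' c' d' : ℝ} {a' b' : ℍ[ℝ]}

/-- Row U5. For `g ∈ GG s t` (automorphism `ψ` by `M.sym`) `R g R⁻¹` is an isometry with the automorphism
`φ ψ φ⁻¹` of `F'`, so it is in `GG s' t'` by `M'.sym`. -/
theorem lin_conj (M : Model rk β Φ s t) (M' : Model rk' β' Φ' s' t') (hP : IsPolytope 3 F rk)
    (hP' : IsPolytope 3 F' rk') {R : ℍ[ℝ] ≃ₗᵢ[ℝ] ℍ[ℝ]} {φ : F ≃o F'}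
    (h : ∀ x, rk x = 0 → R (Φ (β x)) = Φ' (β' (φ x))) {g : ℍ[ℝ] ≃ₗᵢ[ℝ] ℍ[ℝ]} (hg : g ∈ GG s t) :
    ∃ g' ∈ GG s' t', ∀ v, R (g v) = g' (R v) := by
  obtain ⟨ψ, hψ⟩ := (M.sym g.toIsometryEquiv).2 ⟨g, hg, fun v => rfl⟩
  have hψ' : ∀ x, rk x = 0 → g (Φ (β x)) = Φ (β (ψ x)) := hψ
  obtain ⟨g', hg', hgv⟩ := (M'.sym ((R.symm.trans g).trans R).toIsometryEquiv).1
    ⟨(φ.symm.trans ψ).trans φ, fun y hy => by
      have hx : rk (φ.symm y) = 0 := by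
        rw [← rk_iso hP hP' φ, φ.apply_symm_apply, hy]
      have hx' : rk (ψ (φ.symm y)) = 0 := by
        rw [rk_iso hP hP ψ, hx]
      have e1 : R.symm (Φ' (β' y)) = Φ (β (φ.symm y)) := by
        rw [R.symm_apply_eq, h _ hx, φ.apply_symm_apply]
      change R (g (R.symm (Φ' (β' y)))) = Φ' (β' (φ (ψ (φ.symm y))))
      rw [e1, hψ' _ hx, h _ hx']⟩
  have hgv' : ∀ v, R (g (R.symm v)) = g' v := hgv
  refine ⟨g', hg', fun v => ?_⟩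
  rw [← hgv', R.symm_apply_apply]

/-- Row U5. The vertex sets: `Φ' '' vset rk' β' (φ x) = R '' (Φ '' vset rk β x)` (`φ` preserves the order and the
rank, `rk_iso`). -/
theorem lin_vset (hP : IsPolytope 3 F rk) (hP' : IsPolytope 3 F' rk')
    {R : ℍ[ℝ] ≃ₗᵢ[ℝ] ℍ[ℝ]} {φ : F ≃o F'}
    (h : ∀ x, rk x = 0 → R (Φ (β x)) = Φ' (β' (φ x))) (x : F) :
    Φ' '' vset rk' β' (φ x) = R '' (Φ '' vset rk β x) := by
  ext p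
  constructor
  · rintro ⟨q, ⟨y, ⟨hy0, hyx⟩, rfl⟩, rfl⟩
    have hx : rk (φ.symm y) = 0 := by
      rw [← rk_iso hP hP' φ, φ.apply_symm_apply, hy0]
    refine ⟨Φ (β (φ.symm y)), ⟨β (φ.symm y), ⟨φ.symm y, ⟨hx, ?_⟩, rfl⟩, rfl⟩, ?_⟩
    · rw [φ.symm_apply_le]
      exact hyx
    · rw [h _ hx, φ.apply_symm_apply]
  · rintro ⟨q, ⟨q', ⟨z, ⟨hz0, hzx⟩, rfl⟩, rfl⟩, rfl⟩
    refine ⟨β' (φ z), ⟨φ z, ⟨?_, ?_⟩, rfl⟩, ?_⟩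
    · rw [rk_iso hP hP' φ, hz0]
    · exact φ.monotone hzx
    · rw [h _ hz0]

end ChiralQ
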