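import Pool.Agent.Lib.MP_bc704c_co.R.U5

/-! # MP_bc704c_co, row U5: an isometry between the models conjugates the generators -/

namespace ChiralQ

open Quaternion ChiralNF

universe u u'

variable {F : Type u} [PartialOrder F] [BoundedOrder F] {rk : F → ℤ}
  {β : F → EuclideanSpace ℝ (Fin 4)} {Φ : EuclideanSpace ℝ (Fin 4) → ℍ[ℝ]}
  {F' : Type u'} [PartialOrder F'] [BoundedOrder F'] {rk' : F' → ℤ}
  {β' : F' → EuclideanSpace ℝ (Fin 4)} {Φ' : EuclideanSpace ℝ (Fin 4) → ℍ[ℝ]}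
  {s t s' t' : ℍ[ℝ] ≃ₗᵢ[ℝ] ℍ[ℝ]} {ε' c' d' : ℝ} {a' b' : ℍ[ℝ]}

/-- Row U5. Normalisation. `R 1 = g' 1` for some `g' ∈ GG s' t'` (`1 = 1 1` is a vertex, `vert` twice); replace `R`
by `g'⁻¹ R` and `φ` by its composition with the automorphism of `g'⁻¹` (`M'.sym`). Then `R 1 = 1`. The edge `x` with
the vertices `1, t 1` (`edge` with `g = 1`) goes to an edge with the vertices `1, R (t 1)`, which is `{g' 1, g' (t' 1)}`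
(`lin_vset`, `edge`): if `g' 1 = 1` then `g' = s' ^ m` (`stab`), `R (t 1) = s' ^ m (t' 1)`; if `g' (t' 1) = 1` then
`g' t' = s' ^ m`, `R (t 1) = g' 1 = s' ^ m (t' 1)` (`t'² = 1`). Replace `R` by `s' ^ (-m) R`. -/
theorem lin_norm (M : Model rk β Φ s t) (M' : Model rk' β' Φ' s' t') (hP : IsPolytope 3 F rk)
    (hP' : IsPolytope 3 F' rk') (H' : Std s' t' ε' c' d' a' b')
    {R : ℍ[ℝ] ≃ₗᵢ[ℝ] ℍ[ℝ]} {φ : F ≃o F'}
    (h : ∀ x, rk x = 0 → R (Φ (β x)) = Φ' (β' (φ x))) :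
    ∃ (R' : ℍ[ℝ] ≃ₗᵢ[ℝ] ℍ[ℝ]) (φ' : F ≃o F'), (∀ x, rk x = 0 → R' (Φ (β x)) = Φ' (β' (φ' x))) ∧
      R' 1 = 1 ∧ R' (t 1) = t' 1 := by
  obtain ⟨x, hx, hset⟩ := (M.edge {1, t 1}).2 ⟨1, one_mem _, rfl⟩
  have h1 : Φ' '' vset rk' β' (φ x) = {R 1, R (t 1)} := by
    rw [lin_vset hP hP' h x, hset, Set.image_pair]
  obtain ⟨g, hg, hpair⟩ := (M'.edge {R 1, R (t 1)}).1 ⟨φ x, by rw [rk_iso hP hP' φ x, hx], h1⟩
  obtain ⟨k, hk, hk1, hkt⟩ : ∃ k ∈ GG s' t', R 1 = k 1 ∧ R (t 1) = k (t' 1) := by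
    rcases Set.pair_eq_pair_iff.1 hpair with ⟨e1, e2⟩ | ⟨e1, e2⟩
    · exact ⟨g, hg, e1, e2⟩
    · have ht' : t' ∈ GG s' t' := Subgroup.subset_closure (Set.mem_insert_of_mem _ rfl)
      refine ⟨g * t', mul_mem hg ht', e1, ?_⟩
      change R (t 1) = g (t' (t' 1))
      rw [H'.tt, e2]
  obtain ⟨ψ, hψ⟩ := (M'.sym (k⁻¹).toIsometryEquiv).2 ⟨k⁻¹, inv_mem hk, fun v => rfl⟩
  have hkk : ∀ v, (k⁻¹) (k v) = v := fun v => k.symm_apply_apply v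
  refine ⟨k⁻¹ * R, φ.trans ψ, fun y hy => ?_, ?_, ?_⟩
  · change (k⁻¹) (R (Φ (β y))) = Φ' (β' (ψ (φ y)))
    rw [h y hy]
    exact hψ (φ y) (by rw [rk_iso hP hP' φ y, hy])
  · change (k⁻¹) (R 1) = 1
    rw [hk1, hkk]
  · change (k⁻¹) (R (t 1)) = t' 1
    rw [hkt, hkk]

end ChiralQ
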